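import Pool.Agent.H60.D2.Crw
import Pool.Agent.H23.D2.Par

/-!
# D2: the frame of a ball chart

`frame_row`: the frame of a ball chart, from the natural curvature in the direction of the own line.
`frame_pt`: the same for the visible gradient at the rounded point.
-/

set_option autoImplicit false

namespace Pool.D2Z

open Finset Real MvPolynomial
open Pool.Agent.H49.Ent Pool.Agent.H32.Dense Pool.STK Pool.KA Pool.KSAT Pool.K2S Pool.PB Pool.S6C
open Pool.GEN Pool.CHT Pool.CHX Pool.D2F Pool.D2R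
open Pool.FLF (Fam.sub)
open Pool.PB.Trl (rt rt_mem t_rt)

variable {m J : ℕ}

/-- A larger constant. -/
theorem frok_mono {F : Fam m J} {c : ℕ → Fin m} {n a k e k' e' : ℕ} {g : ℕ → ℕ} {A : F.Ω → Prop}
    {ψ : PtT F → ℕ → Option (Fin m) → ℝ} {ψH : LnT F → ℕ → Option (Fin m) → ℝ}
    (h : FrOK F c n a k e g A ψ ψH) (hk : k ≤ k') (he : e ≤ e') :
    FrOK F c n a k' e' g A ψ ψH :=
  ⟨h.cls, h.dep, h.depH, fun ω hω l hl => (h.nat ω hω l hl).trans (div_le_div_of_nonneg_right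
    (pow_le_pow_right₀ (by norm_num) (by omega)) (by positivity)), fun ω hω i hi l hl =>
    (h.lip ω hω i hi l hl).trans (pow_le_pow_right₀ (by norm_num) (by omega))⟩

/-- Smaller events. -/
theorem frok_sub {F : Fam m J} {c : ℕ → Fin m} {n a k e : ℕ} {g : ℕ → ℕ} {A A' : F.Ω → Prop}
    {ψ : PtT F → ℕ → Option (Fin m) → ℝ} {ψH : LnT F → ℕ → Option (Fin m) → ℝ}
    (h : FrOK F c n a k e g A ψ ψH) (hA : Sub A' A) : FrOK F c n a k e g A' ψ ψH :=
  ⟨fun ω hω => h.cls ω (hA ω hω), h.dep, h.depH, fun ω hω => h.nat ω (hA ω hω),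
    fun ω hω => h.lip ω (hA ω hω)⟩

/-- Fewer coordinates. -/
theorem frok_le {F : Fam m J} {c : ℕ → Fin m} {n n' a k e : ℕ} {g : ℕ → ℕ} {A : F.Ω → Prop}
    {ψ : PtT F → ℕ → Option (Fin m) → ℝ} {ψH : LnT F → ℕ → Option (Fin m) → ℝ}
    (h : FrOK F c n a k e g A ψ ψH) (hn : n' ≤ n) : FrOK F c n' a k e g A ψ ψH :=
  ⟨h.cls, h.dep, h.depH, fun ω hω l hl => h.nat ω hω l (hl.trans_le hn),
    fun ω hω i hi => h.lip ω hω i (hi.trans_le hn)⟩

/-- **The frame of a ball chart.** -/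
theorem frame_row (m D r n : ℕ) (hD : 1 ≤ D) : ∃ C : ℕ, 1 ≤ C ∧ ∀ {J : ℕ} {F : Fam m J}
    {c : ℕ → Fin m} {w a v e k p : ℕ} {g₀ gT : ℕ → ℕ} {U θ : ℝ} {B : F.Ω → Prop}
    {G₀ : PtT F → ℕ → MvPolynomial (Option (Fin m)) ℝ}
    {H₀ : LnT F → ℕ → MvPolynomial (Option (Fin m)) ℝ}
    {T : PtT F → ℕ → MvPolynomial (Option (Fin m)) ℝ}
    {TH : LnT F → ℕ → MvPolynomial (Option (Fin m)) ℝ}
    {Ht : LnT F → MvPolynomial (Option (Fin m)) ℝ}
    {γ : PtT F → ℕ → Option (Fin m) → ℝ} (hB : 0 < Pe F.p B), n ≤ r + 1 →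
    Set.InjOn c (Set.Iio n) → a ≤ J → ChOK F c (r + 1) (fun _ => D) a a e g₀ B G₀ H₀ →
    ROut1 F c r w a v g₀ gT p U B G₀ H₀ T TH Ht → 0 ≤ U → U ≤ 2 ^ k →
    (∀ ω, B ω → ∀ l < n, ∀ V : Option (Fin m) → ℝ,
      |hs (G₀ (ptr F J ω) l) (bt F ω) (bd F ω) V| ≤
        2 ^ k * (2 ^ a / 2 ^ g₀ l) * nrm c (G₀ (ptr F J ω)) g₀ a l (bt F ω) V) →
    (∀ y l, CvC c l (γ y l)) →
    (∀ ω, B ω → Nc c g₀ a n (2 ^ k) (fun j => grd (G₀ (ptr F J ω) j) (bt F ω))
      (γ (ptr F J ω))) → 0 ≤ θ → (Fam.sub F B hB).Tm θ →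
    C * (θ + 1) ≤ ((J : ℝ) - a) * Real.log 2 → Real.exp (C * (θ + 1)) ≤ 2 ^ k →
    ∃ (B' : F.Ω → Prop) (ψ : PtT F → ℕ → Option (Fin m) → ℝ)
      (ψH : LnT F → ℕ → Option (Fin m) → ℝ), Sub B' B ∧
      Pe F.p B ≤ 2 * 3 ^ (n ^ 2) * Pe F.p B' ∧
      FrOK F c n a (C * (k + 1)) (e + C * (k + 1)) g₀ B' ψ ψH ∧
      ∀ ω, B' ω → Nc c g₀ a n (2 ^ (C * (k + 1))) (ψ (ptr F J ω)) (γ (ptr F J ω)) := by
  classical
  obtain ⟨C₁, hC₁, hcrw⟩ := crw m D n hD
  obtain ⟨C₂, hC₂, hfz⟩ := frz_frok n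
  obtain ⟨X, hX⟩ : ∃ X : ℕ, X = 100 * (n + 1) ^ 3 := ⟨_, rfl⟩
  obtain ⟨C, hC⟩ : ∃ C : ℕ, C = C₁ + C₂ * (X + 1) + X := ⟨_, rfl⟩
  refine ⟨C, by omega, ?_⟩
  intro J F c w a v e k p g₀ gT U θ B G₀ H₀ T TH Ht γ hB hnr hc haJ hch hro hU hUk hvc hγ hγn hθ hTm
    hCJ hexp
  have hC1 : (C₁ : ℝ) ≤ C := by
    have : C₁ ≤ C := by omega
    exact_mod_cast this
  have hθ1 : 0 ≤ θ + 1 := by linarith
  have h2k : (1 : ℝ) ≤ 2 ^ k := one_le_pow₀ (by norm_num)
  have hn0 : (0 : ℝ) ≤ n := Nat.cast_nonneg n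
  have hn2 : (n : ℝ) ≤ 2 ^ n := by
    exact_mod_cast (Nat.lt_two_pow_self (n := n)).le
  -- the closed curvature
  obtain ⟨k₁, hk₁⟩ : ∃ k₁, k₁ = 2 * k + n + 3 + (k + 1) * n := ⟨_, rfl⟩
  have hcur : ∀ ω, B ω → ∀ j < n, ∀ V : Option (Fin m) → ℝ,
      |hs (hn c H₀ (slam F a ω) j) (bt F ω) (bd F ω) V| ≤
        2 ^ k₁ * (2 ^ a / 2 ^ g₀ j) * Nv c j a g₀ (hn c H₀ (slam F a ω)) (bt F ω) V := by
    intro ω hω j hj V
    have h1 := cur_cl (c := c) (g := g₀) (a := a) (n := n) (U := U) (K := 2 ^ k)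
      (W₀ := 1 + n * U) (G := G₀ (ptr F J ω)) (ψ := hn c H₀ (slam F a ω)) (x := bt F ω)
      (W := bd F ω) hU (by positivity) (by positivity)
      (fun l hl V => (hro.dif ω hω l (by omega)).1 V)
      (fun l hl V V' Z => (hro.dif ω hω l (by omega)).2 V V' Z)
      (fun l hl => by
        unfold nrm
        have e1 : (2 : ℝ) ^ a * |bd F ω none| = 2 ^ a := by
          show (2 : ℝ) ^ a * |(1 : ℝ)| = _
          rw [abs_one, mul_one]
        have e2 : ∑ j ∈ range l, (2 : ℝ) ^ g₀ j * |bd F ω (some (c j)) -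
            dd (G₀ (ptr F J ω) j) (bt F ω) (bd F ω)| ≤ n * U * 2 ^ a := by
          have e3 : ∀ j ∈ range l, (2 : ℝ) ^ g₀ j * |bd F ω (some (c j)) -
              dd (G₀ (ptr F J ω) j) (bt F ω) (bd F ω)| ≤ U * 2 ^ a := by
            intro j hj
            have hj' := Finset.mem_range.1 hj
            have h4 := hro.vel ω ω hω hω rfl j (by omega)
            rw [le_div_iff₀ (by positivity)] at h4
            linarith
          refine (Finset.sum_le_sum e3).trans ?_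
          rw [Finset.sum_const, Finset.card_range, nsmul_eq_mul]
          have e4 : (l : ℝ) ≤ n := by exact_mod_cast hl.le
          have := mul_le_mul_of_nonneg_right e4 (show 0 ≤ U * 2 ^ a by positivity)
          linarith
        rw [e1]
        linarith)
      (fun l hl V => hvc ω hω l hl V) j hj V
    refine h1.trans (mul_le_mul_of_nonneg_right (mul_le_mul_of_nonneg_right ?_ (by positivity))
      (Nv_nonneg _ _ _ _ _ _ _))
    have e1 : (1 + U) ^ n ≤ 2 ^ ((k + 1) * n) :=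
      (pow_le_pow_left₀ (by linarith) (by linarith) n).trans (pow1 k n)
    have e2 : 2 ^ k + U * (1 + n * U) + U * (n * 2 ^ k) ≤ 2 ^ (2 * k + n + 3) := by
      have e3 : U * (1 + n * U) ≤ 2 ^ k * (1 + n * 2 ^ k) := by
        refine mul_le_mul hUk ?_ (by positivity) (by positivity)
        have := mul_le_mul_of_nonneg_left hUk hn0
        linarith
      have e4 : U * (n * 2 ^ k) ≤ 2 ^ k * (n * 2 ^ k) :=
        mul_le_mul_of_nonneg_right hUk (by positivity)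
      have e5 : (2 : ℝ) ^ (2 * k + n + 3) = 8 * (2 ^ k * 2 ^ k * 2 ^ n) := by
        rw [pow_add, pow_add, show 2 * k = k + k by ring, pow_add]
        ring
      have e6 : (2 : ℝ) ^ k ≤ 2 ^ k * 2 ^ k * 2 ^ n := by
        have : (1 : ℝ) ≤ 2 ^ k * 2 ^ n := one_le_mul_of_one_le_of_one_le h2k
          (one_le_pow₀ (by norm_num))
        calc (2 : ℝ) ^ k = 2 ^ k * 1 := (mul_one _).symm
          _ ≤ 2 ^ k * (2 ^ k * 2 ^ n) := mul_le_mul_of_nonneg_left this (by positivity)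
          _ = _ := by ring
      have e7 : 2 ^ k * (n * 2 ^ k) ≤ 2 ^ k * 2 ^ k * (2 : ℝ) ^ n := by
        calc 2 ^ k * ((n : ℝ) * 2 ^ k) = 2 ^ k * 2 ^ k * n := by ring
          _ ≤ _ := mul_le_mul_of_nonneg_left hn2 (by positivity)
      rw [e5]
      nlinarith
    calc (2 ^ k + U * (1 + n * U) + U * (n * 2 ^ k)) * (1 + U) ^ n ≤
          2 ^ (2 * k + n + 3) * 2 ^ ((k + 1) * n) :=
          mul_le_mul e2 e1 (by positivity) (by positivity)
      _ = _ := by rw [← pow_add, hk₁]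
  obtain ⟨B₁, a1, a2, a3⟩ := hcrw (F := F) (c := c) (k := k₁) (k' := k) (g := g₀) (H := H₀) hB hc
    haJ (fun s i => hch.degH s i) (fun s i => hch.depH s i) hcur hθ hTm
    ((mul_le_mul_of_nonneg_right hC1 hθ1).trans hCJ)
    ((Real.exp_le_exp.2 (mul_le_mul_of_nonneg_right hC1 hθ1)).trans hexp)
  -- the closed covectors
  obtain ⟨φ, hφ⟩ : ∃ φ : LnT F → ℕ → Option (Fin m) → ℝ, φ = fun s l =>
      grd (hn c H₀ s l) (xt a s 0) := ⟨_, rfl⟩
  have hφc : ∀ s l, CvC c l (φ s l) := fun s l => by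
    rw [hφ]
    exact cvc_grd (depC_hn hch.depH s l) _
  have hnear : ∀ ω, B₁ ω → Nc c g₀ a n (2 ^ (X * (k + 1))) (γ (ptr F J ω))
      (φ (slam F a ω)) := by
    intro ω hω
    have hωB := a1 ω hω
    have b1 := (hγn ω hωB).symm2
    have b2 : Nc c g₀ a n (2 ^ k) (fun j => grd (G₀ (ptr F J ω) j) (bt F ω))
        (fun j => grd (hn c H₀ (slam F a ω) j) (bt F ω)) := by
      intro l hl V
      rw [cv_subl, cv_grd, cv_grd, ← nrm_en]
      have h1 := (hro.dif ω hωB l (by omega)).1 V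
      rw [dd_sub] at h1
      exact h1.trans (mul_le_mul_of_nonneg_right (div_le_div_of_nonneg_right hUk (by positivity))
        (nrm_nonneg _ _ _ _ _ _ _))
    have b3 := a3 ω hω 0 ⟨le_rfl, zero_le_one⟩ (rt F a ω) (rt_mem F a ω)
    rw [xt_slam F haJ ω] at b3
    have b4 := (b1.trans2 b2).trans2 b3
    have e1 : φ (slam F a ω) = fun j => grd (hn c H₀ (slam F a ω) j) (xt a (slam F a ω) 0) := by
      rw [hφ]
    rw [e1]
    refine b4.mono (pow_le_pow_right₀ (by norm_num) ?_)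
    rw [hk₁, hX]
    nlinarith [Nat.zero_le (k * n), Nat.zero_le (n * n), Nat.zero_le (k * n * n),
      Nat.zero_le (n * n * n), Nat.zero_le (k * n * n * n)]
  have hvel : ∀ ω, B₁ ω → ∀ l < n, |bd F ω (some (c l)) - cv (γ (ptr F J ω) l) (bd F ω)| ≤
      2 ^ (a + X * (k + 1)) / 2 ^ g₀ l := by
    intro ω hω l hl
    have hωB := a1 ω hω
    have h1 := vel_near (u := k) (hγn ω hωB) (W := bd F ω) rfl (fun l hl => by
      rw [cv_grd]
      refine (hro.vel ω ω hωB hωB rfl l (by omega)).trans (div_le_div_of_nonneg_right ?_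
        (by positivity))
      rw [pow_add, mul_comm]
      exact mul_le_mul_of_nonneg_left hUk (by positivity)) l hl
    refine h1.trans (div_le_div_of_nonneg_right (pow_le_pow_right₀ (by norm_num) ?_)
      (by positivity))
    rw [hX]
    nlinarith [Nat.zero_le (k * n), Nat.zero_le (n * n), Nat.zero_le (k * n * n),
      Nat.zero_le (n * n * n), Nat.zero_le (k * n * n * n)]
  have hlip : ∀ ω, B₁ ω → ∀ i < n, ∀ l < i, |γ (ptr F J ω) i (some (c l))| ≤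
      2 ^ (e + k + n + 1 + nlp g₀ l i) := by
    intro ω hω
    have hωB := a1 ω hω
    refine lip_near hc (fun l => cvc_grd (hch.depG _ l) _) (hγn ω hωB) fun i hi l hl => ?_
    refine hch.lip ω hωB i (by omega) (bt F ω) ⟨?_, fun j hj => ?_⟩ l hl
    · show |F.t ω - F.t ω| ≤ _
      rw [sub_self, abs_zero]
      positivity
    · exact hch.pos ω hωB j (by omega)
  obtain ⟨B', ψ, ψH, b1, b2, b3, b4, -⟩ := hfz (k := X * (k + 1)) (e := e + k + n + 1) hc hγ hφc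
    hnear hvel hlip
  have hB'0 : 0 ≤ Pe F.p B' := Pe_nonneg F.isLaw _
  have hC3 : C₂ * (X * (k + 1) + 1) ≤ C * (k + 1) := by
    rw [hC]
    nlinarith [Nat.zero_le (C₁ * (k + 1)), Nat.zero_le (X * (k + 1)), Nat.zero_le (C₂ * k)]
  refine ⟨B', ψ, ψH, fun ω hω => a1 ω (b1 ω hω), ?_, frok_mono b3 hC3 ?_, fun ω hω => ?_⟩
  · have h1 : Pe F.p B ≤ 2 * Pe F.p B₁ := by linarith
    calc Pe F.p B ≤ 2 * Pe F.p B₁ := h1
      _ ≤ 2 * (3 ^ (n ^ 2) * Pe F.p B') := mul_le_mul_of_nonneg_left b2 (by norm_num)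
      _ = _ := by ring
  · have h1 : k + n + 1 ≤ X * (k + 1) := by
      rw [hX]
      nlinarith [Nat.zero_le (k * n), Nat.zero_le (n * n), Nat.zero_le (k * n * n),
        Nat.zero_le (n * n * n), Nat.zero_le (k * n * n * n)]
    have h2 : X * (k + 1) + C₂ * (X * (k + 1) + 1) ≤ C * (k + 1) := by
      rw [hC]
      nlinarith [Nat.zero_le (C₁ * (k + 1)), Nat.zero_le (C₂ * k)]
    omega
  · exact Nc.mono (fun l hl V => b4 ω hω l hl V) (pow_le_pow_right₀ (by norm_num) hC3)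

/-- The gradient of the chart at the rounded point. -/
noncomputable def gpt (F : Fam m J) (G₀ : PtT F → ℕ → MvPolynomial (Option (Fin m)) ℝ)
    (y : PtT F) (l : ℕ) : Option (Fin m) → ℝ := grd (G₀ y l) (bho J J y)

/-- The gradients at the sample and at the rounded point are near. -/
theorem gpt_near (D n : ℕ) : ∃ C : ℕ, 1 ≤ C ∧ ∀ {m J : ℕ} {F : Fam m J} {c : ℕ → Fin m}
    {a e r : ℕ} {g₀ : ℕ → ℕ} {B : F.Ω → Prop}
    {G₀ : PtT F → ℕ → MvPolynomial (Option (Fin m)) ℝ}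
    {H₀ : LnT F → ℕ → MvPolynomial (Option (Fin m)) ℝ}, Set.InjOn c (Set.Iio n) → n ≤ r →
    ChOK F c r (fun _ => D) a a e g₀ B G₀ H₀ → (∀ l < n, e + g₀ l + C ≤ J) →
    ∀ ω, B ω → Nc c g₀ a n 1 (fun j => grd (G₀ (ptr F J ω) j) (bt F ω))
      (gpt F G₀ (ptr F J ω)) := by
  obtain ⟨C, hC, hmv⟩ := grd_move D n
  refine ⟨C, hC, ?_⟩
  intro m J F c a e r g₀ B G₀ H₀ hc hnr hch hJ ω hω l hl V
  have h1 := hmv (c := c) (a := a) (e := e) (g := g₀) (G := G₀ (ptr F J ω)) (x := bt F ω)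
    (x' := hx F ω) hc (fun l => hch.degG _ l) (fun l => hch.depG _ l)
    (fun l hl b hb j hj => hch.lip ω hω l (by omega) b hb j hj)
    (fun l hl => hch.pos ω hω l (by omega)) (hx_none F ω) (fun k => hx_some F ω k) hJ l hl V
  rw [cv_subl, cv_grd, ← nrm_en]
  exact h1

end Pool.D2Z
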