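import Pool.Agent.H60.D2.Tay
import Pool.Agent.H24.D2.Vis

/-!
# A ball label from the gradient of a closed label

Let `R` be a closed polynomial label of a coordinate. If its gradient does not move along the own
line, beyond `eta` in natural units of the ball (`sig`: the second derivative in the direction of
the line, minus a closed quadratic form `Γ`), then the first Taylor polynomial (plus half of `Γ`) at
the point of the line does not depend on the time of the window, up to `2 ^ (-p')` on the natural box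
(`zg_near`). If it is near a visible polynomial, there is a ball label of precision `p'` (`ext_fam`).
-/

set_option autoImplicit false

namespace Pool.D2Z

open Finset Real MvPolynomial
open Pool.Agent.H49.Ent Pool.Agent.H32.Dense Pool.STK Pool.KA Pool.KSAT Pool.K2S Pool.PB Pool.S6C
open Pool.GEN Pool.CHT Pool.CHX Pool.ISO Pool.D2R
open Pool.FLF (Fam.sub)
open Pool.PB.Trl (rt rt_mem t_rt)
open Pool.VIS24 (VPol Nr)

variable {m J : ℕ} {ζ : Type}

/-- The corrected polynomials of the line. -/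
noncomputable def hn (c : ℕ → Fin m)
    (H : ((Fin m → ℝ) × (Fin m → ℝ)) × ζ × ℕ → ℕ → MvPolynomial (Option (Fin m)) ℝ)
    (s : ((Fin m → ℝ) × (Fin m → ℝ)) × ζ × ℕ) (j : ℕ) : MvPolynomial (Option (Fin m)) ℝ :=
  Hno (c j) (fun s => H s j) s

/-- The own line is on the graph, at all times. -/
theorem hn_own (c : ℕ → Fin m)
    (H : ((Fin m → ℝ) × (Fin m → ℝ)) × ζ × ℕ → ℕ → MvPolynomial (Option (Fin m)) ℝ) (a : ℕ)
    (s : ((Fin m → ℝ) × (Fin m → ℝ)) × ζ × ℕ) (j : ℕ) (τ : ℝ) :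
    eval (xt a s τ) (hn c H s j) = xt a s τ (some (c j)) := by
  have h1 : xt a s τ = blo s (((s.2.2 : ℝ) + τ) / 2 ^ a) := by
    funext o
    exact eval_lc' s a τ o
  unfold hn
  rw [eval_Hno, h1]
  unfold eso
  simp only [blo]
  ring

theorem hn_vel (c : ℕ → Fin m)
    (H : ((Fin m → ℝ) × (Fin m → ℝ)) × ζ × ℕ → ℕ → MvPolynomial (Option (Fin m)) ℝ) (a : ℕ)
    (s : ((Fin m → ℝ) × (Fin m → ℝ)) × ζ × ℕ) (j : ℕ) (τ : ℝ) :
    dd (hn c H s j) (xt a s τ) (wd s) = wd s (some (c j)) := by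
  have h1 : MvPolynomial.aeval (lc a s) (hn c H s j) = lc a s (some (c j)) := by
    refine Polynomial.funext fun x => ?_
    rw [eval_lcR, hn_own]
    rfl
  have h2 := der_R a s (hn c H s j) τ
  rw [h1, der_lc', Polynomial.eval_C] at h2
  have h3 : (1 / 2 ^ a : ℝ) ≠ 0 := by positivity
  exact (mul_left_cancel₀ h3 h2).symm

/-- **The data.** `R`: a closed polynomial; `Γ`: a closed quadratic form. -/
structure ZDat (F : Fam m J) (c : ℕ → Fin m) (r D a e k : ℕ) (g : ℕ → ℕ) (p : ℕ) (η : ℝ)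
    (A : F.Ω → Prop) (G : PtT F → ℕ → MvPolynomial (Option (Fin m)) ℝ)
    (H : LnT F → ℕ → MvPolynomial (Option (Fin m)) ℝ)
    (R : LnT F → MvPolynomial (Option (Fin m)) ℝ)
    (Γ : LnT F → Option (Fin m) → Option (Fin m) → ℝ) : Prop where
  ch : ChOK F c r (fun _ => D) a a e g A G H
  dR : ∀ s, (R s).totalDegree ≤ D
  pR : ∀ s, DepC c r (R s)
  sym : ∀ s o o', Γ s o o' = Γ s o' o
  sup : ∀ s o k, (∀ l < r, c l ≠ k) → Γ s o (some k) = 0
  /-- the gradients of the labels of the coordinates `c j`, `j < r`, move naturally -/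
  cur : ∀ ω, A ω → ∀ j < r, ∀ V : Option (Fin m) → ℝ,
    |hs (hn c H (slam F a ω) j) (bt F ω) (bd F ω) V| ≤
      2 ^ k * (2 ^ a / 2 ^ g j) * Nv c j a g (hn c H (slam F a ω)) (bt F ω) V
  /-- the secants are natural -/
  sec : ∀ ω, A ω → ∀ b, NBx c (G (ptr F J ω)) g a (F.t ω) r b → ∀ j < r,
    |(b - bt F ω) (some (c j)) - dd (hn c H (slam F a ω) j) (bt F ω) (b - bt F ω)| ≤
      2 ^ k / 2 ^ g j
  /-- the gradient of `R` moves by `Γ`, up to `η` -/
  sig : ∀ ω, A ω → ∀ V : Option (Fin m) → ℝ,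
    |hs (R (slam F a ω)) (bt F ω) (bd F ω) V - bl (Γ (slam F a ω)) (bd F ω) V| ≤
      η * (2 ^ a / 2 ^ p) * Nv c r a g (hn c H (slam F a ω)) (bt F ω) V

theorem pd_zero' {c : ℕ → Fin m} {i : ℕ} {G : MvPolynomial (Option (Fin m)) ℝ} (h : DepC c i G)
    {k : Fin m} (hk : ∀ l < i, c l ≠ k) : pderiv (some k) G = 0 :=
  MvPolynomial.funext fun b => by rw [pd_zero h hk b, map_zero]

theorem depC_hn {F : Fam m J} {c : ℕ → Fin m} {H : LnT F → ℕ → MvPolynomial (Option (Fin m)) ℝ}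
    (hH : ∀ s i, DepC c i (H s i)) (s : LnT F) (j : ℕ) : DepC c j (hn c H s j) := by
  intro b b' h1 h2
  unfold hn
  rw [eval_Hno, eval_Hno, hH s j b b' h1 h2, h1]

theorem xt_slam (F : Fam m J) {a : ℕ} (ha : a ≤ J) (ω : F.Ω) :
    xt a (slam F a ω) (rt F a ω) = bt F ω := funext fun o => eval_lc F ha ω o

theorem xt_none (F : Fam m J) {a : ℕ} (ha : a ≤ J) (ω : F.Ω) {τ : ℝ}
    (hτ : τ ∈ Set.Icc (0 : ℝ) 1) : |F.t ω - xt a (slam F a ω) τ none| ≤ 1 / 2 ^ a := by
  have h1 := t_rt F ha ω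
  have h2 := rt_mem F a ω
  have h3 : xt a (slam F a ω) τ none = ((slam F a ω).2.2 : ℝ) / 2 ^ a + 1 / 2 ^ a * τ := by
    simp [xt, lc]
  have ha0 : (0 : ℝ) < 2 ^ a := by positivity
  have h4 : F.t ω - xt a (slam F a ω) τ none = (rt F a ω - τ) / 2 ^ a := by
    rw [h3, h1]
    field_simp
    ring
  rw [h4, abs_div, abs_of_pos ha0]
  refine div_le_div_of_nonneg_right ?_ ha0.le
  rw [abs_le]
  constructor <;> linarith [h2.1, h2.2, hτ.1, hτ.2]

/-- The sum of the bounds. -/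
theorem sum_bd {B : ℝ} (hB : 1 ≤ B) {j r : ℕ} (hj : j ≤ r) :
    ∑ i ∈ range j, B ^ (i + 1) ≤ r * B ^ j := by
  have h1 : ∀ i ∈ range j, B ^ (i + 1) ≤ B ^ j := fun i hi =>
    pow_le_pow_right₀ hB (mem_range.1 hi)
  refine (Finset.sum_le_sum h1).trans ?_
  rw [Finset.sum_const, Finset.card_range, nsmul_eq_mul]
  exact mul_le_mul_of_nonneg_right (by exact_mod_cast hj) (by positivity)

/-- **The Taylor polynomial does not depend on the time of the window.** -/
theorem zg_near (m D r : ℕ) (hD : 1 ≤ D) : ∃ C : ℕ, 1 ≤ C ∧ ∀ {J : ℕ} {F : Fam m J}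
    {c : ℕ → Fin m} {a e k n p : ℕ} {g : ℕ → ℕ} {η θ : ℝ} {A : F.Ω → Prop}
    {G : PtT F → ℕ → MvPolynomial (Option (Fin m)) ℝ}
    {H : LnT F → ℕ → MvPolynomial (Option (Fin m)) ℝ}
    {R : LnT F → MvPolynomial (Option (Fin m)) ℝ}
    {Γ : LnT F → Option (Fin m) → Option (Fin m) → ℝ} (hA : 0 < Pe F.p A),
    Set.InjOn c (Set.Iio r) → a ≤ J → ZDat F c r D a e k g p η A G H R Γ → 0 < η → 0 ≤ θ →
    (Fam.sub F A hA).Tm θ → C * (θ + 1) ≤ ((J : ℝ) - a) * Real.log 2 →
    Real.exp (C * (θ + 1)) ≤ 2 ^ n →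
    ∃ B : F.Ω → Prop, Sub B A ∧ Pe F.p A / 2 ≤ Pe F.p B ∧ ∀ ω, B ω →
      ∀ b, NBx c (G (ptr F J ω)) g a (F.t ω) r b →
        |tv (R (slam F a ω)) (Γ (slam F a ω)) (bt F ω) b -
          tv (R (slam F a ω)) (Γ (slam F a ω)) (xt a (slam F a ω) 0) b| ≤
            2 ^ (C * (k + n + 1)) * (η / 2 ^ p) := by
  classical
  obtain ⟨C₁, hC₁, hwin⟩ := win_cov m D r
  obtain ⟨C, hC⟩ : ∃ C : ℕ, C = ⌈C₁⌉₊ + (r + 3) * (r + 1) := ⟨_, rfl⟩
  have hC1 : C₁ ≤ C := by
    refine (Nat.le_ceil C₁).trans ?_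
    rw [hC]
    push_cast
    have : (0 : ℝ) ≤ ((r : ℝ) + 3) * (r + 1) := by positivity
    linarith
  refine ⟨C, by rw [hC]; nlinarith, ?_⟩
  intro J F c a e k n p g η θ A G H R Γ hA hc haJ hd hη hθ hTm hCJ hexp
  have hθ1 : 0 ≤ θ + 1 := by linarith
  have hdeg : ∀ s l, (hn c H s l).totalDegree ≤ D := fun s l =>
    deg_Hno (c l) (fun s => H s l) s hD (hd.ch.degH s l)
  have hdep : ∀ s l, DepC c l (hn c H s l) := depC_hn hd.ch.depH
  -- the covectors
  obtain ⟨Q, hQ⟩ : ∃ Q : ℕ → LnT F → MvPolynomial (Option (Fin m)) ℝ, Q = fun j s =>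
      if j < r then hn c H s j else R s := ⟨_, rfl⟩
  obtain ⟨Γ', hΓ'⟩ : ∃ Γ' : ℕ → LnT F → Option (Fin m) → Option (Fin m) → ℝ, Γ' = fun j s =>
      if j < r then fun _ _ => 0 else Γ s := ⟨_, rfl⟩
  have hQD : ∀ j s, (Q j s).totalDegree ≤ D := by
    intro j s
    rw [hQ]
    show (if j < r then hn c H s j else R s).totalDegree ≤ D
    split_ifs
    exacts [hdeg _ _, hd.dR _]
  have hQp : ∀ j ≤ r, ∀ s, DepC c j (Q j s) := by
    intro j hj s
    rw [hQ]
    show DepC c j (if j < r then hn c H s j else R s)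
    split_ifs with h
    · exact hdep _ _
    · have : j = r := by omega
      rw [this]
      exact hd.pR s
  obtain ⟨f, hf⟩ : ∃ f : ℕ → LnT F → Option (Fin m) → MvPolynomial (Option (Fin m)) ℝ,
      f = fun j s o => ∑ o', MvPolynomial.C (wd s o') * pderiv o' (pderiv o (Q j s)) -
        MvPolynomial.C (∑ o', Γ' j s o' o * wd s o') := ⟨_, rfl⟩
  have hfe : ∀ j s b V, ∑ o, eval b (f j s o) * V o =
      hs (Q j s) b (wd s) V - bl (Γ' j s) (wd s) V := by
    intro j s b V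
    have e1 : bl (Γ' j s) (wd s) V = ∑ o, (∑ o', Γ' j s o' o * wd s o') * V o := by
      unfold bl
      rw [Finset.sum_comm]
      exact Finset.sum_congr rfl fun o _ => by rw [Finset.sum_mul]
    rw [e1]
    unfold hs dd
    rw [← Finset.sum_sub_distrib]
    refine Finset.sum_congr rfl fun o _ => ?_
    rw [hf]
    show eval b (∑ o', MvPolynomial.C (wd s o') * pderiv o' (pderiv o (Q j s)) -
      MvPolynomial.C (∑ o', Γ' j s o' o * wd s o')) * V o = _
    rw [map_sub, eval_C, map_sum, ← sub_mul]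
    congr 2
    exact Finset.sum_congr rfl fun o' _ => by rw [map_mul, eval_C, mul_comm]
  obtain ⟨κ, hκ⟩ : ∃ κ : ℕ → ℝ, κ = fun j => if j < r then 2 ^ k * (2 ^ a / 2 ^ g j) else
      η * (2 ^ a / 2 ^ p) := ⟨_, rfl⟩
  have hκ0 : ∀ j, 0 < κ j := by
    intro j
    rw [hκ]
    show 0 < (if j < r then (2 : ℝ) ^ k * (2 ^ a / 2 ^ g j) else η * (2 ^ a / 2 ^ p))
    split_ifs <;> positivity
  have hQr : ∀ s, Q r s = R s := fun s => by
    rw [hQ]
    exact if_neg (lt_irrefl r)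
  have hΓr : ∀ s, Γ' r s = Γ s := fun s => by
    rw [hΓ']
    exact if_neg (lt_irrefl r)
  have hκr : κ r = η * (2 ^ a / 2 ^ p) := by
    rw [hκ]
    exact if_neg (lt_irrefl r)
  have hQj : ∀ j < r, ∀ s, Q j s = hn c H s j := fun j hj s => by
    rw [hQ]
    exact if_pos hj
  have hΓj : ∀ j < r, ∀ s, Γ' j s = fun _ _ => 0 := fun j hj s => by
    rw [hΓ']
    exact if_pos hj
  have hκj : ∀ j < r, κ j = 2 ^ k * (2 ^ a / 2 ^ g j) := fun j hj => by
    rw [hκ]
    exact if_pos hj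
  have hbl0 : ∀ V V' : Option (Fin m) → ℝ, bl (fun _ _ => 0) V V' = 0 := fun V V' => by
    simp [bl]
  obtain ⟨B, h1, h2, h3⟩ := hwin (κ := κ) (f := f) (ψ := fun s => hn c H s) (g := g) (θ := θ) hA hc
    haJ (fun s l => hdeg s l) (fun s l => hdep s l)
    (fun j hj s o => by
      rw [hf]
      refine (totalDegree_sub _ _).trans (max_le ?_ (by rw [totalDegree_C]; exact Nat.zero_le _))
      refine totalDegree_finsetSum_le fun o' _ => ?_
      refine (totalDegree_mul _ _).trans ?_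
      rw [totalDegree_C, zero_add]
      exact totalDegree_pdσ (totalDegree_pdσ (hQD j s) o) o')
    (fun j hj s i hi b => by
      rw [hf]
      show eval b (∑ o', MvPolynomial.C (wd s o') * pderiv o' (pderiv (some i) (Q j s)) -
        MvPolynomial.C (∑ o', Γ' j s o' (some i) * wd s o')) = 0
      rw [pd_zero' (hQp j hj s) hi]
      have e1 : ∑ o', Γ' j s o' (some i) * wd s o' = 0 := by
        refine Finset.sum_eq_zero fun o' _ => ?_
        rcases hj.lt_or_eq with h | h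
        · rw [hΓj j h, zero_mul]
        · rw [h, hΓr, hd.sup s o' i (fun l hl => hi l (by omega)), zero_mul]
      rw [e1]
      simp)
    (fun j _ => hκ0 j) hθ hTm ((mul_le_mul_of_nonneg_right hC1 hθ1).trans hCJ)
    (fun ω hω j hj V => by
      rw [hfe]
      rcases hj.lt_or_eq with h | h
      · rw [hQj j h, hΓj j h, hbl0, sub_zero, hκj j h, wd_slam]
        exact hd.cur ω hω j h V
      · rw [h, hQr, hΓr, hκr, wd_slam]
        exact hd.sig ω hω V)
  refine ⟨B, h1, h2, fun ω hω b hb => ?_⟩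
  have hωA := h1 ω hω
  obtain ⟨E, hE⟩ : ∃ E, E = Real.exp (C₁ * (θ + 1)) := ⟨_, rfl⟩
  have hE1 : 1 ≤ E := by
    rw [hE]
    exact Real.one_le_exp (by nlinarith)
  have hEn : E ≤ 2 ^ n := by
    rw [hE]
    exact (Real.exp_le_exp.2 (mul_le_mul_of_nonneg_right hC1 hθ1)).trans hexp
  rw [← hE] at h3
  obtain ⟨s, hs'⟩ : ∃ s, s = slam F a ω := ⟨_, rfl⟩
  have h3 := h3 ω hω
  have hsec := hd.sec ω hωA b hb
  have hx := xt_slam F haJ ω
  have hrt : rt F a ω ∈ Set.Icc (0 : ℝ) 1 := rt_mem F a ω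
  have hb0 : ∀ τ ∈ Set.Icc (0 : ℝ) 1, |(b - xt a (slam F a ω) τ) none| ≤ 2 / 2 ^ a := by
    intro τ hτ
    have e1 := xt_none F haJ ω hτ
    have e2 := hb.1
    have e3 : (b - xt a (slam F a ω) τ) none =
        (b none - F.t ω) + (F.t ω - xt a (slam F a ω) τ none) := by
      rw [Pi.sub_apply]
      ring
    rw [e3]
    refine (abs_add_le _ _).trans ((add_le_add e2 e1).trans (le_of_eq ?_))
    ring
  rw [← hs'] at h3 hsec hx hb0 ⊢
  rw [← hx] at hsec ⊢
  obtain ⟨Bd, hBd⟩ : ∃ Bd : ℝ, Bd = 2 ^ k * E * (r + 3) := ⟨_, rfl⟩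
  have h2k : (1 : ℝ) ≤ 2 ^ k := one_le_pow₀ (by norm_num)
  have hr0 : (0 : ℝ) ≤ r := Nat.cast_nonneg r
  have hkE : 1 ≤ 2 ^ k * E := one_le_mul_of_one_le_of_one_le h2k hE1
  have hBd1 : 1 ≤ Bd := by
    rw [hBd]
    nlinarith
  have ha0 : (0 : ℝ) < 2 ^ a := by positivity
  -- the size of the secant
  have hNv : ∀ j ≤ r, ∀ τ ∈ Set.Icc (0 : ℝ) 1,
      (∀ i < j, |(b - xt a s τ) (some (c i)) - dd (hn c H s i) (xt a s τ) (b - xt a s τ)| ≤
        Bd ^ (i + 1) / 2 ^ g i) →
      Nv c j a g (hn c H s) (xt a s τ) (b - xt a s τ) ≤ 2 + r * Bd ^ j := by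
    intro j hj τ hτ hi
    unfold Nv
    refine add_le_add ?_ ((Finset.sum_le_sum fun i hi' => ?_).trans (sum_bd hBd1 hj))
    · have e1 := mul_le_mul_of_nonneg_left (hb0 τ hτ) ha0.le
      refine e1.trans (le_of_eq ?_)
      field_simp
    · have e1 := mul_le_mul_of_nonneg_left (hi i (mem_range.1 hi'))
        (show (0 : ℝ) ≤ 2 ^ g i by positivity)
      refine e1.trans (le_of_eq ?_)
      field_simp
  -- the secants at all times
  have hz : ∀ j < r, ∀ τ ∈ Set.Icc (0 : ℝ) 1,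
      |(b - xt a s τ) (some (c j)) - dd (hn c H s j) (xt a s τ) (b - xt a s τ)| ≤
        Bd ^ (j + 1) / 2 ^ g j := by
    intro j
    induction j using Nat.strong_induction_on with
    | _ j ih =>
      intro hj τ hτ
      obtain ⟨Z, hZ⟩ : ∃ Z : Polynomial ℝ, Z = Polynomial.C (b (some (c j))) - lc a s (some (c j)) -
          tq a s (hn c H s j) b := ⟨_, rfl⟩
      have hZe : ∀ u, Z.eval u = (b - xt a s u) (some (c j)) -
          dd (hn c H s j) (xt a s u) (b - xt a s u) := by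
        intro u
        rw [hZ, Polynomial.eval_sub, Polynomial.eval_sub, Polynomial.eval_C, eval_tq]
        rfl
      have hZd : ∀ u, (Polynomial.derivative Z).eval u =
          -(1 / 2 ^ a * hs (hn c H s j) (xt a s u) (wd s) (b - xt a s u)) := by
        intro u
        rw [hZ, Polynomial.derivative_sub, Polynomial.derivative_sub, Polynomial.derivative_C,
          der_lc', zero_sub, Polynomial.eval_sub, Polynomial.eval_neg, Polynomial.eval_C, der_tq,
          hn_vel]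
        ring
      have hM : ∀ u ∈ Set.Icc (0 : ℝ) 1, |(Polynomial.derivative Z).eval u| ≤
          E * 2 ^ k * (2 + r * Bd ^ j) / 2 ^ g j := by
        intro u hu
        have e1 := h3 j hj.le u hu (b - xt a s u)
        rw [hfe, hQj j hj, hΓj j hj, hbl0, sub_zero, hκj j hj] at e1
        have e2 := hNv j hj.le u hu (fun i hi => ih i hi (by omega) u hu)
        rw [hZd, abs_neg, abs_mul, abs_of_pos (show (0 : ℝ) < 1 / 2 ^ a by positivity)]
        have e3 : |hs (hn c H s j) (xt a s u) (wd s) (b - xt a s u)| ≤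
            E * (2 ^ k * (2 ^ a / 2 ^ g j)) * (2 + r * Bd ^ j) :=
          e1.trans (mul_le_mul_of_nonneg_left e2 (by positivity))
        calc 1 / 2 ^ a * |hs (hn c H s j) (xt a s u) (wd s) (b - xt a s u)| ≤
              1 / 2 ^ a * (E * (2 ^ k * (2 ^ a / 2 ^ g j)) * (2 + r * Bd ^ j)) :=
              mul_le_mul_of_nonneg_left e3 (by positivity)
          _ = E * 2 ^ k * (2 + r * Bd ^ j) / 2 ^ g j := by
              field_simp
      have e4 := poly_mv Z hM hτ hrt
      have e5 := hsec j hj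
      rw [← hZe] at e5 ⊢
      have e6 : |Z.eval τ| ≤ E * 2 ^ k * (2 + r * Bd ^ j) / 2 ^ g j + 2 ^ k / 2 ^ g j := by
        have e7 : Z.eval τ = (Z.eval τ - Z.eval (rt F a ω)) + Z.eval (rt F a ω) := by ring
        rw [e7]
        exact (abs_add_le _ _).trans (add_le_add e4 e5)
      refine e6.trans ?_
      rw [← add_div]
      refine div_le_div_of_nonneg_right ?_ (by positivity)
      have hBj : 1 ≤ Bd ^ j := one_le_pow₀ hBd1
      have e8 : 2 ^ k ≤ 2 ^ k * E * Bd ^ j := by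
        have : 2 ^ k * 1 ≤ 2 ^ k * (E * Bd ^ j) := mul_le_mul_of_nonneg_left
          (one_le_mul_of_one_le_of_one_le hE1 hBj) (by positivity)
        linarith
      have e9 : E * 2 ^ k * (2 + r * Bd ^ j) ≤ E * 2 ^ k * ((r + 2) * Bd ^ j) := by
        refine mul_le_mul_of_nonneg_left ?_ (by positivity)
        nlinarith
      rw [pow_succ Bd j]
      have e10 : Bd ^ j * Bd = 2 ^ k * E * (r + 3) * Bd ^ j := by rw [← hBd]; ring
      rw [e10]
      nlinarith
  -- the Taylor polynomial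
  have hMT : ∀ u ∈ Set.Icc (0 : ℝ) 1, |(Polynomial.derivative (tp a s (R s) (Γ s) b)).eval u| ≤
      Bd ^ (r + 1) * (η / 2 ^ p) := by
    intro u hu
    have e1 := h3 r le_rfl u hu (b - xt a s u)
    rw [hfe, hQr, hΓr, hκr] at e1
    have e2 := hNv r le_rfl u hu (fun i hi => hz i hi u hu)
    rw [der_tp a s (R s) (hd.sym s), abs_mul, abs_of_pos (show (0 : ℝ) < 1 / 2 ^ a by positivity)]
    have e3 : |hs (R s) (xt a s u) (wd s) (b - xt a s u) - bl (Γ s) (wd s) (b - xt a s u)| ≤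
        E * (η * (2 ^ a / 2 ^ p)) * (2 + r * Bd ^ r) :=
      e1.trans (mul_le_mul_of_nonneg_left e2 (by positivity))
    have hBj : 1 ≤ Bd ^ r := one_le_pow₀ hBd1
    have e4 : E * (2 + r * Bd ^ r) ≤ Bd ^ (r + 1) := by
      rw [pow_succ Bd r]
      have e5 : Bd ^ r * Bd = 2 ^ k * E * (r + 3) * Bd ^ r := by rw [← hBd]; ring
      rw [e5]
      have e6 : E * (2 + r * Bd ^ r) ≤ E * ((r + 3) * Bd ^ r) := by
        refine mul_le_mul_of_nonneg_left ?_ (by linarith)
        nlinarith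
      have e7 : 1 * (E * ((r + 3) * Bd ^ r)) ≤ 2 ^ k * (E * ((r + 3) * Bd ^ r)) :=
        mul_le_mul_of_nonneg_right h2k (by positivity)
      linarith
    calc 1 / 2 ^ a * |hs (R s) (xt a s u) (wd s) (b - xt a s u) -
          bl (Γ s) (wd s) (b - xt a s u)| ≤
          1 / 2 ^ a * (E * (η * (2 ^ a / 2 ^ p)) * (2 + r * Bd ^ r)) :=
          mul_le_mul_of_nonneg_left e3 (by positivity)
      _ = E * (2 + r * Bd ^ r) * (η / 2 ^ p) := by field_simp
      _ ≤ _ := mul_le_mul_of_nonneg_right e4 (by positivity)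
  have h4 := poly_mv _ hMT hrt (show (0 : ℝ) ∈ Set.Icc (0 : ℝ) 1 from ⟨le_rfl, zero_le_one⟩)
  rw [eval_tp, eval_tp] at h4
  refine h4.trans (mul_le_mul_of_nonneg_right ?_ (by positivity))
  have h5 : Bd ≤ 2 ^ (k + n + (r + 3)) := by
    rw [hBd, pow_add, pow_add]
    refine mul_le_mul (mul_le_mul_of_nonneg_left hEn (by positivity)) ?_ (by positivity)
      (by positivity)
    have : r + 3 < 2 ^ (r + 3) := Nat.lt_two_pow_self
    exact_mod_cast this.le
  calc Bd ^ (r + 1) ≤ (2 ^ (k + n + (r + 3))) ^ (r + 1) := pow_le_pow_left₀ (by linarith) h5 _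
    _ = 2 ^ ((k + n + (r + 3)) * (r + 1)) := by rw [← pow_mul]
    _ ≤ 2 ^ (C * (k + n + 1)) := by
        refine pow_le_pow_right₀ (by norm_num) ?_
        calc (k + n + (r + 3)) * (r + 1) ≤ ((r + 3) * (k + n + 1)) * (r + 1) := by
              refine Nat.mul_le_mul_right _ ?_
              nlinarith
          _ = (r + 3) * (r + 1) * (k + n + 1) := by ring
          _ ≤ C * (k + n + 1) := Nat.mul_le_mul_right _ (by rw [hC]; omega)

/-! ### The label -/

/-- The Taylor polynomial. -/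
noncomputable def Ty (R : MvPolynomial (Option (Fin m)) ℝ)
    (Γ : Option (Fin m) → Option (Fin m) → ℝ) (x : Option (Fin m) → ℝ) :
    MvPolynomial (Option (Fin m)) ℝ :=
  C (eval x R) + ∑ o, C (eval x (pderiv o R)) * (X o - C (x o)) +
    ∑ o, ∑ o', C (Γ o o' / 2) * (X o - C (x o)) * (X o' - C (x o'))

theorem eval_Ty (R : MvPolynomial (Option (Fin m)) ℝ)
    (Γ : Option (Fin m) → Option (Fin m) → ℝ) (x b : Option (Fin m) → ℝ) :
    eval b (Ty R Γ x) = tv R Γ x b := by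
  unfold Ty tv dd bl
  simp only [map_add, map_sum, map_mul, map_sub, eval_C, eval_X, Pi.sub_apply]
  congr 1
  rw [Finset.sum_div]
  refine Finset.sum_congr rfl fun o _ => ?_
  rw [Finset.sum_div]
  refine Finset.sum_congr rfl fun o' _ => ?_
  ring

theorem deg_Ty (R : MvPolynomial (Option (Fin m)) ℝ)
    (Γ : Option (Fin m) → Option (Fin m) → ℝ) (x : Option (Fin m) → ℝ) :
    (Ty R Γ x).totalDegree ≤ 2 := by
  have h1 : ∀ o, (X o - C (x o) : MvPolynomial (Option (Fin m)) ℝ).totalDegree ≤ 1 := by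
    intro o
    refine (totalDegree_sub _ _).trans (max_le (totalDegree_X _).le ?_)
    rw [totalDegree_C]
    exact Nat.zero_le _
  unfold Ty
  refine (totalDegree_add _ _).trans (max_le ((totalDegree_add _ _).trans (max_le ?_ ?_)) ?_)
  · rw [totalDegree_C]
    exact Nat.zero_le _
  · refine totalDegree_finsetSum_le fun o _ => ?_
    refine (totalDegree_mul _ _).trans ?_
    rw [totalDegree_C, zero_add]
    exact (h1 o).trans (by norm_num)
  · refine totalDegree_finsetSum_le fun o _ => totalDegree_finsetSum_le fun o' _ => ?_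
    refine (totalDegree_mul _ _).trans ?_
    refine le_trans (Nat.add_le_add ((totalDegree_mul _ _).trans ?_) (h1 o')) (le_refl (1 + 1))
    rw [totalDegree_C, zero_add]
    exact h1 o

theorem dep_Ty {c : ℕ → Fin m} {r : ℕ} {R : MvPolynomial (Option (Fin m)) ℝ}
    {Γ : Option (Fin m) → Option (Fin m) → ℝ} (hR : DepC c r R) (hs : ∀ o o', Γ o o' = Γ o' o)
    (h0 : ∀ o k, (∀ l < r, c l ≠ k) → Γ o (some k) = 0) (x : Option (Fin m) → ℝ) :
    DepC c r (Ty R Γ x) := by
  intro b b' h1 h2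
  rw [eval_Ty, eval_Ty]
  unfold tv
  have e1 : dd R x (b - x) = dd R x (b' - x) := dd_congr hR x (by
    rw [Pi.sub_apply, Pi.sub_apply, h1]) fun l hl => by rw [Pi.sub_apply, Pi.sub_apply, h2 l hl]
  have e2 : bl Γ (b - x) (b - x) = bl Γ (b' - x) (b' - x) := by
    have e3 : ∀ o, (∀ o', Γ o o' = 0) ∨ (b - x) o = (b' - x) o := by
      intro o
      cases o with
      | none => exact Or.inr (by rw [Pi.sub_apply, Pi.sub_apply, h1])
      | some k =>
        by_cases h9 : ∃ j < r, c j = k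
        · obtain ⟨j, h10, rfl⟩ := h9
          exact Or.inr (by rw [Pi.sub_apply, Pi.sub_apply, h2 j h10])
        · refine Or.inl fun o' => ?_
          rw [hs]
          exact h0 o' k fun l hl h => h9 ⟨l, hl, h⟩
    unfold bl
    refine Finset.sum_congr rfl fun o _ => Finset.sum_congr rfl fun o' _ => ?_
    rcases e3 o with h3 | h3
    · rw [h3 o', zero_mul, zero_mul, zero_mul, zero_mul]
    · rcases e3 o' with h4 | h4
      · rw [hs o o', h4 o, zero_mul, zero_mul, zero_mul, zero_mul]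
      · rw [h3, h4]
  rw [e1, e2]

/-- **A visible polynomial near a closed one is a ball label.** -/
theorem ext_fam {F : Fam m J} {c : ℕ → Fin m} {i a w e p K : ℕ} {Kv g : ℕ → ℕ}
    {B : F.Ω → Prop} {G : PtT F → ℕ → MvPolynomial (Option (Fin m)) ℝ}
    {H : LnT F → ℕ → MvPolynomial (Option (Fin m)) ℝ}
    {Gi : PtT F → MvPolynomial (Option (Fin m)) ℝ} {Hi : LnT F → MvPolynomial (Option (Fin m)) ℝ}
    (hKv : ∀ l, Kv l ≤ K) (hch : ChOK F c i Kv a w e g B G H)
    (hG : VPol F c i K a e p g G B Gi) (hd : ∀ s, (Hi s).totalDegree ≤ K)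
    (hp : ∀ s, DepC c i (Hi s))
    (hc : ∀ ω, B ω → Nr F c i a p g G ω (Gi (ptr F J ω)) (Hi (slam F w ω))) :
    ChOK F c (i + 1) (fun _ => K) a w e (fun j => if j < i then g j else p) B
      (fun y j => if j < i then G y j else Gi y) (fun s j => if j < i then H s j else Hi s) := by
  have bx : ∀ {y : PtT F} {t : ℝ} {l : ℕ} {b : Option (Fin m) → ℝ}, l ≤ i →
      NBx c (fun j => if j < i then G y j else Gi y)
        (fun j => if j < i then g j else p) a t l b → NBx c (G y) g a t l b := by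
    intro y t l b hl hb
    refine ⟨hb.1, fun j hj => ?_⟩
    have h1 := hb.2 j hj
    simp only [if_pos (show j < i by omega)] at h1
    exact h1
  refine ⟨fun y j => ?_, fun s j => ?_, fun y j => ?_, fun s j => ?_, fun ω hω j hj => ?_,
    fun ω hω j hj b hb => ?_, fun ω hω j hj b hb l hl => ?_⟩
  · show (if j < i then G y j else Gi y).totalDegree ≤ K
    split_ifs with h
    · exact (hch.degG y j).trans (hKv j)
    · exact hG.deg y
  · show (if j < i then H s j else Hi s).totalDegree ≤ K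
    split_ifs with h
    · exact (hch.degH s j).trans (hKv j)
    · exact hd s
  · show DepC c j (if j < i then G y j else Gi y)
    split_ifs with h
    · exact hch.depG y j
    · exact (hG.dep y).mono (not_lt.1 h)
  · show DepC c j (if j < i then H s j else Hi s)
    split_ifs with h
    · exact hch.depH s j
    · exact (hp s).mono (not_lt.1 h)
  · show |F.x ω (c j) - eval (bt F ω) (if j < i then G (ptr F J ω) j else
      Gi (ptr F J ω))| ≤ 1 / 2 ^ (if j < i then g j else p)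
    by_cases h : j < i
    · rw [if_pos h, if_pos h]
      exact hch.pos ω hω j h
    · have hji : j = i := by omega
      subst hji
      rw [if_neg h, if_neg h]
      exact hG.pos ω hω
  · have hb' := bx (by omega) hb
    show |eval b (if j < i then G (ptr F J ω) j else Gi (ptr F J ω)) -
      eval b (if j < i then H (slam F w ω) j else Hi (slam F w ω))| ≤
        1 / 2 ^ (if j < i then g j else p)
    by_cases h : j < i
    · rw [if_pos h, if_pos h, if_pos h]
      exact hch.agr ω hω j h b hb'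
    · have hji : j = i := by omega
      subst hji
      rw [if_neg h, if_neg h, if_neg h]
      exact hc ω hω b hb'
  · have hb' := bx (by omega) hb
    show |eval b (pderiv (some (c l)) (if j < i then G (ptr F J ω) j else
      Gi (ptr F J ω)))| ≤ 2 ^ (e + nlp (fun j => if j < i then g j else p) l j)
    by_cases h : j < i
    · rw [if_pos h]
      refine (hch.lip ω hω j h b hb' l hl).trans (pow_le_pow_right₀ (by norm_num) ?_)
      rw [nlp_congr (g := g) (g' := fun j => if j < i then g j else p) (l := l) (i := j)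
        fun x hx => (if_pos (by omega)).symm]
    · have hji : j = i := by omega
      subst hji
      rw [if_neg h]
      exact hG.lip ω hω b hb' l hl

/-- **The ball label.** -/
theorem zg_fam (m D r : ℕ) (hD : 2 ≤ D) : ∃ C : ℕ, 1 ≤ C ∧ ∀ {J : ℕ} {F : Fam m J}
    {c : ℕ → Fin m} {a e k n p p' : ℕ} {g : ℕ → ℕ} {η θ : ℝ} {A : F.Ω → Prop}
    {G : PtT F → ℕ → MvPolynomial (Option (Fin m)) ℝ}
    {H : LnT F → ℕ → MvPolynomial (Option (Fin m)) ℝ}
    {R : LnT F → MvPolynomial (Option (Fin m)) ℝ}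
    {Γ : LnT F → Option (Fin m) → Option (Fin m) → ℝ}
    {Gi : PtT F → MvPolynomial (Option (Fin m)) ℝ} (hA : 0 < Pe F.p A),
    Set.InjOn c (Set.Iio r) → a ≤ J → ZDat F c r D a e k g p η A G H R Γ → 0 < η → 0 ≤ θ →
    (Fam.sub F A hA).Tm θ → C * (θ + 1) ≤ ((J : ℝ) - a) * Real.log 2 →
    Real.exp (C * (θ + 1)) ≤ 2 ^ n → VPol F c r D a e p' g G A Gi →
    (∀ ω, A ω → ∀ b, NBx c (G (ptr F J ω)) g a (F.t ω) r b →
      |eval b (Gi (ptr F J ω)) - tv (R (slam F a ω)) (Γ (slam F a ω)) (bt F ω) b| ≤ η / 2 ^ p) →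
    2 ^ (C * (k + n + 1)) * (η / 2 ^ p) ≤ 1 / 2 ^ p' →
    ∃ B : F.Ω → Prop, Sub B A ∧ Pe F.p A / 2 ≤ Pe F.p B ∧
      ChN F c (r + 1) (fun _ => D) a a e (fun j => if j < r then g j else p') B := by
  obtain ⟨C, hC, hz⟩ := zg_near m D r (by omega)
  refine ⟨C + 1, by omega, ?_⟩
  intro J F c a e k n p p' g η θ A G H R Γ Gi hA hc haJ hd hη hθ hTm hCJ hexp hV htay hnum
  have hθ1 : 0 ≤ θ + 1 := by linarith
  have hCC : (C : ℝ) * (θ + 1) ≤ ((C + 1 : ℕ) : ℝ) * (θ + 1) := by
    refine mul_le_mul_of_nonneg_right ?_ hθ1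
    push_cast
    linarith
  obtain ⟨B, h1, h2, h3⟩ := hz hA hc haJ hd hη hθ hTm (hCC.trans hCJ)
    ((Real.exp_le_exp.2 hCC).trans hexp)
  refine ⟨B, h1, h2, _, _, ext_fam (Hi := fun s => Ty (R s) (Γ s) (xt a s 0))
    (fun _ => le_rfl) (hd.ch.sub h1) (hV.sub h1) (fun s => (deg_Ty _ _ _).trans hD)
    (fun s => dep_Ty (hd.pR s) (hd.sym s) (hd.sup s) _) fun ω hω b hb => ?_⟩
  have e1 := htay ω (h1 ω hω) b hb
  have e2 := h3 ω hω b hb
  rw [eval_Ty]
  have e3 : eval b (Gi (ptr F J ω)) -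
      tv (R (slam F a ω)) (Γ (slam F a ω)) (xt a (slam F a ω) 0) b =
      (eval b (Gi (ptr F J ω)) - tv (R (slam F a ω)) (Γ (slam F a ω)) (bt F ω) b) +
      (tv (R (slam F a ω)) (Γ (slam F a ω)) (bt F ω) b -
        tv (R (slam F a ω)) (Γ (slam F a ω)) (xt a (slam F a ω) 0) b) := by ring
  rw [e3]
  refine (abs_add_le _ _).trans ((add_le_add e1 e2).trans (le_trans ?_ hnum))
  have e4 : (1 : ℝ) ≤ 2 ^ (C * (k + n + 1)) := one_le_pow₀ (by norm_num)
  have e5 : (2 : ℝ) * 2 ^ (C * (k + n + 1)) ≤ 2 ^ ((C + 1) * (k + n + 1)) := by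
    rw [add_mul, one_mul, pow_add, mul_comm]
    refine mul_le_mul_of_nonneg_left ?_ (by positivity)
    calc (2 : ℝ) = 2 ^ 1 := (pow_one 2).symm
      _ ≤ _ := pow_le_pow_right₀ (by norm_num) (by omega)
  have e6 : (0 : ℝ) ≤ η / 2 ^ p := by positivity
  nlinarith

end Pool.D2Z
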