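import Pool.Agent.H60.D2.Trf
import Pool.Agent.H64.F5.Pln
import Pool.Agent.H64.F5.NatH
import Pool.Agent.H31.F5.PlaneJ

/-!
# D2: the curvature on the natural boxes, for the first two coordinates

`box_cls`: the second derivative of the ball chart is natural on the natural boxes (`NatH`), for the
places `0` and `1`, without any hypothesis: the lines through the exact point are near
the charts, and there are many of them.
-/

set_option autoImplicit false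

namespace Pool.D2Z

open Finset Real MvPolynomial
open Pool.Agent.H49.Ent Pool.Agent.H32.Dense Pool.STK Pool.KA Pool.KSAT Pool.K2S Pool.PB Pool.S6C
open Pool.GEN Pool.CHT Pool.CHX Pool.D2F Pool.D2R
open Pool.FLF (Fam.sub)
open Pool.LBT (ThrOf)
open Pool.PB.Trl (rt rt_mem t_rt)
open Pool.F5 (NatH)

variable {m J : ℕ}

/-- The first derivative only depends on the coordinates of the chart. -/
theorem dd_dep {c : ℕ → Fin m} {r : ℕ} {Q : MvPolynomial (Option (Fin m)) ℝ} (hQ : DepC c r Q)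
    {x x' W W' : Option (Fin m) → ℝ} (x0 : x none = x' none)
    (xl : ∀ l < r, x (some (c l)) = x' (some (c l))) (w0 : W none = W' none)
    (wl : ∀ l < r, W (some (c l)) = W' (some (c l))) : dd Q x W = dd Q x' W' := by
  rw [dd_congr hQ x w0 wl]
  unfold dd
  exact Finset.sum_congr rfl fun o _ => by rw [depC_pderiv hQ o x x' x0 xl]

/-- The second derivative only depends on the coordinates of the chart. -/
theorem hs_dep {c : ℕ → Fin m} {r : ℕ} {Q : MvPolynomial (Option (Fin m)) ℝ} (hQ : DepC c r Q)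
    {x x' W W' V V' : Option (Fin m) → ℝ} (x0 : x none = x' none)
    (xl : ∀ l < r, x (some (c l)) = x' (some (c l))) (w0 : W none = W' none)
    (wl : ∀ l < r, W (some (c l)) = W' (some (c l))) (v0 : V none = V' none)
    (vl : ∀ l < r, V (some (c l)) = V' (some (c l))) : hs Q x W V = hs Q x' W' V' := by
  unfold hs
  refine Finset.sum_congr rfl fun o _ => ?_
  have h1 : dd (pderiv o Q) x W = dd (pderiv o Q) x' W' := dd_dep (depC_pderiv hQ o) x0 xl w0 wl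
  cases o with
  | none => rw [h1, v0]
  | some k =>
    by_cases h9 : ∃ j < r, c j = k
    · obtain ⟨j, h10, rfl⟩ := h9
      rw [h1, vl j h10]
    · have h2 : pderiv (some k) Q = 0 := pd_zero' hQ fun j h10 h11 => h9 ⟨j, h10, h11⟩
      rw [h2]
      unfold dd
      simp

/-- A polynomial with bounded coefficients. -/
theorem cf_val {K : ℕ} {q : Polynomial ℝ} {A : ℝ} (hq : q.natDegree ≤ K)
    (h : ∀ j, |q.coeff j| ≤ A) : (∀ x : ℝ, |x| ≤ 2 → |q.eval x| ≤ (K + 1) * (2 ^ K * A)) ∧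
      (Polynomial.derivative q).natDegree ≤ K ∧
      ∀ j, |(Polynomial.derivative q).coeff j| ≤ (K + 1) * A := by
  have hA : 0 ≤ A := (abs_nonneg _).trans (h 0)
  refine ⟨fun x hx => ?_, (Polynomial.natDegree_derivative_le q).trans (by omega), fun j => ?_⟩
  · rw [Polynomial.eval_eq_sum_range' (Nat.lt_succ_of_le hq)]
    refine (Finset.abs_sum_le_sum_abs _ _).trans ?_
    have h1 : ∀ j ∈ range (K + 1), |q.coeff j * x ^ j| ≤ 2 ^ K * A := by
      intro j hj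
      have hj' := Finset.mem_range.1 hj
      rw [abs_mul, abs_pow, mul_comm]
      refine mul_le_mul ?_ (h j) (abs_nonneg _) (by positivity)
      calc |x| ^ j ≤ 2 ^ j := pow_le_pow_left₀ (abs_nonneg _) hx j
        _ ≤ 2 ^ K := pow_le_pow_right₀ (by norm_num) (by omega)
    refine (Finset.sum_le_sum h1).trans (le_of_eq ?_)
    rw [Finset.sum_const, Finset.card_range, nsmul_eq_mul]
    push_cast
    ring
  · rw [Polynomial.coeff_derivative]
    rcases lt_or_ge K (j + 1) with h1 | h1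
    · rw [Polynomial.coeff_eq_zero_of_natDegree_lt (hq.trans_lt h1), zero_mul, abs_zero]
      positivity
    · rw [abs_mul, mul_comm]
      refine mul_le_mul ?_ (h _) (abs_nonneg _) (by positivity)
      have : ((j + 1 : ℕ) : ℝ) ≤ K := by exact_mod_cast h1
      rw [abs_of_nonneg (by positivity)]
      push_cast at this
      linarith

/-- **A line through the exact point** is near the ball chart, with two derivatives. -/
theorem own_two (m D r : ℕ) (hD : 1 ≤ D) : ∃ C : ℕ, 1 ≤ C ∧ ∀ {J : ℕ} {F : Fam m J} {c : ℕ → Fin m}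
    {a e k : ℕ} {g : ℕ → ℕ} {A : F.Ω → Prop} {G : PtT F → ℕ → MvPolynomial (Option (Fin m)) ℝ}
    {H : LnT F → ℕ → MvPolynomial (Option (Fin m)) ℝ}, Set.InjOn c (Set.Iio (r + 1)) → a ≤ J →
    ChOK F c (r + 1) (fun _ => D) a a e g A G H → (∀ l ≤ r, e + g l + C * (k + 1) ≤ J) →
    (∀ ω, A ω → ∀ l ≤ r, ∀ τ ∈ Set.Icc (0 : ℝ) 1,
      |(dv a (fun s _ => H s l) (c l) (slam F a ω)).eval τ| ≤ 2 ^ k / 2 ^ g l) →
    ∀ ω ν, A ω → A ν → ptr F J ω = ptr F J ν → ∀ l ≤ r, ∀ α : ℝ, |α| ≤ 1 →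
      |(bt F ω + α • ((1 / 2 ^ a : ℝ) • bd F ν)) (some (c l)) -
        eval (bt F ω + α • ((1 / 2 ^ a : ℝ) • bd F ν)) (G (ptr F J ω) l)| ≤
          2 ^ (C * (k + 1)) / 2 ^ g l ∧
      |((1 / 2 ^ a : ℝ) • bd F ν) (some (c l)) - dd (G (ptr F J ω) l)
        (bt F ω + α • ((1 / 2 ^ a : ℝ) • bd F ν)) ((1 / 2 ^ a : ℝ) • bd F ν)| ≤
          2 ^ (C * (k + 1)) / 2 ^ g l ∧
      |hs (G (ptr F J ω) l) (bt F ω + α • ((1 / 2 ^ a : ℝ) • bd F ν))
        ((1 / 2 ^ a : ℝ) • bd F ν) ((1 / 2 ^ a : ℝ) • bd F ν)| ≤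
          2 ^ (C * (k + 1)) / 2 ^ g l := by
  obtain ⟨C₁, hC₁, hpb⟩ := path_box m D r
  obtain ⟨C₂, hC₂, huc⟩ := Pool.Agent.H40.FR.unit_coef D
  obtain ⟨N₀, hN₀⟩ : ∃ N₀ : ℕ, C₂ * ((D + 1) ^ 3 * 2 ^ D) ≤ 2 ^ N₀ :=
    (pow_unbounded_of_one_lt _ one_lt_two).imp fun _ h => h.le
  refine ⟨C₁ + N₀, by omega, ?_⟩
  intro J F c a e k g A G H hc haJ hch hJ hown ω ν hω hν hpt l hl α hα
  have hS : ∀ x : ℝ, x ≤ C₂ * (2 ^ (C₁ * (k + 1)) / 2 ^ g l) * ((D + 1) ^ 3 * 2 ^ D) →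
      x ≤ 2 ^ ((C₁ + N₀) * (k + 1)) / 2 ^ g l := by
    intro x hx
    refine hx.trans ?_
    have e1 : C₂ * (2 ^ (C₁ * (k + 1)) / 2 ^ g l) * ((D + 1 : ℝ) ^ 3 * 2 ^ D) =
        C₂ * ((D + 1) ^ 3 * 2 ^ D) * 2 ^ (C₁ * (k + 1)) / 2 ^ g l := by ring
    rw [e1]
    refine div_le_div_of_nonneg_right ?_ (by positivity)
    calc C₂ * ((D + 1 : ℝ) ^ 3 * 2 ^ D) * 2 ^ (C₁ * (k + 1)) ≤ 2 ^ N₀ * 2 ^ (C₁ * (k + 1)) :=
          mul_le_mul_of_nonneg_right hN₀ (by positivity)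
      _ = 2 ^ (N₀ + C₁ * (k + 1)) := (pow_add _ _ _).symm
      _ ≤ 2 ^ ((C₁ + N₀) * (k + 1)) := pow_le_pow_right₀ (by norm_num) (by nlinarith)
  obtain ⟨f, hf⟩ : ∃ f : Polynomial ℝ, f = lc a (slam F a ν) (some (c l)) +
      Polynomial.C (F.x ω (c l) - F.x ν (c l)) - MvPolynomial.aeval
        (fun o => lc a (slam F a ν) o + Polynomial.C (bt F ω o - bt F ν o)) (G (ptr F J ω) l) :=
    ⟨_, rfl⟩
  have hP1 : ∀ o, (lc a (slam F a ν) o + Polynomial.C (bt F ω o - bt F ν o)).natDegree ≤ 1 := by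
    intro o
    refine (Polynomial.natDegree_add_le _ _).trans (max_le (natDegree_lc a _ o) ?_)
    rw [Polynomial.natDegree_C]
    exact Nat.zero_le _
  have hfd : f.natDegree ≤ D := by
    rw [hf]
    refine (Polynomial.natDegree_sub_le _ _).trans (max_le ?_ ?_)
    · exact (hP1 (some (c l))).trans hD
    · exact Pool.KBX.natDegree_aeval_le _ _ hP1 (hch.degG _ l)
  have hfe : ∀ τ, f.eval τ = (lc a (slam F a ν) (some (c l))).eval τ + (F.x ω (c l) - F.x ν (c l)) -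
      eval (fun o => (lc a (slam F a ν) o).eval τ + (bt F ω o - bt F ν o)) (G (ptr F J ω) l) := by
    intro τ
    rw [hf, Polynomial.eval_sub, Polynomial.eval_add, Polynomial.eval_C,
      Pool.KBX.eval_aeval_poly]
    congr 2
    congr 1
    funext o
    rw [Polynomial.eval_add, Polynomial.eval_C]
  have hfb : ∀ τ ∈ Set.Icc (0 : ℝ) 1, |f.eval τ| ≤ 2 ^ (C₁ * (k + 1)) / 2 ^ g l := by
    intro τ hτ
    have h1 := hpb (k := k) hc haJ hch (fun l hl => by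
      have := hJ l hl
      nlinarith [Nat.zero_le (N₀ * (k + 1))]) ω ν hω hν hpt (hown ν hν) τ hτ 1
      ⟨zero_le_one, le_rfl⟩ l hl
    rw [hfe]
    have e1 : (fun o => (lc a (slam F a ν) o).eval τ + 1 * (bt F ω o - bt F ν o)) =
        fun o => (lc a (slam F a ν) o).eval τ + (bt F ω o - bt F ν o) := by
      funext o
      rw [one_mul]
    rw [one_mul, e1] at h1
    exact h1
  have hcf := huc f _ hfd hfb
  obtain ⟨v1, v2, v3⟩ := cf_val hfd hcf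
  obtain ⟨w1, w2, w3⟩ := cf_val v2 v3
  obtain ⟨z1, -, -⟩ := cf_val w2 w3
  -- the point
  obtain ⟨τ, hτ⟩ : ∃ τ, τ = rt F a ν + α := ⟨_, rfl⟩
  have hτ2 : |τ| ≤ 2 := by
    have h1 := rt_mem F a ν
    rw [hτ, abs_le] at *
    constructor <;> linarith [h1.1, h1.2, hα.1, hα.2]
  have hpt2 : ∀ s, (fun o => (lc a (slam F a ν) o).eval (rt F a ν + s) + (bt F ω o - bt F ν o)) =
      bt F ω + s • ((1 / 2 ^ a : ℝ) • bd F ν) := by
    intro s
    funext o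
    have e1 : (lc a (slam F a ν) o).eval (rt F a ν + s) =
        (lc a (slam F a ν) o).eval (rt F a ν) + s * (1 / 2 ^ a * bd F ν o) := by
      have e2 : bd F ν = wd (slam F a ν) := (wd_slam F a ν).symm
      cases o with
      | none =>
        simp only [lc, Polynomial.eval_add, Polynomial.eval_mul, Polynomial.eval_C,
          Polynomial.eval_X]
        show _ = _ + s * (1 / 2 ^ a * 1)
        ring
      | some j =>
        simp only [lc, Polynomial.eval_add, Polynomial.eval_mul, Polynomial.eval_C,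
          Polynomial.eval_X]
        have e3 : bd F ν (some j) = (slam F a ν).1.2 j := rfl
        rw [e3]
        ring
    rw [e1, eval_lc F haJ ν o, Pi.add_apply, Pi.smul_apply, Pi.smul_apply, smul_eq_mul,
      smul_eq_mul]
    ring
  have hxc : ∀ s, (lc a (slam F a ν) (some (c l))).eval (rt F a ν + s) +
      (F.x ω (c l) - F.x ν (c l)) =
      (bt F ω + s • ((1 / 2 ^ a : ℝ) • bd F ν)) (some (c l)) := fun s =>
    congrFun (hpt2 s) (some (c l))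
  -- the derivatives
  have hder := der_curve (fun o => lc a (slam F a ν) o + Polynomial.C (bt F ω o - bt F ν o))
    (x := bt F ω + α • ((1 / 2 ^ a : ℝ) • bd F ν)) (V := (1 / 2 ^ a : ℝ) • bd F ν) (Z := 0)
    (s := τ) (fun o => by
      rw [Polynomial.eval_add, Polynomial.eval_C, hτ]
      exact congrFun (hpt2 α) o) (fun o => by
      rw [Polynomial.derivative_add, Polynomial.derivative_C, add_zero, der_lc,
        Polynomial.eval_C]; rfl) (fun o => by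
      rw [Polynomial.derivative_add, Polynomial.derivative_C, add_zero, der_lc,
        Polynomial.derivative_C, Polynomial.eval_zero]; rfl) (G (ptr F J ω) l)
  have hd0 : dd (G (ptr F J ω) l) (bt F ω + α • ((1 / 2 ^ a : ℝ) • bd F ν))
      (0 : Option (Fin m) → ℝ) = 0 := by
    unfold dd
    simp
  rw [hd0, add_zero] at hder
  have hf1 : (Polynomial.derivative f).eval τ = ((1 / 2 ^ a : ℝ) • bd F ν) (some (c l)) -
      dd (G (ptr F J ω) l) (bt F ω + α • ((1 / 2 ^ a : ℝ) • bd F ν))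
        ((1 / 2 ^ a : ℝ) • bd F ν) := by
    rw [hf, Polynomial.derivative_sub, Polynomial.derivative_add, Polynomial.derivative_C,
      add_zero, Polynomial.eval_sub, hder.1, der_lc, Polynomial.eval_C]
    rfl
  have hf2 : (Polynomial.derivative (Polynomial.derivative f)).eval τ =
      -hs (G (ptr F J ω) l) (bt F ω + α • ((1 / 2 ^ a : ℝ) • bd F ν))
        ((1 / 2 ^ a : ℝ) • bd F ν) ((1 / 2 ^ a : ℝ) • bd F ν) := by
    rw [hf, Polynomial.derivative_sub, Polynomial.derivative_add, Polynomial.derivative_C,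
      add_zero, Polynomial.derivative_sub, Polynomial.eval_sub, hder.2, der_lc,
      Polynomial.derivative_C, Polynomial.eval_zero, zero_sub]
  have hX : 0 ≤ C₂ * (2 ^ (C₁ * (k + 1)) / 2 ^ g l : ℝ) := by positivity
  have hD0 : (1 : ℝ) ≤ (D : ℝ) + 1 := by linarith [(Nat.cast_nonneg D : (0 : ℝ) ≤ D)]
  have hp2 : (0 : ℝ) < 2 ^ D := by positivity
  refine ⟨hS _ ?_, hS _ ?_, hS _ ?_⟩
  · have h1 := v1 τ hτ2
    rw [hfe, hτ, hxc, hpt2] at h1
    refine h1.trans ?_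
    have e1 : (D + 1 : ℝ) * (2 ^ D * (C₂ * (2 ^ (C₁ * (k + 1)) / 2 ^ g l))) =
        C₂ * (2 ^ (C₁ * (k + 1)) / 2 ^ g l) * ((D + 1) ^ 1 * 2 ^ D) := by ring
    rw [e1]
    exact mul_le_mul_of_nonneg_left (mul_le_mul_of_nonneg_right
      (pow_le_pow_right₀ hD0 (by norm_num)) hp2.le) hX
  · have h1 := w1 τ hτ2
    rw [hf1] at h1
    refine h1.trans ?_
    have e1 : (D + 1 : ℝ) * (2 ^ D * ((D + 1) * (C₂ * (2 ^ (C₁ * (k + 1)) / 2 ^ g l)))) =
        C₂ * (2 ^ (C₁ * (k + 1)) / 2 ^ g l) * ((D + 1) ^ 2 * 2 ^ D) := by ring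
    rw [e1]
    exact mul_le_mul_of_nonneg_left (mul_le_mul_of_nonneg_right
      (pow_le_pow_right₀ hD0 (by norm_num)) hp2.le) hX
  · have h1 := z1 τ hτ2
    rw [hf2, abs_neg] at h1
    refine h1.trans (le_of_eq ?_)
    ring

/-- **The curvature on the boxes**, from the lines through the exact point. -/
theorem box_pt (m D : ℕ) (hD : 1 ≤ D) : ∃ C : ℕ, 1 ≤ C ∧ ∀ {J : ℕ} {F : Fam m J} {c : ℕ → Fin m}
    {a e k κ : ℕ} {g : ℕ → ℕ} {A : F.Ω → Prop} {G : PtT F → ℕ → MvPolynomial (Option (Fin m)) ℝ}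
    {H : LnT F → ℕ → MvPolynomial (Option (Fin m)) ℝ}, Set.InjOn c (Set.Iio 2) → a ≤ J →
    ChOK F c 2 (fun _ => D) a a e g A G H → (∀ l ≤ 1, e + g l + C * (k + 1) ≤ J) →
    (∀ ω, A ω → ∀ l ≤ 1, ∀ τ ∈ Set.Icc (0 : ℝ) 1,
      |(dv a (fun s _ => H s l) (c l) (slam F a ω)).eval τ| ≤ 2 ^ k / 2 ^ g l) →
    ∀ (ω : F.Ω) (ν : Fin (D + 1) → F.Ω), A ω → (∀ i, A (ν i) ∧ ptr F J (ν i) = ptr F J ω) →
    (∀ i j, i ≠ j → 1 / 2 ^ κ ≤ 2 ^ g 0 * |(1 / 2 ^ a : ℝ) * bd F (ν i) (some (c 0)) -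
      (1 / 2 ^ a : ℝ) * bd F (ν j) (some (c 0))|) → ∀ l ≤ 1, ∀ b,
    NBx c (G (ptr F J ω)) g a (F.t ω) l b → ∀ V V' : Option (Fin m) → ℝ,
      |hs (G (ptr F J ω) l) b V V'| ≤ 2 ^ (C * (k + κ + 1)) / 2 ^ g l *
        nrm c (G (ptr F J ω)) g a l b V * nrm c (G (ptr F J ω)) g a l b V' := by
  obtain ⟨C₁, hC₁, hot⟩ := own_two m D 1 hD
  obtain ⟨C₂, hC₂, N, hpl⟩ := Pool.F5.plane_hs D
  obtain ⟨N₂, hN₂⟩ : ∃ N₂ : ℕ, C₂ * (D : ℝ) ^ N ≤ 2 ^ N₂ :=
    (pow_unbounded_of_one_lt _ one_lt_two).imp fun _ h => h.le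
  obtain ⟨C, hC⟩ : ∃ C : ℕ, C = N₂ + (C₁ + 3) * (N + 3) + 2 * N + 10 := ⟨_, rfl⟩
  refine ⟨C, by omega, ?_⟩
  intro J F c a e k κ g A G H hc haJ hch hJ hown ω ν hω hν hsep
  have hCC : C₁ ≤ C := by
    rw [hC]
    nlinarith
  have hot' := hot (k := k) hc haJ hch (fun l hl => by
    have := hJ l hl
    nlinarith) hown
  have ha0 : (0 : ℝ) < 2 ^ a := by positivity
  have hg0 : (0 : ℝ) < 2 ^ g 0 := by positivity
  obtain ⟨y, hy⟩ : ∃ y, y = ptr F J ω := ⟨_, rfl⟩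
  obtain ⟨x, hx⟩ : ∃ x, x = bt F ω := ⟨_, rfl⟩
  obtain ⟨U₀, hU₀⟩ : ∃ U₀ : Option (Fin m) → ℝ, U₀ = (1 / 2 ^ a : ℝ) • bd F ω := ⟨_, rfl⟩
  obtain ⟨k₁, hk₁⟩ : ∃ k₁, k₁ = C₁ * (k + 1) := ⟨_, rfl⟩
  have hU0n : U₀ none = 1 / 2 ^ a := by
    rw [hU₀]
    show (1 / 2 ^ a : ℝ) * 1 = _
    ring
  have hxn : x none = F.t ω := by
    rw [hx]
    rfl
  have h0 := fun l hl α hα => hot' ω ω hω hω rfl l hl α hα
  rw [← hy, ← hx, ← hU₀, ← hk₁] at h0
  -- the relative time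
  have hrel : ∀ b : Option (Fin m) → ℝ, |b none - F.t ω| ≤ 1 / 2 ^ a →
      ∃ α : ℝ, |α| ≤ 1 ∧ b none = (x + α • U₀) none := by
    intro b hb
    refine ⟨2 ^ a * (b none - F.t ω), ?_, ?_⟩
    · rw [abs_mul, abs_of_pos ha0]
      calc (2 : ℝ) ^ a * |b none - F.t ω| ≤ 2 ^ a * (1 / 2 ^ a) :=
            mul_le_mul_of_nonneg_left hb ha0.le
        _ = 1 := by field_simp
    · rw [Pi.add_apply, Pi.smul_apply, smul_eq_mul, hU0n, hxn]
      field_simp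
      ring
  have hdep := hch.depG y
  have hone : (1 : ℝ) ≤ 2 ^ (C * (k + κ + 1)) := one_le_pow₀ (by norm_num)
  -- the first coordinate
  have hz : ∀ b : Option (Fin m) → ℝ, ∀ α : ℝ, |α| ≤ 1 → b none = (x + α • U₀) none →
      ∀ V V' : Option (Fin m) → ℝ, |hs (G y 0) b V V'| ≤
        2 ^ k₁ / 2 ^ g 0 * (2 ^ a * |V none|) * (2 ^ a * |V' none|) := by
    intro b α hα hb V V'
    have h1 := (h0 0 (by norm_num) α hα).2.2
    have e1 : hs (G y 0) b V V' = (2 ^ a * V none) * ((2 ^ a * V' none) *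
        hs (G y 0) (x + α • U₀) U₀ U₀) := by
      rw [← hs_smul_right, ← hs_smul_left]
      refine hs_dep (hdep 0) hb (fun l hl => absurd hl (Nat.not_lt_zero l)) ?_
        (fun l hl => absurd hl (Nat.not_lt_zero l)) ?_ (fun l hl => absurd hl (Nat.not_lt_zero l))
      · rw [Pi.smul_apply, smul_eq_mul, hU0n]
        field_simp
      · rw [Pi.smul_apply, smul_eq_mul, hU0n]
        field_simp
    rw [e1, abs_mul, abs_mul, abs_mul, abs_mul, abs_of_pos ha0]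
    calc 2 ^ a * |V none| * (2 ^ a * |V' none| * |hs (G y 0) (x + α • U₀) U₀ U₀|) ≤
          2 ^ a * |V none| * (2 ^ a * |V' none| * (2 ^ k₁ / 2 ^ g 0)) := by gcongr
      _ = _ := by ring
  intro l hl b hb V V'
  rw [← hy] at hb ⊢
  obtain ⟨α, hα, hbα⟩ := hrel b hb.1
  have hkk : k₁ ≤ C * (k + κ + 1) := by
    rw [hk₁]
    nlinarith
  rcases Nat.eq_zero_or_pos l with hl0 | hl0
  · rw [hl0]
    have e1 : ∀ V : Option (Fin m) → ℝ, nrm c (G y) g a 0 b V = 2 ^ a * |V none| := by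
      intro V
      unfold nrm
      rw [Finset.sum_range_zero, add_zero]
    rw [e1, e1]
    refine (hz b α hα hbα V V').trans ?_
    refine mul_le_mul_of_nonneg_right (mul_le_mul_of_nonneg_right (div_le_div_of_nonneg_right
      (pow_le_pow_right₀ (by norm_num) hkk) hg0.le) (by positivity)) (by positivity)
  have hl1 : l = 1 := by omega
  rw [hl1] at hb ⊢
  -- the plane
  obtain ⟨U₁, hU₁⟩ : ∃ U₁ : Option (Fin m) → ℝ,
      U₁ = fun o => if o = some (c 0) then 1 / 2 ^ g 0 else 0 := ⟨_, rfl⟩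
  have hU1n : U₁ none = 0 := by rw [hU₁]; simp
  have hU1c : U₁ (some (c 0)) = 1 / 2 ^ g 0 := by rw [hU₁]; simp
  obtain ⟨E, hE⟩ : ∃ E : Fin (D + 1) → ℝ, E = fun i => 2 ^ g 0 *
      (((1 / 2 ^ a : ℝ) • bd F (ν i)) (some (c 0)) - U₀ (some (c 0))) := ⟨_, rfl⟩
  obtain ⟨R, hR⟩ : ∃ R : ℝ, R = 2 ^ (k₁ + 2) := ⟨_, rfl⟩
  obtain ⟨mu, hmu⟩ : ∃ mu : ℝ, mu = 1 / 2 ^ κ / D := ⟨_, rfl⟩
  have hD0 : (0 : ℝ) < D := by exact_mod_cast (by omega : 0 < D)
  have hD1 : (1 : ℝ) ≤ D := by exact_mod_cast hD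
  have hmu0 : 0 < mu := by rw [hmu]; positivity
  have hκ1 : (1 : ℝ) / 2 ^ κ ≤ 1 := by
    rw [div_le_one (by positivity)]
    exact one_le_pow₀ (by norm_num)
  have hmu1 : mu ≤ 1 := by
    rw [hmu, div_le_one hD0]
    linarith
  have hmuκ : mu ≤ 1 / 2 ^ κ := by
    rw [hmu, div_le_iff₀ hD0]
    nlinarith [show (0 : ℝ) < 1 / 2 ^ κ by positivity]
  have hR4 : R = 4 * 2 ^ k₁ := by
    rw [hR, pow_add]
    norm_num
    ring
  have hk11 : (1 : ℝ) ≤ 2 ^ k₁ := one_le_pow₀ (by norm_num)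
  have hR1 : 1 ≤ R := by
    rw [hR4]
    linarith
  have hU0c : ∀ i, ((1 / 2 ^ a : ℝ) • bd F (ν i)) (some (c 0)) = (U₀ + E i • U₁) (some (c 0)) := by
    intro i
    rw [Pi.add_apply, Pi.smul_apply _ U₁, smul_eq_mul, hU1c, hE]
    field_simp
    ring
  have hUn : ∀ i, ((1 / 2 ^ a : ℝ) • bd F (ν i)) none = (U₀ + E i • U₁) none := by
    intro i
    rw [Pi.add_apply, Pi.smul_apply _ U₁, smul_eq_mul, hU1n, mul_zero, add_zero, hU0n]
    show (1 / 2 ^ a : ℝ) * 1 = _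
    ring
  have hEb : ∀ i, |E i| ≤ R := by
    intro i
    obtain ⟨h1, h2⟩ := hν i
    have q1 := (hot' ω (ν i) hω h1 h2.symm 0 (by norm_num) 0 (by simp)).2.1
    have q2 := (h0 0 (by norm_num) 0 (by simp)).2.1
    rw [← hy, ← hx, ← hk₁] at q1
    have e1 : dd (G y 0) (x + (0 : ℝ) • ((1 / 2 ^ a : ℝ) • bd F (ν i)))
        ((1 / 2 ^ a : ℝ) • bd F (ν i)) = dd (G y 0) (x + (0 : ℝ) • U₀) U₀ := by
      refine dd_dep (hdep 0) (by simp) (fun l hl => absurd hl (Nat.not_lt_zero l)) ?_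
        (fun l hl => absurd hl (Nat.not_lt_zero l))
      rw [hU0n]
      show (1 / 2 ^ a : ℝ) * 1 = _
      ring
    rw [e1] at q1
    have e2 : E i = 2 ^ g 0 * ((((1 / 2 ^ a : ℝ) • bd F (ν i)) (some (c 0)) -
        dd (G y 0) (x + (0 : ℝ) • U₀) U₀) - (U₀ (some (c 0)) -
        dd (G y 0) (x + (0 : ℝ) • U₀) U₀)) := by
      rw [hE]
      ring
    rw [e2, abs_mul, abs_of_pos hg0]
    have e3 := (abs_sub (((1 / 2 ^ a : ℝ) • bd F (ν i)) (some (c 0)) -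
        dd (G y 0) (x + (0 : ℝ) • U₀) U₀) (U₀ (some (c 0)) -
        dd (G y 0) (x + (0 : ℝ) • U₀) U₀)).trans (add_le_add q1 q2)
    calc 2 ^ g 0 * _ ≤ 2 ^ g 0 * (2 ^ k₁ / 2 ^ g 0 + 2 ^ k₁ / 2 ^ g 0) :=
          mul_le_mul_of_nonneg_left e3 hg0.le
      _ = 2 * 2 ^ k₁ := by field_simp; ring
      _ ≤ R := by rw [hR4]; linarith
  have hEs : ∀ i j, i ≠ j → mu ≤ |E i - E j| := by
    intro i j hij
    have h1 := hsep i j hij
    have e1 : E i - E j = 2 ^ g 0 * ((1 / 2 ^ a : ℝ) * bd F (ν i) (some (c 0)) -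
        (1 / 2 ^ a : ℝ) * bd F (ν j) (some (c 0))) := by
      rw [hE]
      show 2 ^ g 0 * ((1 / 2 ^ a : ℝ) * bd F (ν i) (some (c 0)) - U₀ (some (c 0))) -
        2 ^ g 0 * ((1 / 2 ^ a : ℝ) * bd F (ν j) (some (c 0)) - U₀ (some (c 0))) = _
      ring
    rw [e1, abs_mul, abs_of_pos hg0]
    exact hmuκ.trans h1
  obtain ⟨tn, t1, t2, t3⟩ := Pool.F5.nodes hD (fun _ : Fin (D + 1) => (0 : ℝ))
    (fun _ => ⟨le_rfl, zero_le_one⟩) hκ1
  have hm := hpl (G y 1) x U₀ U₁ E tn R mu (2 ^ k₁ / 2 ^ g 1) (hch.degG y 1) hR1 hmu0 hmu1 hEb hEs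
    t1 (fun j i i' hii => by
      rw [hmu]
      exact t2 j i i' hii) (fun j i => by
      obtain ⟨h1, h2⟩ := hν j
      have q1 := (hot' ω (ν j) hω h1 h2.symm 1 le_rfl (tn j i) (t1 j i)).2.2
      rw [← hy, ← hx, ← hk₁] at q1
      have e1 : hs (G y 1) (x + tn j i • (U₀ + E j • U₁)) (U₀ + E j • U₁) (U₀ + E j • U₁) =
          hs (G y 1) (x + tn j i • ((1 / 2 ^ a : ℝ) • bd F (ν j))) ((1 / 2 ^ a : ℝ) • bd F (ν j))
            ((1 / 2 ^ a : ℝ) • bd F (ν j)) := by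
        have f1 : ∀ l < 1, (U₀ + E j • U₁) (some (c l)) =
            ((1 / 2 ^ a : ℝ) • bd F (ν j)) (some (c l)) := by
          intro l hl
          rw [Nat.lt_one_iff.1 hl]
          exact (hU0c j).symm
        refine hs_dep (hdep 1) ?_ ?_ (hUn j).symm f1 (hUn j).symm f1
        · rw [Pi.add_apply, Pi.add_apply, Pi.smul_apply, Pi.smul_apply, hUn j]
        · intro l hl
          rw [Pi.add_apply, Pi.add_apply, Pi.smul_apply, Pi.smul_apply, f1 l hl]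
      rw [e1]
      exact q1)
  -- the bound
  obtain ⟨K, hK⟩ : ∃ K : ℝ, K = C₂ * (R / mu) ^ N * (2 ^ k₁ / 2 ^ g 1) := ⟨_, rfl⟩
  have hK0 : 0 ≤ K := by
    rw [hK]
    positivity
  rw [← hK] at hm
  obtain ⟨β, hβ⟩ : ∃ β : ℝ, β = 2 ^ g 0 * (b (some (c 0)) - (x + α • U₀) (some (c 0))) :=
    ⟨_, rfl⟩
  have hβb : |β| ≤ R := by
    have h1 := hb.2 0 one_pos
    have h2 := (h0 0 (by norm_num) α hα).1
    have e1 : eval b (G y 0) = eval (x + α • U₀) (G y 0) :=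
      hdep 0 b (x + α • U₀) hbα fun l hl => absurd hl (Nat.not_lt_zero l)
    rw [e1] at h1
    have e2 : β = 2 ^ g 0 * ((b (some (c 0)) - eval (x + α • U₀) (G y 0)) -
        ((x + α • U₀) (some (c 0)) - eval (x + α • U₀) (G y 0))) := by
      rw [hβ]
      ring
    rw [e2, abs_mul, abs_of_pos hg0]
    have e3 := (abs_sub (b (some (c 0)) - eval (x + α • U₀) (G y 0))
        ((x + α • U₀) (some (c 0)) - eval (x + α • U₀) (G y 0))).trans (add_le_add h1 h2)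
    calc 2 ^ g 0 * _ ≤ 2 ^ g 0 * (1 / 2 ^ g 0 + 2 ^ k₁ / 2 ^ g 0) :=
          mul_le_mul_of_nonneg_left e3 hg0.le
      _ = 1 + 2 ^ k₁ := by field_simp
      _ ≤ R := by rw [hR4]; linarith
  have hent : ∀ a₁ b₁ a₂ b₂ : ℝ, |a₁| ≤ 1 → |b₁| ≤ 1 → |a₂| ≤ 1 → |b₂| ≤ 1 →
      |hs (G y 1) (x + α • U₀ + β • U₁) (a₁ • U₀ + b₁ • U₁) (a₂ • U₀ + b₂ • U₁)| ≤ K :=
    fun a₁ b₁ a₂ b₂ q1 q2 q3 q4 => hm α β a₁ b₁ a₂ b₂ (hα.trans hR1) hβb (q1.trans hR1)
      (q2.trans hR1) (q3.trans hR1) (q4.trans hR1)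
  -- the components
  obtain ⟨av, hav⟩ : ∃ av : (Option (Fin m) → ℝ) → ℝ, av = fun V => 2 ^ a * V none := ⟨_, rfl⟩
  obtain ⟨bv, hbv⟩ : ∃ bv : (Option (Fin m) → ℝ) → ℝ, bv = fun V =>
      2 ^ g 0 * (V (some (c 0)) - av V * U₀ (some (c 0))) := ⟨_, rfl⟩
  have hVn : ∀ V : Option (Fin m) → ℝ, V none = (av V • U₀ + bv V • U₁) none := by
    intro V
    rw [Pi.add_apply, Pi.smul_apply, Pi.smul_apply, smul_eq_mul, smul_eq_mul, hU0n, hU1n,
      mul_zero, add_zero, hav]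
    field_simp
  have hVc : ∀ V : Option (Fin m) → ℝ, V (some (c 0)) = (av V • U₀ + bv V • U₁) (some (c 0)) := by
    intro V
    rw [Pi.add_apply, Pi.smul_apply, Pi.smul_apply, smul_eq_mul, smul_eq_mul, hU1c, hbv]
    field_simp
    ring
  have hnv : ∀ V : Option (Fin m) → ℝ, |av V| + |bv V| ≤ (2 + 2 ^ k₁) *
      nrm c (G y) g a 1 b V := by
    intro V
    have e0 : nrm c (G y) g a 1 b V = 2 ^ a * |V none| +
        2 ^ g 0 * |V (some (c 0)) - dd (G y 0) b V| := by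
      unfold nrm
      rw [Finset.sum_range_one]
    have h1 : |av V| = 2 ^ a * |V none| := by
      rw [hav]
      show |2 ^ a * V none| = _
      rw [abs_mul, abs_of_pos ha0]
    have h2 := (h0 0 (by norm_num) α hα).2.1
    have e1 : dd (G y 0) b V = av V * dd (G y 0) (x + α • U₀) U₀ := by
      rw [← dd_smul]
      refine dd_dep (hdep 0) hbα (fun l hl => absurd hl (Nat.not_lt_zero l)) ?_
        (fun l hl => absurd hl (Nat.not_lt_zero l))
      rw [Pi.smul_apply, smul_eq_mul, hU0n, hav]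
      field_simp
    have e2 : bv V = 2 ^ g 0 * (V (some (c 0)) - dd (G y 0) b V) -
        2 ^ g 0 * (av V * (U₀ (some (c 0)) - dd (G y 0) (x + α • U₀) U₀)) := by
      rw [hbv, e1]
      ring
    have h3 : |bv V| ≤ 2 ^ g 0 * |V (some (c 0)) - dd (G y 0) b V| + 2 ^ k₁ * |av V| := by
      rw [e2]
      refine (abs_sub _ _).trans ?_
      rw [abs_mul, abs_mul, abs_mul, abs_of_pos hg0]
      refine add_le_add le_rfl ?_
      calc 2 ^ g 0 * (|av V| * |U₀ (some (c 0)) - dd (G y 0) (x + α • U₀) U₀|) ≤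
            2 ^ g 0 * (|av V| * (2 ^ k₁ / 2 ^ g 0)) := by gcongr
        _ = _ := by field_simp
    rw [e0, h1] at *
    have h4 : 0 ≤ 2 ^ g 0 * |V (some (c 0)) - dd (G y 0) b V| := by positivity
    have h5 : 0 ≤ 2 ^ a * |V none| := by positivity
    nlinarith
  have hexp : hs (G y 1) b V V' = av V * av V' * hs (G y 1) (x + α • U₀ + β • U₁) U₀ U₀ +
      (av V * bv V' + bv V * av V') * hs (G y 1) (x + α • U₀ + β • U₁) U₀ U₁ +
      bv V * bv V' * hs (G y 1) (x + α • U₀ + β • U₁) U₁ U₁ := by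
    have e1 : hs (G y 1) b V V' = hs (G y 1) (x + α • U₀ + β • U₁) (av V • U₀ + bv V • U₁)
        (av V' • U₀ + bv V' • U₁) := by
      refine hs_dep (hdep 1) ?_ ?_ (hVn V) ?_ (hVn V') ?_
      · rw [hbα, Pi.add_apply (x + α • U₀), Pi.smul_apply _ U₁, hU1n]
        simp
      · intro l hl
        rw [Nat.lt_one_iff.1 hl, Pi.add_apply (x + α • U₀), Pi.smul_apply _ U₁, smul_eq_mul, hU1c,
          hβ]
        field_simp
        ring
      · intro l hl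
        rw [Nat.lt_one_iff.1 hl]
        exact hVc V
      · intro l hl
        rw [Nat.lt_one_iff.1 hl]
        exact hVc V'
    rw [e1, hs_add_left, hs_add_right, hs_add_right, hs_smul_left, hs_smul_left, hs_smul_left,
      hs_smul_left, hs_smul_right, hs_smul_right, hs_smul_right, hs_smul_right,
      hs_comm (G y 1) _ U₁ U₀]
    ring
  have p1 : (1 : ℝ) • U₀ + (0 : ℝ) • U₁ = U₀ := by simp
  have p2 : (0 : ℝ) • U₀ + (1 : ℝ) • U₁ = U₁ := by simp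
  have q1 := hent 1 0 1 0 (by simp) (by simp) (by simp) (by simp)
  have q2 := hent 1 0 0 1 (by simp) (by simp) (by simp) (by simp)
  have q3 := hent 0 1 0 1 (by simp) (by simp) (by simp) (by simp)
  rw [p1] at q1
  rw [p1, p2] at q2
  rw [p2] at q3
  have hfin : |hs (G y 1) b V V'| ≤ K * ((|av V| + |bv V|) * (|av V'| + |bv V'|)) := by
    rw [hexp]
    refine (abs_add_le _ _).trans ((add_le_add (abs_add_le _ _) le_rfl).trans ?_)
    rw [abs_mul (av V * av V'), abs_mul (av V * bv V' + bv V * av V'), abs_mul (bv V * bv V'),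
      abs_mul (av V) (av V'), abs_mul (bv V) (bv V')]
    have r2 : |av V * bv V' + bv V * av V'| ≤ |av V| * |bv V'| + |bv V| * |av V'| := by
      refine (abs_add_le _ _).trans (le_of_eq ?_)
      rw [abs_mul, abs_mul]
    have s1 := mul_le_mul_of_nonneg_left q1 (show 0 ≤ |av V| * |av V'| by positivity)
    have s2 := mul_le_mul r2 q2 (abs_nonneg _) (show 0 ≤ |av V| * |bv V'| + |bv V| * |av V'| by
      positivity)
    have s3 := mul_le_mul_of_nonneg_left q3 (show 0 ≤ |bv V| * |bv V'| by positivity)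
    nlinarith
  refine hfin.trans ?_
  have n1 := nrm_nonneg c (G y) g a 1 b V
  have n2 := nrm_nonneg c (G y) g a 1 b V'
  have s1 : (|av V| + |bv V|) * (|av V'| + |bv V'|) ≤ ((2 + 2 ^ k₁) * nrm c (G y) g a 1 b V) *
      ((2 + 2 ^ k₁) * nrm c (G y) g a 1 b V') :=
    mul_le_mul (hnv V) (hnv V') (by positivity) (by positivity)
  refine (mul_le_mul_of_nonneg_left s1 hK0).trans ?_
  have s2 : K * ((2 + 2 ^ k₁) * (2 + 2 ^ k₁)) ≤ 2 ^ (C * (k + κ + 1)) / 2 ^ g 1 := by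
    have e1 : R / mu = 2 ^ (k₁ + κ + 2) * D := by
      rw [hR, hmu, div_div_eq_mul_div, div_div_eq_mul_div, div_one, pow_add, pow_add, pow_add]
      ring
    have e2 : (2 + 2 ^ k₁ : ℝ) ≤ 2 ^ (k₁ + 2) := by
      rw [pow_add]
      norm_num
      linarith
    have e3 : K = C₂ * (D : ℝ) ^ N * 2 ^ ((k₁ + κ + 2) * N) * 2 ^ k₁ / 2 ^ g 1 := by
      rw [hK, e1, mul_pow, ← pow_mul]
      ring
    have e4 : K ≤ 2 ^ N₂ * 2 ^ ((k₁ + κ + 2) * N) * 2 ^ k₁ / 2 ^ g 1 := by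
      rw [e3]
      refine div_le_div_of_nonneg_right ?_ (by positivity)
      exact mul_le_mul_of_nonneg_right (mul_le_mul_of_nonneg_right hN₂ (by positivity))
        (by positivity)
    calc K * ((2 + 2 ^ k₁) * (2 + 2 ^ k₁)) ≤
          2 ^ N₂ * 2 ^ ((k₁ + κ + 2) * N) * 2 ^ k₁ / 2 ^ g 1 * (2 ^ (k₁ + 2) * 2 ^ (k₁ + 2)) :=
          mul_le_mul e4 (mul_le_mul e2 e2 (by positivity) (by positivity)) (by positivity)
            (by positivity)
      _ = 2 ^ (N₂ + (k₁ + κ + 2) * N + k₁ + (k₁ + 2) + (k₁ + 2)) / 2 ^ g 1 := by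
          rw [pow_add, pow_add, pow_add, pow_add]
          ring
      _ ≤ _ := by
          refine div_le_div_of_nonneg_right (pow_le_pow_right₀ (by norm_num) ?_) (by positivity)
          rw [hC, hk₁]
          nlinarith [Nat.zero_le (C₁ * k), Nat.zero_le (C₁ * κ), Nat.zero_le (N * k),
            Nat.zero_le (N * κ), Nat.zero_le (C₁ * (N * κ)), Nat.zero_le (C₁ * (N * k)),
            Nat.zero_le (N₂ * k), Nat.zero_le (N₂ * κ), Nat.zero_le (C₁ * N)]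
  calc K * ((2 + 2 ^ k₁) * nrm c (G y) g a 1 b V * ((2 + 2 ^ k₁) * nrm c (G y) g a 1 b V')) =
        K * ((2 + 2 ^ k₁) * (2 + 2 ^ k₁)) * (nrm c (G y) g a 1 b V * nrm c (G y) g a 1 b V') := by
        ring
    _ ≤ 2 ^ (C * (k + κ + 1)) / 2 ^ g 1 * (nrm c (G y) g a 1 b V * nrm c (G y) g a 1 b V') :=
        mul_le_mul_of_nonneg_right s2 (by positivity)
    _ = _ := by ring

/-- **The curvature on the boxes of a class**, for the first two coordinates. -/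
theorem box_cls (m D : ℕ) (hD : 1 ≤ D) : ∃ C : ℕ, 1 ≤ C ∧ ∀ {θ : ℝ} {S : PCl m}
    {P : List (Fin m) × Fin m → ℝ → ℝ → ℝ} (_ : ThrOf (chsys m θ) S P) (c : ℕ → Fin m)
    (_ : Set.InjOn c (Set.Iio 2)) (a : ℚ) (e h : ℝ) (_ : 0 ≤ a) (_ : a ≤ 1) (_ : e < θ * a)
    (_ : 0 < h) (_ : bet P c 0 a a + h ≤ 1), ∃ δ : ℝ, 0 < δ ∧
    Bas S (fun J F A => ∀ (n a₀ e₀ e₁ k s V p r : ℕ) (g₀ : ℕ → ℕ)
      (G₀ : PtT F → ℕ → MvPolynomial (Option (Fin m)) ℝ)
      (H₀ : LnT F → ℕ → MvPolynomial (Option (Fin m)) ℝ)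
      (ψ : PtT F → ℕ → Option (Fin m) → ℝ) (ψH : LnT F → ℕ → Option (Fin m) → ℝ)
      (B : F.Ω → Prop), 0 < n → 1 ≤ r → a₀ ≤ J → a₀ ≤ ⌊(a : ℝ) * J⌋₊ →
      e₀ + 3 * k + s + 6 ≤ ⌊e * J⌋₊ → s + 2 * k + 9 ≤ V → e₀ + g₀ 0 + V ≤ J → p ≤ g₀ 0 + s →
      p ≤ J → ⌊(bet P c 0 a a + h) * J⌋₊ + a₀ ≤ p + ⌊(a : ℝ) * J⌋₊ → Sub B A →
      (∀ l ≤ 1, e₁ + g₀ l + C * (k + 1) ≤ J) → ChOK F c (r + 1) (fun _ => D) a₀ a₀ e₁ g₀ B G₀ H₀ →
      FrOK F c n a₀ k e₀ g₀ B ψ ψH →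
      (∀ ω, B ω → ∀ l ≤ 1, ∀ τ ∈ Set.Icc (0 : ℝ) 1,
        |(dv a₀ (fun s _ => H₀ s l) (c l) (slam F a₀ ω)).eval τ| ≤ 2 ^ k / 2 ^ g₀ l) →
      Real.exp (-(δ * J)) * Pe F.p A ≤ Pe F.p B →
      ∃ B' : F.Ω → Prop, Sub B' B ∧ Pe F.p B ≤ 2 * Pe F.p B' ∧
        ∀ l ≤ 1, NatH F c a₀ g₀ B' G₀ (C * (k + s + 1)) l) := by
  obtain ⟨C₁, hC₁, hbp⟩ := box_pt m D hD
  refine ⟨10 * C₁, by omega, ?_⟩
  intro θ S P hP c hc a e h ha0 ha he hh h1
  obtain ⟨δ, hδ, hsep⟩ := Pool.SEP46.sep_cls hP c (D + 1) a e h ha0 ha he hh h1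
  refine ⟨δ, hδ, Bas.mono 0 hsep ?_⟩
  intro J _ F A hsA n a₀ e₀ e₁ k s V p r g₀ G₀ H₀ ψ ψH B hn hr haJ haa hek hV hJV hp1 hp1J hbet
    hBA hJ hch hfr hown hBe
  obtain ⟨B', b1, b2, b3⟩ := hsA n a₀ e₀ k s V p g₀ ψ ψH hn haJ haa hek hV hJV hp1 hp1J hbet B
    hBA hfr hBe
  refine ⟨B', b1, b2, fun l hl ω hω b hb V V' => ?_⟩
  obtain ⟨ν, n1, -, n3⟩ := b3 ω hω
  have hch2 : ChOK F c 2 (fun _ => D) a₀ a₀ e₁ g₀ B G₀ H₀ :=
    ⟨hch.degG, hch.degH, hch.depG, hch.depH, fun ω hω i hi => hch.pos ω hω i (by omega),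
      fun ω hω i hi => hch.agr ω hω i (by omega), fun ω hω i hi => hch.lip ω hω i (by omega)⟩
  have h2 := hbp (k := k) (κ := s + 2 * k + 9) hc haJ hch2 (fun l hl => by
      have := hJ l hl
      nlinarith) hown ω ν (b1 ω hω) n1 (fun i j hij => by
      have h3 := n3 i j hij
      have e1 : ∀ ν : F.Ω, Xn F c g₀ a₀ ψ ν 1 = 2 ^ g₀ 0 * ((1 / 2 ^ a₀ : ℝ) * bd F ν (some (c 0)) -
          cv (ψ (ptr F J ν) 0) ((1 / 2 ^ a₀ : ℝ) • bd F ν)) := fun _ => rfl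
      have e2 : cv (ψ (ptr F J (ν i)) 0) ((1 / 2 ^ a₀ : ℝ) • bd F (ν i)) =
          cv (ψ (ptr F J (ν j)) 0) ((1 / 2 ^ a₀ : ℝ) • bd F (ν j)) := by
        rw [(n1 i).2, (n1 j).2]
        exact cv_congr (hfr.dep _ 0) rfl fun j hj => absurd hj (Nat.not_lt_zero j)
      rw [e1, e1, e2, ← mul_sub, sub_sub_sub_cancel_right, abs_mul,
        abs_of_pos (by positivity : (0 : ℝ) < 2 ^ g₀ 0)] at h3
      exact h3) l hl b hb V V'
  rw [mul_assoc] at h2
  refine h2.trans (mul_le_mul_of_nonneg_right (div_le_div_of_nonneg_right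
    (pow_le_pow_right₀ (by norm_num) ?_) (by positivity))
    (mul_nonneg (nrm_nonneg _ _ _ _ _ _ _) (nrm_nonneg _ _ _ _ _ _ _)))
  nlinarith

end Pool.D2Z
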