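import Pool.Agent.H60.D2.Frz
import Pool.Agent.H60.D2.Zg
import Pool.Agent.H23.D2.Gen

/-!
# D2: near lists of covectors; the gradient of a chart at the rounded point

`Nc`: two lists of covectors are near, in natural units. `grd_move`: the gradients of a chart at two
points in the same cell of resolution `J` are near.
-/

set_option autoImplicit false

namespace Pool.D2Z

open Finset Real MvPolynomial
open Pool.Agent.H49.Ent Pool.Agent.H32.Dense Pool.STK Pool.KA Pool.KSAT Pool.K2S Pool.PB Pool.S6C
open Pool.GEN Pool.CHT Pool.CHX Pool.D2F Pool.D2R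

variable {m J : ℕ}

/-! ### Near lists -/

/-- **Two lists of covectors are near**, in natural units. -/
def Nc (c : ℕ → Fin m) (g : ℕ → ℕ) (a n : ℕ) (K : ℝ) (χ χ' : ℕ → Option (Fin m) → ℝ) : Prop :=
  ∀ l < n, ∀ V : Option (Fin m) → ℝ, |cv (χ' l - χ l) V| ≤ K / 2 ^ g l * en c g a χ l V

theorem Nc.mono {c : ℕ → Fin m} {g : ℕ → ℕ} {a n : ℕ} {K K' : ℝ}
    {χ χ' : ℕ → Option (Fin m) → ℝ} (h : Nc c g a n K χ χ') (hK : K ≤ K') :
    Nc c g a n K' χ χ' := fun l hl V => (h l hl V).trans (mul_le_mul_of_nonneg_right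
  (div_le_div_of_nonneg_right hK (by positivity)) (en_nonneg _ _ _ _ _ _))

theorem Nc.le {c : ℕ → Fin m} {g : ℕ → ℕ} {a n n' : ℕ} {K : ℝ}
    {χ χ' : ℕ → Option (Fin m) → ℝ} (h : Nc c g a n K χ χ') (hn : n' ≤ n) :
    Nc c g a n' K χ χ' := fun l hl V => h l (hl.trans_le hn) V

/-- The sizes are equivalent. -/
theorem Nc.en_le {c : ℕ → Fin m} {g : ℕ → ℕ} {a n : ℕ} {K : ℝ}
    {χ χ' : ℕ → Option (Fin m) → ℝ} (h : Nc c g a n K χ χ') (hK : 0 ≤ K) {l : ℕ} (hl : l ≤ n)
    (V : Option (Fin m) → ℝ) : en c g a χ' l V ≤ (1 + K) ^ n * en c g a χ l V :=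
  (Pool.D2Z.en_le hK h hl V).trans (mul_le_mul_of_nonneg_right
    (pow_le_pow_right₀ (by linarith) hl) (en_nonneg _ _ _ _ _ _))

theorem Nc.en_ge {c : ℕ → Fin m} {g : ℕ → ℕ} {a n : ℕ} {K : ℝ}
    {χ χ' : ℕ → Option (Fin m) → ℝ} (h : Nc c g a n K χ χ') (hK : 0 ≤ K) {l : ℕ} (hl : l ≤ n)
    (V : Option (Fin m) → ℝ) : en c g a χ l V ≤ (1 + K) ^ n * en c g a χ' l V :=
  (Pool.D2Z.en_ge hK h hl V).trans (mul_le_mul_of_nonneg_right
    (pow_le_pow_right₀ (by linarith) hl) (en_nonneg _ _ _ _ _ _))

theorem Nc.symm {c : ℕ → Fin m} {g : ℕ → ℕ} {a n : ℕ} {K : ℝ}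
    {χ χ' : ℕ → Option (Fin m) → ℝ} (h : Nc c g a n K χ χ') (hK : 0 ≤ K) :
    Nc c g a n (K * (1 + K) ^ n) χ' χ := by
  intro l hl V
  have e1 : cv (χ l - χ' l) V = -cv (χ' l - χ l) V := by
    rw [cv_subl, cv_subl]
    ring
  rw [e1, abs_neg]
  refine (h l hl V).trans ?_
  have h1 := h.en_ge hK hl.le V
  calc K / 2 ^ g l * en c g a χ l V ≤ K / 2 ^ g l * ((1 + K) ^ n * en c g a χ' l V) :=
        mul_le_mul_of_nonneg_left h1 (by positivity)
    _ = _ := by ring

theorem Nc.trans {c : ℕ → Fin m} {g : ℕ → ℕ} {a n : ℕ} {K K' : ℝ}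
    {χ χ' χ'' : ℕ → Option (Fin m) → ℝ} (h : Nc c g a n K χ χ') (h' : Nc c g a n K' χ' χ'')
    (hK : 0 ≤ K) (hK' : 0 ≤ K') : Nc c g a n (K + K' * (1 + K) ^ n) χ χ'' := by
  intro l hl V
  have e1 : cv (χ'' l - χ l) V = cv (χ'' l - χ' l) V + cv (χ' l - χ l) V := by
    rw [cv_subl, cv_subl, cv_subl]
    ring
  rw [e1]
  refine (abs_add_le _ _).trans ((add_le_add (h' l hl V) (h l hl V)).trans ?_)
  have h1 := h.en_le hK hl.le V
  calc K' / 2 ^ g l * en c g a χ' l V + K / 2 ^ g l * en c g a χ l V ≤
        K' / 2 ^ g l * ((1 + K) ^ n * en c g a χ l V) + K / 2 ^ g l * en c g a χ l V :=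
        add_le_add (mul_le_mul_of_nonneg_left h1 (by positivity)) le_rfl
    _ = _ := by ring

/-- The norm of `nrm`, `Nv` and `en`. -/
theorem nrm_en (c : ℕ → Fin m) (ψ : ℕ → MvPolynomial (Option (Fin m)) ℝ) (g : ℕ → ℕ) (a l : ℕ)
    (x V : Option (Fin m) → ℝ) : nrm c ψ g a l x V = en c g a (fun j => grd (ψ j) x) l V := by
  rw [en_eq]
  rfl

theorem nv_en (c : ℕ → Fin m) (ψ : ℕ → MvPolynomial (Option (Fin m)) ℝ) (g : ℕ → ℕ) (a l : ℕ)
    (x V : Option (Fin m) → ℝ) : Nv c l a g ψ x V = en c g a (fun j => grd (ψ j) x) l V := by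
  rw [en_eq]
  rfl

theorem cvc_grd {c : ℕ → Fin m} {l : ℕ} {P : MvPolynomial (Option (Fin m)) ℝ} (h : DepC c l P)
    (x : Option (Fin m) → ℝ) : CvC c l (grd P x) := by
  intro k hk
  unfold grd
  exact pd_zero h (fun j hj h' => hk j hj h'.symm) x

/-! ### The gradient at the rounded point -/

/-- The mean value theorem for the gradient. -/
theorem dd_seg (P : MvPolynomial (Option (Fin m)) ℝ) (x δ V : Option (Fin m) → ℝ) {M : ℝ}
    (hM : ∀ u ∈ Set.Icc (0 : ℝ) 1, |hs P (fun o => x o + u * δ o) δ V| ≤ M) :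
    ∀ u ∈ Set.Icc (0 : ℝ) 1, |dd P (fun o => x o + u * δ o) V - dd P x V| ≤ M := by
  obtain ⟨Q, hQ⟩ : ∃ Q : MvPolynomial (Option (Fin m)) ℝ, Q = ∑ o, C (V o) * pderiv o P :=
    ⟨_, rfl⟩
  have e1 : ∀ y, eval y Q = dd P y V := by
    intro y
    rw [hQ, map_sum]
    unfold dd
    exact Finset.sum_congr rfl fun o _ => by rw [map_mul, eval_C, mul_comm]
  have e2 : ∀ y, dd Q y δ = hs P y δ V := by
    intro y
    unfold hs
    have e3 : ∀ o', eval y (pderiv o' Q) = ∑ o, V o * eval y (pderiv o' (pderiv o P)) := by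
      intro o'
      rw [hQ, map_sum, map_sum]
      refine Finset.sum_congr rfl fun o _ => ?_
      rw [pderiv_C_mul, map_mul, eval_C]
    unfold dd
    calc ∑ o', eval y (pderiv o' Q) * δ o' =
          ∑ o', ∑ o, V o * eval y (pderiv o' (pderiv o P)) * δ o' := by
          refine Finset.sum_congr rfl fun o' _ => ?_
          rw [e3, Finset.sum_mul]
      _ = _ := by
          rw [Finset.sum_comm]
          refine Finset.sum_congr rfl fun o _ => ?_
          rw [Finset.sum_mul]
          exact Finset.sum_congr rfl fun o' _ => by ring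
  intro u hu
  have h1 := mv_seg Q x δ (M := M) (fun u hu => by rw [e2]; exact hM u hu) u hu
  rwa [e1, e1] at h1

/-- **The gradients of the charts at two points of one cell.** -/
theorem grd_move (D n : ℕ) : ∃ C : ℕ, 1 ≤ C ∧ ∀ {m J : ℕ} {c : ℕ → Fin m} {a e : ℕ} {g : ℕ → ℕ}
    {G : ℕ → MvPolynomial (Option (Fin m)) ℝ} {x x' : Option (Fin m) → ℝ},
    Set.InjOn c (Set.Iio n) → (∀ l, (G l).totalDegree ≤ D) → (∀ l, DepC c l (G l)) →
    (∀ l < n, ∀ b, NBx c G g a (x none) l b → ∀ j < l,
      |eval b (pderiv (some (c j)) (G l))| ≤ 2 ^ (e + nlp g j l)) →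
    (∀ l < n, |x (some (c l)) - eval x (G l)| ≤ 1 / 2 ^ g l) → x' none = x none →
    (∀ k, |x' (some k) - x (some k)| ≤ 1 / 2 ^ J) → (∀ l < n, e + g l + C ≤ J) →
    ∀ l < n, ∀ V : Option (Fin m) → ℝ,
      |dd (G l) x' V - dd (G l) x V| ≤ 1 / 2 ^ g l * nrm c G g a l x V := by
  classical
  obtain ⟨c₀, D₁, hD₁, hdil⟩ := nbx_dil (n + 1) (fun _ => D)
  have hba' := fun l : ℕ => box_all l D D
  choose Cb hCb hbl using hba'
  obtain ⟨C₂, hC₂⟩ : ∃ C₂ : ℝ, C₂ = ∑ l ∈ range (n + 1), Cb l := ⟨_, rfl⟩
  have hCbl : ∀ l ≤ n, Cb l ≤ C₂ := by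
    intro l hl
    rw [hC₂]
    exact Finset.single_le_sum (f := Cb) (fun l _ => by linarith [hCb l])
      (Finset.mem_range.2 (by omega))
  have hC₂1 : 1 ≤ C₂ := (hCb 0).trans (hCbl 0 (Nat.zero_le _))
  obtain ⟨N₀, hN₀⟩ := pow_unbounded_of_one_lt C₂ (one_lt_two (α := ℝ))
  obtain ⟨C, hC⟩ : ∃ C : ℕ, C = c₀ + 2 * D₁ + N₀ + 2 * n + 2 := ⟨_, rfl⟩
  refine ⟨C, by omega, ?_⟩
  intro m J c a e g G x x' hc hdeg hdep hlip hpos hx0 hx1 hJ
  obtain ⟨δ, hδ⟩ : ∃ δ : Option (Fin m) → ℝ, δ = fun o => x' o - x o := ⟨_, rfl⟩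
  have hδ0 : δ none = 0 := by rw [hδ]; show x' none - x none = 0; rw [hx0, sub_self]
  have hδk : ∀ k, |δ (some k)| ≤ 1 / 2 ^ J := fun k => by rw [hδ]; exact hx1 k
  obtain ⟨X, hX⟩ : ∃ X : ℝ → Option (Fin m) → ℝ, X = fun u o => x o + u * δ o := ⟨_, rfl⟩
  have hX0 : ∀ u, X u none = x none := fun u => by
    rw [hX]
    show x none + u * δ none = _
    rw [hδ0, mul_zero, add_zero]
  have hx' : X 1 = x' := by
    rw [hX]
    funext o
    show x o + 1 * δ o = _
    rw [hδ]
    ring
  -- the derivatives are bounded on the larger box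
  have hbig : ∀ l < n, ∀ j < l, ∀ b : Option (Fin m) → ℝ, |b none - x none| ≤ 1 / 2 ^ a →
      (∀ i < l, |b (some (c i)) - eval b (G i)| ≤ 2 ^ 2 / 2 ^ g i) →
      |eval b (pderiv (some (c j)) (G l))| ≤ 2 ^ (c₀ + 2 * D₁) * 2 ^ (e + nlp g j l) :=
    fun l hl j hj b hb0 hb1 => hdil (c := c) (i := l) (G := G)
      (Q := pderiv (some (c j)) (G l)) (g := g) (a := a) (t := x none)
      (M := 2 ^ (e + nlp g j l)) 2 (by omega) (hc.mono fun y hy => lt_trans hy hl) hdeg hdep
      (DepC.pderiv (hdep l) j) (totalDegree_pdσ (hdeg l) _) (by positivity)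
      (fun b' hb' => hlip l hl b' hb' j hj) b hb0 hb1
  -- the exponents
  have hexp : ∀ l < n, ∀ j < l, (2 : ℝ) ^ (c₀ + 2 * D₁) * 2 ^ (e + nlp g j l) * (1 / 2 ^ J) ≤
      1 / 2 ^ (g l + (N₀ + 2 * n + 2)) := by
    intro l hl j hj
    rw [← pow_add, mul_one_div, div_le_div_iff₀ (by positivity) (by positivity), one_mul, ← pow_add]
    refine pow_le_pow_right₀ (by norm_num) ?_
    obtain ⟨i, hi1, hi2⟩ := Finset.exists_mem_eq_sup (Finset.Icc j l)
      ⟨j, Finset.mem_Icc.2 ⟨le_rfl, hj.le⟩⟩ g
    have hi3 := (Finset.mem_Icc.1 hi1).2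
    have h6 := hJ i (by omega)
    have h6' := hJ l hl
    have h7 : nlp g j l = (Finset.Icc j l).sup g - g l := rfl
    have h8 : g l ≤ (Finset.Icc j l).sup g :=
      Finset.le_sup (f := g) (Finset.mem_Icc.2 ⟨hj.le, le_rfl⟩)
    rw [hi2] at h7 h8
    omega
  have hn2 : ∀ {l : ℕ}, l < n → (l : ℝ) ≤ 2 ^ n := fun {l} hl => by
    have e4 : ((l : ℕ) : ℝ) ≤ ((2 ^ n : ℕ) : ℝ) := by
      have : l ≤ 2 ^ n := hl.le.trans (Nat.lt_two_pow_self).le
      exact_mod_cast this
    push_cast at e4
    exact e4
  have main : ∀ l, l < n → (∀ u ∈ Set.Icc (0 : ℝ) 1,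
      |X u (some (c l)) - eval (X u) (G l)| ≤ 2 / 2 ^ g l) ∧
      (∀ u ∈ Set.Icc (0 : ℝ) 1, ∀ V : Option (Fin m) → ℝ,
        |dd (G l) (X u) V - dd (G l) x V| ≤ 1 / 2 ^ g l * nrm c G g a l x V) ∧
      (∀ u ∈ Set.Icc (0 : ℝ) 1, ∀ V : Option (Fin m) → ℝ,
        nrm c G g a (l + 1) (X u) V ≤ 2 ^ (l + 1) * nrm c G g a (l + 1) x V) := by
    intro l
    induction l using Nat.strong_induction_on with
    | _ l ih =>
      intro hl
      have hle : ∀ {z : ℝ}, 0 < z → 2 / z ≤ 2 ^ 2 / z := fun hz =>
        div_le_div_of_nonneg_right (by norm_num) hz.le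
      have hnrm : ∀ u ∈ Set.Icc (0 : ℝ) 1, ∀ V : Option (Fin m) → ℝ,
          nrm c G g a l (X u) V ≤ 2 ^ l * nrm c G g a l x V := by
        intro u hu V
        cases l with
        | zero =>
          unfold nrm
          rw [Finset.sum_range_zero, Finset.sum_range_zero, pow_zero, one_mul]
        | succ i => exact (ih i (Nat.lt_succ_self i) (by omega)).2.2 u hu V
      have h1 : ∀ u ∈ Set.Icc (0 : ℝ) 1, ∀ j < l,
          |eval (X u) (pderiv (some (c j)) (G l))| ≤ 2 ^ (c₀ + 2 * D₁) * 2 ^ (e + nlp g j l) :=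
        fun u hu j hj => hbig l hl j hj (X u) (by rw [hX0, sub_self, abs_zero]; positivity)
          fun i hi => ((ih i hi (by omega)).1 u hu).trans (hle (by positivity))
      -- the values
      have hval : ∀ u ∈ Set.Icc (0 : ℝ) 1, |eval (X u) (G l) - eval x (G l)| ≤
          1 / 2 / 2 ^ g l := by
        intro u hu
        have h2 : ∀ u ∈ Set.Icc (0 : ℝ) 1, |dd (G l) (fun o => x o + u * δ o) δ| ≤
            1 / 2 / 2 ^ g l := by
          intro u hu
          have e1 : (fun o => x o + u * δ o) = X u := by rw [hX]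
          rw [e1, ← cv_grd, cv_eq (hc.mono fun y hy => lt_trans hy hl)
            (cvc_grd (hdep l) (X u)), hδ0, mul_zero, zero_add]
          refine (Finset.abs_sum_le_sum_abs _ _).trans ?_
          have h3 : ∀ j ∈ range l, |grd (G l) (X u) (some (c j)) * δ (some (c j))| ≤
              1 / 2 ^ (g l + (N₀ + 2 * n + 2)) := by
            intro j hj
            have hj' := Finset.mem_range.1 hj
            rw [abs_mul]
            exact (mul_le_mul (h1 u hu j hj') (hδk _) (abs_nonneg _) (by positivity)).trans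
              (hexp l hl j hj')
          refine (Finset.sum_le_sum h3).trans ?_
          rw [Finset.sum_const, Finset.card_range, nsmul_eq_mul]
          have e2 : (1 : ℝ) / 2 ^ (g l + (N₀ + 2 * n + 2)) =
              1 / 2 ^ g l * (1 / 2 ^ (N₀ + 2 * n + 2)) := by
            rw [pow_add]
            field_simp
          rw [e2]
          have e3 : (l : ℝ) * (1 / 2 ^ (N₀ + 2 * n + 2)) ≤ 1 / 2 := by
            rw [mul_one_div, div_le_div_iff₀ (by positivity) (by norm_num), one_mul]
            calc (l : ℝ) * 2 ≤ 2 ^ n * 2 := mul_le_mul_of_nonneg_right (hn2 hl) (by norm_num)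
              _ = 2 ^ (n + 1) := (pow_succ _ _).symm
              _ ≤ _ := pow_le_pow_right₀ (by norm_num) (by omega)
          calc (l : ℝ) * (1 / 2 ^ g l * (1 / 2 ^ (N₀ + 2 * n + 2))) =
                (l : ℝ) * (1 / 2 ^ (N₀ + 2 * n + 2)) * (1 / 2 ^ g l) := by ring
            _ ≤ 1 / 2 * (1 / 2 ^ g l) := mul_le_mul_of_nonneg_right e3 (by positivity)
            _ = _ := by ring
        have h3 := mv_seg (G l) x δ h2 u hu
        have e1 : (fun o => x o + u * δ o) = X u := by rw [hX]
        rwa [e1] at h3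
      have hht : ∀ u ∈ Set.Icc (0 : ℝ) 1, |X u (some (c l)) - eval (X u) (G l)| ≤
          2 / 2 ^ g l := by
        intro u hu
        have e1 : X u (some (c l)) - eval (X u) (G l) = (x (some (c l)) - eval x (G l)) +
            u * δ (some (c l)) - (eval (X u) (G l) - eval x (G l)) := by
          rw [hX]
          ring
        have h2 : |u * δ (some (c l))| ≤ 1 / 2 / 2 ^ g l := by
          rw [abs_mul, abs_of_nonneg hu.1]
          calc u * |δ (some (c l))| ≤ 1 * (1 / 2 ^ J) :=
                mul_le_mul hu.2 (hδk _) (abs_nonneg _) (by norm_num)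
            _ ≤ 1 / 2 / 2 ^ g l := by
                rw [one_mul, div_div, ← pow_succ']
                refine one_div_le_one_div_of_le (by positivity) (pow_le_pow_right₀ (by norm_num) ?_)
                have := hJ l hl
                omega
        rw [e1]
        refine (abs_sub _ _).trans ((add_le_add ((abs_add_le _ _).trans
          (add_le_add (hpos l hl) h2)) (hval u hu)).trans (le_of_eq ?_))
        ring
      -- the gradients
      have hgr : ∀ u ∈ Set.Icc (0 : ℝ) 1, ∀ V : Option (Fin m) → ℝ,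
          |dd (G l) (X u) V - dd (G l) x V| ≤ 1 / 2 ^ g l * nrm c G g a l x V := by
        intro u hu V
        have h0 := nrm_nonneg c G g a l x V
        have h2 : ∀ u ∈ Set.Icc (0 : ℝ) 1, |hs (G l) (fun o => x o + u * δ o) δ V| ≤
            1 / 2 ^ g l * nrm c G g a l x V := by
          intro u hu
          have e1 : (fun o => x o + u * δ o) = X u := by rw [hX]
          rw [e1]
          -- the derivatives of the derivatives
          have h3 : ∀ j < l, |dd (pderiv (some (c j)) (G l)) (X u) V| ≤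
              C₂ * (2 ^ (c₀ + 2 * D₁) * 2 ^ (e + nlp g j l)) * (2 ^ l * nrm c G g a l x V) := by
            intro j hj
            obtain ⟨ψ', hψ'⟩ : ∃ ψ' : ℕ → MvPolynomial (Option (Fin m)) ℝ, ψ' = fun i =>
                G i + MvPolynomial.C (X u (some (c i)) - eval (X u) (G i)) := ⟨_, rfl⟩
            have hdd : ∀ i W, dd (ψ' i) (X u) W = dd (G i) (X u) W := by
              intro i W
              rw [hψ']
              unfold dd
              refine Finset.sum_congr rfl fun o _ => ?_
              show eval (X u) (pderiv o (G i + MvPolynomial.C _)) * W o = _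
              rw [map_add, pderiv_C, add_zero]
            have hn' : nrm c ψ' g a l (X u) V = nrm c G g a l (X u) V := by
              unfold nrm
              simp only [hdd]
            have hev : ∀ i b, eval b (ψ' i) = eval b (G i) +
                (X u (some (c i)) - eval (X u) (G i)) := by
              intro i b
              rw [hψ']
              show eval b (G i + MvPolynomial.C _) = _
              rw [map_add, eval_C]
            have h4 := (hbl l (c := c) (ψ := ψ') (Q := pderiv (some (c j)) (G l)) (g := g)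
              (a := a) (M := 2 ^ (c₀ + 2 * D₁) * 2 ^ (e + nlp g j l)) (x := X u)
              (hc.mono fun y hy => lt_trans hy hl) (fun i => by
                rw [hψ']
                refine (totalDegree_add _ _).trans (max_le (hdeg i) ?_)
                rw [totalDegree_C]
                exact Nat.zero_le _) (fun i b b' h1 h2 => by
                rw [hev, hev, hdep i b b' h1 h2]) (DepC.pderiv (hdep l) j)
              (totalDegree_pdσ (hdeg l) _) (by positivity) (fun b hb => by
                refine hbig l hl j hj b ?_ fun i hi => ?_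
                · have := hb.1
                  rwa [hX0] at this
                · have h5 := hb.2 i hi
                  rw [hev] at h5
                  have h6 := (ih i hi (by omega)).1 u hu
                  have e2 : b (some (c i)) - eval b (G i) = (b (some (c i)) - (eval b (G i) +
                      (X u (some (c i)) - eval (X u) (G i)))) +
                      (X u (some (c i)) - eval (X u) (G i)) := by ring
                  rw [e2]
                  refine (abs_add_le _ _).trans ((add_le_add h5 h6).trans ?_)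
                  rw [← add_div]
                  exact div_le_div_of_nonneg_right (by norm_num) (by positivity))
              (fun i hi => by
                rw [hev, add_sub_cancel, sub_self, abs_zero]
                positivity)).1 V
            rw [hn'] at h4
            refine h4.trans ?_
            have h5 : 0 ≤ 2 ^ (c₀ + 2 * D₁) * (2 : ℝ) ^ (e + nlp g j l) := by positivity
            exact mul_le_mul (mul_le_mul_of_nonneg_right (hCbl l (by omega)) h5) (hnrm u hu V)
              (nrm_nonneg _ _ _ _ _ _ _) (by positivity)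
          have e2 : hs (G l) (X u) δ V = ∑ o, δ o * dd (pderiv o (G l)) (X u) V := by
            rw [hs_comm]
            unfold hs
            exact Finset.sum_congr rfl fun o _ => mul_comm _ _
          rw [e2]
          have h4 : ∀ o ∈ (Finset.univ : Finset (Option (Fin m))), o ∉
              (range l).image (fun j => some (c j)) → δ o * dd (pderiv o (G l)) (X u) V = 0 := by
            intro o _ ho
            cases o with
            | none => rw [hδ0, zero_mul]
            | some i =>
              have h5 : pderiv (some i) (G l) = 0 := pd_zero' (hdep l) fun j hj h' =>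
                ho (Finset.mem_image.2 ⟨j, Finset.mem_range.2 hj, by rw [h']⟩)
              rw [h5]
              unfold dd
              simp
          rw [← Finset.sum_subset (Finset.subset_univ _) h4,
            Finset.sum_image (fun a ha b hb h' => hc (show a < n by
              have := Finset.mem_range.1 (Finset.mem_coe.1 ha); omega) (show b < n by
              have := Finset.mem_range.1 (Finset.mem_coe.1 hb); omega)
              (Option.some_injective _ h'))]
          refine (Finset.abs_sum_le_sum_abs _ _).trans ?_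
          have h5 : ∀ j ∈ range l, |δ (some (c j)) *
              dd (pderiv (some (c j)) (G l)) (X u) V| ≤
              1 / 2 ^ (g l + (N₀ + 2 * n + 2)) * (C₂ * 2 ^ l) * nrm c G g a l x V := by
            intro j hj
            have hj' := Finset.mem_range.1 hj
            rw [abs_mul]
            calc |δ (some (c j))| * |dd (pderiv (some (c j)) (G l)) (X u) V| ≤
                  1 / 2 ^ J * (C₂ * (2 ^ (c₀ + 2 * D₁) * 2 ^ (e + nlp g j l)) *
                    (2 ^ l * nrm c G g a l x V)) :=
                  mul_le_mul (hδk _) (h3 j hj') (abs_nonneg _) (by positivity)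
              _ = (2 ^ (c₀ + 2 * D₁) * 2 ^ (e + nlp g j l) * (1 / 2 ^ J)) *
                    (C₂ * 2 ^ l * nrm c G g a l x V) := by ring
              _ ≤ 1 / 2 ^ (g l + (N₀ + 2 * n + 2)) * (C₂ * 2 ^ l * nrm c G g a l x V) :=
                  mul_le_mul_of_nonneg_right (hexp l hl j hj') (by positivity)
              _ = _ := by ring
          refine (Finset.sum_le_sum h5).trans ?_
          rw [Finset.sum_const, Finset.card_range, nsmul_eq_mul]
          have e3 : (l : ℝ) * (1 / 2 ^ (g l + (N₀ + 2 * n + 2)) * (C₂ * 2 ^ l) *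
              nrm c G g a l x V) = (l * C₂ * 2 ^ l / 2 ^ (N₀ + 2 * n + 2)) * (1 / 2 ^ g l *
              nrm c G g a l x V) := by
            rw [pow_add]
            field_simp
          rw [e3]
          have e4 : l * C₂ * 2 ^ l / 2 ^ (N₀ + 2 * n + 2) ≤ (1 : ℝ) := by
            rw [div_le_one (by positivity)]
            calc (l : ℝ) * C₂ * 2 ^ l ≤ 2 ^ n * 2 ^ N₀ * 2 ^ n := by
                  refine mul_le_mul (mul_le_mul (hn2 hl) hN₀.le (by linarith) (by positivity))
                    (pow_le_pow_right₀ (by norm_num) hl.le) (by positivity) (by positivity)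
              _ = 2 ^ (n + N₀ + n) := by rw [pow_add, pow_add]
              _ ≤ _ := pow_le_pow_right₀ (by norm_num) (by omega)
          calc _ ≤ 1 * (1 / 2 ^ g l * nrm c G g a l x V) :=
                mul_le_mul_of_nonneg_right e4 (by positivity)
            _ = _ := one_mul _
        have h3 := dd_seg (G l) x δ V h2 u hu
        have e1 : (fun o => x o + u * δ o) = X u := by rw [hX]
        rwa [e1] at h3
      refine ⟨hht, hgr, fun u hu V => ?_⟩
      have h2 := hnrm u hu V
      have h3 := hgr u hu V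
      have h0 := nrm_nonneg c G g a l x V
      have e1 : ∀ y, nrm c G g a (l + 1) y V = nrm c G g a l y V +
          2 ^ g l * |V (some (c l)) - dd (G l) y V| := by
        intro y
        unfold nrm
        rw [Finset.sum_range_succ, add_assoc]
      rw [e1, e1]
      have h4 : 2 ^ g l * |V (some (c l)) - dd (G l) (X u) V| ≤
          2 ^ g l * |V (some (c l)) - dd (G l) x V| + nrm c G g a l x V := by
        have e2 : V (some (c l)) - dd (G l) (X u) V = (V (some (c l)) - dd (G l) x V) -
            (dd (G l) (X u) V - dd (G l) x V) := by ring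
        rw [e2]
        refine (mul_le_mul_of_nonneg_left ((abs_sub (V (some (c l)) - dd (G l) x V)
          (dd (G l) (X u) V - dd (G l) x V)).trans (add_le_add le_rfl h3))
          (by positivity)).trans (le_of_eq ?_)
        field_simp
      have h5 : (1 : ℝ) ≤ 2 ^ l := one_le_pow₀ (by norm_num)
      have h6 : 0 ≤ 2 ^ g l * |V (some (c l)) - dd (G l) x V| := by positivity
      rw [pow_succ]
      nlinarith
  intro l hl V
  have h1 := (main l hl).2.1 1 ⟨zero_le_one, le_rfl⟩ V
  rwa [hx'] at h1

end Pool.D2Z
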