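import Pool.Agent.H60.D2.Rnd

/-!
# D2: the frame of a ball chart

`crw`: if the gradients of the closed charts move naturally at the samples, they are near each other
at all times of the window. `cur_cl`: the closed charts from the visible ones. `frame_row`: the frame
of a ball chart, from the natural curvature in the direction of the own line.
-/

set_option autoImplicit false

namespace Pool.D2Z

open Finset Real MvPolynomial
open Pool.Agent.H49.Ent Pool.Agent.H32.Dense Pool.STK Pool.KA Pool.KSAT Pool.K2S Pool.PB Pool.S6C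
open Pool.GEN Pool.CHT Pool.CHX Pool.D2F Pool.D2R
open Pool.FLF (Fam.sub)
open Pool.PB.Trl (rt rt_mem t_rt)

variable {m J : ℕ} {ζ : Type}

/-! ### Exponents -/

theorem pow1 (x n : ℕ) : (1 + (2 : ℝ) ^ x) ^ n ≤ 2 ^ ((x + 1) * n) := by
  rw [pow_mul]
  refine pow_le_pow_left₀ (by positivity) ?_ n
  have : (1 : ℝ) ≤ 2 ^ x := one_le_pow₀ (by norm_num)
  rw [pow_succ]
  linarith

theorem Nc.symm2 {c : ℕ → Fin m} {g : ℕ → ℕ} {a n x : ℕ} {χ χ' : ℕ → Option (Fin m) → ℝ}
    (h : Nc c g a n (2 ^ x) χ χ') : Nc c g a n (2 ^ (x + (x + 1) * n)) χ' χ := by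
  refine (h.symm (by positivity)).mono ?_
  rw [pow_add]
  exact mul_le_mul_of_nonneg_left (pow1 x n) (by positivity)

theorem Nc.trans2 {c : ℕ → Fin m} {g : ℕ → ℕ} {a n x y : ℕ}
    {χ χ' χ'' : ℕ → Option (Fin m) → ℝ} (h : Nc c g a n (2 ^ x) χ χ')
    (h' : Nc c g a n (2 ^ y) χ' χ'') : Nc c g a n (2 ^ (x + y + (x + 1) * n + 1)) χ χ'' := by
  refine (h.trans h' (by positivity) (by positivity)).mono ?_
  have h1 := pow1 x n
  have h2 : (2 : ℝ) ^ x ≤ 2 ^ (x + y + (x + 1) * n) :=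
    pow_le_pow_right₀ (by norm_num) (by omega)
  have h3 : (2 : ℝ) ^ y * (1 + 2 ^ x) ^ n ≤ 2 ^ (x + y + (x + 1) * n) := by
    calc (2 : ℝ) ^ y * (1 + 2 ^ x) ^ n ≤ 2 ^ y * 2 ^ ((x + 1) * n) :=
          mul_le_mul_of_nonneg_left h1 (by positivity)
      _ = 2 ^ (y + (x + 1) * n) := (pow_add _ _ _).symm
      _ ≤ _ := pow_le_pow_right₀ (by norm_num) (by omega)
  rw [pow_succ]
  linarith

/-- The exponents of the derivatives of a near list. -/
theorem lip_near {c : ℕ → Fin m} {g : ℕ → ℕ} {a n e κ : ℕ} (hc : Set.InjOn c (Set.Iio n))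
    {χ χ' : ℕ → Option (Fin m) → ℝ} (hχ : ∀ l, CvC c l (χ l)) (h : Nc c g a n (2 ^ κ) χ χ')
    (hlip : ∀ i < n, ∀ l < i, |χ i (some (c l))| ≤ 2 ^ (e + nlp g l i)) :
    ∀ i < n, ∀ l < i, |χ' i (some (c l))| ≤ 2 ^ (e + κ + n + 1 + nlp g l i) := by
  intro i hi l hl
  have h1 := hlip i hi l hl
  have h2 := h i hi (fun o => if o = some (c l) then 1 else 0)
  rw [cv_single, Pi.sub_apply] at h2
  have h3 := en_single (a := a) hc hχ hi.le (fun j hj x hx => hlip j (by omega) x hx) hl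
  have e1 : χ' i (some (c l)) = χ i (some (c l)) + (χ' i (some (c l)) - χ i (some (c l))) := by
    ring
  rw [e1]
  refine (abs_add_le _ _).trans ((add_le_add h1 (h2.trans (mul_le_mul_of_nonneg_left h3
    (by positivity)))).trans ?_)
  have h4 : g i ≤ (Finset.Icc l i).sup g := Finset.le_sup (f := g)
    (Finset.mem_Icc.2 ⟨hl.le, le_rfl⟩)
  have h5 : (2 : ℝ) ^ (e + (Finset.Icc l i).sup g) = 2 ^ (e + nlp g l i) * 2 ^ g i := by
    rw [← pow_add]
    congr 1
    unfold nlp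
    omega
  rw [h5]
  have e2 : 2 ^ (e + nlp g l i) + 2 ^ κ / 2 ^ g i * ((i : ℝ) * (2 ^ (e + nlp g l i) * 2 ^ g i)) =
      (1 + 2 ^ κ * i) * 2 ^ (e + nlp g l i) := by
    field_simp
  rw [e2]
  have e4 : ((i : ℕ) : ℝ) ≤ ((2 ^ n : ℕ) : ℝ) := by
    have : i ≤ 2 ^ n := hi.le.trans (Nat.lt_two_pow_self).le
    exact_mod_cast this
  push_cast at e4
  have e5 : (1 : ℝ) ≤ 2 ^ κ * 2 ^ n := one_le_mul_of_one_le_of_one_le (one_le_pow₀ (by norm_num))
    (one_le_pow₀ (by norm_num))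
  have e6 : (2 : ℝ) ^ κ * i ≤ 2 ^ κ * 2 ^ n := mul_le_mul_of_nonneg_left e4 (by positivity)
  have e7 : (2 : ℝ) ^ (e + κ + n + 1 + nlp g l i) = 2 ^ κ * 2 ^ n * 2 * 2 ^ (e + nlp g l i) := by
    rw [← pow_add, ← pow_succ, ← pow_add]
    congr 1
    omega
  rw [e7]
  refine mul_le_mul_of_nonneg_right ?_ (by positivity)
  linarith

/-- The velocities in a near list. -/
theorem vel_near {c : ℕ → Fin m} {g : ℕ → ℕ} {a n κ u : ℕ} {χ χ' : ℕ → Option (Fin m) → ℝ}
    (h : Nc c g a n (2 ^ κ) χ χ') {W : Option (Fin m) → ℝ} (hW : W none = 1)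
    (hv : ∀ l < n, |W (some (c l)) - cv (χ l) W| ≤ 2 ^ (a + u) / 2 ^ g l) :
    ∀ l < n, |W (some (c l)) - cv (χ' l) W| ≤ 2 ^ (a + u + κ + n + 1) / 2 ^ g l := by
  intro l hl
  have h1 := hv l hl
  have h2 := h l hl W
  have h3 : en c g a χ l W ≤ (l + 1) * 2 ^ (a + u) := by
    rw [en_eq]
    have e1 : (2 : ℝ) ^ a * |W none| ≤ 2 ^ (a + u) := by
      rw [hW, abs_one, mul_one]
      exact pow_le_pow_right₀ (by norm_num) (by omega)
    have e2 : ∑ j ∈ range l, (2 : ℝ) ^ g j * |W (some (c j)) - cv (χ j) W| ≤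
        l * 2 ^ (a + u) := by
      refine (Finset.sum_le_sum fun j hj => ?_).trans (le_of_eq (by
        rw [Finset.sum_const, Finset.card_range, nsmul_eq_mul]))
      have h4 := hv j (by have := Finset.mem_range.1 hj; omega)
      rw [le_div_iff₀ (by positivity)] at h4
      linarith
    linarith
  have e1 : W (some (c l)) - cv (χ' l) W = (W (some (c l)) - cv (χ l) W) -
      cv (χ' l - χ l) W := by
    rw [cv_subl]
    ring
  rw [e1]
  refine (abs_sub _ _).trans ((add_le_add h1 (h2.trans (mul_le_mul_of_nonneg_left h3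
    (by positivity)))).trans ?_)
  have e2 : 2 ^ (a + u) / 2 ^ g l + 2 ^ κ / 2 ^ g l * (((l : ℝ) + 1) * 2 ^ (a + u)) =
      (1 + 2 ^ κ * (l + 1)) * 2 ^ (a + u) / 2 ^ g l := by ring
  rw [e2]
  refine div_le_div_of_nonneg_right ?_ (by positivity)
  have e4 : ((l + 1 : ℕ) : ℝ) ≤ ((2 ^ n : ℕ) : ℝ) := by
    have : l + 1 ≤ 2 ^ n := (Nat.succ_le_of_lt hl).trans (Nat.lt_two_pow_self).le
    exact_mod_cast this
  push_cast at e4
  have e5 : (1 : ℝ) ≤ 2 ^ κ * 2 ^ n := one_le_mul_of_one_le_of_one_le (one_le_pow₀ (by norm_num))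
    (one_le_pow₀ (by norm_num))
  have e6 : (2 : ℝ) ^ κ * ((l : ℝ) + 1) ≤ 2 ^ κ * 2 ^ n :=
    mul_le_mul_of_nonneg_left e4 (by positivity)
  have e7 : (2 : ℝ) ^ (a + u + κ + n + 1) = 2 ^ κ * 2 ^ n * 2 * 2 ^ (a + u) := by
    rw [← pow_add, ← pow_succ, ← pow_add]
    congr 1
    omega
  rw [e7]
  refine mul_le_mul_of_nonneg_right ?_ (by positivity)
  linarith

/-! ### The closed charts along the window -/

/-- The derivative in a fixed direction, along the line. -/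
noncomputable def vq (a : ℕ) (s : ((Fin m → ℝ) × (Fin m → ℝ)) × ζ × ℕ)
    (R : MvPolynomial (Option (Fin m)) ℝ) (V : Option (Fin m) → ℝ) : Polynomial ℝ :=
  ∑ o, MvPolynomial.aeval (lc a s) (pderiv o R) * Polynomial.C (V o)

theorem eval_vq (a : ℕ) (s : ((Fin m → ℝ) × (Fin m → ℝ)) × ζ × ℕ)
    (R : MvPolynomial (Option (Fin m)) ℝ) (V : Option (Fin m) → ℝ) (τ : ℝ) :
    (vq a s R V).eval τ = dd R (xt a s τ) V := by
  unfold vq dd
  rw [Polynomial.eval_finsetSum]
  refine Finset.sum_congr rfl fun o _ => ?_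
  rw [Polynomial.eval_mul, eval_lcR, Polynomial.eval_C]

theorem der_vq (a : ℕ) (s : ((Fin m → ℝ) × (Fin m → ℝ)) × ζ × ℕ)
    (R : MvPolynomial (Option (Fin m)) ℝ) (V : Option (Fin m) → ℝ) (τ : ℝ) :
    (Polynomial.derivative (vq a s R V)).eval τ = 1 / 2 ^ a * hs R (xt a s τ) (wd s) V := by
  unfold vq hs
  rw [Polynomial.derivative_sum, Polynomial.eval_finsetSum, Finset.mul_sum]
  refine Finset.sum_congr rfl fun o _ => ?_
  rw [Polynomial.derivative_mul, Polynomial.derivative_C, mul_zero, add_zero,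
    Polynomial.eval_mul, Polynomial.eval_C, der_R]
  ring

/-- **The closed gradients along the window.** -/
theorem crw (m D n : ℕ) (hD : 1 ≤ D) : ∃ C : ℕ, 1 ≤ C ∧ ∀ {J : ℕ} {F : Fam m J}
    {c : ℕ → Fin m} {a k k' : ℕ} {g : ℕ → ℕ} {A : F.Ω → Prop} {θ : ℝ}
    {H : LnT F → ℕ → MvPolynomial (Option (Fin m)) ℝ} (hA : 0 < Pe F.p A),
    Set.InjOn c (Set.Iio n) → a ≤ J → (∀ s i, (H s i).totalDegree ≤ D) →
    (∀ s i, DepC c i (H s i)) → (∀ ω, A ω → ∀ j < n, ∀ V : Option (Fin m) → ℝ,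
      |hs (hn c H (slam F a ω) j) (bt F ω) (bd F ω) V| ≤
        2 ^ k * (2 ^ a / 2 ^ g j) * Nv c j a g (hn c H (slam F a ω)) (bt F ω) V) → 0 ≤ θ →
    (Fam.sub F A hA).Tm θ → C * (θ + 1) ≤ ((J : ℝ) - a) * Real.log 2 →
    Real.exp (C * (θ + 1)) ≤ 2 ^ k' →
    ∃ B : F.Ω → Prop, Sub B A ∧ Pe F.p A / 2 ≤ Pe F.p B ∧ ∀ ω, B ω →
      ∀ τ ∈ Set.Icc (0 : ℝ) 1, ∀ τ' ∈ Set.Icc (0 : ℝ) 1,
        Nc c g a n (2 ^ ((n + 1) * (k + k' + 1)))
          (fun j => grd (hn c H (slam F a ω) j) (xt a (slam F a ω) τ'))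
          (fun j => grd (hn c H (slam F a ω) j) (xt a (slam F a ω) τ)) := by
  classical
  obtain ⟨C₁, hC₁, hwin⟩ := win_cov m D n
  refine ⟨⌈C₁⌉₊, Nat.one_le_ceil_iff.2 (by linarith), ?_⟩
  intro J F c a k k' g A θ H hA hc haJ hHd hHp hcur hθ hTm hCJ hexp
  have hC1 : C₁ ≤ (⌈C₁⌉₊ : ℝ) := Nat.le_ceil C₁
  have hθ1 : 0 ≤ θ + 1 := by linarith
  have hdeg : ∀ s l, (hn c H s l).totalDegree ≤ D := fun s l =>
    deg_Hno (c l) (fun s => H s l) s hD (hHd s l)
  have hdep : ∀ s l, DepC c l (hn c H s l) := depC_hn hHp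
  obtain ⟨f, hf⟩ : ∃ f : ℕ → LnT F → Option (Fin m) → MvPolynomial (Option (Fin m)) ℝ,
      f = fun j s o => if j < n then
        ∑ o', MvPolynomial.C (wd s o') * pderiv o' (pderiv o (hn c H s j)) else 0 := ⟨_, rfl⟩
  have hfe : ∀ j < n, ∀ s, ∀ b V : Option (Fin m) → ℝ,
      ∑ o, eval b (f j s o) * V o = hs (hn c H s j) b (wd s) V := by
    intro j hj s b V
    unfold hs dd
    refine Finset.sum_congr rfl fun o _ => ?_
    rw [hf]
    show eval b (if j < n then ∑ o', MvPolynomial.C (wd s o') *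
      pderiv o' (pderiv o (hn c H s j)) else 0) * V o = _
    rw [if_pos hj, map_sum]
    congr 1
    exact Finset.sum_congr rfl fun o' _ => by rw [map_mul, eval_C, mul_comm]
  have hf0 : ∀ s, ∀ b V : Option (Fin m) → ℝ, ∑ o, eval b (f n s o) * V o = 0 := by
    intro s b V
    refine Finset.sum_eq_zero fun o _ => ?_
    rw [hf]
    show eval b (if n < n then _ else 0) * V o = _
    rw [if_neg (lt_irrefl n), map_zero, zero_mul]
  obtain ⟨κ, hκ⟩ : ∃ κ : ℕ → ℝ, κ = fun j => 2 ^ k * (2 ^ a / 2 ^ g j) := ⟨_, rfl⟩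
  obtain ⟨B, h1, h2, h3⟩ := hwin (κ := κ) (f := f) (ψ := fun s => hn c H s) (g := g) (θ := θ) hA hc
    haJ (fun s l => hdeg s l) (fun s l => hdep s l)
    (fun j hj s o => by
      rw [hf]
      show (if j < n then ∑ o', MvPolynomial.C (wd s o') *
        pderiv o' (pderiv o (hn c H s j)) else 0).totalDegree ≤ D
      split_ifs
      · refine totalDegree_finsetSum_le fun o' _ => ?_
        refine (totalDegree_mul _ _).trans ?_
        rw [totalDegree_C, zero_add]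
        exact totalDegree_pdσ (totalDegree_pdσ (hdeg s j) o) o'
      · rw [totalDegree_zero]
        exact Nat.zero_le _)
    (fun j hj s i hi b => by
      rw [hf]
      show eval b (if j < n then ∑ o', MvPolynomial.C (wd s o') *
        pderiv o' (pderiv (some i) (hn c H s j)) else 0) = 0
      split_ifs
      · rw [pd_zero' (hdep s j) hi]
        simp
      · rw [map_zero])
    (fun j _ => by rw [hκ]; positivity) hθ hTm ((mul_le_mul_of_nonneg_right hC1 hθ1).trans hCJ)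
    (fun ω hω j hj V => by
      rcases hj.lt_or_eq with h | h
      · rw [hfe j h, wd_slam, hκ]
        exact hcur ω hω j h V
      · rw [h, hf0, abs_zero]
        have h4 : 0 ≤ κ n := by rw [hκ]; positivity
        exact mul_nonneg h4 (Nv_nonneg _ _ _ _ _ _ _))
  refine ⟨B, h1, h2, fun ω hω => ?_⟩
  obtain ⟨E, hE⟩ : ∃ E, E = Real.exp (C₁ * (θ + 1)) := ⟨_, rfl⟩
  have hE0 : 0 < E := by rw [hE]; exact Real.exp_pos _
  have hEn : E ≤ 2 ^ k' := by
    rw [hE]
    exact (Real.exp_le_exp.2 (mul_le_mul_of_nonneg_right hC1 hθ1)).trans hexp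
  rw [← hE] at h3
  obtain ⟨s, hs'⟩ : ∃ s, s = slam F a ω := ⟨_, rfl⟩
  have h3 := h3 ω hω
  rw [← hs'] at h3 ⊢
  obtain ⟨K, hK⟩ : ∃ K : ℝ, K = E * 2 ^ k := ⟨_, rfl⟩
  have hK0 : 0 < K := by rw [hK]; positivity
  have ha0 : (0 : ℝ) < 2 ^ a := by positivity
  have hstep : ∀ l < n, (∀ τ ∈ Set.Icc (0 : ℝ) 1, ∀ τ' ∈ Set.Icc (0 : ℝ) 1,
      ∀ V : Option (Fin m) → ℝ, Nv c l a g (hn c H s) (xt a s τ) V ≤
        (1 + K) ^ l * Nv c l a g (hn c H s) (xt a s τ') V) →
      ∀ τ ∈ Set.Icc (0 : ℝ) 1, ∀ τ' ∈ Set.Icc (0 : ℝ) 1, ∀ V : Option (Fin m) → ℝ,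
        |dd (hn c H s l) (xt a s τ) V - dd (hn c H s l) (xt a s τ') V| ≤
          K * (1 + K) ^ l / 2 ^ g l * Nv c l a g (hn c H s) (xt a s τ') V := by
    intro l hl hN τ hτ τ' hτ' V
    have hM : ∀ u ∈ Set.Icc (0 : ℝ) 1,
        |(Polynomial.derivative (vq a s (hn c H s l) V)).eval u| ≤
          K * (1 + K) ^ l / 2 ^ g l * Nv c l a g (hn c H s) (xt a s τ') V := by
      intro u hu
      rw [der_vq, abs_mul, abs_of_pos (show (0 : ℝ) < 1 / 2 ^ a by positivity)]
      have h4 := h3 l hl.le u hu V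
      rw [hfe l hl, hκ] at h4
      have h5 := hN u hu τ' hτ' V
      have e1 : (fun o => (lc a s o).eval u) = xt a s u := rfl
      rw [e1] at h4
      calc 1 / 2 ^ a * |hs (hn c H s l) (xt a s u) (wd s) V| ≤
            1 / 2 ^ a * (E * (2 ^ k * (2 ^ a / 2 ^ g l)) *
              ((1 + K) ^ l * Nv c l a g (hn c H s) (xt a s τ') V)) :=
            mul_le_mul_of_nonneg_left (h4.trans (mul_le_mul_of_nonneg_left h5
              (by positivity))) (by positivity)
        _ = _ := by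
            rw [hK]
            field_simp
    have h6 := poly_mv _ hM hτ hτ'
    rwa [eval_vq, eval_vq] at h6
  have hN : ∀ l ≤ n, ∀ τ ∈ Set.Icc (0 : ℝ) 1, ∀ τ' ∈ Set.Icc (0 : ℝ) 1,
      ∀ V : Option (Fin m) → ℝ, Nv c l a g (hn c H s) (xt a s τ) V ≤
        (1 + K) ^ l * Nv c l a g (hn c H s) (xt a s τ') V := by
    intro l
    induction l with
    | zero =>
      intro _ τ _ τ' _ V
      unfold Nv
      rw [Finset.sum_range_zero, Finset.sum_range_zero, pow_zero, one_mul]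
    | succ l ih =>
      intro hl τ hτ τ' hτ' V
      have h4 := ih (by omega) τ hτ τ' hτ' V
      have h5 := hstep l (by omega) (ih (by omega)) τ hτ τ' hτ' V
      have h0 := Nv_nonneg c l a g (hn c H s) (xt a s τ') V
      have e1 : ∀ y, Nv c (l + 1) a g (hn c H s) y V = Nv c l a g (hn c H s) y V +
          2 ^ g l * |V (some (c l)) - dd (hn c H s l) y V| := by
        intro y
        unfold Nv
        rw [Finset.sum_range_succ, add_assoc]
      rw [e1, e1]
      have h6 : 2 ^ g l * |V (some (c l)) - dd (hn c H s l) (xt a s τ) V| ≤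
          2 ^ g l * |V (some (c l)) - dd (hn c H s l) (xt a s τ') V| +
            K * (1 + K) ^ l * Nv c l a g (hn c H s) (xt a s τ') V := by
        have e2 : V (some (c l)) - dd (hn c H s l) (xt a s τ) V =
            (V (some (c l)) - dd (hn c H s l) (xt a s τ') V) -
            (dd (hn c H s l) (xt a s τ) V - dd (hn c H s l) (xt a s τ') V) := by ring
        rw [e2]
        refine (mul_le_mul_of_nonneg_left ((abs_sub
          (V (some (c l)) - dd (hn c H s l) (xt a s τ') V)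
          (dd (hn c H s l) (xt a s τ) V - dd (hn c H s l) (xt a s τ') V)).trans
          (add_le_add le_rfl h5)) (by positivity)).trans (le_of_eq ?_)
        field_simp
      have h7 : (1 : ℝ) ≤ (1 + K) ^ (l + 1) := one_le_pow₀ (by linarith)
      have h8 : 0 ≤ 2 ^ g l * |V (some (c l)) - dd (hn c H s l) (xt a s τ') V| := by positivity
      have h9 : (1 + K) ^ (l + 1) = (1 + K) ^ l + K * (1 + K) ^ l := by ring
      rw [mul_add]
      have h10 := le_mul_of_one_le_left h8 h7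
      rw [h9] at h10 ⊢
      linarith
  intro τ hτ τ' hτ' l hl V
  have h4 := hstep l hl (hN l hl.le) τ hτ τ' hτ' V
  rw [cv_subl, cv_grd, cv_grd]
  rw [nv_en] at h4
  refine h4.trans (mul_le_mul_of_nonneg_right (div_le_div_of_nonneg_right ?_ (by positivity))
    (en_nonneg _ _ _ _ _ _))
  have hK2 : K ≤ 2 ^ (k + k') := by
    rw [hK, pow_add, mul_comm]
    exact mul_le_mul_of_nonneg_left hEn (by positivity)
  have hK3 : 1 + K ≤ 2 ^ (k + k' + 1) := by
    rw [pow_succ]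
    have : (1 : ℝ) ≤ 2 ^ (k + k') := one_le_pow₀ (by norm_num)
    linarith
  calc K * (1 + K) ^ l ≤ 2 ^ (k + k' + 1) * (2 ^ (k + k' + 1)) ^ l := by
        refine mul_le_mul (by linarith) (pow_le_pow_left₀ (by linarith) hK3 l) (by positivity)
          (by positivity)
    _ = 2 ^ ((l + 1) * (k + k' + 1)) := by
        rw [← pow_succ', ← pow_mul]
        congr 1
        ring
    _ ≤ _ := pow_le_pow_right₀ (by norm_num) (Nat.mul_le_mul_right _ (by omega))

/-! ### The closed curvature from the visible one -/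

/-- The curvature of the closed charts. -/
theorem cur_cl {c : ℕ → Fin m} {g : ℕ → ℕ} {a n : ℕ} {U K W₀ : ℝ}
    {G ψ : ℕ → MvPolynomial (Option (Fin m)) ℝ} {x W : Option (Fin m) → ℝ} (hU : 0 ≤ U)
    (hK : 0 ≤ K) (hW₀ : 0 ≤ W₀)
    (dif1 : ∀ l < n, ∀ V : Option (Fin m) → ℝ, |dd (ψ l - G l) x V| ≤
      U / 2 ^ g l * nrm c G g a l x V)
    (dif2 : ∀ l < n, ∀ V V' Z : Option (Fin m) → ℝ, |hs (ψ l - G l) x V V' + dd (ψ l - G l) x Z| ≤
      U / 2 ^ g l * (nrm c G g a l x V * nrm c G g a l x V' + nrz c G g a l x V V' Z))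
    (hW : ∀ l < n, nrm c G g a l x W ≤ W₀ * 2 ^ a)
    (vc : ∀ l < n, ∀ V : Option (Fin m) → ℝ, |hs (G l) x W V| ≤
      K * (2 ^ a / 2 ^ g l) * nrm c G g a l x V) :
    ∀ l < n, ∀ V : Option (Fin m) → ℝ, |hs (ψ l) x W V| ≤
      (K + U * W₀ + U * (n * K)) * (1 + U) ^ n * (2 ^ a / 2 ^ g l) * Nv c l a g ψ x V := by
  intro l hl V
  have h0 := nrm_nonneg c G g a l x V
  have hnc : Nc c g a n U (fun j => grd (G j) x) (fun j => grd (ψ j) x) := by
    intro j hj V
    rw [cv_subl, cv_grd, cv_grd, ← nrm_en]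
    have h1 := dif1 j hj V
    rwa [dd_sub] at h1
  have hen := hnc.en_ge hU hl.le V
  rw [← nrm_en, ← nv_en] at hen
  have h1 := dif2 l hl W V 0
  have e0 : dd (ψ l - G l) x 0 = 0 := by
    have := dd_smul (ψ l - G l) x (0 : Option (Fin m) → ℝ) 0
    rwa [zero_smul, zero_mul] at this
  rw [e0, add_zero, hs_sub] at h1
  have h2 : nrz c G g a l x W V 0 ≤ n * K * 2 ^ a * nrm c G g a l x V := by
    unfold nrz
    have e1 : (2 : ℝ) ^ a * |(0 : Option (Fin m) → ℝ) none| = 0 := by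
      rw [Pi.zero_apply, abs_zero, mul_zero]
    rw [e1, zero_add]
    have e2 : ∀ j ∈ range l, (2 : ℝ) ^ g j * |(0 : Option (Fin m) → ℝ) (some (c j)) -
        dd (G j) x 0 - hs (G j) x W V| ≤ K * 2 ^ a * nrm c G g a l x V := by
      intro j hj
      have hj' := Finset.mem_range.1 hj
      have e3 : dd (G j) x 0 = 0 := by
        have := dd_smul (G j) x (0 : Option (Fin m) → ℝ) 0
        rwa [zero_smul, zero_mul] at this
      rw [Pi.zero_apply, e3, sub_zero, zero_sub, abs_neg]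
      have e4 := vc j (by omega) V
      have e5 : nrm c G g a j x V ≤ nrm c G g a l x V := by
        rw [nrm_en, nrm_en]
        exact en_mono c g a _ hj'.le V
      calc (2 : ℝ) ^ g j * |hs (G j) x W V| ≤ 2 ^ g j * (K * (2 ^ a / 2 ^ g j) *
            nrm c G g a l x V) := mul_le_mul_of_nonneg_left (e4.trans
              (mul_le_mul_of_nonneg_left e5 (by positivity))) (by positivity)
        _ = _ := by field_simp
    refine (Finset.sum_le_sum e2).trans ?_
    rw [Finset.sum_const, Finset.card_range, nsmul_eq_mul]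
    have e3 : (l : ℝ) ≤ n := by exact_mod_cast hl.le
    calc (l : ℝ) * (K * 2 ^ a * nrm c G g a l x V) ≤ n * (K * 2 ^ a * nrm c G g a l x V) :=
          mul_le_mul_of_nonneg_right e3 (by positivity)
      _ = _ := by ring
  have e1 : hs (ψ l) x W V = (hs (ψ l) x W V - hs (G l) x W V) + hs (G l) x W V := by ring
  rw [e1]
  have h3 : |hs (ψ l) x W V - hs (G l) x W V| ≤
      U / 2 ^ g l * (W₀ * 2 ^ a * nrm c G g a l x V + n * K * 2 ^ a * nrm c G g a l x V) := by
    refine h1.trans (mul_le_mul_of_nonneg_left (add_le_add ?_ h2) (by positivity))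
    exact mul_le_mul_of_nonneg_right (hW l hl) h0
  have hU1 : (0 : ℝ) ≤ (1 + U) ^ n := pow_nonneg (by linarith) n
  have hN0 := Nv_nonneg c l a g ψ x V
  have hn0 : (0 : ℝ) ≤ n := Nat.cast_nonneg n
  calc |hs (ψ l) x W V - hs (G l) x W V + hs (G l) x W V| ≤
        U / 2 ^ g l * (W₀ * 2 ^ a * nrm c G g a l x V + n * K * 2 ^ a * nrm c G g a l x V) +
          K * (2 ^ a / 2 ^ g l) * nrm c G g a l x V :=
        (abs_add_le _ _).trans (add_le_add h3 (vc l hl V))
    _ = (K + U * W₀ + U * (n * K)) * (2 ^ a / 2 ^ g l) * nrm c G g a l x V := by ring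
    _ ≤ (K + U * W₀ + U * (n * K)) * (2 ^ a / 2 ^ g l) * ((1 + U) ^ n * Nv c l a g ψ x V) :=
        mul_le_mul_of_nonneg_left hen (by positivity)
    _ = _ := by ring

end Pool.D2Z
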