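import Pool.Agent.H90.D2.Cmp

/-!
# D2: frozen frames

`frz`: a visible list of covectors which is near a closed one, in natural units, is near a frame,
that is, near a list of covectors which is a function of the point and of the line in its window.
The natural components are rounded level by level; the difference of the two cells is constant on a
large part of the event. `frz_frok`: the frame `FrOK`.
-/

set_option autoImplicit false

namespace Pool.D2Z

open Finset Real MvPolynomial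
open Pool.Agent.H49.Ent Pool.Agent.H32.Dense Pool.STK Pool.KA Pool.KSAT Pool.K2S Pool.PB Pool.S6C
open Pool.GEN Pool.CHT Pool.CHX
open Pool.D2F

/-- Pigeonhole. -/
theorem pe_pgn {Ω κ : Type} [Fintype Ω] [Fintype κ] [Nonempty κ] {p : Ω → ℝ}
    (k : Ω → κ) (A : Ω → Prop) :
    ∃ k₀, Pe p A ≤ Fintype.card κ * Pe p (fun ω => A ω ∧ k ω = k₀) := by
  classical
  by_contra hcon
  push Not at hcon
  have hMr : (0 : ℝ) < Fintype.card κ := by exact_mod_cast Fintype.card_pos
  have h1 : Pe p A = ∑ i : κ, Pe p (fun ω => A ω ∧ k ω = i) := by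
    simp only [Pe_eq]
    rw [Finset.sum_comm]
    refine Finset.sum_congr rfl fun ω _ => ?_
    rw [Finset.sum_eq_single (k ω)]
    · by_cases hA : A ω
      · rw [if_pos hA, if_pos ⟨hA, rfl⟩]
      · rw [if_neg hA, if_neg (fun h => hA h.1)]
    · intro i _ hi
      rw [if_neg (fun h => hi h.2.symm)]
    · intro h
      exact absurd (Finset.mem_univ _) h
  have h2 : ∑ i : κ, Fintype.card κ * Pe p (fun ω => A ω ∧ k ω = i) < ∑ _i : κ, Pe p A :=
    Finset.sum_lt_sum_of_nonempty Finset.univ_nonempty fun i _ => hcon i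
  rw [← Finset.mul_sum, ← h1, Finset.sum_const, Finset.card_univ, nsmul_eq_mul] at h2
  exact lt_irrefl _ h2

variable {m J : ℕ}

/-! ### The natural size -/

/-- **The natural size** of a vector, below the coordinate `c l`. -/
noncomputable def en (c : ℕ → Fin m) (g : ℕ → ℕ) (a : ℕ) (χ : ℕ → Option (Fin m) → ℝ) (l : ℕ)
    (V : Option (Fin m) → ℝ) : ℝ := ∑ j ∈ range (l + 1), |eta c g a χ V j|

theorem en_nonneg (c : ℕ → Fin m) (g : ℕ → ℕ) (a : ℕ) (χ : ℕ → Option (Fin m) → ℝ) (l : ℕ)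
    (V : Option (Fin m) → ℝ) : 0 ≤ en c g a χ l V := Finset.sum_nonneg fun _ _ => abs_nonneg _

theorem en_succ (c : ℕ → Fin m) (g : ℕ → ℕ) (a : ℕ) (χ : ℕ → Option (Fin m) → ℝ) (l : ℕ)
    (V : Option (Fin m) → ℝ) : en c g a χ (l + 1) V = en c g a χ l V +
      2 ^ g l * |V (some (c l)) - cv (χ l) V| := by
  unfold en
  rw [Finset.sum_range_succ]
  congr 1
  simp only [eta]
  rw [abs_mul, abs_of_pos (by positivity)]

theorem en_zero (c : ℕ → Fin m) (g : ℕ → ℕ) (a : ℕ) (χ : ℕ → Option (Fin m) → ℝ)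
    (V : Option (Fin m) → ℝ) : en c g a χ 0 V = 2 ^ a * |V none| := by
  unfold en
  rw [Finset.sum_range_one]
  simp only [eta]
  rw [abs_mul, abs_of_pos (by positivity)]

theorem en_eq (c : ℕ → Fin m) (g : ℕ → ℕ) (a : ℕ) (χ : ℕ → Option (Fin m) → ℝ) (l : ℕ)
    (V : Option (Fin m) → ℝ) : en c g a χ l V = 2 ^ a * |V none| +
      ∑ j ∈ range l, 2 ^ g j * |V (some (c j)) - cv (χ j) V| := by
  induction l with
  | zero => rw [en_zero, Finset.sum_range_zero, add_zero]
  | succ l ih => rw [en_succ, ih, Finset.sum_range_succ, add_assoc]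

theorem en_mono (c : ℕ → Fin m) (g : ℕ → ℕ) (a : ℕ) (χ : ℕ → Option (Fin m) → ℝ) {l l' : ℕ}
    (h : l ≤ l') (V : Option (Fin m) → ℝ) : en c g a χ l V ≤ en c g a χ l' V :=
  Finset.sum_le_sum_of_subset_of_nonneg (Finset.range_mono (by omega)) fun _ _ _ => abs_nonneg _

/-- Two lists of covectors which are near: one direction. -/
theorem en_le {c : ℕ → Fin m} {g : ℕ → ℕ} {a : ℕ} {χ χ' : ℕ → Option (Fin m) → ℝ} {L : ℕ}
    {K : ℝ} (hK : 0 ≤ K) (h : ∀ l < L, ∀ V : Option (Fin m) → ℝ, |cv (χ' l - χ l) V| ≤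
      K / 2 ^ g l * en c g a χ l V) {l : ℕ} (hl : l ≤ L) (V : Option (Fin m) → ℝ) :
    en c g a χ' l V ≤ (1 + K) ^ l * en c g a χ l V := by
  induction l with
  | zero => rw [en_zero, en_zero, pow_zero, one_mul]
  | succ l ih =>
    rw [en_succ, en_succ]
    have h1 := ih (by omega)
    have h2 := h l (by omega) V
    have hg : (0 : ℝ) < 2 ^ g l := by positivity
    have h3 : 2 ^ g l * |V (some (c l)) - cv (χ' l) V| ≤
        2 ^ g l * |V (some (c l)) - cv (χ l) V| + K * en c g a χ l V := by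
      have e1 : V (some (c l)) - cv (χ' l) V =
          (V (some (c l)) - cv (χ l) V) - cv (χ' l - χ l) V := by
        have : cv (χ' l - χ l) V = cv (χ' l) V - cv (χ l) V := by
          unfold cv
          rw [← Finset.sum_sub_distrib]
          exact Finset.sum_congr rfl fun o _ => by rw [Pi.sub_apply]; ring
        rw [this]
        ring
      rw [e1]
      have h4 := mul_le_mul_of_nonneg_left ((abs_sub (V (some (c l)) - cv (χ l) V)
        (cv (χ' l - χ l) V)).trans (add_le_add le_rfl h2)) hg.le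
      refine h4.trans (le_of_eq ?_)
      field_simp
    have h0 := en_nonneg c g a χ l V
    have h5 : 0 ≤ 2 ^ g l * |V (some (c l)) - cv (χ l) V| := by positivity
    have h6 : (1 : ℝ) ≤ (1 + K) ^ l := one_le_pow₀ (by linarith)
    have h6' : (1 : ℝ) ≤ (1 + K) ^ (l + 1) := one_le_pow₀ (by linarith)
    have h7 : K * en c g a χ l V ≤ K * ((1 + K) ^ l * en c g a χ l V) := by
      refine mul_le_mul_of_nonneg_left ?_ hK
      nlinarith
    rw [mul_add]
    have h8 : (1 + K) ^ (l + 1) * en c g a χ l V = (1 + K) ^ l * en c g a χ l V +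
        K * ((1 + K) ^ l * en c g a χ l V) := by ring
    rw [h8]
    have h9 : 2 ^ g l * |V (some (c l)) - cv (χ l) V| ≤
        (1 + K) ^ (l + 1) * (2 ^ g l * |V (some (c l)) - cv (χ l) V|) :=
      le_mul_of_one_le_left h5 h6'
    linarith

theorem cv_neg' (ψ W : Option (Fin m) → ℝ) : cv (-ψ) W = -cv ψ W := by
  unfold cv
  rw [← Finset.sum_neg_distrib]
  exact Finset.sum_congr rfl fun o _ => by rw [Pi.neg_apply]; ring

theorem cv_subl (ψ φ W : Option (Fin m) → ℝ) : cv (ψ - φ) W = cv ψ W - cv φ W := by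
  unfold cv
  rw [← Finset.sum_sub_distrib]
  exact Finset.sum_congr rfl fun o _ => by rw [Pi.sub_apply]; ring

theorem cv_addl (ψ φ W : Option (Fin m) → ℝ) : cv (ψ + φ) W = cv ψ W + cv φ W := by
  unfold cv
  rw [← Finset.sum_add_distrib]
  exact Finset.sum_congr rfl fun o _ => by rw [Pi.add_apply]; ring

theorem cv_smull (ψ W : Option (Fin m) → ℝ) (t : ℝ) : cv (t • ψ) W = t * cv ψ W := by
  unfold cv
  rw [Finset.mul_sum]
  exact Finset.sum_congr rfl fun o _ => by rw [Pi.smul_apply, smul_eq_mul]; ring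

/-- Two lists of covectors which are near: the other direction. -/
theorem en_ge {c : ℕ → Fin m} {g : ℕ → ℕ} {a : ℕ} {χ χ' : ℕ → Option (Fin m) → ℝ} {L : ℕ}
    {K : ℝ} (hK : 0 ≤ K) (h : ∀ l < L, ∀ V : Option (Fin m) → ℝ, |cv (χ' l - χ l) V| ≤
      K / 2 ^ g l * en c g a χ l V) {l : ℕ} (hl : l ≤ L) (V : Option (Fin m) → ℝ) :
    en c g a χ l V ≤ (1 + K) ^ l * en c g a χ' l V := by
  induction l with
  | zero => rw [en_zero, en_zero, pow_zero, one_mul]
  | succ l ih =>
    rw [en_succ, en_succ]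
    have h1 := ih (by omega)
    have h2 := h l (by omega) V
    have hg : (0 : ℝ) < 2 ^ g l := by positivity
    have h3 : 2 ^ g l * |V (some (c l)) - cv (χ l) V| ≤
        2 ^ g l * |V (some (c l)) - cv (χ' l) V| + K * en c g a χ l V := by
      have e1 : V (some (c l)) - cv (χ l) V =
          (V (some (c l)) - cv (χ' l) V) + cv (χ' l - χ l) V := by
        rw [cv_subl]
        ring
      rw [e1]
      have h4 := mul_le_mul_of_nonneg_left ((abs_add_le (V (some (c l)) - cv (χ' l) V)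
        (cv (χ' l - χ l) V)).trans (add_le_add le_rfl h2)) hg.le
      refine h4.trans (le_of_eq ?_)
      field_simp
    have h0 := en_nonneg c g a χ' l V
    have h5 : 0 ≤ 2 ^ g l * |V (some (c l)) - cv (χ' l) V| := by positivity
    have h6' : (1 : ℝ) ≤ (1 + K) ^ (l + 1) := one_le_pow₀ (by linarith)
    have h7 : (1 + K) * en c g a χ l V ≤ (1 + K) * ((1 + K) ^ l * en c g a χ' l V) :=
      mul_le_mul_of_nonneg_left h1 (by linarith)
    have h8 : 2 ^ g l * |V (some (c l)) - cv (χ' l) V| ≤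
        (1 + K) ^ (l + 1) * (2 ^ g l * |V (some (c l)) - cv (χ' l) V|) :=
      le_mul_of_one_le_left h5 h6'
    rw [mul_add]
    have h9 : (1 + K) ^ (l + 1) * en c g a χ' l V = (1 + K) * ((1 + K) ^ l * en c g a χ' l V) := by
      ring
    rw [h9]
    linarith

/-! ### The coordinate covectors -/

/-- The covector `eta j`. -/
noncomputable def ec (c : ℕ → Fin m) (g : ℕ → ℕ) (a : ℕ) (χ : ℕ → Option (Fin m) → ℝ) :
    ℕ → Option (Fin m) → ℝ
  | 0 => fun o => if o = none then 2 ^ a else 0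
  | l + 1 => fun o => 2 ^ g l * ((if o = some (c l) then 1 else 0) - χ l o)

theorem cv_ec (c : ℕ → Fin m) (g : ℕ → ℕ) (a : ℕ) (χ : ℕ → Option (Fin m) → ℝ) (j : ℕ)
    (V : Option (Fin m) → ℝ) : cv (ec c g a χ j) V = eta c g a χ V j := by
  classical
  cases j with
  | zero =>
    simp only [ec, eta, cv]
    rw [Finset.sum_eq_single none]
    · rw [if_pos rfl]
    · intro o _ ho
      rw [if_neg ho, zero_mul]
    · intro h
      exact absurd (Finset.mem_univ _) h
  | succ l =>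
    simp only [ec, eta, cv]
    rw [mul_sub, Finset.mul_sum]
    have e1 : (2 : ℝ) ^ g l * V (some (c l)) = ∑ o, (2 : ℝ) ^ g l *
        ((if o = some (c l) then 1 else 0) * V o) := by
      rw [← Finset.mul_sum]
      congr 1
      rw [Finset.sum_eq_single (some (c l))]
      · rw [if_pos rfl, one_mul]
      · intro o _ ho
        rw [if_neg ho, zero_mul]
      · intro h
        exact absurd (Finset.mem_univ _) h
    rw [e1, ← Finset.sum_sub_distrib]
    exact Finset.sum_congr rfl fun o _ => by ring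

theorem cvc_ec {c : ℕ → Fin m} {g : ℕ → ℕ} {a : ℕ} {χ : ℕ → Option (Fin m) → ℝ}
    (hχ : ∀ l, CvC c l (χ l)) {j i : ℕ} (hj : j ≤ i) : CvC c i (ec c g a χ j) := by
  intro k hk
  cases j with
  | zero => simp [ec]
  | succ l =>
    simp only [ec]
    rw [if_neg (fun h => hk l hj (Option.some_injective _ h)),
      hχ l k fun j hj' => hk j (by omega), sub_zero, mul_zero]

/-- The covector with given natural components. -/
noncomputable def mk (c : ℕ → Fin m) (g : ℕ → ℕ) (a : ℕ) (χ : ℕ → Option (Fin m) → ℝ) (n : ℕ)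
    (x : ℕ → ℝ) : Option (Fin m) → ℝ := ∑ j ∈ range (n + 1), x j • ec c g a χ j

theorem cv_mk (c : ℕ → Fin m) (g : ℕ → ℕ) (a : ℕ) (χ : ℕ → Option (Fin m) → ℝ) (n : ℕ)
    (x : ℕ → ℝ) (V : Option (Fin m) → ℝ) :
    cv (mk c g a χ n x) V = ∑ j ∈ range (n + 1), x j * eta c g a χ V j := by
  unfold mk
  have h1 : ∀ s : Finset ℕ, cv (∑ j ∈ s, x j • ec c g a χ j) V =
      ∑ j ∈ s, x j * eta c g a χ V j := by
    intro s
    classical
    induction s using Finset.induction_on with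
    | empty =>
      rw [Finset.sum_empty, Finset.sum_empty]
      unfold cv
      simp
    | insert i s hi ih =>
      rw [Finset.sum_insert hi, Finset.sum_insert hi, cv_addl, cv_smull, ih, cv_ec]
  exact h1 _

theorem cvc_mk {c : ℕ → Fin m} {g : ℕ → ℕ} {a : ℕ} {χ : ℕ → Option (Fin m) → ℝ}
    (hχ : ∀ l, CvC c l (χ l)) (n : ℕ) (x : ℕ → ℝ) : CvC c n (mk c g a χ n x) := by
  intro k hk
  unfold mk
  rw [Finset.sum_apply]
  refine Finset.sum_eq_zero fun j hj => ?_
  rw [Pi.smul_apply, smul_eq_mul, cvc_ec hχ (Nat.lt_succ_iff.1 (Finset.mem_range.1 hj)) k hk,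
    mul_zero]

/-- The size of a vector with small natural coordinates. -/
theorem en_one {c : ℕ → Fin m} {g : ℕ → ℕ} {a : ℕ} {χ : ℕ → Option (Fin m) → ℝ} {n : ℕ}
    {V : Option (Fin m) → ℝ} (h : ∀ j ≤ n, |eta c g a χ V j| ≤ 1) :
    en c g a χ n V ≤ n + 1 := by
  unfold en
  refine (Finset.sum_le_sum fun j hj => h j (Nat.lt_succ_iff.1 (Finset.mem_range.1 hj))).trans
    (le_of_eq ?_)
  rw [Finset.sum_const, Finset.card_range, nsmul_eq_mul, mul_one]
  push_cast
  ring

/-! ### Freezing -/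

/-- The difference of two floors. -/
theorem floor_dif {x y : ℝ} (h : |x - y| ≤ 1) : ⌊x⌋ - ⌊y⌋ = -1 ∨ ⌊x⌋ - ⌊y⌋ = 0 ∨
    ⌊x⌋ - ⌊y⌋ = 1 := by
  have h1 := Int.floor_le x
  have h2 := Int.lt_floor_add_one x
  have h3 := Int.floor_le y
  have h4 := Int.lt_floor_add_one y
  rw [abs_le] at h
  have h5 : ((⌊x⌋ - ⌊y⌋ : ℤ) : ℝ) < 2 := by
    push_cast
    linarith [h.1, h.2]
  have h6 : (-2 : ℝ) < ((⌊x⌋ - ⌊y⌋ : ℤ) : ℝ) := by
    push_cast
    linarith [h.1, h.2]
  have h7 : ⌊x⌋ - ⌊y⌋ < 2 := by exact_mod_cast h5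
  have h8 : -2 < ⌊x⌋ - ⌊y⌋ := by exact_mod_cast h6
  omega

/-- **Freezing a list of covectors.** -/
theorem frz (n : ℕ) : ∃ C : ℕ, ∀ {m J : ℕ} {F : Fam m J} {c : ℕ → Fin m} {a k : ℕ} {g : ℕ → ℕ}
    {B : F.Ω → Prop} {γ : PtT F → ℕ → Option (Fin m) → ℝ} {φ : LnT F → ℕ → Option (Fin m) → ℝ},
    Set.InjOn c (Set.Iio n) → (∀ y l, CvC c l (γ y l)) → (∀ s l, CvC c l (φ s l)) →
    (∀ ω, B ω → ∀ l < n, ∀ V : Option (Fin m) → ℝ,
      |cv (φ (slam F a ω) l - γ (ptr F J ω) l) V| ≤
        2 ^ k / 2 ^ g l * en c g a (γ (ptr F J ω)) l V) →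
    ∃ (B' : F.Ω → Prop) (ψ : PtT F → ℕ → Option (Fin m) → ℝ)
      (ψH : LnT F → ℕ → Option (Fin m) → ℝ), Sub B' B ∧ Pe F.p B ≤ 3 ^ (n ^ 2) * Pe F.p B' ∧
      (∀ ω, B' ω → ψ (ptr F J ω) = ψH (slam F a ω)) ∧ (∀ y l, CvC c l (ψ y l)) ∧
      (∀ s l, CvC c l (ψH s l)) ∧ ∀ ω, B' ω → ∀ l < n, ∀ V : Option (Fin m) → ℝ,
        |cv (ψ (ptr F J ω) l - γ (ptr F J ω) l) V| ≤
          2 ^ (C * (k + 1)) / 2 ^ g l * en c g a (γ (ptr F J ω)) l V := by
  classical
  induction n with
  | zero =>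
    refine ⟨0, ?_⟩
    intro m J F c a k g B γ φ _ _ _ _
    refine ⟨B, fun _ _ _ => 0, fun _ _ _ => 0, fun _ h => h, by simp, fun _ _ => rfl,
      fun _ _ _ _ => rfl, fun _ _ _ _ => rfl, fun _ _ l hl => absurd hl (Nat.not_lt_zero _)⟩
  | succ n ih =>
    obtain ⟨C, ih⟩ := ih
    refine ⟨1 + (n + 1) + (C + 1) * (2 * n) + C, ?_⟩
    intro m J F c a k g B γ φ hc hγ hφ hcl
    have hc' : Set.InjOn c (Set.Iio n) := hc.mono (Set.Iio_subset_Iio (Nat.le_succ n))
    obtain ⟨B₁, ψ, ψH, k1, k2, k3, k4, k5, k6⟩ := ih (k := k) (g := g) (B := B) hc' hγ hφ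
      fun ω hω l hl => hcl ω hω l (by omega)
    obtain ⟨Y, hY⟩ : ∃ Y : ℝ, Y = 1 + 2 ^ (C * (k + 1)) := ⟨_, rfl⟩
    have hY1 : 1 ≤ Y := by
      rw [hY]
      have : (0 : ℝ) < 2 ^ (C * (k + 1)) := by positivity
      linarith
    have hYn : 1 ≤ Y ^ n := one_le_pow₀ hY1
    -- the unit
    obtain ⟨U, hU⟩ : ∃ U : ℝ, U = 2 ^ k * Y ^ n * (n + 1) / 2 ^ g n := ⟨_, rfl⟩
    have hU0 : 0 < U := by
      rw [hU]
      positivity
    -- the codes
    obtain ⟨q, hq⟩ : ∃ q : (ℕ → Option (Fin m) → ℝ) → (Option (Fin m) → ℝ) → ℕ → ℤ,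
        q = fun χ f j => ⌊nc c g a χ n f j / U⌋ := ⟨_, rfl⟩
    have hdif : ∀ ω, B₁ ω → ∀ j, q (ψ (ptr F J ω)) (γ (ptr F J ω) n) j -
        q (ψH (slam F a ω)) (φ (slam F a ω) n) j = -1 ∨ q (ψ (ptr F J ω)) (γ (ptr F J ω) n) j -
        q (ψH (slam F a ω)) (φ (slam F a ω) n) j = 0 ∨ q (ψ (ptr F J ω)) (γ (ptr F J ω) n) j -
        q (ψH (slam F a ω)) (φ (slam F a ω) n) j = 1 := by
      intro ω hω j
      rw [hq, ← k3 ω hω]
      refine floor_dif ?_
      rw [← sub_div, ← nc_sub, abs_div, abs_of_pos hU0, div_le_one hU0]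
      refine nc_le hc' g a (k4 _) (fun W hW => ?_) j
      have e1 : cv (γ (ptr F J ω) n - φ (slam F a ω) n) W =
          -cv (φ (slam F a ω) n - γ (ptr F J ω) n) W := by
        rw [cv_subl, cv_subl]
        ring
      rw [e1, abs_neg]
      refine (hcl ω (k1 ω hω) n (Nat.lt_succ_self n) W).trans ?_
      have h1 := en_ge (K := 2 ^ (C * (k + 1))) (by positivity) (k6 ω hω) (le_refl n) W
      rw [← hY] at h1
      have h2 := en_one hW
      rw [hU]
      calc 2 ^ k / 2 ^ g n * en c g a (γ (ptr F J ω)) n W ≤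
            2 ^ k / 2 ^ g n * (Y ^ n * (n + 1)) := by
            refine mul_le_mul_of_nonneg_left (h1.trans ?_) (by positivity)
            exact mul_le_mul_of_nonneg_left h2 (by positivity)
        _ = _ := by ring
    obtain ⟨code, hcode⟩ : ∃ code : F.Ω → Fin (n + 1) → Fin 3, code = fun ω (j : Fin (n + 1)) =>
        if q (ψ (ptr F J ω)) (γ (ptr F J ω) n) j - q (ψH (slam F a ω)) (φ (slam F a ω) n) j = -1
        then 0 else if q (ψ (ptr F J ω)) (γ (ptr F J ω) n) j -
          q (ψH (slam F a ω)) (φ (slam F a ω) n) j = 0 then 1 else 2 := ⟨_, rfl⟩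
    obtain ⟨k₀, hk₀⟩ := pe_pgn (p := F.p) code B₁
    obtain ⟨d, hd⟩ : ∃ d : ℕ → ℤ, d = fun j => if h : j < n + 1 then ((k₀ ⟨j, h⟩ : ℕ) : ℤ) - 1
      else 0 := ⟨_, rfl⟩
    obtain ⟨ψ', hψ'⟩ : ∃ ψ' : PtT F → ℕ → Option (Fin m) → ℝ, ψ' = fun y l =>
        if l = n then mk c g a (ψ y) n (fun j => U * q (ψ y) (γ y n) j) else
          if l < n then ψ y l else 0 := ⟨_, rfl⟩
    obtain ⟨ψH', hψH'⟩ : ∃ ψH' : LnT F → ℕ → Option (Fin m) → ℝ, ψH' = fun s l =>
        if l = n then mk c g a (ψH s) n (fun j => U * ((q (ψH s) (φ s n) j + d j : ℤ) : ℝ)) else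
          if l < n then ψH s l else 0 := ⟨_, rfl⟩
    refine ⟨fun ω => B₁ ω ∧ code ω = k₀, ψ', ψH', fun ω hω => k1 ω hω.1, ?_, ?_, ?_, ?_, ?_⟩
    · rw [Fintype.card_fun, Fintype.card_fin, Fintype.card_fin] at hk₀
      push_cast at hk₀
      have h1 : (0 : ℝ) ≤ Pe F.p (fun ω => B₁ ω ∧ code ω = k₀) := Pe_nonneg F.isLaw _
      calc Pe F.p B ≤ 3 ^ (n ^ 2) * Pe F.p B₁ := k2
        _ ≤ 3 ^ (n ^ 2) * (3 ^ (n + 1) * Pe F.p (fun ω => B₁ ω ∧ code ω = k₀)) :=
            mul_le_mul_of_nonneg_left hk₀ (by positivity)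
        _ = 3 ^ (n ^ 2 + (n + 1)) * Pe F.p (fun ω => B₁ ω ∧ code ω = k₀) := by
            rw [pow_add]
            ring
        _ ≤ _ := mul_le_mul_of_nonneg_right (pow_le_pow_right₀ (by norm_num) (by nlinarith)) h1
    · rintro ω ⟨hω, hωk⟩
      have e0 := k3 ω hω
      funext l
      rw [hψ', hψH']
      show (if l = n then mk c g a (ψ (ptr F J ω)) n
          (fun j => U * q (ψ (ptr F J ω)) (γ (ptr F J ω) n) j) else
          if l < n then ψ (ptr F J ω) l else 0) = if l = n then mk c g a (ψH (slam F a ω)) n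
          (fun j => U * ((q (ψH (slam F a ω)) (φ (slam F a ω) n) j + d j : ℤ) : ℝ)) else
          if l < n then ψH (slam F a ω) l else 0
      rw [← e0]
      congr 1
      unfold mk
      refine Finset.sum_congr rfl fun j hj => ?_
      have hj' := Finset.mem_range.1 hj
      have h1 := congrFun hωk ⟨j, hj'⟩
      rw [hcode] at h1
      have h2 := hdif ω hω j
      have e2 : d j = ((k₀ ⟨j, hj'⟩ : ℕ) : ℤ) - 1 := by
        rw [hd]
        exact dif_pos hj'
      have h5 : q (ψ (ptr F J ω)) (γ (ptr F J ω) n) j =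
          q (ψ (ptr F J ω)) (φ (slam F a ω) n) j + d j := by
        rw [← e0] at h2
        rcases h2 with h3 | h3 | h3
        · have e3 : k₀ ⟨j, hj'⟩ = 0 := by
            rw [← h1]
            show (if q (ψ (ptr F J ω)) (γ (ptr F J ω) n) j -
              q (ψH (slam F a ω)) (φ (slam F a ω) n) j = -1 then (0 : Fin 3) else _) = 0
            rw [← e0, if_pos h3]
          rw [e2, e3]
          simp only [Fin.val_zero, Nat.cast_zero]
          omega
        · have e3 : k₀ ⟨j, hj'⟩ = 1 := by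
            rw [← h1]
            show (if q (ψ (ptr F J ω)) (γ (ptr F J ω) n) j -
              q (ψH (slam F a ω)) (φ (slam F a ω) n) j = -1 then (0 : Fin 3) else
              if q (ψ (ptr F J ω)) (γ (ptr F J ω) n) j -
                q (ψH (slam F a ω)) (φ (slam F a ω) n) j = 0 then 1 else 2) = 1
            rw [← e0, if_neg (by omega), if_pos h3]
          rw [e2, e3]
          simp only [Fin.val_one, Nat.cast_one]
          omega
        · have e3 : k₀ ⟨j, hj'⟩ = 2 := by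
            rw [← h1]
            show (if q (ψ (ptr F J ω)) (γ (ptr F J ω) n) j -
              q (ψH (slam F a ω)) (φ (slam F a ω) n) j = -1 then (0 : Fin 3) else
              if q (ψ (ptr F J ω)) (γ (ptr F J ω) n) j -
                q (ψH (slam F a ω)) (φ (slam F a ω) n) j = 0 then 1 else 2) = 2
            rw [← e0, if_neg (by omega), if_neg (by omega)]
          rw [e2, e3]
          simp only [Fin.val_two, Nat.cast_ofNat]
          omega
      simp only [h5]
    · intro y l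
      rw [hψ']
      show CvC c l (if l = n then mk c g a (ψ y) n (fun j => U * q (ψ y) (γ y n) j) else
          if l < n then ψ y l else 0)
      split_ifs with h1 h2
      · rw [h1]
        exact cvc_mk (k4 y) n _
      · exact k4 y l
      · exact fun _ _ => rfl
    · intro s l
      rw [hψH']
      show CvC c l (if l = n then mk c g a (ψH s) n
        (fun j => U * ((q (ψH s) (φ s n) j + d j : ℤ) : ℝ)) else if l < n then ψH s l else 0)
      split_ifs with h1 h2
      · rw [h1]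
        exact cvc_mk (k5 s) n _
      · exact k5 s l
      · exact fun _ _ => rfl
    · rintro ω ⟨hω, hωk⟩ l hl V
      have hCe : ∀ {x : ℝ}, 0 ≤ x → 2 ^ (C * (k + 1)) / 2 ^ g l * x ≤
          2 ^ ((1 + (n + 1) + (C + 1) * (2 * n) + C) * (k + 1)) / 2 ^ g l * x := fun hx =>
        mul_le_mul_of_nonneg_right (div_le_div_of_nonneg_right (pow_le_pow_right₀ (by norm_num)
          (Nat.mul_le_mul_right _ (by omega))) (by positivity)) hx
      have h0 := en_nonneg c g a (γ (ptr F J ω)) l V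
      rcases Nat.lt_succ_iff_lt_or_eq.1 hl with h | h
      · have e1 : ψ' (ptr F J ω) l = ψ (ptr F J ω) l := by
          rw [hψ']
          show (if l = n then _ else if l < n then ψ (ptr F J ω) l else 0) = _
          rw [if_neg (by omega), if_pos h]
        rw [e1]
        exact (k6 ω hω l h V).trans (hCe h0)
      · subst h
        have e1 : ψ' (ptr F J ω) l = mk c g a (ψ (ptr F J ω)) l
            (fun j => U * q (ψ (ptr F J ω)) (γ (ptr F J ω) l) j) := by
          rw [hψ']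
          show (if l = l then _ else _) = _
          rw [if_pos rfl]
        rw [e1, cv_subl, cv_mk, cv_nc hc' g a (k4 _) (hγ _ l) V, ← Finset.sum_sub_distrib]
        have h1 : ∀ j ∈ range (l + 1), |U * q (ψ (ptr F J ω)) (γ (ptr F J ω) l) j *
            eta c g a (ψ (ptr F J ω)) V j - nc c g a (ψ (ptr F J ω)) l (γ (ptr F J ω) l) j *
            eta c g a (ψ (ptr F J ω)) V j| ≤ U * |eta c g a (ψ (ptr F J ω)) V j| := by
          intro j _
          rw [← sub_mul, abs_mul]
          refine mul_le_mul_of_nonneg_right ?_ (abs_nonneg _)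
          rw [hq]
          show |U * (⌊nc c g a (ψ (ptr F J ω)) l (γ (ptr F J ω) l) j / U⌋ : ℝ) -
            nc c g a (ψ (ptr F J ω)) l (γ (ptr F J ω) l) j| ≤ U
          have h2 := Int.floor_le (nc c g a (ψ (ptr F J ω)) l (γ (ptr F J ω) l) j / U)
          have h3 := Int.lt_floor_add_one (nc c g a (ψ (ptr F J ω)) l (γ (ptr F J ω) l) j / U)
          rw [le_div_iff₀ hU0] at h2
          rw [div_lt_iff₀ hU0] at h3
          rw [abs_le]
          constructor <;> nlinarith
        refine (Finset.abs_sum_le_sum_abs _ _).trans ((Finset.sum_le_sum h1).trans ?_)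
        rw [← Finset.mul_sum]
        have h2 := en_le (K := 2 ^ (C * (k + 1))) (by positivity) (k6 ω hω) (le_refl l) V
        rw [← hY] at h2
        have h3 : ∑ j ∈ range (l + 1), |eta c g a (ψ (ptr F J ω)) V j| =
          en c g a (ψ (ptr F J ω)) l V := rfl
        rw [h3]
        have h4 : Y ≤ 2 ^ ((C + 1) * (k + 1)) := by
          rw [hY, Nat.add_mul, one_mul, pow_add]
          have e2 : (1 : ℝ) ≤ 2 ^ (C * (k + 1)) := one_le_pow₀ (by norm_num)
          have e3 : (2 : ℝ) ≤ 2 ^ (k + 1) := by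
            calc (2 : ℝ) = 2 ^ 1 := (pow_one 2).symm
              _ ≤ _ := pow_le_pow_right₀ (by norm_num) (by omega)
          nlinarith
        have h5 : ((l : ℝ) + 1) ≤ 2 ^ ((l + 1) * (k + 1)) := by
          have e2 : ((l + 1 : ℕ) : ℝ) ≤ ((2 ^ (l + 1) : ℕ) : ℝ) := by
            exact_mod_cast (Nat.lt_two_pow_self (n := l + 1)).le
          push_cast at e2
          exact e2.trans (pow_le_pow_right₀ (by norm_num) (Nat.le_mul_of_pos_right _ (by omega)))
        have h6 : Y ^ l * Y ^ l ≤ 2 ^ ((C + 1) * (2 * l) * (k + 1)) := by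
          rw [← pow_add]
          calc Y ^ (l + l) ≤ (2 ^ ((C + 1) * (k + 1))) ^ (l + l) :=
                pow_le_pow_left₀ (by linarith) h4 _
            _ = _ := by
                rw [← pow_mul]
                congr 1
                ring
        have h7 : (2 : ℝ) ^ k ≤ 2 ^ (1 * (k + 1)) := pow_le_pow_right₀ (by norm_num) (by omega)
        calc U * en c g a (ψ (ptr F J ω)) l V ≤
              U * (Y ^ l * en c g a (γ (ptr F J ω)) l V) :=
              mul_le_mul_of_nonneg_left h2 hU0.le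
          _ = (2 ^ k * (l + 1) * (Y ^ l * Y ^ l)) / 2 ^ g l * en c g a (γ (ptr F J ω)) l V := by
              rw [hU]
              ring
          _ ≤ (2 ^ (1 * (k + 1)) * 2 ^ ((l + 1) * (k + 1)) *
                2 ^ ((C + 1) * (2 * l) * (k + 1))) / 2 ^ g l *
                en c g a (γ (ptr F J ω)) l V := by
              refine mul_le_mul_of_nonneg_right (div_le_div_of_nonneg_right ?_ (by positivity)) h0
              refine mul_le_mul (mul_le_mul h7 h5 (by positivity) (by positivity)) h6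
                (by positivity) (by positivity)
          _ ≤ _ := by
              refine mul_le_mul_of_nonneg_right (div_le_div_of_nonneg_right ?_ (by positivity)) h0
              rw [← pow_add, ← pow_add]
              refine pow_le_pow_right₀ (by norm_num) ?_
              rw [← Nat.add_mul, ← Nat.add_mul]
              exact Nat.mul_le_mul_right _ (by omega)

/-- The value of a covector at a coordinate. -/
theorem cv_single (χ : Option (Fin m) → ℝ) (o : Option (Fin m)) :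
    cv χ (fun o' => if o' = o then 1 else 0) = χ o := by
  classical
  unfold cv
  rw [Finset.sum_eq_single o]
  · show χ o * (if o = o then 1 else 0) = χ o
    rw [if_pos rfl, mul_one]
  · intro o' _ ho'
    show χ o' * (if o' = o then 1 else 0) = 0
    rw [if_neg ho', mul_zero]
  · intro h
    exact absurd (Finset.mem_univ _) h

/-- The size of a coordinate vector. -/
theorem en_single {c : ℕ → Fin m} {n e a : ℕ} {g : ℕ → ℕ} (hc : Set.InjOn c (Set.Iio n))
    {χ : ℕ → Option (Fin m) → ℝ} (hχ : ∀ l, CvC c l (χ l)) {i : ℕ} (hi : i ≤ n)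
    (hlip : ∀ j < i, ∀ l < j, |χ j (some (c l))| ≤ 2 ^ (e + nlp g l j)) {l : ℕ} (hl : l < i) :
    en c g a χ i (fun o => if o = some (c l) then 1 else 0) ≤
      i * 2 ^ (e + (Finset.Icc l i).sup g) := by
  classical
  rw [en_eq, if_neg (by simp), abs_zero, mul_zero, zero_add]
  have h1 : ∀ j ∈ range i, (2 : ℝ) ^ g j * |(if some (c j) = some (c l) then (1 : ℝ) else 0) -
      cv (χ j) (fun o => if o = some (c l) then 1 else 0)| ≤
      2 ^ (e + (Finset.Icc l i).sup g) := by
    intro j hj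
    have hj' := Finset.mem_range.1 hj
    rw [cv_single]
    rcases lt_trichotomy j l with h | h | h
    · have e1 : ¬ (some (c j) = some (c l)) := fun h' =>
        absurd (hc (show j < n by omega) (show l < n by omega) (Option.some_injective _ h'))
          (by omega)
      rw [if_neg e1, hχ j (c l) (fun x hx h' => absurd (hc (show l < n by omega)
        (show x < n by omega) h') (by omega)), sub_zero, abs_zero, mul_zero]
      positivity
    · subst h
      rw [if_pos rfl, hχ j (c j) (fun x hx h' => absurd (hc (show j < n by omega)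
        (show x < n by omega) h') (by omega)), sub_zero, abs_one, mul_one]
      refine pow_le_pow_right₀ (by norm_num) ?_
      have : g j ≤ (Finset.Icc j i).sup g := Finset.le_sup (f := g)
        (Finset.mem_Icc.2 ⟨le_rfl, hl.le⟩)
      omega
    · have e1 : ¬ (some (c j) = some (c l)) := fun h' =>
        absurd (hc (show j < n by omega) (show l < n by omega) (Option.some_injective _ h'))
          (by omega)
      rw [if_neg e1, zero_sub, abs_neg]
      refine (mul_le_mul_of_nonneg_left (hlip j hj' l h) (by positivity)).trans ?_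
      rw [← pow_add]
      refine pow_le_pow_right₀ (by norm_num) ?_
      have e2 : g j ≤ (Finset.Icc l j).sup g := Finset.le_sup (f := g)
        (Finset.mem_Icc.2 ⟨h.le, le_rfl⟩)
      have e3 : (Finset.Icc l j).sup g ≤ (Finset.Icc l i).sup g :=
        Finset.sup_mono (Finset.Icc_subset_Icc_right hj'.le)
      unfold nlp
      omega
  refine (Finset.sum_le_sum h1).trans (le_of_eq ?_)
  rw [Finset.sum_const, Finset.card_range, nsmul_eq_mul]

/-- **The frozen frame.** -/
theorem frz_frok (n : ℕ) : ∃ C : ℕ, 1 ≤ C ∧ ∀ {m J : ℕ} {F : Fam m J} {c : ℕ → Fin m}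
    {a k e : ℕ} {g : ℕ → ℕ} {B : F.Ω → Prop} {γ : PtT F → ℕ → Option (Fin m) → ℝ}
    {φ : LnT F → ℕ → Option (Fin m) → ℝ}, Set.InjOn c (Set.Iio n) →
    (∀ y l, CvC c l (γ y l)) → (∀ s l, CvC c l (φ s l)) →
    (∀ ω, B ω → ∀ l < n, ∀ V : Option (Fin m) → ℝ,
      |cv (φ (slam F a ω) l - γ (ptr F J ω) l) V| ≤
        2 ^ k / 2 ^ g l * en c g a (γ (ptr F J ω)) l V) →
    (∀ ω, B ω → ∀ l < n,
      |bd F ω (some (c l)) - cv (γ (ptr F J ω) l) (bd F ω)| ≤ 2 ^ (a + k) / 2 ^ g l) →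
    (∀ ω, B ω → ∀ i < n, ∀ l < i, |γ (ptr F J ω) i (some (c l))| ≤ 2 ^ (e + nlp g l i)) →
    ∃ (B' : F.Ω → Prop) (ψ : PtT F → ℕ → Option (Fin m) → ℝ)
      (ψH : LnT F → ℕ → Option (Fin m) → ℝ), Sub B' B ∧ Pe F.p B ≤ 3 ^ (n ^ 2) * Pe F.p B' ∧
      FrOK F c n a (C * (k + 1)) (e + C * (k + 1)) g B' ψ ψH ∧
      (∀ ω, B' ω → ∀ l < n, ∀ V : Option (Fin m) → ℝ,
        |cv (γ (ptr F J ω) l - ψ (ptr F J ω) l) V| ≤
          2 ^ (C * (k + 1)) / 2 ^ g l * en c g a (ψ (ptr F J ω)) l V) ∧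
      (∀ ω, B' ω → ∀ l ≤ n, ∀ V : Option (Fin m) → ℝ,
        en c g a (γ (ptr F J ω)) l V ≤ 2 ^ (C * (k + 1)) * en c g a (ψ (ptr F J ω)) l V ∧
        en c g a (ψ (ptr F J ω)) l V ≤ 2 ^ (C * (k + 1)) * en c g a (γ (ptr F J ω)) l V) := by
  classical
  obtain ⟨C₁, hfrz⟩ := frz n
  refine ⟨(C₁ + 1) * (n + 1) + n + C₁ + 2, by omega, ?_⟩
  intro m J F c a k e g B γ φ hc hγ hφ hcl hnat hlip
  obtain ⟨B', ψ, ψH, k1, k2, k3, k4, k5, k6⟩ := hfrz hc hγ hφ hcl
  obtain ⟨K, hK⟩ : ∃ K : ℝ, K = 2 ^ (C₁ * (k + 1)) := ⟨_, rfl⟩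
  have hK1 : 1 ≤ K := by
    rw [hK]
    exact one_le_pow₀ (by norm_num)
  rw [← hK] at k6
  obtain ⟨Cn, hCn⟩ : ∃ Cn : ℕ, Cn = (C₁ + 1) * (n + 1) + n + C₁ + 2 := ⟨_, rfl⟩
  rw [← hCn]
  have h1K : 1 + K ≤ 2 ^ ((C₁ + 1) * (k + 1)) := by
    rw [hK, Nat.add_mul, one_mul, pow_add]
    have e2 : (1 : ℝ) ≤ 2 ^ (C₁ * (k + 1)) := one_le_pow₀ (by norm_num)
    have e3 : (2 : ℝ) ≤ 2 ^ (k + 1) := by
      calc (2 : ℝ) = 2 ^ 1 := (pow_one 2).symm
        _ ≤ _ := pow_le_pow_right₀ (by norm_num) (by omega)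
    nlinarith
  have hpw : ∀ {l x : ℕ}, l ≤ n + 1 → x + (C₁ + 1) * (n + 1) ≤ Cn →
      2 ^ (x * (k + 1)) * (1 + K) ^ l ≤ (2 : ℝ) ^ (Cn * (k + 1)) := by
    intro l x hl hx
    calc (2 : ℝ) ^ (x * (k + 1)) * (1 + K) ^ l ≤
          2 ^ (x * (k + 1)) * (2 ^ ((C₁ + 1) * (k + 1))) ^ (n + 1) := by
          refine mul_le_mul_of_nonneg_left ?_ (by positivity)
          exact (pow_le_pow_left₀ (by linarith) h1K l).trans
            (pow_le_pow_right₀ (one_le_pow₀ (by norm_num)) hl)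
      _ = 2 ^ ((x + (C₁ + 1) * (n + 1)) * (k + 1)) := by
          rw [← pow_mul, ← pow_add]
          congr 1
          ring
      _ ≤ _ := pow_le_pow_right₀ (by norm_num) (Nat.mul_le_mul_right _ hx)
  have hge : ∀ ω, B' ω → ∀ l ≤ n, ∀ V : Option (Fin m) → ℝ,
      en c g a (γ (ptr F J ω)) l V ≤ (1 + K) ^ l * en c g a (ψ (ptr F J ω)) l V :=
    fun ω hω l hl V => en_ge (K := K) (by linarith) (k6 ω hω) hl V
  have hle : ∀ ω, B' ω → ∀ l ≤ n, ∀ V : Option (Fin m) → ℝ,
      en c g a (ψ (ptr F J ω)) l V ≤ (1 + K) ^ l * en c g a (γ (ptr F J ω)) l V :=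
    fun ω hω l hl V => en_le (K := K) (by linarith) (k6 ω hω) hl V
  refine ⟨B', ψ, ψH, k1, k2, ⟨k3, k4, k5, ?_, ?_⟩, ?_, ?_⟩
  · intro ω hω l hl
    -- the velocities
    have h1 := hnat ω (k1 ω hω) l hl
    have h2 := k6 ω hω l hl (bd F ω)
    have h3 : en c g a (γ (ptr F J ω)) l (bd F ω) ≤ (l + 1) * 2 ^ (a + k) := by
      rw [en_eq]
      have e1 : (2 : ℝ) ^ a * |bd F ω none| ≤ 2 ^ (a + k) := by
        show (2 : ℝ) ^ a * |(1 : ℝ)| ≤ _
        rw [abs_one, mul_one]
        exact pow_le_pow_right₀ (by norm_num) (by omega)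
      have e2 : ∑ j ∈ range l, (2 : ℝ) ^ g j * |bd F ω (some (c j)) -
          cv (γ (ptr F J ω) j) (bd F ω)| ≤ l * 2 ^ (a + k) := by
        refine (Finset.sum_le_sum fun j hj => ?_).trans (le_of_eq (by
          rw [Finset.sum_const, Finset.card_range, nsmul_eq_mul]))
        have h4 := hnat ω (k1 ω hω) j (by have := Finset.mem_range.1 hj; omega)
        rw [le_div_iff₀ (by positivity)] at h4
        linarith
      linarith
    have e1 : bd F ω (some (c l)) - cv (ψ (ptr F J ω) l) (bd F ω) =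
        (bd F ω (some (c l)) - cv (γ (ptr F J ω) l) (bd F ω)) -
          cv (ψ (ptr F J ω) l - γ (ptr F J ω) l) (bd F ω) := by
      rw [cv_subl]
      ring
    rw [e1]
    refine (abs_sub _ _).trans ((add_le_add h1 (h2.trans (mul_le_mul_of_nonneg_left h3
      (by positivity)))).trans ?_)
    have e2 : 2 ^ (a + k) / 2 ^ g l + K / 2 ^ g l * (((l : ℝ) + 1) * 2 ^ (a + k)) =
        (1 + K * (l + 1)) * 2 ^ k * 2 ^ a / 2 ^ g l := by
      rw [pow_add]
      ring
    rw [e2, pow_add]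
    refine div_le_div_of_nonneg_right ?_ (by positivity)
    rw [mul_comm ((2 : ℝ) ^ a)]
    refine mul_le_mul_of_nonneg_right ?_ (by positivity)
    have h5 : ((l : ℝ) + 1) ≤ 2 ^ n := by
      have e2 : ((l + 1 : ℕ) : ℝ) ≤ ((2 ^ n : ℕ) : ℝ) := by
        have : l + 1 ≤ 2 ^ n := (Nat.succ_le_of_lt hl).trans (Nat.lt_two_pow_self).le
        exact_mod_cast this
      push_cast at e2
      exact e2
    have h6 : 1 + K * ((l : ℝ) + 1) ≤ (1 + K) * 2 ^ n := by
      have : (1 : ℝ) ≤ 2 ^ n := one_le_pow₀ (by norm_num)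
      nlinarith
    calc (1 + K * ((l : ℝ) + 1)) * 2 ^ k ≤ ((1 + K) * 2 ^ n) * 2 ^ k :=
          mul_le_mul_of_nonneg_right h6 (by positivity)
      _ = 2 ^ (n + k) * (1 + K) ^ 1 := by rw [pow_add]; ring
      _ ≤ 2 ^ ((n + 1) * (k + 1)) * (1 + K) ^ 1 := by
          refine mul_le_mul_of_nonneg_right (pow_le_pow_right₀ (by norm_num) ?_) (by positivity)
          nlinarith
      _ ≤ _ := hpw (by omega) (by omega)
  · intro ω hω i hi l hl
    have h1 := hlip ω (k1 ω hω) i hi l hl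
    have h2 := k6 ω hω i hi (fun o => if o = some (c l) then 1 else 0)
    rw [cv_single, Pi.sub_apply] at h2
    have h3 := en_single (a := a) hc (hγ (ptr F J ω)) hi.le
      (fun j hj x hx => hlip ω (k1 ω hω) j (by omega) x hx) hl
    have e1 : ψ (ptr F J ω) i (some (c l)) = γ (ptr F J ω) i (some (c l)) +
        (ψ (ptr F J ω) i (some (c l)) - γ (ptr F J ω) i (some (c l))) := by ring
    rw [e1]
    refine (abs_add_le _ _).trans ((add_le_add h1 (h2.trans (mul_le_mul_of_nonneg_left h3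
      (by positivity)))).trans ?_)
    have h4 : g i ≤ (Finset.Icc l i).sup g := Finset.le_sup (f := g)
      (Finset.mem_Icc.2 ⟨hl.le, le_rfl⟩)
    have h5 : (2 : ℝ) ^ (e + (Finset.Icc l i).sup g) = 2 ^ (e + nlp g l i) * 2 ^ g i := by
      rw [← pow_add]
      congr 1
      unfold nlp
      omega
    rw [h5]
    have e2 : 2 ^ (e + nlp g l i) + K / 2 ^ g i * ((i : ℝ) * (2 ^ (e + nlp g l i) * 2 ^ g i)) =
        (1 + K * i) * 2 ^ (e + nlp g l i) := by
      field_simp
    rw [e2]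
    have h6 : 1 + K * (i : ℝ) ≤ 2 ^ (n * (k + 1)) * (1 + K) ^ 1 := by
      have e3 : (i : ℝ) ≤ 2 ^ (n * (k + 1)) := by
        have e4 : ((i : ℕ) : ℝ) ≤ ((2 ^ n : ℕ) : ℝ) := by
          have : i ≤ 2 ^ n := hi.le.trans (Nat.lt_two_pow_self).le
          exact_mod_cast this
        push_cast at e4
        exact e4.trans (pow_le_pow_right₀ (by norm_num) (Nat.le_mul_of_pos_right _ (by omega)))
      have e4 : (1 : ℝ) ≤ 2 ^ (n * (k + 1)) := one_le_pow₀ (by norm_num)
      nlinarith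
    calc (1 + K * (i : ℝ)) * 2 ^ (e + nlp g l i) ≤
          2 ^ (Cn * (k + 1)) * 2 ^ (e + nlp g l i) :=
          mul_le_mul_of_nonneg_right (h6.trans (hpw (by omega) (by omega))) (by positivity)
      _ = _ := by
          rw [← pow_add]
          congr 1
          ring
  · intro ω hω l hl V
    have h2 := k6 ω hω l hl V
    have e1 : cv (γ (ptr F J ω) l - ψ (ptr F J ω) l) V =
        -cv (ψ (ptr F J ω) l - γ (ptr F J ω) l) V := by
      rw [cv_subl, cv_subl]
      ring
    rw [e1, abs_neg]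
    refine h2.trans ?_
    have h3 := hge ω hω l hl.le V
    have h0 := en_nonneg c g a (ψ (ptr F J ω)) l V
    calc K / 2 ^ g l * en c g a (γ (ptr F J ω)) l V ≤
          K / 2 ^ g l * ((1 + K) ^ l * en c g a (ψ (ptr F J ω)) l V) :=
          mul_le_mul_of_nonneg_left h3 (by positivity)
      _ = 2 ^ (C₁ * (k + 1)) * (1 + K) ^ l / 2 ^ g l * en c g a (ψ (ptr F J ω)) l V := by
          rw [← hK]
          ring
      _ ≤ _ := mul_le_mul_of_nonneg_right (div_le_div_of_nonneg_right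
          (hpw (by omega) (by omega)) (by positivity)) h0
  · intro ω hω l hl V
    have h1 : (1 + K) ^ l ≤ 2 ^ (Cn * (k + 1)) := by
      have := hpw (l := l) (x := 0) (by omega) (by omega)
      rwa [Nat.zero_mul, pow_zero, one_mul] at this
    exact ⟨(hge ω hω l hl V).trans (mul_le_mul_of_nonneg_right h1 (en_nonneg _ _ _ _ _ _)),
      (hle ω hω l hl V).trans (mul_le_mul_of_nonneg_right h1 (en_nonneg _ _ _ _ _ _))⟩

end Pool.D2Z
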