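import Pool.Agent.H60.D2.Rnd

/-!
# D2: three lines through one exact point

`tri`: if three separated lines through a point are natural on a chart over one coordinate of slope
one, and if the curvature in the direction of the lines and of the steeper coordinates is natural,
then the curvature in the direction of the lines is natural in all directions.
-/

set_option autoImplicit false

namespace Pool.D2Z

open Finset Real MvPolynomial
open Pool.Agent.H49.Ent Pool.Agent.H32.Dense Pool.STK Pool.KA Pool.KSAT Pool.K2S Pool.PB Pool.S6C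
open Pool.GEN Pool.CHT Pool.CHX Pool.D2F Pool.D2R

variable {m J : ℕ}

theorem en_add_le (c : ℕ → Fin m) (g : ℕ → ℕ) (a : ℕ) (χ : ℕ → Option (Fin m) → ℝ) (l : ℕ)
    (V V' : Option (Fin m) → ℝ) : en c g a χ l (V + V') ≤ en c g a χ l V + en c g a χ l V' := by
  unfold en
  rw [← Finset.sum_add_distrib]
  exact Finset.sum_le_sum fun j _ => by rw [eta_add]; exact abs_add_le _ _

theorem en_smul (c : ℕ → Fin m) (g : ℕ → ℕ) (a : ℕ) (χ : ℕ → Option (Fin m) → ℝ) (l : ℕ)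
    (V : Option (Fin m) → ℝ) (t : ℝ) : en c g a χ l (t • V) = |t| * en c g a χ l V := by
  unfold en
  rw [Finset.mul_sum]
  exact Finset.sum_congr rfl fun j _ => by rw [eta_smul, abs_mul]

/-- The natural slope of a vector over the first coordinate. -/
noncomputable def sl (c : ℕ → Fin m) (g : ℕ → ℕ) (a : ℕ) (G : ℕ → MvPolynomial (Option (Fin m)) ℝ)
    (x V : Option (Fin m) → ℝ) : ℝ := 2 ^ g 0 / 2 ^ a * (V (some (c 0)) - dd (G 0) x V)

theorem sl_lin (c : ℕ → Fin m) (g : ℕ → ℕ) (a : ℕ) (G : ℕ → MvPolynomial (Option (Fin m)) ℝ)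
    (x V W₁ W₂ : Option (Fin m) → ℝ) (α β : ℝ) :
    sl c g a G x (V - α • W₁ - β • W₂) = sl c g a G x V - α * sl c g a G x W₁ -
      β * sl c g a G x W₂ := by
  have h1 : dd (G 0) x (V - α • W₁ - β • W₂) = dd (G 0) x V - α * dd (G 0) x W₁ -
      β * dd (G 0) x W₂ := by
    unfold dd
    rw [Finset.mul_sum, Finset.mul_sum, ← Finset.sum_sub_distrib, ← Finset.sum_sub_distrib]
    refine Finset.sum_congr rfl fun o _ => ?_
    simp only [Pi.sub_apply, Pi.smul_apply, smul_eq_mul]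
    ring
  unfold sl
  rw [h1]
  simp only [Pi.sub_apply, Pi.smul_apply, smul_eq_mul]
  ring

/-- The decomposition of a vector over two lines. -/
theorem tri_dec {c : ℕ → Fin m} {g : ℕ → ℕ} {a l : ℕ} (hl : 1 ≤ l)
    {G : ℕ → MvPolynomial (Option (Fin m)) ℝ} (hdep : ∀ j, DepC c j (G j))
    {x W₁ W₂ : Option (Fin m) → ℝ} {Y : ℝ} (hY : 2 ≤ Y) (h1 : W₁ none = 1) (h2 : W₂ none = 1)
    (n1 : nrm c G g a l x W₁ ≤ Y ^ 2 * 2 ^ a) (n2 : nrm c G g a l x W₂ ≤ Y ^ 2 * 2 ^ a)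
    (s1 : |sl c g a G x W₁| ≤ Y)
    (hs : 1 / Y ≤ |sl c g a G x W₂ - sl c g a G x W₁|) (V : Option (Fin m) → ℝ) :
    ∃ (α β : ℝ) (R : Option (Fin m) → ℝ), V = α • W₁ + β • W₂ + R ∧ R none = 0 ∧
      R (some (c 0)) = 0 ∧ |α| ≤ Y ^ 4 * (nrm c G g a l x V / 2 ^ a) ∧
      |β| ≤ Y ^ 3 * (nrm c G g a l x V / 2 ^ a) ∧ nrm c G g a l x R ≤ Y ^ 7 * nrm c G g a l x V ∧
      α * (sl c g a G x W₂ - sl c g a G x W₁) =
        V none * sl c g a G x W₂ - sl c g a G x V ∧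
      β * (sl c g a G x W₂ - sl c g a G x W₁) =
        sl c g a G x V - V none * sl c g a G x W₁ := by
  obtain ⟨N, hN⟩ : ∃ N, N = nrm c G g a l x V / 2 ^ a := ⟨_, rfl⟩
  have hNn : nrm c G g a l x V = N * 2 ^ a := by rw [hN]; field_simp
  have hN0 : 0 ≤ N := by rw [hN]; exact div_nonneg (nrm_nonneg _ _ _ _ _ _ _) (by positivity)
  have hY0 : 0 < Y := by linarith
  have e1 : |V none| ≤ N := by
    rw [hN]
    exact nrm_none c G g a l x V
  have e2 : |sl c g a G x V| ≤ N := by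
    unfold sl
    rw [abs_mul, abs_of_pos (by positivity : (0 : ℝ) < 2 ^ g 0 / 2 ^ a), hN]
    have h3 := nrm_comp c G g a l x V (show 0 < l by omega)
    calc (2 : ℝ) ^ g 0 / 2 ^ a * |V (some (c 0)) - dd (G 0) x V| ≤
          2 ^ g 0 / 2 ^ a * (nrm c G g a l x V / 2 ^ g 0) :=
          mul_le_mul_of_nonneg_left h3 (by positivity)
      _ = _ := by field_simp
  obtain ⟨s₁, hs₁⟩ : ∃ s₁, s₁ = sl c g a G x W₁ := ⟨_, rfl⟩
  obtain ⟨s₂, hs₂⟩ : ∃ s₂, s₂ = sl c g a G x W₂ := ⟨_, rfl⟩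
  rw [← hs₁, ← hs₂] at hs ⊢
  rw [← hs₁] at s1
  have hd : s₂ - s₁ ≠ 0 := by
    intro h
    rw [h, abs_zero] at hs
    have : 0 < 1 / Y := by positivity
    linarith
  obtain ⟨β, hβ⟩ : ∃ β, β = (sl c g a G x V - V none * s₁) / (s₂ - s₁) := ⟨_, rfl⟩
  have hβd : β * (s₂ - s₁) = sl c g a G x V - V none * s₁ := by
    rw [hβ, div_mul_cancel₀ _ hd]
  have hβY : |β| ≤ Y ^ 3 * N := by
    have h3 : |β| * |s₂ - s₁| ≤ N + N * Y := by
      rw [← abs_mul, hβd]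
      refine (abs_sub _ _).trans (add_le_add e2 ?_)
      rw [abs_mul]
      exact mul_le_mul e1 s1 (abs_nonneg _) hN0
    have h4 : |β| * (1 / Y) ≤ N + N * Y :=
      (mul_le_mul_of_nonneg_left hs (abs_nonneg _)).trans h3
    rw [mul_one_div, div_le_iff₀ hY0] at h4
    have h5 : (N + N * Y) * Y ≤ Y ^ 3 * N := by
      have h6 : 0 ≤ N * (Y * (Y * Y - Y - 1)) :=
        mul_nonneg hN0 (mul_nonneg hY0.le (by nlinarith))
      have h7 : Y ^ 3 * N - (N + N * Y) * Y = N * (Y * (Y * Y - Y - 1)) := by ring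
      linarith
    exact h4.trans h5
  have hY3 : 1 ≤ Y ^ 3 := one_le_pow₀ (by linarith)
  have hαY : |V none - β| ≤ Y ^ 4 * N := by
    refine (abs_sub _ _).trans ?_
    have h3 : Y ^ 3 * N * 2 ≤ Y ^ 3 * N * Y := mul_le_mul_of_nonneg_left hY (by positivity)
    have h4 : N ≤ Y ^ 3 * N := le_mul_of_one_le_left hN0 hY3
    have h5 : Y ^ 4 * N = Y ^ 3 * N * Y := by ring
    rw [h5]
    linarith
  refine ⟨V none - β, β, V - (V none - β) • W₁ - β • W₂, by abel, ?_, ?_, ?_, ?_, ?_, ?_, hβd⟩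
  · simp only [Pi.sub_apply, Pi.smul_apply, smul_eq_mul, h1, h2]
    ring
  · have h3 := sl_lin c g a G x V W₁ W₂ (V none - β) β
    rw [← hs₁, ← hs₂] at h3
    have h4 : sl c g a G x V - (V none - β) * s₁ - β * s₂ = 0 := by linarith
    rw [h4] at h3
    unfold sl at h3
    have h5 : (2 : ℝ) ^ g 0 / 2 ^ a ≠ 0 := by positivity
    have h6 := (mul_eq_zero.1 h3).resolve_left h5
    have h7 : dd (G 0) x (V - (V none - β) • W₁ - β • W₂) = 0 := by
      rw [← cv_grd, cv_congr (cvc_grd (hdep 0) x) (W' := 0) (by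
        simp only [Pi.sub_apply, Pi.smul_apply, smul_eq_mul, h1, h2, Pi.zero_apply]
        ring) (fun j hj => absurd hj (Nat.not_lt_zero j))]
      unfold cv
      simp
    rw [h7, sub_zero] at h6
    exact h6
  · rw [← hN]
    exact hαY
  · rw [← hN]
    exact hβY
  · rw [nrm_en] at n1 n2 hNn ⊢
    have h3 : V - (V none - β) • W₁ - β • W₂ = V + ((-(V none - β)) • W₁ + (-β) • W₂) := by
      rw [neg_smul, neg_smul]
      abel
    rw [h3]
    refine (en_add_le _ _ _ _ _ _ _).trans ((add_le_add le_rfl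
      (en_add_le _ _ _ _ _ _ _)).trans ?_)
    rw [en_smul, en_smul, abs_neg, abs_neg]
    have h4 : |V none - β| * en c g a (fun j => grd (G j) x) l W₁ ≤
        Y ^ 4 * N * (Y ^ 2 * 2 ^ a) := mul_le_mul hαY n1 (en_nonneg _ _ _ _ _ _) (by positivity)
    have h5 : |β| * en c g a (fun j => grd (G j) x) l W₂ ≤ Y ^ 3 * N * (Y ^ 2 * 2 ^ a) :=
      mul_le_mul hβY n2 (en_nonneg _ _ _ _ _ _) (by positivity)
    rw [nrm_en, hNn]
    have h7 : (0 : ℝ) ≤ N * 2 ^ a := by positivity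
    have h8 : N * 2 ^ a + (Y ^ 4 * N * (Y ^ 2 * 2 ^ a) + Y ^ 3 * N * (Y ^ 2 * 2 ^ a)) =
        (1 + Y ^ 6 + Y ^ 5) * (N * 2 ^ a) := by ring
    have h9 : 1 + Y ^ 6 + Y ^ 5 ≤ Y ^ 7 := by
      have a1 : 1 ≤ Y ^ 5 := one_le_pow₀ (by linarith)
      have a2 : Y ^ 6 = Y ^ 5 * Y := pow_succ _ _
      have a3 : Y ^ 7 = Y ^ 5 * (Y * Y) := by ring
      rw [a2, a3]
      nlinarith [mul_nonneg (show (0 : ℝ) ≤ Y ^ 5 by positivity)
        (show (0 : ℝ) ≤ (Y - 2) * (Y + 1) by nlinarith)]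
    calc _ ≤ (1 + Y ^ 6 + Y ^ 5) * (N * 2 ^ a) := by linarith
      _ ≤ Y ^ 7 * (N * 2 ^ a) := mul_le_mul_of_nonneg_right h9 h7
  · have : (V none - β) * (s₂ - s₁) = V none * (s₂ - s₁) - β * (s₂ - s₁) := by ring
    rw [this, hβd]
    ring

/-- **Three lines.** -/
theorem tri {c : ℕ → Fin m} {g : ℕ → ℕ} {a l : ℕ} (hl : 1 ≤ l)
    {G : ℕ → MvPolynomial (Option (Fin m)) ℝ} (hdep : ∀ j, DepC c j (G j))
    {x W₁ W₂ W₃ : Option (Fin m) → ℝ} {Y U K : ℝ} (hY : 2 ≤ Y) (hU : U ≤ Y) (hK : K ≤ Y)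
    (hU0 : 0 ≤ U) (hlY : (l : ℝ) + 1 ≤ Y)
    (h1 : W₁ none = 1) (h2 : W₂ none = 1) (h3 : W₃ none = 1)
    (vel : ∀ W, W = W₁ ∨ W = W₂ ∨ W = W₃ → ∀ j < l,
      |W (some (c j)) - dd (G j) x W| ≤ U * 2 ^ a / 2 ^ g j)
    (nul : ∀ W, W = W₁ ∨ W = W₂ ∨ W = W₃ → |hs (G l) x W W| ≤ U * (2 ^ a) ^ 2 / 2 ^ g l)
    (v1 : ∀ W, W = W₁ ∨ W = W₂ ∨ W = W₃ → ∀ R : Option (Fin m) → ℝ, R none = 0 →
      R (some (c 0)) = 0 → |hs (G l) x W R| ≤ K * (2 ^ a / 2 ^ g l) * nrm c G g a l x R)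
    (s12 : 1 / Y ≤ 2 ^ g 0 / 2 ^ a * |W₂ (some (c 0)) - W₁ (some (c 0))|)
    (s13 : 1 / Y ≤ 2 ^ g 0 / 2 ^ a * |W₃ (some (c 0)) - W₁ (some (c 0))|)
    (s23 : 1 / Y ≤ 2 ^ g 0 / 2 ^ a * |W₃ (some (c 0)) - W₂ (some (c 0))|)
    (V : Option (Fin m) → ℝ) :
    |hs (G l) x W₁ V| ≤ Y ^ 30 * (2 ^ a / 2 ^ g l) * nrm c G g a l x V := by
  have hY0 : 0 < Y := by linarith
  have hY1 : 1 ≤ Y := by linarith
  have ha0 : (0 : ℝ) < 2 ^ a := by positivity
  have hg0 : (0 : ℝ) < 2 ^ g l := by positivity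
  -- the norms of the lines
  have hnW : ∀ W, W = W₁ ∨ W = W₂ ∨ W = W₃ → nrm c G g a l x W ≤ Y ^ 2 * 2 ^ a := by
    intro W hW
    have hW0 : W none = 1 := by rcases hW with h | h | h <;> rw [h] <;> assumption
    unfold nrm
    rw [hW0, abs_one, mul_one]
    have e1 : ∑ j ∈ range l, (2 : ℝ) ^ g j * |W (some (c j)) - dd (G j) x W| ≤
        l * (U * 2 ^ a) := by
      refine (Finset.sum_le_sum fun j hj => ?_).trans (le_of_eq (by
        rw [Finset.sum_const, Finset.card_range, nsmul_eq_mul]))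
      have h4 := vel W hW j (Finset.mem_range.1 hj)
      rw [le_div_iff₀ (by positivity)] at h4
      linarith
    have e2 : (l : ℝ) * (U * 2 ^ a) ≤ (Y - 1) * (Y * 2 ^ a) := by
      refine mul_le_mul (by linarith) (mul_le_mul_of_nonneg_right hU ha0.le) (by positivity)
        (by linarith)
    have e3 : (Y - 1) * (Y * 2 ^ a) + 2 ^ a ≤ Y ^ 2 * 2 ^ a := by nlinarith
    linarith
  have hdd : ∀ W, W = W₁ ∨ W = W₂ ∨ W = W₃ → dd (G 0) x W = dd (G 0) x W₁ := by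
    intro W hW
    have hW0 : W none = 1 := by rcases hW with h | h | h <;> rw [h] <;> assumption
    rw [← cv_grd, ← cv_grd]
    exact cv_congr (cvc_grd (hdep 0) x) (by rw [hW0, h1]) fun j hj =>
      absurd hj (Nat.not_lt_zero j)
  have hsl : ∀ W W', (W = W₁ ∨ W = W₂ ∨ W = W₃) → (W' = W₁ ∨ W' = W₂ ∨ W' = W₃) →
      |sl c g a G x W' - sl c g a G x W| =
        2 ^ g 0 / 2 ^ a * |W' (some (c 0)) - W (some (c 0))| := by
    intro W W' hW hW'
    unfold sl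
    rw [hdd W hW, hdd W' hW', ← mul_sub, abs_mul, abs_of_pos
      (by positivity : (0 : ℝ) < 2 ^ g 0 / 2 ^ a)]
    congr 2
    ring
  have hslY : ∀ W, W = W₁ ∨ W = W₂ ∨ W = W₃ → |sl c g a G x W| ≤ Y := by
    intro W hW
    unfold sl
    rw [abs_mul, abs_of_pos (by positivity : (0 : ℝ) < 2 ^ g 0 / 2 ^ a)]
    have h4 := vel W hW 0 (by omega)
    calc (2 : ℝ) ^ g 0 / 2 ^ a * |W (some (c 0)) - dd (G 0) x W| ≤
          2 ^ g 0 / 2 ^ a * (U * 2 ^ a / 2 ^ g 0) := mul_le_mul_of_nonneg_left h4 (by positivity)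
      _ = U := by field_simp
      _ ≤ Y := hU
  have o1 : W₁ = W₁ ∨ W₁ = W₂ ∨ W₁ = W₃ := Or.inl rfl
  have o2 : W₂ = W₁ ∨ W₂ = W₂ ∨ W₂ = W₃ := Or.inr (Or.inl rfl)
  have o3 : W₃ = W₁ ∨ W₃ = W₂ ∨ W₃ = W₃ := Or.inr (Or.inr rfl)
  have k12 : 1 / Y ≤ |sl c g a G x W₂ - sl c g a G x W₁| := by rw [hsl W₁ W₂ o1 o2]; exact s12
  have k13 : 1 / Y ≤ |sl c g a G x W₃ - sl c g a G x W₁| := by rw [hsl W₁ W₃ o1 o3]; exact s13
  have k23 : 1 / Y ≤ |sl c g a G x W₃ - sl c g a G x W₂| := by rw [hsl W₂ W₃ o2 o3]; exact s23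
  have hdec := tri_dec (g := g) (a := a) hl hdep hY h1 h2 (hnW _ o1) (hnW _ o2) (hslY _ o1) k12
  obtain ⟨S, hS⟩ : ∃ S : (Option (Fin m) → ℝ) → (Option (Fin m) → ℝ) → ℝ, S = hs (G l) x :=
    ⟨_, rfl⟩
  have Sadd : ∀ A B C, S A (B + C) = S A B + S A C := fun A B C => by
    rw [hS]; exact hs_add_right _ _ _ _ _
  have Ssm : ∀ A B t, S A (t • B) = t * S A B := fun A B t => by
    rw [hS]; exact hs_smul_right _ _ _ _ _
  have Scm : ∀ A B, S A B = S B A := fun A B => by rw [hS]; exact hs_comm _ _ _ _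
  obtain ⟨N2, hN2⟩ : ∃ N2 : ℝ, N2 = (2 ^ a) ^ 2 / 2 ^ g l := ⟨_, rfl⟩
  have hN20 : 0 ≤ N2 := by rw [hN2]; positivity
  have nS : ∀ W, W = W₁ ∨ W = W₂ ∨ W = W₃ → |S W W| ≤ Y * N2 := by
    intro W hW
    have h4 := nul W hW
    rw [hS]
    refine h4.trans ?_
    rw [hN2, mul_div_assoc]
    exact mul_le_mul_of_nonneg_right hU (by positivity)
  have v1S : ∀ W, W = W₁ ∨ W = W₂ ∨ W = W₃ → ∀ R : Option (Fin m) → ℝ, R none = 0 →
      R (some (c 0)) = 0 → |S W R| ≤ Y * (2 ^ a / 2 ^ g l) * nrm c G g a l x R := by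
    intro W hW R hR0 hR1
    rw [hS]
    exact (v1 W hW R hR0 hR1).trans (mul_le_mul_of_nonneg_right (mul_le_mul_of_nonneg_right hK
      (by positivity)) (nrm_nonneg _ _ _ _ _ _ _))
  -- the mixed term
  have hS12 : |S W₁ W₂| ≤ Y ^ 25 * N2 := by
    obtain ⟨α, β, R, q1, q2, q3, q4, q5, q6, q7, q8⟩ := hdec W₃
    have hn3 : nrm c G g a l x W₃ / 2 ^ a ≤ Y ^ 2 := by
      rw [div_le_iff₀ ha0]
      exact hnW _ o3
    have hn30 : 0 ≤ nrm c G g a l x W₃ / 2 ^ a := div_nonneg (nrm_nonneg _ _ _ _ _ _ _) ha0.le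
    have hα : |α| ≤ Y ^ 6 := by
      calc |α| ≤ Y ^ 4 * (nrm c G g a l x W₃ / 2 ^ a) := q4
        _ ≤ Y ^ 4 * Y ^ 2 := mul_le_mul_of_nonneg_left hn3 (by positivity)
        _ = _ := by ring
    have hβ : |β| ≤ Y ^ 5 := by
      calc |β| ≤ Y ^ 3 * (nrm c G g a l x W₃ / 2 ^ a) := q5
        _ ≤ Y ^ 3 * Y ^ 2 := mul_le_mul_of_nonneg_left hn3 (by positivity)
        _ = _ := by ring
    have hR : nrm c G g a l x R ≤ Y ^ 9 * 2 ^ a := by
      calc nrm c G g a l x R ≤ Y ^ 7 * nrm c G g a l x W₃ := q6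
        _ ≤ Y ^ 7 * (Y ^ 2 * 2 ^ a) := mul_le_mul_of_nonneg_left (hnW _ o3) (by positivity)
        _ = _ := by ring
    have hSR : ∀ W, W = W₁ ∨ W = W₂ ∨ W = W₃ → |S W R| ≤ Y ^ 10 * N2 := by
      intro W hW
      refine (v1S W hW R q2 q3).trans ((mul_le_mul_of_nonneg_left hR (by positivity)).trans
        (le_of_eq ?_))
      rw [hN2]
      ring
    -- lower bounds
    have hd2 : |sl c g a G x W₂ - sl c g a G x W₁| ≤ 2 * Y := by
      refine (abs_sub _ _).trans ?_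
      have := hslY _ o1
      have := hslY _ o2
      linarith
    rw [h3, one_mul] at q7 q8
    have hα' : 1 ≤ |α| * Y ^ 3 := by
      have e1 : |α| * |sl c g a G x W₂ - sl c g a G x W₁| =
          |sl c g a G x W₃ - sl c g a G x W₂| := by
        rw [← abs_mul, q7, abs_sub_comm]
      have e2 : 1 / Y ≤ |α| * (2 * Y) := by
        calc 1 / Y ≤ |sl c g a G x W₃ - sl c g a G x W₂| := k23
          _ = |α| * |sl c g a G x W₂ - sl c g a G x W₁| := e1.symm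
          _ ≤ _ := mul_le_mul_of_nonneg_left hd2 (abs_nonneg _)
      rw [div_le_iff₀ hY0] at e2
      have e3 : |α| * (2 * Y) * Y ≤ |α| * Y ^ 3 := by
        have : 2 * Y * Y ≤ Y ^ 3 := by nlinarith [mul_pos hY0 hY0]
        calc |α| * (2 * Y) * Y = |α| * (2 * Y * Y) := by ring
          _ ≤ _ := mul_le_mul_of_nonneg_left this (abs_nonneg _)
      linarith
    have hβ' : 1 ≤ |β| * Y ^ 3 := by
      have e1 : |β| * |sl c g a G x W₂ - sl c g a G x W₁| =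
          |sl c g a G x W₃ - sl c g a G x W₁| := by
        rw [← abs_mul, q8]
      have e2 : 1 / Y ≤ |β| * (2 * Y) := by
        calc 1 / Y ≤ |sl c g a G x W₃ - sl c g a G x W₁| := k13
          _ = |β| * |sl c g a G x W₂ - sl c g a G x W₁| := e1.symm
          _ ≤ _ := mul_le_mul_of_nonneg_left hd2 (abs_nonneg _)
      rw [div_le_iff₀ hY0] at e2
      have e3 : |β| * (2 * Y) * Y ≤ |β| * Y ^ 3 := by
        have : 2 * Y * Y ≤ Y ^ 3 := by nlinarith [mul_pos hY0 hY0]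
        calc |β| * (2 * Y) * Y = |β| * (2 * Y * Y) := by ring
          _ ≤ _ := mul_le_mul_of_nonneg_left this (abs_nonneg _)
      linarith
    -- the identity
    have hid : 2 * (α * β) * S W₁ W₂ = S W₃ W₃ - α ^ 2 * S W₁ W₁ - β ^ 2 * S W₂ W₂ -
        α * S W₁ R - β * S W₂ R - S W₃ R := by
      have e1 : S W₃ W₃ = α * S W₃ W₁ + β * S W₃ W₂ + S W₃ R := by
        conv_lhs => rw [show S W₃ W₃ = S W₃ (α • W₁ + β • W₂ + R) by rw [← q1]]
        rw [Sadd, Sadd, Ssm, Ssm]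
      have e2 : S W₃ W₁ = α * S W₁ W₁ + β * S W₁ W₂ + S W₁ R := by
        rw [Scm W₃ W₁]
        conv_lhs => rw [q1]
        rw [Sadd, Sadd, Ssm, Ssm]
      have e3 : S W₃ W₂ = α * S W₁ W₂ + β * S W₂ W₂ + S W₂ R := by
        rw [Scm W₃ W₂]
        conv_lhs => rw [q1]
        rw [Sadd, Sadd, Ssm, Ssm, Scm W₂ W₁]
      rw [e1, e2, e3]
      ring
    have hb : |2 * (α * β) * S W₁ W₂| ≤ Y ^ 18 * N2 := by
      rw [hid]
      have t1 := nS W₃ o3
      have t2 : |α ^ 2 * S W₁ W₁| ≤ Y ^ 13 * N2 := by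
        rw [abs_mul, abs_pow]
        calc |α| ^ 2 * |S W₁ W₁| ≤ (Y ^ 6) ^ 2 * (Y * N2) :=
              mul_le_mul (pow_le_pow_left₀ (abs_nonneg _) hα 2) (nS _ o1) (abs_nonneg _)
                (by positivity)
          _ = _ := by ring
      have t3 : |β ^ 2 * S W₂ W₂| ≤ Y ^ 13 * N2 := by
        rw [abs_mul, abs_pow]
        calc |β| ^ 2 * |S W₂ W₂| ≤ (Y ^ 5) ^ 2 * (Y * N2) :=
              mul_le_mul (pow_le_pow_left₀ (abs_nonneg _) hβ 2) (nS _ o2) (abs_nonneg _)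
                (by positivity)
          _ = Y ^ 11 * N2 := by ring
          _ ≤ _ := mul_le_mul_of_nonneg_right (pow_le_pow_right₀ hY1 (by norm_num)) hN20
      have t4 : |α * S W₁ R| ≤ Y ^ 16 * N2 := by
        rw [abs_mul]
        calc |α| * |S W₁ R| ≤ Y ^ 6 * (Y ^ 10 * N2) :=
              mul_le_mul hα (hSR _ o1) (abs_nonneg _) (by positivity)
          _ = _ := by ring
      have t5 : |β * S W₂ R| ≤ Y ^ 15 * N2 := by
        rw [abs_mul]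
        calc |β| * |S W₂ R| ≤ Y ^ 5 * (Y ^ 10 * N2) :=
              mul_le_mul hβ (hSR _ o2) (abs_nonneg _) (by positivity)
          _ = _ := by ring
      have t6 := hSR _ o3
      have p1 : Y * N2 ≤ Y ^ 15 * N2 := by
        refine mul_le_mul_of_nonneg_right ?_ hN20
        calc Y = Y ^ 1 := (pow_one Y).symm
          _ ≤ _ := pow_le_pow_right₀ hY1 (by norm_num)
      have p2 : Y ^ 13 * N2 ≤ Y ^ 15 * N2 :=
        mul_le_mul_of_nonneg_right (pow_le_pow_right₀ hY1 (by norm_num)) hN20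
      have p3 : Y ^ 10 * N2 ≤ Y ^ 15 * N2 :=
        mul_le_mul_of_nonneg_right (pow_le_pow_right₀ hY1 (by norm_num)) hN20
      have p4 : Y ^ 15 * N2 * 2 ≤ Y ^ 16 * N2 := by
        calc Y ^ 15 * N2 * 2 ≤ Y ^ 15 * N2 * Y :=
              mul_le_mul_of_nonneg_left hY (by positivity)
          _ = _ := by ring
      have p5 : Y ^ 16 * N2 * 4 ≤ Y ^ 18 * N2 := by
        calc Y ^ 16 * N2 * 4 ≤ Y ^ 16 * N2 * (Y * Y) :=
              mul_le_mul_of_nonneg_left (by nlinarith) (by positivity)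
          _ = _ := by ring
      have q := abs_sub (S W₃ W₃ - α ^ 2 * S W₁ W₁ - β ^ 2 * S W₂ W₂ - α * S W₁ R - β * S W₂ R)
        (S W₃ R)
      have q' := abs_sub (S W₃ W₃ - α ^ 2 * S W₁ W₁ - β ^ 2 * S W₂ W₂ - α * S W₁ R)
        (β * S W₂ R)
      have q'' := abs_sub (S W₃ W₃ - α ^ 2 * S W₁ W₁ - β ^ 2 * S W₂ W₂) (α * S W₁ R)
      have q3' := abs_sub (S W₃ W₃ - α ^ 2 * S W₁ W₁) (β ^ 2 * S W₂ W₂)
      have q4' := abs_sub (S W₃ W₃) (α ^ 2 * S W₁ W₁)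
      have q5' : 0 ≤ Y ^ 16 * N2 := by positivity
      linarith
    have h5 : |α| * |β| * |S W₁ W₂| ≤ Y ^ 18 * N2 := by
      rw [abs_mul, abs_mul, abs_mul, abs_of_pos (by norm_num : (0 : ℝ) < 2)] at hb
      have : 0 ≤ |α| * |β| * |S W₁ W₂| := by positivity
      linarith
    calc |S W₁ W₂| = 1 * 1 * |S W₁ W₂| := by ring
      _ ≤ (|α| * Y ^ 3) * (|β| * Y ^ 3) * |S W₁ W₂| := by
          refine mul_le_mul_of_nonneg_right ?_ (abs_nonneg _)
          exact mul_le_mul hα' hβ' (by norm_num) (by positivity)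
      _ = Y ^ 6 * (|α| * |β| * |S W₁ W₂|) := by ring
      _ ≤ Y ^ 6 * (Y ^ 18 * N2) := mul_le_mul_of_nonneg_left h5 (by positivity)
      _ = Y ^ 24 * N2 := by ring
      _ ≤ _ := mul_le_mul_of_nonneg_right (pow_le_pow_right₀ hY1 (by norm_num)) hN20
  -- the end
  obtain ⟨α, β, R, q1, q2, q3, q4, q5, q6, -, -⟩ := hdec V
  obtain ⟨N, hN⟩ : ∃ N, N = nrm c G g a l x V := ⟨_, rfl⟩
  have hN0 : 0 ≤ N := by rw [hN]; exact nrm_nonneg _ _ _ _ _ _ _
  rw [← hN] at q4 q5 q6 ⊢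
  have e1 : hs (G l) x W₁ V = α * S W₁ W₁ + β * S W₁ W₂ + S W₁ R := by
    have : hs (G l) x W₁ V = S W₁ V := by rw [hS]
    rw [this]
    conv_lhs => rw [q1]
    rw [Sadd, Sadd, Ssm, Ssm]
  rw [e1]
  have t1 : |α * S W₁ W₁| ≤ Y ^ 28 * (2 ^ a / 2 ^ g l) * N := by
    rw [abs_mul]
    calc |α| * |S W₁ W₁| ≤ Y ^ 4 * (N / 2 ^ a) * (Y * N2) :=
          mul_le_mul q4 (nS _ o1) (abs_nonneg _) (by positivity)
      _ = Y ^ 5 * (2 ^ a / 2 ^ g l) * N := by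
          rw [hN2]
          field_simp
      _ ≤ _ := mul_le_mul_of_nonneg_right (mul_le_mul_of_nonneg_right
          (pow_le_pow_right₀ hY1 (by norm_num)) (by positivity)) hN0
  have t2 : |β * S W₁ W₂| ≤ Y ^ 28 * (2 ^ a / 2 ^ g l) * N := by
    rw [abs_mul]
    calc |β| * |S W₁ W₂| ≤ Y ^ 3 * (N / 2 ^ a) * (Y ^ 25 * N2) :=
          mul_le_mul q5 hS12 (abs_nonneg _) (by positivity)
      _ = Y ^ 28 * (2 ^ a / 2 ^ g l) * N := by
          rw [hN2]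
          field_simp
  have t3 : |S W₁ R| ≤ Y ^ 28 * (2 ^ a / 2 ^ g l) * N := by
    calc |S W₁ R| ≤ Y * (2 ^ a / 2 ^ g l) * nrm c G g a l x R := v1S _ o1 R q2 q3
      _ ≤ Y * (2 ^ a / 2 ^ g l) * (Y ^ 7 * N) := mul_le_mul_of_nonneg_left q6 (by positivity)
      _ = Y ^ 8 * (2 ^ a / 2 ^ g l) * N := by ring
      _ ≤ _ := mul_le_mul_of_nonneg_right (mul_le_mul_of_nonneg_right
          (pow_le_pow_right₀ hY1 (by norm_num)) (by positivity)) hN0
  refine (abs_add_le _ _).trans ((add_le_add ((abs_add_le _ _).trans (add_le_add t1 t2)) t3).trans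
    ?_)
  have h0 : 0 ≤ Y ^ 28 * (2 ^ a / 2 ^ g l) * N := by positivity
  have e2 : Y ^ 30 * (2 ^ a / 2 ^ g l) * N = Y ^ 28 * (2 ^ a / 2 ^ g l) * N * (Y * Y) := by ring
  rw [e2]
  nlinarith [mul_nonneg h0 (show (0 : ℝ) ≤ Y * Y - 4 by nlinarith)]

/-- The first coordinate. -/
theorem tri_zero {c : ℕ → Fin m} {g : ℕ → ℕ} {a : ℕ}
    {G : ℕ → MvPolynomial (Option (Fin m)) ℝ} (hdep : ∀ j, DepC c j (G j))
    {x W : Option (Fin m) → ℝ} {U : ℝ} (h1 : W none = 1)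
    (nul : |hs (G 0) x W W| ≤ U * (2 ^ a) ^ 2 / 2 ^ g 0) (V : Option (Fin m) → ℝ) :
    |hs (G 0) x W V| ≤ U * (2 ^ a / 2 ^ g 0) * nrm c G g a 0 x V := by
  have hcv : ∀ V' : Option (Fin m) → ℝ, hs (G 0) x W V' = V' none * hs (G 0) x W W := by
    intro V'
    obtain ⟨χ, hχ⟩ : ∃ χ : Option (Fin m) → ℝ, χ = fun o => dd (pderiv o (G 0)) x W := ⟨_, rfl⟩
    have e1 : ∀ V', hs (G 0) x W V' = cv χ V' := fun V' => by
      rw [hχ]
      rfl
    have e2 : CvC c 0 χ := by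
      intro k _
      rw [hχ]
      show dd (pderiv (some k) (G 0)) x W = 0
      rw [pd_zero' (hdep 0) (fun l hl => absurd hl (Nat.not_lt_zero l))]
      unfold dd
      simp
    have e3 : ∀ V', cv χ V' = χ none * V' none := by
      intro V'
      rw [cv_congr e2 (W' := V' none • fun o => if o = none then (1 : ℝ) else 0) (by
        simp) (fun j hj => absurd hj (Nat.not_lt_zero j)), cv_smul, cv_single]
      ring
    rw [e1, e1, e3, e3, h1]
    ring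
  rw [hcv, abs_mul]
  unfold nrm
  rw [Finset.sum_range_zero, add_zero]
  calc |V none| * |hs (G 0) x W W| ≤ |V none| * (U * (2 ^ a) ^ 2 / 2 ^ g 0) :=
        mul_le_mul_of_nonneg_left nul (abs_nonneg _)
    _ = _ := by ring

end Pool.D2Z
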