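import Pool.Agent.H60.D2.Fra
import Pool.Agent.H60.D2.Tri
import Pool.Agent.H46.D2.Tri3
import Pool.Agent.H23.D2.Cls

/-!
# D2: the frame of the ball chart of a class

`V1P`: the curvature of the ball chart is natural between the lines through the point and the
directions of the coordinates after the first one. `tri_pair`: with three separated lines through the
point the curvature is natural in the direction of the own line. `frm_cls`: the class form: the frame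
of the first `n` coordinates, from `V1P` for the coordinates `2 ≤ l < n` (so without any hypothesis for
`n ≤ 2`).
-/

set_option autoImplicit false

namespace Pool.D2Z

open Finset Real MvPolynomial
open Pool.Agent.H49.Ent Pool.Agent.H32.Dense Pool.STK Pool.KA Pool.KSAT Pool.K2S Pool.PB Pool.S6C
open Pool.GEN Pool.CHT Pool.CHX Pool.D2F Pool.D2R
open Pool.FLF (Fam.sub)
open Pool.LBT (ThrOf)

variable {m J : ℕ}

/-- **The curvature is natural** between the lines through the point and the directions of the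
coordinates `1 .. l - 1`. -/
def V1P (F : Fam m J) (c : ℕ → Fin m) (a : ℕ) (g : ℕ → ℕ) (B : F.Ω → Prop)
    (G : PtT F → ℕ → MvPolynomial (Option (Fin m)) ℝ) (K : ℝ) (l : ℕ) : Prop :=
  ∀ ω ν, B ω → B ν → ptr F J ω = ptr F J ν → ∀ R : Option (Fin m) → ℝ, R none = 0 →
    R (some (c 0)) = 0 → |hs (G (ptr F J ω) l) (bt F ω) (bd F ν) R| ≤
      K * (2 ^ a / 2 ^ g l) * nrm c (G (ptr F J ω)) g a l (bt F ω) R

theorem V1P.sub {F : Fam m J} {c : ℕ → Fin m} {a : ℕ} {g : ℕ → ℕ} {B B' : F.Ω → Prop}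
    {G : PtT F → ℕ → MvPolynomial (Option (Fin m)) ℝ} {K K' : ℝ} {l : ℕ}
    (h : V1P F c a g B G K l) (hB : Sub B' B) (hK : K ≤ K') : V1P F c a g B' G K' l :=
  fun ω ν h1 h2 h3 R h4 h5 => (h ω ν (hB ω h1) (hB ν h2) h3 R h4 h5).trans
    (mul_le_mul_of_nonneg_right (mul_le_mul_of_nonneg_right hK (by positivity))
      (nrm_nonneg _ _ _ _ _ _ _))

/-- A chart over the first coordinate only. -/
theorem V1P.one {F : Fam m J} {c : ℕ → Fin m} {a : ℕ} {g : ℕ → ℕ} {B : F.Ω → Prop}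
    {G : PtT F → ℕ → MvPolynomial (Option (Fin m)) ℝ} (hdep : ∀ y l, DepC c l (G y l)) {K : ℝ}
    (hK : 0 ≤ K) : V1P F c a g B G K 1 := by
  intro ω ν _ _ _ R h4 h5
  obtain ⟨χ, hχ⟩ : ∃ χ : Option (Fin m) → ℝ, χ = fun o =>
      dd (pderiv o (G (ptr F J ω) 1)) (bt F ω) (bd F ν) := ⟨_, rfl⟩
  have e1 : hs (G (ptr F J ω) 1) (bt F ω) (bd F ν) R = cv χ R := by
    rw [hχ]
    rfl
  have e2 : CvC c 1 χ := by
    intro k hk
    rw [hχ]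
    show dd (pderiv (some k) (G (ptr F J ω) 1)) (bt F ω) (bd F ν) = 0
    rw [pd_zero' (hdep _ 1) (fun l hl => (hk l hl).symm)]
    unfold dd
    simp
  have e3 : cv χ R = cv χ 0 := cv_congr e2 (by rw [h4]; rfl) fun j hj => by
    rw [Nat.lt_one_iff.1 hj, h5]
    rfl
  have e4 : cv χ (0 : Option (Fin m) → ℝ) = 0 := by
    unfold cv
    simp
  rw [e1, e3, e4, abs_zero]
  exact mul_nonneg (mul_nonneg hK (by positivity)) (nrm_nonneg _ _ _ _ _ _ _)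

/-- **Three separated lines through the point.** -/
theorem tri_pair {F : Fam m J} {c : ℕ → Fin m} {r w a v p : ℕ} {g₀ gT : ℕ → ℕ} {U K Y : ℝ}
    {B : F.Ω → Prop} {G₀ : PtT F → ℕ → MvPolynomial (Option (Fin m)) ℝ}
    {H₀ : LnT F → ℕ → MvPolynomial (Option (Fin m)) ℝ}
    {T : PtT F → ℕ → MvPolynomial (Option (Fin m)) ℝ}
    {TH : LnT F → ℕ → MvPolynomial (Option (Fin m)) ℝ}
    {Ht : LnT F → MvPolynomial (Option (Fin m)) ℝ} {ψ : PtT F → ℕ → Option (Fin m) → ℝ}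
    (hro : ROut1 F c r w a v g₀ gT p U B G₀ H₀ T TH Ht) (hdep : ∀ y l, DepC c l (G₀ y l))
    (hcv : ∀ y, CvC c 0 (ψ y 0)) {l : ℕ} (hl : 1 ≤ l) (hlr : l ≤ r) (hY : 2 ≤ Y) (hU0 : 0 ≤ U)
    (hU : U ≤ Y) (hK : K ≤ Y) (hlY : (l : ℝ) + 1 ≤ Y) (hv1 : V1P F c a g₀ B G₀ K l)
    {ω ν₀ ν₁ ν₂ : F.Ω} (hω : B ω) (h0 : B ν₀) (h1 : B ν₁) (h2 : B ν₂)
    (p0 : ptr F J ν₀ = ptr F J ω) (p1 : ptr F J ν₁ = ptr F J ω) (p2 : ptr F J ν₂ = ptr F J ω)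
    (s1 : 1 / Y ≤ |Xn F c g₀ a ψ ν₀ 1 - Xn F c g₀ a ψ ν₁ 1|)
    (s2 : 1 / Y ≤ |Xn F c g₀ a ψ ν₀ 1 - Xn F c g₀ a ψ ν₂ 1|)
    (s3 : 1 / Y ≤ |Xn F c g₀ a ψ ν₁ 1 - Xn F c g₀ a ψ ν₂ 1|) (V : Option (Fin m) → ℝ) :
    |hs (G₀ (ptr F J ω) l) (bt F ω) (bd F ν₀) V| ≤
      Y ^ 30 * (2 ^ a / 2 ^ g₀ l) * nrm c (G₀ (ptr F J ω)) g₀ a l (bt F ω) V := by
  have hsep : ∀ ν ν' : F.Ω, ptr F J ν = ptr F J ω → ptr F J ν' = ptr F J ω →
      |Xn F c g₀ a ψ ν 1 - Xn F c g₀ a ψ ν' 1| =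
        2 ^ g₀ 0 / 2 ^ a * |bd F ν (some (c 0)) - bd F ν' (some (c 0))| := by
    intro ν ν' q q'
    have e1 : ∀ ν : F.Ω, Xn F c g₀ a ψ ν 1 = 2 ^ g₀ 0 * (((1 / 2 ^ a : ℝ) • bd F ν) (some (c 0)) -
        cv (ψ (ptr F J ν) 0) ((1 / 2 ^ a : ℝ) • bd F ν)) := fun _ => rfl
    have e2 : cv (ψ (ptr F J ν) 0) ((1 / 2 ^ a : ℝ) • bd F ν) =
        cv (ψ (ptr F J ν') 0) ((1 / 2 ^ a : ℝ) • bd F ν') := by
      rw [q, q']
      exact cv_congr (hcv _) rfl fun j hj => absurd hj (Nat.not_lt_zero j)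
    rw [e1, e1, e2, ← mul_sub, sub_sub_sub_cancel_right, Pi.smul_apply, Pi.smul_apply,
      smul_eq_mul, smul_eq_mul, ← mul_sub, abs_mul, abs_mul, abs_of_pos
        (by positivity : (0 : ℝ) < 2 ^ g₀ 0), abs_of_pos (by positivity : (0 : ℝ) < 1 / 2 ^ a)]
    ring
  have hB : ∀ W : Option (Fin m) → ℝ, W = bd F ν₀ ∨ W = bd F ν₁ ∨ W = bd F ν₂ →
      ∃ ν, B ν ∧ ptr F J ω = ptr F J ν ∧ W = bd F ν := by
    rintro W (h | h | h)
    · exact ⟨ν₀, h0, p0.symm, h⟩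
    · exact ⟨ν₁, h1, p1.symm, h⟩
    · exact ⟨ν₂, h2, p2.symm, h⟩
  refine tri (c := c) (g := g₀) (a := a) (l := l) hl (G := G₀ (ptr F J ω)) (hdep _)
    (x := bt F ω) (W₁ := bd F ν₀) (W₂ := bd F ν₁) (W₃ := bd F ν₂) (Y := Y) (U := U) (K := K) hY hU
    hK hU0 hlY rfl rfl rfl ?_ ?_ ?_ ?_ ?_ ?_ V
  · intro W hW j hj
    obtain ⟨ν, hν, hp, rfl⟩ := hB W hW
    exact hro.vel ω ν hω hν hp j (by omega)
  · intro W hW
    obtain ⟨ν, hν, hp, rfl⟩ := hB W hW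
    exact hro.nul ω ν hω hν hp l hlr
  · intro W hW R hR hR0
    obtain ⟨ν, hν, hp, rfl⟩ := hB W hW
    exact hv1 ω ν hω hν hp R hR hR0
  · rw [hsep ν₀ ν₁ p0 p1, abs_sub_comm] at s1
    exact s1
  · rw [hsep ν₀ ν₂ p0 p2, abs_sub_comm] at s2
    exact s2
  · rw [hsep ν₁ ν₂ p1 p2, abs_sub_comm] at s3
    exact s3

/-- **The curvature of the ball chart is natural** between the lines through the point and every
direction. -/
def CurP (F : Fam m J) (c : ℕ → Fin m) (a : ℕ) (g : ℕ → ℕ) (B : F.Ω → Prop)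
    (G : PtT F → ℕ → MvPolynomial (Option (Fin m)) ℝ) (K : ℝ) (l : ℕ) : Prop :=
  ∀ ω ν, B ω → B ν → ptr F J ω = ptr F J ν → ∀ V : Option (Fin m) → ℝ,
    |hs (G (ptr F J ω) l) (bt F ω) (bd F ν) V| ≤
      K * (2 ^ a / 2 ^ g l) * nrm c (G (ptr F J ω)) g a l (bt F ω) V

theorem CurP.sub {F : Fam m J} {c : ℕ → Fin m} {a : ℕ} {g : ℕ → ℕ} {B B' : F.Ω → Prop}
    {G : PtT F → ℕ → MvPolynomial (Option (Fin m)) ℝ} {K K' : ℝ} {l : ℕ}
    (h : CurP F c a g B G K l) (hB : Sub B' B) (hK : K ≤ K') : CurP F c a g B' G K' l :=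
  fun ω ν h1 h2 h3 V => (h ω ν (hB ω h1) (hB ν h2) h3 V).trans
    (mul_le_mul_of_nonneg_right (mul_le_mul_of_nonneg_right hK (by positivity))
      (nrm_nonneg _ _ _ _ _ _ _))

theorem CurP.own {F : Fam m J} {c : ℕ → Fin m} {a : ℕ} {g : ℕ → ℕ} {B : F.Ω → Prop}
    {G : PtT F → ℕ → MvPolynomial (Option (Fin m)) ℝ} {K : ℝ} {l : ℕ}
    (h : CurP F c a g B G K l) {ω : F.Ω} (hω : B ω) (V : Option (Fin m) → ℝ) :
    |hs (G (ptr F J ω) l) (bt F ω) (bd F ω) V| ≤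
      K * (2 ^ a / 2 ^ g l) * nrm c (G (ptr F J ω)) g a l (bt F ω) V := h ω ω hω hω rfl V

/-- **The frame of the ball chart of a class.** -/
theorem frm_cls (m D r n : ℕ) (hD : 1 ≤ D) (hn : 1 ≤ n) (hnr : n ≤ r + 1) : ∃ C : ℕ, 1 ≤ C ∧
    ∀ {θ : ℝ} {S : PCl m} {P : List (Fin m) × Fin m → ℝ → ℝ → ℝ} (_ : ThrOf (chsys m θ) S P)
    (_ : TmH S) (c : ℕ → Fin m) (_ : Set.InjOn c (Set.Iio n)) (a : ℚ) (e h ε κ : ℝ)
    (_ : 0 ≤ a) (_ : a < 1) (_ : e < θ * a) (_ : 0 < h) (_ : bet P c 0 a a + h ≤ 1)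
    (_ : 0 < ε) (_ : 0 < κ),
    Bas S (fun J F A => ∀ (w a₀ v e₀ k s V p p₁ : ℕ) (g₀ gT : ℕ → ℕ) (U : ℝ)
      (G₀ : PtT F → ℕ → MvPolynomial (Option (Fin m)) ℝ)
      (H₀ : LnT F → ℕ → MvPolynomial (Option (Fin m)) ℝ)
      (T : PtT F → ℕ → MvPolynomial (Option (Fin m)) ℝ)
      (TH : LnT F → ℕ → MvPolynomial (Option (Fin m)) ℝ)
      (Ht : LnT F → MvPolynomial (Option (Fin m)) ℝ)
      (γ : PtT F → ℕ → Option (Fin m) → ℝ) (B : F.Ω → Prop), a₀ ≤ J →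
      a₀ ≤ ⌊(a : ℝ) * J⌋₊ → ε * J ≤ k → e₀ + C * (k + s + 1) ≤ ⌊e * J⌋₊ →
      C * (k + s + 1) ≤ V → e₀ + C * (k + s + 1) + g₀ 0 + V ≤ J → p₁ ≤ g₀ 0 + s → p₁ ≤ J →
      ⌊(bet P c 0 a a + h) * J⌋₊ + a₀ ≤ p₁ + ⌊(a : ℝ) * J⌋₊ → Sub B A →
      κ * Pe F.p A ≤ Pe F.p B → ChOK F c (r + 1) (fun _ => D) a₀ a₀ e₀ g₀ B G₀ H₀ →
      ROut1 F c r w a₀ v g₀ gT p U B G₀ H₀ T TH Ht → 0 ≤ U → U ≤ 2 ^ k →
      (∀ l, 2 ≤ l → l < n → V1P F c a₀ g₀ B G₀ (2 ^ k) l) → (∀ y l, CvC c l (γ y l)) →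
      (∀ ω, B ω → Nc c g₀ a₀ n (2 ^ k) (fun j => grd (G₀ (ptr F J ω) j) (bt F ω))
        (γ (ptr F J ω))) →
      ∃ (B' : F.Ω → Prop) (ψ : PtT F → ℕ → Option (Fin m) → ℝ)
        (ψH : LnT F → ℕ → Option (Fin m) → ℝ), Sub B' B ∧ Pe F.p B ≤ C * Pe F.p B' ∧
        FrOK F c n a₀ (C * (k + s + 1)) (e₀ + C * (k + s + 1)) g₀ B' ψ ψH ∧
        (∀ ω, B' ω → Nc c g₀ a₀ n (2 ^ (C * (k + s + 1))) (ψ (ptr F J ω)) (γ (ptr F J ω))) ∧
        ∀ l < n, CurP F c a₀ g₀ B' G₀ (2 ^ (C * (k + s + 1))) l) := by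
  classical
  obtain ⟨C₁, hC₁, hfr1⟩ := frame_row m D r 1 hD
  obtain ⟨C₂, hC₂, hfr2⟩ := frame_row m D r n hD
  obtain ⟨C, hC⟩ : ∃ C : ℕ, C = C₂ * (60 * C₁ + 30 * r + 331) + 24 * 3 ^ (n ^ 2) := ⟨_, rfl⟩
  have hCa : 60 * C₁ + 30 * r + 331 ≤ C := by
    rw [hC]
    nlinarith [Nat.zero_le (24 * 3 ^ (n ^ 2))]
  refine ⟨C, by omega, ?_⟩
  intro θ S P hP hT c hc a e h ε κ ha0 ha he hh h1 hε hκ
  have hL2 : 0 < Real.log 2 := Real.log_pos (by norm_num)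
  have haR : (a : ℝ) < 1 := by exact_mod_cast ha
  have ha0R : (0 : ℝ) ≤ a := by exact_mod_cast ha0
  obtain ⟨δ, hδ, hsep⟩ := Pool.SEP46.sep_cls hP c 2 a e h ha0 ha.le he hh h1
  obtain ⟨μ, hμ⟩ : ∃ μ : ℝ, μ = min ε (1 - a) * Real.log 2 / 2 := ⟨_, rfl⟩
  have hμ0 : 0 < μ := by
    rw [hμ]
    have : 0 < min ε (1 - (a : ℝ)) := lt_min hε (by linarith)
    positivity
  obtain ⟨CM, hCM⟩ : ∃ CM : ℝ, CM = C₁ + C₂ := ⟨_, rfl⟩
  have hCM0 : 0 < CM := by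
    rw [hCM]
    have : (1 : ℝ) ≤ C₁ := by exact_mod_cast hC₁
    have : (0 : ℝ) ≤ C₂ := Nat.cast_nonneg _
    linarith
  obtain ⟨ε₁, hε₁⟩ : ∃ ε₁ : ℝ, ε₁ = μ / CM := ⟨_, rfl⟩
  have hε₁0 : 0 < ε₁ := by rw [hε₁]; positivity
  have htm := bas_ev (hT.2 ε₁ hε₁0) (κ := κ / 12) (by positivity)
  have hpos : Bas S (fun _ F A => 0 < Pe F.p A) := ⟨1, one_pos, 0, fun J _ F A hA =>
    hT.1 1 J F A hA⟩
  obtain ⟨J₁, hJ₁⟩ := exists_nat_ge (CM / μ)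
  obtain ⟨J₂, hJ₂⟩ := exists_nat_ge (-Real.log (κ / 6) / δ)
  refine Bas.mono (max J₁ J₂) ((hsep.and htm).and hpos) ?_
  rintro J hJ F A ⟨⟨hsA, htA⟩, hA0⟩
  intro w a₀ v e₀ k s V p p₁ g₀ gT U G₀ H₀ T TH Ht γ B haJ haa hk hek hVk hJV hp1 hp1J hbet hBA hBκ
    hch hro hU0 hU hv1 hγ hγn
  have hp := Pe_nonneg F.isLaw
  have hB0 : 0 < Pe F.p B := (mul_pos hκ hA0).trans_le hBκ
  have hJ0 : (0 : ℝ) ≤ J := Nat.cast_nonneg J
  have hJ1 : CM ≤ μ * J := by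
    have h2 : (J₁ : ℝ) ≤ J := by exact_mod_cast (le_max_left _ _).trans hJ
    have h3 := hJ₁.trans h2
    rw [div_le_iff₀ hμ0] at h3
    linarith
  have hJ2 : Real.exp (-(δ * J)) ≤ κ / 6 := by
    have h2 : (J₂ : ℝ) ≤ J := by exact_mod_cast (le_max_right _ _).trans hJ
    have h3 := hJ₂.trans h2
    rw [div_le_iff₀ hδ] at h3
    have h4 : -(δ * (J : ℝ)) ≤ Real.log (κ / 6) := by linarith
    exact (Real.exp_le_exp.2 h4).trans (Real.exp_log (by positivity)).le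
  -- the times
  have hθ0 : 0 ≤ ε₁ * J := by positivity
  have hmain : CM * (ε₁ * J + 1) ≤ min ε (1 - (a : ℝ)) * Real.log 2 * J := by
    have e1 : CM * (ε₁ * J) = μ * J := by rw [hε₁]; field_simp
    have e2 : 2 * (μ * J) = min ε (1 - (a : ℝ)) * Real.log 2 * J := by rw [hμ]; ring
    rw [mul_add, mul_one, e1]
    linarith
  have hm1 : CM * (ε₁ * J + 1) ≤ k * Real.log 2 := by
    refine hmain.trans ?_
    have e1 : min ε (1 - (a : ℝ)) * Real.log 2 * J ≤ ε * Real.log 2 * J :=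
      mul_le_mul_of_nonneg_right (mul_le_mul_of_nonneg_right (min_le_left _ _) hL2.le) hJ0
    have e2 := mul_le_mul_of_nonneg_right hk hL2.le
    linarith
  have hm2 : CM * (ε₁ * J + 1) ≤ ((J : ℝ) - a₀) * Real.log 2 := by
    refine hmain.trans ?_
    have e1 : min ε (1 - (a : ℝ)) * Real.log 2 * J ≤ (1 - a) * Real.log 2 * J :=
      mul_le_mul_of_nonneg_right (mul_le_mul_of_nonneg_right (min_le_right _ _) hL2.le) hJ0
    have e2 : (a₀ : ℝ) ≤ a * J := by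
      have h2 : (a₀ : ℝ) ≤ ⌊(a : ℝ) * J⌋₊ := by exact_mod_cast haa
      exact h2.trans (Nat.floor_le (mul_nonneg ha0R hJ0))
    have e3 := mul_le_mul_of_nonneg_right e2 hL2.le
    linarith
  have hci : ∀ Ci : ℕ, (Ci : ℝ) ≤ CM → Ci * (ε₁ * J + 1) ≤ ((J : ℝ) - a₀) * Real.log 2 ∧
      ∀ k' : ℕ, k ≤ k' → Real.exp (Ci * (ε₁ * J + 1)) ≤ 2 ^ k' := by
    intro Ci hCi
    have e1 : (Ci : ℝ) * (ε₁ * J + 1) ≤ CM * (ε₁ * J + 1) :=
      mul_le_mul_of_nonneg_right hCi (by linarith)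
    refine ⟨e1.trans hm2, fun k' hk' => ?_⟩
    have e2 : Real.exp (Ci * (ε₁ * J + 1)) ≤ Real.exp (k * Real.log 2) :=
      Real.exp_le_exp.2 (e1.trans hm1)
    rw [mul_comm (k : ℝ), ← Real.rpow_def_of_pos (by norm_num), Real.rpow_natCast] at e2
    exact e2.trans (pow_le_pow_right₀ (by norm_num) hk')
  have hC1M : (C₁ : ℝ) ≤ CM := by rw [hCM]; linarith [(Nat.cast_nonneg C₂ : (0 : ℝ) ≤ C₂)]
  have hC2M : (C₂ : ℝ) ≤ CM := by rw [hCM]; linarith [(Nat.cast_nonneg C₁ : (0 : ℝ) ≤ C₁)]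
  -- the frame of the first coordinate
  obtain ⟨k₁, hk₁⟩ : ∃ k₁, k₁ = C₁ * (k + 1) := ⟨_, rfl⟩
  have hkk₁ : k ≤ k₁ := by rw [hk₁]; nlinarith
  obtain ⟨B₁, ψ₁, ψH₁, b1, b2, b3, -⟩ := hfr1 (F := F) (c := c) (w := w) (a := a₀) (v := v)
    (e := e₀) (k := k) (p := p) (g₀ := g₀) (gT := gT) (U := U) (θ := ε₁ * J) (B := B) (G₀ := G₀)
    (H₀ := H₀) (T := T) (TH := TH) (Ht := Ht) (γ := γ) hB0 (by omega)
    (hc.mono (Set.Iio_subset_Iio hn)) haJ hch hro hU0 hU (fun ω hω l hl V => by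
      rw [Nat.lt_one_iff.1 hl]
      refine (tri_zero (c := c) (g := g₀) (a := a₀) (G := G₀ (ptr F J ω)) (hch.depG _) rfl
        (hro.nul ω ω hω hω rfl 0 (Nat.zero_le r)) V).trans ?_
      exact mul_le_mul_of_nonneg_right (mul_le_mul_of_nonneg_right hU (by positivity))
        (nrm_nonneg _ _ _ _ _ _ _)) hγ (fun ω hω => (hγn ω hω).le hn) hθ0
    (htA B hBA (by
      have : 0 ≤ κ * Pe F.p A := mul_nonneg hκ.le (hp A)
      linarith) hB0) (hci C₁ hC1M).1 ((hci C₁ hC1M).2 k le_rfl)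
  rw [← hk₁] at b3
  have b2' : Pe F.p B ≤ 6 * Pe F.p B₁ := by
    refine b2.trans (le_of_eq ?_)
    norm_num
  -- the separated lines
  have hCk : C * (k + s + 1) = C * (k + s + 1) := rfl
  have hCk1 : 4 * k₁ + s + 9 ≤ C * (k + s + 1) := by
    have e1 : (60 * C₁ + 30 * r + 331) * (k + s + 1) ≤ C * (k + s + 1) :=
      Nat.mul_le_mul_right _ hCa
    rw [hk₁]
    nlinarith [Nat.zero_le (C₁ * k), Nat.zero_le (C₁ * s), Nat.zero_le (r * k),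
      Nat.zero_le (r * s)]
  obtain ⟨B₂, d1, d2, d3⟩ := hsA 1 a₀ (e₀ + k₁) k₁ s (s + 2 * k₁ + 9) p₁ g₀ ψ₁ ψH₁ one_pos haJ
    haa (by omega) le_rfl (by omega) hp1 hp1J hbet B₁ (fun ω hω => hBA ω (b1 ω hω)) b3 (by
      have h2 : Real.exp (-(δ * J)) * Pe F.p A ≤ κ / 6 * Pe F.p A :=
        mul_le_mul_of_nonneg_right hJ2 (hp A)
      have h3 : κ / 6 * Pe F.p A = κ * Pe F.p A / 6 := by ring
      linarith)
  have d1' : Sub B₂ B := fun ω hω => b1 ω (d1 ω hω)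
  have hB2 : Pe F.p B ≤ 12 * Pe F.p B₂ := by linarith
  have hB20 : 0 < Pe F.p B₂ := by linarith
  -- the curvature
  obtain ⟨Y, hY⟩ : ∃ Y : ℝ, Y = 2 ^ (s + 2 * k₁ + r + 10) := ⟨_, rfl⟩
  have hYp : ∀ x : ℕ, x ≤ s + 2 * k₁ + r + 10 → (2 : ℝ) ^ x ≤ Y := fun x hx => by
    rw [hY]
    exact pow_le_pow_right₀ (by norm_num) hx
  obtain ⟨k₂, hk₂⟩ : ∃ k₂, k₂ = 30 * (s + 2 * k₁ + r + 10) := ⟨_, rfl⟩
  have hY30 : Y ^ 30 = 2 ^ k₂ := by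
    rw [hY, hk₂, ← pow_mul, mul_comm 30]
  have hcur : ∀ l < n, CurP F c a₀ g₀ B₂ G₀ (2 ^ k₂) l := by
    intro l hl ω ν₀ hω hν₀ hpp V
    have hωB := d1' ω hω
    have hνB := d1' ν₀ hν₀
    rcases Nat.eq_zero_or_pos l with hl0 | hl0
    · rw [hl0]
      refine (tri_zero (c := c) (g := g₀) (a := a₀) (G := G₀ (ptr F J ω)) (hch.depG _) rfl
        (hro.nul ω ν₀ hωB hνB hpp 0 (Nat.zero_le r)) V).trans ?_
      refine mul_le_mul_of_nonneg_right (mul_le_mul_of_nonneg_right (hU.trans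
        (pow_le_pow_right₀ (by norm_num) ?_)) (by positivity)) (nrm_nonneg _ _ _ _ _ _ _)
      rw [hk₂]
      omega
    · obtain ⟨ν, n1, n2, n3⟩ := d3 ν₀ hν₀
      have q0 := n1 0
      have q1 := n1 1
      have hle : ∀ x : ℝ, 1 / 2 ^ (s + 2 * k₁ + 9) ≤ x → 1 / Y ≤ x := fun x hx =>
        (one_div_le_one_div_of_le (by positivity) (hYp _ (by omega))).trans hx
      have hv1' : V1P F c a₀ g₀ B G₀ (2 ^ k) l := by
        rcases Nat.lt_or_ge l 2 with hl2 | hl2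
        · have hl1 : l = 1 := by omega
          rw [hl1]
          exact V1P.one hch.depG (by positivity)
        · exact hv1 l hl2 hl
      have hlY : (l : ℝ) + 1 ≤ Y := by
        have e1 : ((l + 1 : ℕ) : ℝ) ≤ ((2 ^ (l + 1) : ℕ) : ℝ) := by
          exact_mod_cast (Nat.lt_two_pow_self (n := l + 1)).le
        push_cast at e1
        exact e1.trans (hYp _ (by omega))
      have h2Y : (2 : ℝ) ≤ Y := by
        have := hYp 1 (by omega)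
        rwa [pow_one] at this
      rw [← hY30]
      exact tri_pair hro hch.depG (fun y => b3.dep y 0) hl0 (by omega) h2Y hU0
        (hU.trans (hYp _ (by omega))) (hYp _ (by omega)) hlY hv1' hωB hνB (b1 _ q0.1) (b1 _ q1.1)
        hpp.symm (q0.2.trans hpp.symm) (q1.2.trans hpp.symm) (hle _ (n2 0)) (hle _ (n2 1))
        (hle _ (n3 0 1 (by decide))) V
  -- the frame
  obtain ⟨B₃, ψ, ψH, f1, f2, f3, f4⟩ := hfr2 (F := F) (c := c) (w := w) (a := a₀) (v := v)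
    (e := e₀) (k := k₂) (p := p) (g₀ := g₀) (gT := gT) (U := U) (θ := ε₁ * J) (B := B₂) (G₀ := G₀)
    (H₀ := H₀) (T := T) (TH := TH) (Ht := Ht) (γ := γ) hB20 hnr hc haJ (hch.sub d1')
    (hro.sub d1') hU0 (hU.trans (pow_le_pow_right₀ (by norm_num) (by omega)))
    (fun ω hω l hl V => (hcur l hl).own hω V) hγ
    (fun ω hω => (hγn ω (d1' ω hω)).mono (pow_le_pow_right₀ (by norm_num) (by omega))) hθ0
    (htA B₂ (fun ω hω => hBA ω (d1' ω hω)) (by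
      have : κ / 12 * Pe F.p A = κ * Pe F.p A / 12 := by ring
      linarith) hB20) (hci C₂ hC2M).1 ((hci C₂ hC2M).2 k₂ (by omega))
  have hfin : C₂ * (k₂ + 1) ≤ C * (k + s + 1) := by
    have e1 : k₂ + 1 ≤ (60 * C₁ + 30 * r + 331) * (k + s + 1) := by
      rw [hk₂, hk₁]
      have e2 : (60 * C₁ + 30 * r + 331) * (k + s + 1) = 60 * (C₁ * k) + 60 * (C₁ * s) +
          60 * C₁ + 30 * (r * k) + 30 * (r * s) + 30 * r + 331 * (k + s + 1) := by ring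
      have e3 : 30 * (s + 2 * (C₁ * (k + 1)) + r + 10) + 1 = 30 * s + 60 * (C₁ * k) + 60 * C₁ +
          30 * r + 301 := by ring
      rw [e2, e3]
      omega
    calc C₂ * (k₂ + 1) ≤ C₂ * ((60 * C₁ + 30 * r + 331) * (k + s + 1)) :=
          Nat.mul_le_mul_left _ e1
      _ = C₂ * (60 * C₁ + 30 * r + 331) * (k + s + 1) := by ring
      _ ≤ C * (k + s + 1) := Nat.mul_le_mul_right _ (by omega)
  refine ⟨B₃, ψ, ψH, fun ω hω => d1' ω (f1 ω hω), ?_, frok_mono f3 hfin (by omega),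
    fun ω hω => (f4 ω hω).mono (pow_le_pow_right₀ (by norm_num) hfin), fun l hl => ?_⟩
  · have e1 : (24 * 3 ^ (n ^ 2) : ℝ) ≤ C := by
      have : 24 * 3 ^ (n ^ 2) ≤ C := by omega
      exact_mod_cast this
    calc Pe F.p B ≤ 12 * Pe F.p B₂ := hB2
      _ ≤ 12 * (2 * 3 ^ (n ^ 2) * Pe F.p B₃) := mul_le_mul_of_nonneg_left f2 (by norm_num)
      _ = 24 * 3 ^ (n ^ 2) * Pe F.p B₃ := by ring
      _ ≤ C * Pe F.p B₃ := mul_le_mul_of_nonneg_right e1 (hp B₃)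
  · refine (hcur l hl).sub f1 (pow_le_pow_right₀ (by norm_num) ?_)
    have : k₂ ≤ C₂ * (k₂ + 1) := by nlinarith
    omega

end Pool.D2Z
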