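import Pool.Agent.H60.D2.Rnd
import Pool.Agent.H90.D2.Lcl
import Pool.Agent.H15.KM7.Avg

/-!
# D2: the visible gradient is not the same at two samples of one line

`vis_two`: for a frame, a coordinate `c i` and any visible covector which is natural in the frame and
precise on the own line: two independent samples of one line and window do not have the same covector,
with probability near one. `vis_all`: the same for events on which the covector is the same for any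
two samples.
-/

set_option autoImplicit false

namespace Pool.D2Z

open Finset Real MvPolynomial
open Pool.Agent.H49.Ent Pool.Agent.H32.Dense Pool.STK Pool.KA Pool.KSAT Pool.K2S Pool.PB Pool.S6C
open Pool.GEN Pool.CHT Pool.CHX Pool.D2F Pool.D2R
open Pool.LBT (ThrOf)
open Pool.KM7 (P2)

variable {m J : ℕ}

/-- The components of a covector of small size. -/
theorem nc_en {c : ℕ → Fin m} {n : ℕ} (hc : Set.InjOn c (Set.Iio n)) (g : ℕ → ℕ) (a : ℕ)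
    {ψ : ℕ → Option (Fin m) → ℝ} (hψ : ∀ l, CvC c l (ψ l)) {φ : Option (Fin m) → ℝ} {M : ℝ}
    (hM : 0 ≤ M) (h : ∀ W : Option (Fin m) → ℝ, |cv φ W| ≤ M * en c g a ψ n W) (j : ℕ) :
    |nc c g a ψ n φ j| ≤ (n + 1) * M :=
  nc_le hc g a hψ (fun W hW => (h W).trans (by
    have := mul_le_mul_of_nonneg_left (en_one hW) hM
    linarith)) j

/-- **The same covector at two samples**: close labels. -/
theorem cl_two {F : Fam m J} {c : ℕ → Fin m} {g : ℕ → ℕ} {n a i k e s : ℕ} {B : F.Ω → Prop}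
    {ψ γ : PtT F → ℕ → Option (Fin m) → ℝ} {ψH : LnT F → ℕ → Option (Fin m) → ℝ} {ε : ℝ}
    (hc : Set.InjOn c (Set.Iio i)) (hin : i < n) (haJ : a ≤ J)
    (hfr : FrOK F c n a k e g B ψ ψH) (hγ : ∀ y l, CvC c l (γ y l)) (hε : 0 ≤ ε)
    (hn : ε * 2 ^ (3 * (i + 1) + 2 * k + 6 + s) ≤ 1) {ω ω' : F.Ω} (hω : B ω) (hω' : B ω')
    (hs : slam F a ω = slam F a ω')
    (hv : |bd F ω' (some (c i)) - cv (γ (ptr F J ω') i) (bd F ω')| ≤ ε * (2 ^ a / 2 ^ g i))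
    (hd : ∀ V : Option (Fin m) → ℝ, |cv (γ (ptr F J ω') i - γ (ptr F J ω) i) V| ≤
      ε / 2 ^ g i * en c g a (ψ (ptr F J ω)) i V) :
    Cl F c g a i k s ψ (fun y j => 2 ^ g i * nc c g a (ψ y) i (γ y i - ψ y i) j)
      (fun _ _ _ => 0) ω ω' := by
  have hg : (0 : ℝ) < 2 ^ g i := by positivity
  have hψe : ψ (ptr F J ω') = ψ (ptr F J ω) := by rw [hfr.cls ω hω, hfr.cls ω' hω', hs]
  have hbd := (slam_eq hs).1
  have hi0 : (0 : ℝ) ≤ i := Nat.cast_nonneg i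
  have hi1 : ((i : ℝ) + 1) ≤ 2 ^ (i + 1) := by
    have h1 : ((i + 1 : ℕ) : ℝ) ≤ ((2 ^ (i + 1) : ℕ) : ℝ) := by
      exact_mod_cast (Nat.lt_two_pow_self (n := i + 1)).le
    push_cast at h1
    exact h1
  refine cl_of (ε := (i + 1) * ε) (by positivity) (tu_le haJ hs)
    (fun j hj => Xn_le hfr hω (by omega)) (fun _ _ _ _ => rfl) (fun j hj => ?_) ?_
    (fun _ _ _ _ => by rw [sub_self, abs_zero]; positivity) ?_ ?_
  · rw [hψe]
    have e1 : ∑ l ∈ range (i + 1), (0 : ℝ) * Xn F c g a ψ ω l = 0 :=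
      Finset.sum_eq_zero fun _ _ => zero_mul _
    rw [e1, mul_zero, sub_zero, ← mul_sub, ← nc_sub, abs_mul, abs_of_pos hg]
    have e2 : γ (ptr F J ω') i - ψ (ptr F J ω) i - (γ (ptr F J ω) i - ψ (ptr F J ω) i) =
        γ (ptr F J ω') i - γ (ptr F J ω) i := by abel
    rw [e2]
    have h1 := nc_en hc g a (hfr.dep (ptr F J ω)) (M := ε / 2 ^ g i) (by positivity) hd j
    calc 2 ^ g i * |nc c g a (ψ (ptr F J ω)) i (γ (ptr F J ω') i - γ (ptr F J ω) i) j| ≤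
          2 ^ g i * ((i + 1) * (ε / 2 ^ g i)) := mul_le_mul_of_nonneg_left h1 hg.le
      _ = _ := by field_simp
  · rw [hψe]
    have e1 : ln i (fun j => 2 ^ g i * nc c g a (ψ (ptr F J ω)) i
        (γ (ptr F J ω') i - ψ (ptr F J ω) i) j) (Xn F c g a ψ ω) = 2 ^ g i *
        cv (γ (ptr F J ω') i - ψ (ptr F J ω) i) ((1 / 2 ^ a : ℝ) • bd F ω) := by
      have h1 : CvC c i (γ (ptr F J ω') i - ψ (ptr F J ω) i) := by
        intro k hk
        rw [Pi.sub_apply, hγ _ i k hk, hfr.dep _ i k hk, sub_zero]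
      rw [cv_nc hc g a (hfr.dep (ptr F J ω)) h1, Finset.mul_sum]
      unfold ln
      exact Finset.sum_congr rfl fun j _ => mul_assoc _ _ _
    have e2 : Xn F c g a ψ ω (i + 1) = 2 ^ g i * (((1 / 2 ^ a : ℝ) • bd F ω) (some (c i)) -
        cv (ψ (ptr F J ω) i) ((1 / 2 ^ a : ℝ) • bd F ω)) := rfl
    rw [e1, e2, ← mul_sub, cv_subl, abs_mul, abs_of_pos hg]
    have e3 : ((1 / 2 ^ a : ℝ) • bd F ω) (some (c i)) -
        cv (ψ (ptr F J ω) i) ((1 / 2 ^ a : ℝ) • bd F ω) -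
        (cv (γ (ptr F J ω') i) ((1 / 2 ^ a : ℝ) • bd F ω) -
          cv (ψ (ptr F J ω) i) ((1 / 2 ^ a : ℝ) • bd F ω)) =
        1 / 2 ^ a * (bd F ω' (some (c i)) - cv (γ (ptr F J ω') i) (bd F ω')) := by
      rw [hbd, cv_smul, cv_smul, Pi.smul_apply, smul_eq_mul]
      ring
    rw [e3, abs_mul, abs_of_pos (by positivity : (0 : ℝ) < 1 / 2 ^ a)]
    calc 2 ^ g i * (1 / 2 ^ a * |bd F ω' (some (c i)) - cv (γ (ptr F J ω') i) (bd F ω')|) ≤
          2 ^ g i * (1 / 2 ^ a * (ε * (2 ^ a / 2 ^ g i))) :=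
          mul_le_mul_of_nonneg_left (mul_le_mul_of_nonneg_left hv (by positivity)) hg.le
      _ = ε := by field_simp
      _ ≤ (i + 1) * ε := le_mul_of_one_le_left hε (by linarith)
  · have e1 : Pool.D2F.bl i (fun _ _ => (0 : ℝ)) (Xn F c g a ψ ω) (Xn F c g a ψ ω) = 0 := by
      unfold Pool.D2F.bl
      exact Finset.sum_eq_zero fun _ _ => Finset.sum_eq_zero fun _ _ => zero_mul _
    show |Pool.D2F.bl i (fun _ _ => (0 : ℝ)) (Xn F c g a ψ ω) (Xn F c g a ψ ω)| ≤ _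
    rw [e1, abs_zero]
    positivity
  · calc (i + 1) * ε * 2 ^ (2 * (i + 1) + 2 * k + 6 + s) ≤
          2 ^ (i + 1) * ε * 2 ^ (2 * (i + 1) + 2 * k + 6 + s) := by
          refine mul_le_mul_of_nonneg_right (mul_le_mul_of_nonneg_right hi1 hε) (by positivity)
      _ = ε * 2 ^ (3 * (i + 1) + 2 * k + 6 + s) := by
          rw [show 3 * (i + 1) + 2 * k + 6 + s = (i + 1) + (2 * (i + 1) + 2 * k + 6 + s) by ring,
            pow_add 2 (i + 1)]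
          ring
      _ ≤ 1 := hn

/-- The size of the coefficients. -/
theorem mu_le {F : Fam m J} {c : ℕ → Fin m} {g : ℕ → ℕ} {n a i k e : ℕ} {B : F.Ω → Prop}
    {ψ γ : PtT F → ℕ → Option (Fin m) → ℝ} {ψH : LnT F → ℕ → Option (Fin m) → ℝ}
    (hc : Set.InjOn c (Set.Iio i)) (hfr : FrOK F c n a k e g B ψ ψH) {ω : F.Ω}
    (hnear : ∀ V : Option (Fin m) → ℝ, |cv (γ (ptr F J ω) i - ψ (ptr F J ω) i) V| ≤
      2 ^ k / 2 ^ g i * en c g a (ψ (ptr F J ω)) i V) (j : ℕ) :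
    |2 ^ g i * nc c g a (ψ (ptr F J ω)) i (γ (ptr F J ω) i - ψ (ptr F J ω) i) j| ≤
      2 ^ (k + i + 1) := by
  have hg : (0 : ℝ) < 2 ^ g i := by positivity
  have h1 := nc_en hc g a (hfr.dep (ptr F J ω)) (M := 2 ^ k / 2 ^ g i) (by positivity) hnear j
  have hi1 : ((i : ℝ) + 1) ≤ 2 ^ (i + 1) := by
    have h1 : ((i + 1 : ℕ) : ℝ) ≤ ((2 ^ (i + 1) : ℕ) : ℝ) := by
      exact_mod_cast (Nat.lt_two_pow_self (n := i + 1)).le
    push_cast at h1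
    exact h1
  rw [abs_mul, abs_of_pos hg]
  calc 2 ^ g i * |nc c g a (ψ (ptr F J ω)) i (γ (ptr F J ω) i - ψ (ptr F J ω) i) j| ≤
        2 ^ g i * ((i + 1) * (2 ^ k / 2 ^ g i)) := mul_le_mul_of_nonneg_left h1 hg.le
    _ = (i + 1) * 2 ^ k := by field_simp
    _ ≤ 2 ^ (i + 1) * 2 ^ k := mul_le_mul_of_nonneg_right hi1 (by positivity)
    _ = _ := by
        rw [← pow_add]
        congr 1
        omega

/-- **The visible covector is not the same at two samples of one line.** -/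
theorem vis_two {θ : ℝ} {S : PCl m} {P : List (Fin m) × Fin m → ℝ → ℝ → ℝ}
    (hP : ThrOf (chsys m θ) S P) (c : ℕ → Fin m) (i : ℕ) (hc : Set.InjOn c (Set.Iio (i + 1)))
    (a : ℚ) (e h : ℝ) (ha0 : 0 ≤ a) (ha : a ≤ 1) (he : e < θ * a) (hh : 0 < h)
    (h1 : bet P c i a a + h ≤ 1) :
    ∃ δ : ℝ, 0 < δ ∧ Bas S (fun J F A => ∀ (n a₀ e₀ k s V p : ℕ) (g : ℕ → ℕ)
      (ψ γ : PtT F → ℕ → Option (Fin m) → ℝ) (ψH : LnT F → ℕ → Option (Fin m) → ℝ) (ε : ℝ),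
      i < n → a₀ ≤ J → a₀ ≤ ⌊(a : ℝ) * J⌋₊ →
      e₀ + (k + i + 1) + 2 * k + s + 2 * (i + 1) + 4 ≤ ⌊e * J⌋₊ →
      s + (k + i + 1) + k + 3 * (i + 1) + 6 ≤ V → (∀ j ≤ i, e₀ + g j + V ≤ J) →
      (∀ l < i, k + 1 ≤ g l) → p ≤ g i + s → p ≤ J →
      ⌊(bet P c i a a + h) * J⌋₊ + a₀ ≤ p + ⌊(a : ℝ) * J⌋₊ → 0 ≤ ε →
      ε * 2 ^ (3 * (i + 1) + 2 * k + 6 + s) ≤ 1 → ∀ B : F.Ω → Prop, Sub B A →
      FrOK F c n a₀ k e₀ g B ψ ψH → (∀ y l, CvC c l (γ y l)) →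
      (∀ ω, B ω → ∀ V : Option (Fin m) → ℝ, |cv (γ (ptr F J ω) i - ψ (ptr F J ω) i) V| ≤
        2 ^ k / 2 ^ g i * en c g a₀ (ψ (ptr F J ω)) i V) →
      (∀ ω, B ω → |bd F ω (some (c i)) - cv (γ (ptr F J ω) i) (bd F ω)| ≤
        ε * (2 ^ a₀ / 2 ^ g i)) →
      ∀ (q : F.Ω → ℝ) (M : ℝ), IsLaw q → 0 ≤ M → (∀ ω, 0 < q ω → B ω) →
      (∀ ω, q ω * Pe F.p A ≤ M * F.p ω) →
      Pe (P2 q (slam F a₀)) (fun x => ∀ V : Option (Fin m) → ℝ,
        |cv (γ (ptr F J x.2) i - γ (ptr F J x.1) i) V| ≤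
          ε / 2 ^ g i * en c g a₀ (ψ (ptr F J x.1)) i V) ≤ M * Real.exp (-(δ * J))) := by
  classical
  obtain ⟨δ, hδ, τ, hτ, J₁, hv⟩ := lab_cls hP c i hc a e h ha0 ha he hh h1
  refine ⟨δ, hδ, τ, hτ, J₁, ?_⟩
  intro J hJ F A hA n a₀ e₀ k s V p g ψ γ ψH ε hin haJ haa hee hV hJg hgk hpg hpJ hbet hε hn B hBA
    hfr hγ hnear hvel q M hq hM hqB hqM
  have hc' : Set.InjOn c (Set.Iio i) := hc.mono (Set.Iio_subset_Iio (Nat.le_succ i))
  have h2 := hv J hJ F A hA n a₀ e₀ (k + i + 1) k s V p g ψ ψH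
    (fun y j => 2 ^ g i * nc c g a₀ (ψ y) i (γ y i - ψ y i) j) (fun _ _ _ => 0) hin haJ haa hee hV
    hJg hgk hpg hpJ hbet B hBA hfr (fun ω hω j _ => mu_le hc' hfr (hnear ω hω) j)
    (fun _ _ _ _ _ _ => by rw [abs_zero]; positivity) q M hq hM hqB hqM
  refine le_trans ?_ h2
  have hP2 := Pool.KM7.P2_isLaw hq (slam F a₀)
  rw [Pool.JVE.pe_sum, Pool.JVE.pe_sum]
  refine Finset.sum_le_sum fun x _ => ?_
  rcases (hP2.nonneg x).eq_or_lt with h0 | h0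
  · rw [← h0]
    simp
  · obtain ⟨x1, x2, x3⟩ := (Pool.KM7.P2_pos hq x).mp h0
    by_cases h4 : ∀ V : Option (Fin m) → ℝ,
        |cv (γ (ptr F J x.2) i - γ (ptr F J x.1) i) V| ≤
          ε / 2 ^ g i * en c g a₀ (ψ (ptr F J x.1)) i V
    · rw [if_pos h4, if_pos]
      exact cl_two hc' hin haJ hfr hγ hε hn (hqB _ x1) (hqB _ x2) x3 (hvel _ (hqB _ x2)) h4
    · rw [if_neg h4]
      split_ifs
      exacts [h0.le, le_rfl]

/-- **Events on which the visible covector is the same** for any two samples of one line and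
window are small. -/
theorem vis_all {θ : ℝ} {S : PCl m} {P : List (Fin m) × Fin m → ℝ → ℝ → ℝ}
    (hP : ThrOf (chsys m θ) S P) (c : ℕ → Fin m) (i : ℕ) (hc : Set.InjOn c (Set.Iio (i + 1)))
    (a : ℚ) (e h : ℝ) (ha0 : 0 ≤ a) (ha : a ≤ 1) (he : e < θ * a) (hh : 0 < h)
    (h1 : bet P c i a a + h ≤ 1) :
    ∃ δ : ℝ, 0 < δ ∧ Bas S (fun J F A => ∀ (n a₀ e₀ k s V p : ℕ) (g : ℕ → ℕ)
      (ψ γ : PtT F → ℕ → Option (Fin m) → ℝ) (ψH : LnT F → ℕ → Option (Fin m) → ℝ) (ε : ℝ),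
      i < n → a₀ ≤ J → a₀ ≤ ⌊(a : ℝ) * J⌋₊ →
      e₀ + (k + i + 1) + 2 * k + s + 2 * (i + 1) + 4 ≤ ⌊e * J⌋₊ →
      s + (k + i + 1) + k + 3 * (i + 1) + 6 ≤ V → (∀ j ≤ i, e₀ + g j + V ≤ J) →
      (∀ l < i, k + 1 ≤ g l) → p ≤ g i + s → p ≤ J →
      ⌊(bet P c i a a + h) * J⌋₊ + a₀ ≤ p + ⌊(a : ℝ) * J⌋₊ → 0 ≤ ε →
      ε * 2 ^ (3 * (i + 1) + 2 * k + 6 + s) ≤ 1 → ∀ B : F.Ω → Prop, Sub B A →
      FrOK F c n a₀ k e₀ g B ψ ψH → (∀ y l, CvC c l (γ y l)) →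
      (∀ ω, B ω → ∀ V : Option (Fin m) → ℝ, |cv (γ (ptr F J ω) i - ψ (ptr F J ω) i) V| ≤
        2 ^ k / 2 ^ g i * en c g a₀ (ψ (ptr F J ω)) i V) →
      (∀ ω, B ω → |bd F ω (some (c i)) - cv (γ (ptr F J ω) i) (bd F ω)| ≤
        ε * (2 ^ a₀ / 2 ^ g i)) →
      (∀ ω ω', B ω → B ω' → slam F a₀ ω = slam F a₀ ω' → ∀ V : Option (Fin m) → ℝ,
        |cv (γ (ptr F J ω') i - γ (ptr F J ω) i) V| ≤
          ε / 2 ^ g i * en c g a₀ (ψ (ptr F J ω)) i V) →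
      Pe F.p B ≤ Real.exp (-(δ * J)) * Pe F.p A) := by
  classical
  obtain ⟨δ, hδ, τ, hτ, J₁, hv⟩ := vis_two hP c i hc a e h ha0 ha he hh h1
  refine ⟨δ, hδ, τ, hτ, J₁, ?_⟩
  intro J hJ F A hA n a₀ e₀ k s V p g ψ γ ψH ε hin haJ haa hee hV hJg hgk hpg hpJ hbet hε hn B hBA
    hfr hγ hnear hvel hsame
  have hp := Pe_nonneg F.isLaw
  rcases (hp B).eq_or_lt with hB0 | hB
  · rw [← hB0]
    exact mul_nonneg (Real.exp_pos _).le (hp A)
  have hl : law F.p B True = Pe F.p B := by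
    unfold law
    rw [Pe_eq]
    refine Finset.sum_congr rfl fun ω _ => ?_
    by_cases h3 : B ω
    · rw [if_pos h3, if_pos (eq_true h3)]
    · rw [if_neg h3, if_neg (fun h4 => h3 (of_eq_true h4))]
  have hq : IsLaw (Pool.Agent.H49.Ent.cond F.p B True) :=
    Pool.KM7.cond_isLaw F.isLaw.nonneg B (by rw [hl]; exact hB.ne')
  have hqe : ∀ ω, Pool.Agent.H49.Ent.cond F.p B True ω =
      if B ω then F.p ω / Pe F.p B else 0 := by
    intro ω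
    unfold Pool.Agent.H49.Ent.cond
    rw [hl]
    by_cases h3 : B ω
    · rw [if_pos h3, if_pos (eq_true h3)]
    · rw [if_neg h3, if_neg (fun h4 => h3 (of_eq_true h4))]
  have h2 := hv J hJ F A hA n a₀ e₀ k s V p g ψ γ ψH ε hin haJ haa hee hV hJg hgk hpg hpJ hbet hε
    hn B hBA hfr hγ hnear hvel (Pool.Agent.H49.Ent.cond F.p B True) (Pe F.p A / Pe F.p B) hq
    (div_nonneg (hp A) hB.le) (fun ω hω => by
      by_contra h3
      rw [hqe, if_neg h3] at hω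
      exact lt_irrefl _ hω) (fun ω => by
      rw [hqe]
      split_ifs
      · exact le_of_eq (by ring)
      · rw [zero_mul]
        exact mul_nonneg (div_nonneg (hp A) hB.le) (F.isLaw.nonneg ω))
  have h3 : Pe (P2 (Pool.Agent.H49.Ent.cond F.p B True) (slam F a₀)) (fun x =>
      ∀ V : Option (Fin m) → ℝ, |cv (γ (ptr F J x.2) i - γ (ptr F J x.1) i) V| ≤
          ε / 2 ^ g i * en c g a₀ (ψ (ptr F J x.1)) i V) = 1 := by
    have hP2 := Pool.KM7.P2_isLaw hq (slam F a₀)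
    rw [← hP2.sum_one, Pool.JVE.pe_sum]
    refine Finset.sum_congr rfl fun x _ => ?_
    rcases (hP2.nonneg x).eq_or_lt with h0 | h0
    · rw [← h0]
      simp
    · obtain ⟨x1, x2, x3⟩ := (Pool.KM7.P2_pos hq x).mp h0
      have y1 : B x.1 := by
        by_contra h3
        rw [hqe, if_neg h3] at x1
        exact lt_irrefl _ x1
      have y2 : B x.2 := by
        by_contra h3
        rw [hqe, if_neg h3] at x2
        exact lt_irrefl _ x2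
      rw [if_pos (hsame _ _ y1 y2 x3)]
  rw [h3, div_mul_eq_mul_div, le_div_iff₀ hB, one_mul] at h2
  linarith

end Pool.D2Z
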