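import Pool.Agent.H60.D2.Flt
import Pool.Agent.H28.D2.Inst
import Pool.Agent.H40.FR.Grid

/-!
# D2: the gradient of a row label along the window

`opl_gpo`: the gradient of a label in the direction of a frame vector, along the own line, in the
parameter of the window. `gp_nat`: if the curvature of the row label is natural at the own samples (up
to a factor), then all coefficients of positive degree are natural (up to the same factor).
-/

set_option autoImplicit false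

namespace Pool.D2Z

open Finset Real MvPolynomial
open Pool.Agent.H49.Ent Pool.Agent.H32.Dense Pool.STK Pool.KA Pool.KSAT Pool.K2S Pool.PB Pool.S6C
open Pool.GEN Pool.CHT Pool.CHX Pool.D2F Pool.D2R
open Pool.FLF (Fam.sub)
open Pool.PB.Trl (rt rt_mem t_rt)
open Pool.OWN68 (opl mid dirv)
open Pool.D2F2 (fv gpo fv_none eval_gpo)

variable {m J : ℕ}

theorem mid_xt (F : Fam m J) (a : ℕ) (s : LnT F) (u : ℝ) :
    (fun o => mid F a s o + u / 2 ^ (a + 1) * dirv F s o) = xt a s ((1 + u) / 2) := by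
  have ha : (2 : ℝ) ^ a ≠ 0 := by positivity
  funext o
  cases o with
  | none =>
    simp only [mid, dirv, xt, lc, Polynomial.eval_mul, Polynomial.eval_add, Polynomial.eval_C,
      Polynomial.eval_X, pow_succ]
    field_simp
    ring
  | some j =>
    simp only [mid, dirv, xt, lc, Polynomial.eval_mul, Polynomial.eval_add, Polynomial.eval_C,
      Polynomial.eval_X, pow_succ]
    field_simp
    ring

/-- **The gradient along the own line**, in the parameter of the window. -/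
theorem opl_gpo (F : Fam m J) (c : ℕ → Fin m) (g : ℕ → ℕ) (a r : ℕ)
    (ψ : ℕ → Option (Fin m) → ℝ) (R : MvPolynomial (Option (Fin m)) ℝ) (l : ℕ) (s : LnT F) :
    opl F a (gpo c g a r ψ R l) s = (vq a s R (fv c g a r ψ l)).comp
      (Polynomial.C (1 / 2) * (1 + Polynomial.X)) := by
  refine Polynomial.funext fun u => ?_
  unfold opl
  rw [Polynomial.eval_comp, Polynomial.eval_mul, Polynomial.eval_C, Polynomial.eval_X,
    Pool.LA91.eval_alp, eval_gpo, Polynomial.eval_comp, eval_vq]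
  have e1 : (fun o => mid F a s o + 1 / 2 ^ (a + 1) * u * dirv F s o) =
      xt a s ((1 + u) / 2) := by
    rw [← mid_xt]
    funext o
    ring
  have e2 : Polynomial.eval u (Polynomial.C (1 / 2 : ℝ) * (1 + Polynomial.X)) = (1 + u) / 2 := by
    simp
    ring
  rw [e2, ← e1]

/-- **The gradients of the row label along the window.** -/
theorem gp_nat (m D r : ℕ) : ∃ C : ℝ, 1 ≤ C ∧ ∀ {J : ℕ} {F : Fam m J} {c : ℕ → Fin m}
    {n a k e : ℕ} {g : ℕ → ℕ} {B : F.Ω → Prop} {ψ : PtT F → ℕ → Option (Fin m) → ℝ}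
    {ψH : LnT F → ℕ → Option (Fin m) → ℝ} {H : LnT F → MvPolynomial (Option (Fin m)) ℝ}
    {Q θ : ℝ} (hB : 0 < Pe F.p B), Set.InjOn c (Set.Iio r) → r ≤ n → a ≤ J →
    (∀ s, (H s).totalDegree ≤ D) → FrOK F c n a k e g B ψ ψH → 0 < Q →
    (∀ ω, B ω → ∀ V : Option (Fin m) → ℝ, V none = 0 →
      |hs (H (slam F a ω)) (bt F ω) (bd F ω) V| ≤
        Q * 2 ^ a * en c g a (ψ (ptr F J ω)) r V) →
    0 ≤ θ → (Fam.sub F B hB).Tm θ → C * (θ + 1) ≤ ((J : ℝ) - a) * Real.log 2 →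
    ∃ B' : F.Ω → Prop, Sub B' B ∧ Pe F.p B / 2 ≤ Pe F.p B' ∧ ∀ ω, B' ω → ∀ l < r,
      (∀ τ ∈ Set.Icc (0 : ℝ) 1,
        |hs (H (slam F a ω)) (xt a (slam F a ω) τ) (bd F ω) (fv c g a r (ψH (slam F a ω)) l)| ≤
          Real.exp (C * (θ + 1)) * (C * Q * 2 ^ a * 2 ^ g l)) ∧
      ∀ j, |(opl F a (gpo c g a r (ψH (slam F a ω)) (H (slam F a ω)) l)
        (slam F a ω)).coeff (j + 1)| ≤ Real.exp (C * (θ + 1)) * (C * Q * 2 ^ g l) := by
  classical
  obtain ⟨C₁, hC₁, hrem⟩ := rem_fam m D r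
  obtain ⟨C₃, hC₃, hcf⟩ := Pool.Agent.H40.FR.unit_coef D
  obtain ⟨C, hC⟩ : ∃ C : ℝ, C = C₁ + C₃ * (r + 1) := ⟨_, rfl⟩
  have hr0 : (0 : ℝ) ≤ r := Nat.cast_nonneg r
  have hC31 : (r : ℝ) + 1 ≤ C₃ * (r + 1) := le_mul_of_one_le_left (by positivity) hC₃
  have hCC₁ : C₁ ≤ C := by rw [hC]; linarith
  refine ⟨C, by linarith, ?_⟩
  intro J F c n a k e g B ψ ψH H Q θ hB hc hrn haJ hdeg hfr hQ hcur hθ hTm hCJ
  have ha0 : (0 : ℝ) < 2 ^ a := by positivity
  have hθ1 : 0 ≤ θ + 1 := by linarith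
  obtain ⟨q, hq⟩ : ∃ q : ℕ → LnT F → Polynomial ℝ, q = fun l s =>
      Polynomial.derivative (vq a s (H s) (fv c g a r (ψH s) l)) := ⟨_, rfl⟩
  have hfe : ∀ s, ∀ l < r, en c g a (ψH s) r (fv c g a r (ψH s) l) ≤ 2 ^ g l * (r + 1) := by
    intro s l hl
    have e1 : fv c g a r (ψH s) l = (2 ^ g l : ℝ) •
        dvn c g a (ψH s) (fun x => if x = l + 1 then 1 else 0) r := by
      funext o
      rfl
    rw [e1, en_smul, abs_of_pos (by positivity : (0 : ℝ) < 2 ^ g l)]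
    refine mul_le_mul_of_nonneg_left (en_one fun x hx => ?_) (by positivity)
    rw [eta_dvn hc g a (hfr.depH s) _ hx]
    split_ifs <;> simp
  obtain ⟨B', b1, b2, b3⟩ := hrem J F B hB a q (fun l => Q * (2 ^ g l * (r + 1))) θ haJ
    (fun l _ s => by
      rw [hq]
      exact (Polynomial.natDegree_derivative_le _).trans ((Nat.sub_le _ _).trans
        (deg_vq s (hdeg s) _))) (fun _ _ => by positivity) hθ hTm
    ((mul_le_mul_of_nonneg_right hCC₁ hθ1).trans hCJ) (fun ω hω l hl => by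
      rw [hq]
      show |(Polynomial.derivative (vq a (slam F a ω) (H (slam F a ω))
        (fv c g a r (ψH (slam F a ω)) l))).eval (rt F a ω)| ≤ Q * (2 ^ g l * (r + 1))
      rw [der_vq, xt_slam F haJ, wd_slam, abs_mul, abs_of_pos (by positivity : (0 : ℝ) < 1 / 2 ^ a)]
      have h1 := hcur ω hω (fv c g a r (ψH (slam F a ω)) l) (fv_none _ _ _ _ _ _)
      rw [hfr.cls ω hω] at h1
      have h2 := hfe (slam F a ω) l hl
      calc 1 / 2 ^ a * |hs (H (slam F a ω)) (bt F ω) (bd F ω) (fv c g a r (ψH (slam F a ω)) l)| ≤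
            1 / 2 ^ a * (Q * 2 ^ a * (2 ^ g l * (r + 1))) :=
            mul_le_mul_of_nonneg_left (h1.trans (mul_le_mul_of_nonneg_left h2 (by positivity)))
              (by positivity)
        _ = Q * (2 ^ g l * (r + 1)) := by field_simp)
  refine ⟨B', b1, b2, fun ω hω l hl => ?_⟩
  obtain ⟨E, hE⟩ : ∃ E : ℝ, E = Real.exp (C * (θ + 1)) := ⟨_, rfl⟩
  have hE1 : Real.exp (C₁ * (θ + 1)) ≤ E := by
    rw [hE]
    exact Real.exp_le_exp.2 (mul_le_mul_of_nonneg_right hCC₁ hθ1)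
  have hE0 : 0 < E := by rw [hE]; positivity
  rw [← hE]
  obtain ⟨s, hs'⟩ : ∃ s, s = slam F a ω := ⟨_, rfl⟩
  have hb : ∀ τ ∈ Set.Icc (0 : ℝ) 1, |(q l s).eval τ| ≤ E * (Q * (2 ^ g l * (r + 1))) := by
    intro τ hτ
    rw [hs']
    exact (b3 ω hω l hl τ hτ).trans (mul_le_mul_of_nonneg_right hE1 (by positivity))
  rw [← hs']
  have hwd : bd F ω = wd s := by rw [hs', wd_slam]
  refine ⟨fun τ hτ => ?_, fun j => ?_⟩
  · have h1 := hb τ hτ
    rw [hq] at h1
    change |(Polynomial.derivative (vq a s (H s) (fv c g a r (ψH s) l))).eval τ| ≤ _ at h1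
    rw [der_vq, abs_mul, abs_of_pos (by positivity : (0 : ℝ) < 1 / 2 ^ a), one_div,
      inv_mul_le_iff₀ ha0] at h1
    rw [hwd]
    refine h1.trans ?_
    have e1 : 2 ^ a * (E * (Q * (2 ^ g l * (r + 1)))) = E * ((r + 1) * Q * 2 ^ a * 2 ^ g l) := by
      ring
    rw [e1]
    refine mul_le_mul_of_nonneg_left ?_ hE0.le
    have h2 : (r : ℝ) + 1 ≤ C := by rw [hC]; linarith
    gcongr
  · obtain ⟨P, hP⟩ : ∃ P, P = opl F a (gpo c g a r (ψH s) (H s) l) s := ⟨_, rfl⟩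
    have hP' : P = (vq a s (H s) (fv c g a r (ψH s) l)).comp
        (Polynomial.C (1 / 2) * (1 + Polynomial.X)) := by rw [hP, opl_gpo]
    have hder : ∀ u : ℝ, (Polynomial.derivative P).eval u =
        1 / 2 * (q l s).eval ((1 + u) / 2) := by
      intro u
      rw [hP', hq, Polynomial.derivative_comp, Polynomial.eval_mul, Polynomial.eval_comp]
      have e1 : Polynomial.eval u (Polynomial.C (1 / 2 : ℝ) * (1 + Polynomial.X)) =
          (1 + u) / 2 := by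
        simp
        ring
      have e2 : Polynomial.eval u (Polynomial.derivative
          (Polynomial.C (1 / 2 : ℝ) * (1 + Polynomial.X))) = 1 / 2 := by
        simp
      rw [e1, e2]
    have hdegP : (Polynomial.derivative P).natDegree ≤ D := by
      refine (Polynomial.natDegree_derivative_le _).trans ((Nat.sub_le _ _).trans ?_)
      rw [hP', Polynomial.natDegree_comp]
      have e1 : (Polynomial.C (1 / 2 : ℝ) * (1 + Polynomial.X)).natDegree ≤ 1 := by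
        compute_degree
      calc _ ≤ D * 1 := Nat.mul_le_mul (deg_vq s (hdeg s) _) e1
        _ = D := mul_one D
    have h1 := hcf (Polynomial.derivative P) (E * (Q * (2 ^ g l * (r + 1)))) hdegP
      (fun u hu => by
        rw [hder u, abs_mul, abs_of_pos (by norm_num : (0 : ℝ) < 1 / 2)]
        have h2 := hb ((1 + u) / 2) ⟨by linarith [hu.1], by linarith [hu.2]⟩
        linarith [abs_nonneg ((q l s).eval ((1 + u) / 2))]) j
    rw [Polynomial.coeff_derivative, abs_mul] at h1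
    rw [← hP]
    have h2 : |P.coeff (j + 1)| ≤ |P.coeff (j + 1)| * |(j : ℝ) + 1| := by
      refine le_mul_of_one_le_right (abs_nonneg _) ?_
      rw [abs_of_nonneg (by positivity)]
      linarith [(Nat.cast_nonneg j : (0 : ℝ) ≤ j)]
    refine (h2.trans h1).trans ?_
    have e1 : C₃ * (E * (Q * (2 ^ g l * (r + 1)))) = E * (C₃ * (r + 1) * Q * 2 ^ g l) := by
      ring
    rw [e1]
    refine mul_le_mul_of_nonneg_left ?_ hE0.le
    have h3 : C₃ * ((r : ℝ) + 1) ≤ C := by rw [hC]; linarith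
    gcongr

/-- **The gradients of the row label along the window**, class form. -/
theorem gp_cls (m D r : ℕ) {S : PCl m} (hT : TmH S) (c : ℕ → Fin m) (hc : Set.InjOn c (Set.Iio r))
    (a : ℚ) (ε κ : ℝ) (ha0 : 0 ≤ a) (ha : a < 1) (hε : 0 < ε) (hκ : 0 < κ) :
    Bas S (fun J F A => ∀ (n a₀ k e k' : ℕ) (g : ℕ → ℕ) (B : F.Ω → Prop)
      (ψ : PtT F → ℕ → Option (Fin m) → ℝ) (ψH : LnT F → ℕ → Option (Fin m) → ℝ)
      (H : LnT F → MvPolynomial (Option (Fin m)) ℝ) (Q : ℝ), r ≤ n → a₀ ≤ J →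
      a₀ ≤ ⌊(a : ℝ) * J⌋₊ → ε * J ≤ k' → (∀ s, (H s).totalDegree ≤ D) → Sub B A →
      κ * Pe F.p A ≤ Pe F.p B → FrOK F c n a₀ k e g B ψ ψH → 0 < Q →
      (∀ ω, B ω → ∀ V : Option (Fin m) → ℝ, V none = 0 →
        |hs (H (slam F a₀ ω)) (bt F ω) (bd F ω) V| ≤
          Q * 2 ^ a₀ * en c g a₀ (ψ (ptr F J ω)) r V) →
      ∃ B' : F.Ω → Prop, Sub B' B ∧ Pe F.p B / 2 ≤ Pe F.p B' ∧ ∀ ω, B' ω → ∀ l < r,
        (∀ τ ∈ Set.Icc (0 : ℝ) 1,
          |hs (H (slam F a₀ ω)) (xt a₀ (slam F a₀ ω) τ) (bd F ω)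
            (fv c g a₀ r (ψH (slam F a₀ ω)) l)| ≤ 2 ^ k' * (Q * 2 ^ a₀ * 2 ^ g l)) ∧
        ∀ j, |(opl F a₀ (gpo c g a₀ r (ψH (slam F a₀ ω)) (H (slam F a₀ ω)) l)
          (slam F a₀ ω)).coeff (j + 1)| ≤ 2 ^ k' * (Q * 2 ^ g l)) := by
  classical
  obtain ⟨C, hC, hgn⟩ := gp_nat m D r
  have hL2 : 0 < Real.log 2 := Real.log_pos (by norm_num)
  have haR : (a : ℝ) < 1 := by exact_mod_cast ha
  have ha0R : (0 : ℝ) ≤ a := by exact_mod_cast ha0
  obtain ⟨μ, hμ⟩ : ∃ μ : ℝ, μ = min ε (1 - a) * Real.log 2 / 4 := ⟨_, rfl⟩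
  have hμ0 : 0 < μ := by
    rw [hμ]
    have : 0 < min ε (1 - (a : ℝ)) := lt_min hε (by linarith)
    positivity
  have hC0 : 0 < C := by linarith
  obtain ⟨ε₁, hε₁⟩ : ∃ ε₁ : ℝ, ε₁ = μ / C := ⟨_, rfl⟩
  have hε₁0 : 0 < ε₁ := by rw [hε₁]; positivity
  have htm := bas_ev (hT.2 ε₁ hε₁0) hκ
  have hpos : Bas S (fun _ F A => 0 < Pe F.p A) := ⟨1, one_pos, 0, fun J _ F A hA =>
    hT.1 1 J F A hA⟩
  obtain ⟨J₁, hJ₁⟩ := exists_nat_ge (C / μ)
  refine Bas.mono J₁ (htm.and hpos) ?_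
  rintro J hJ F A ⟨htA, hA0⟩
  intro n a₀ k e k' g B ψ ψH H Q hrn haJ haa hk hdeg hBA hcon hfr hQ hcur
  have hp := Pe_nonneg F.isLaw
  have hB0 : 0 < Pe F.p B := (mul_pos hκ hA0).trans_le hcon
  have hJ0 : (0 : ℝ) ≤ J := Nat.cast_nonneg J
  have hJ1 : C ≤ μ * J := by
    have h2 : (J₁ : ℝ) ≤ J := by exact_mod_cast hJ
    have h3 := hJ₁.trans h2
    rw [div_le_iff₀ hμ0] at h3
    linarith
  have hθ0 : 0 ≤ ε₁ * J := by positivity
  have hmain : 2 * (C * (ε₁ * J + 1)) ≤ min ε (1 - (a : ℝ)) * Real.log 2 * J := by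
    have e1 : C * (ε₁ * J) = μ * J := by rw [hε₁]; field_simp
    have e2 : 4 * (μ * J) = min ε (1 - (a : ℝ)) * Real.log 2 * J := by rw [hμ]; ring
    rw [mul_add, mul_one, e1]
    linarith
  have hm1 : 2 * (C * (ε₁ * J + 1)) ≤ k' * Real.log 2 := by
    refine hmain.trans ?_
    have e1 : min ε (1 - (a : ℝ)) * Real.log 2 * J ≤ ε * Real.log 2 * J :=
      mul_le_mul_of_nonneg_right (mul_le_mul_of_nonneg_right (min_le_left _ _) hL2.le) hJ0
    have e2 := mul_le_mul_of_nonneg_right hk hL2.le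
    linarith
  have hm2 : C * (ε₁ * J + 1) ≤ ((J : ℝ) - a₀) * Real.log 2 := by
    have h0 : 0 ≤ C * (ε₁ * J + 1) := by positivity
    refine (by linarith : C * (ε₁ * J + 1) ≤ 2 * (C * (ε₁ * J + 1))).trans (hmain.trans ?_)
    have e1 : min ε (1 - (a : ℝ)) * Real.log 2 * J ≤ (1 - a) * Real.log 2 * J :=
      mul_le_mul_of_nonneg_right (mul_le_mul_of_nonneg_right (min_le_right _ _) hL2.le) hJ0
    have e2 : (a₀ : ℝ) ≤ a * J := by
      have h2 : (a₀ : ℝ) ≤ ⌊(a : ℝ) * J⌋₊ := by exact_mod_cast haa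
      exact h2.trans (Nat.floor_le (mul_nonneg ha0R hJ0))
    have e3 := mul_le_mul_of_nonneg_right e2 hL2.le
    linarith
  have hexp : Real.exp (C * (ε₁ * J + 1)) * C ≤ 2 ^ k' := by
    have h1 : C ≤ Real.exp (C * (ε₁ * J + 1)) := by
      have h2 := Real.add_one_le_exp (C * (ε₁ * J + 1))
      have h3 : C * 1 ≤ C * (ε₁ * J + 1) := mul_le_mul_of_nonneg_left (by linarith) hC0.le
      linarith
    calc Real.exp (C * (ε₁ * J + 1)) * C ≤
          Real.exp (C * (ε₁ * J + 1)) * Real.exp (C * (ε₁ * J + 1)) :=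
          mul_le_mul_of_nonneg_left h1 (by positivity)
      _ = Real.exp (2 * (C * (ε₁ * J + 1))) := by rw [← Real.exp_add]; ring_nf
      _ ≤ Real.exp (k' * Real.log 2) := Real.exp_le_exp.2 hm1
      _ = 2 ^ k' := by
        rw [mul_comm (k' : ℝ), ← Real.rpow_def_of_pos (by norm_num), Real.rpow_natCast]
  obtain ⟨B', b1, b2, b3⟩ := hgn (F := F) (c := c) (n := n) (a := a₀) (k := k) (e := e) (g := g)
    (B := B) (ψ := ψ) (ψH := ψH) (H := H) (Q := Q) (θ := ε₁ * J) hB0 hc hrn haJ hdeg hfr hQ hcur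
    hθ0 (htA B hBA hcon hB0) hm2
  refine ⟨B', b1, b2, fun ω hω l hl => ⟨fun τ hτ => ((b3 ω hω l hl).1 τ hτ).trans ?_,
    fun j => ((b3 ω hω l hl).2 j).trans ?_⟩⟩
  · calc Real.exp (C * (ε₁ * J + 1)) * (C * Q * 2 ^ a₀ * 2 ^ g l) =
          Real.exp (C * (ε₁ * J + 1)) * C * (Q * 2 ^ a₀ * 2 ^ g l) := by ring
      _ ≤ _ := mul_le_mul_of_nonneg_right hexp (by positivity)
  · calc Real.exp (C * (ε₁ * J + 1)) * (C * Q * 2 ^ g l) =
          Real.exp (C * (ε₁ * J + 1)) * C * (Q * 2 ^ g l) := by ring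
      _ ≤ _ := mul_le_mul_of_nonneg_right hexp (by positivity)

end Pool.D2Z
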