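import Pool.Agent.H60.D2.Vt
import Pool.Agent.H60.D2.Crw
import Pool.Agent.H60.D2.Tri

/-!
# D2: the flat end

`flat_fam`: if the row label has no curvature in the spatial directions at the own samples, then the
visible covector is the same at the samples of one line and window. `flat_cls`: such events are small
in a class.
-/

set_option autoImplicit false

namespace Pool.D2Z

open Finset Real MvPolynomial
open Pool.Agent.H49.Ent Pool.Agent.H32.Dense Pool.STK Pool.KA Pool.KSAT Pool.K2S Pool.PB Pool.S6C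
open Pool.GEN Pool.CHT Pool.CHX Pool.D2F Pool.D2R
open Pool.FLF (Fam.sub)
open Pool.LBT (ThrOf)
open Pool.PB.Trl (rt rt_mem t_rt)

variable {m J : ℕ}

theorem deg_vq {ζ : Type} {a D : ℕ} (s : ((Fin m → ℝ) × (Fin m → ℝ)) × ζ × ℕ)
    {R : MvPolynomial (Option (Fin m)) ℝ} (hR : R.totalDegree ≤ D) (V : Option (Fin m) → ℝ) :
    (vq a s R V).natDegree ≤ D := by
  unfold vq
  refine Polynomial.natDegree_sum_le_of_forall_le _ _ fun o _ => ?_
  refine Polynomial.natDegree_mul_le.trans ?_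
  rw [Polynomial.natDegree_C, add_zero]
  exact Pool.KBX.natDegree_aeval_le _ _ (natDegree_lc a s) (totalDegree_pdσ hR o)

theorem frok_sub' {F : Fam m J} {c : ℕ → Fin m} {n a k e : ℕ} {g : ℕ → ℕ} {A A' : F.Ω → Prop}
    {ψ : PtT F → ℕ → Option (Fin m) → ℝ} {ψH : LnT F → ℕ → Option (Fin m) → ℝ}
    (h : FrOK F c n a k e g A ψ ψH) (hA : Sub A' A) : FrOK F c n a k e g A' ψ ψH :=
  ⟨fun ω hω => h.cls ω (hA ω hω), h.dep, h.depH, fun ω hω => h.nat ω (hA ω hω),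
    fun ω hω => h.lip ω (hA ω hω)⟩

/-- **No spatial curvature at the own samples**: the visible covector is the same. -/
theorem flat_fam (m D i : ℕ) : ∃ C : ℝ, 1 ≤ C ∧ ∀ {J : ℕ} {F : Fam m J} {c : ℕ → Fin m}
    {n a k e : ℕ} {g : ℕ → ℕ} {B : F.Ω → Prop} {ψ γ : PtT F → ℕ → Option (Fin m) → ℝ}
    {ψH : LnT F → ℕ → Option (Fin m) → ℝ} {Ht : LnT F → MvPolynomial (Option (Fin m)) ℝ}
    {et θ : ℝ} (hB : 0 < Pe F.p B), Set.InjOn c (Set.Iio i) → i ≤ n → a ≤ J →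
    (∀ s, (Ht s).totalDegree ≤ D) → (∀ s, DepC c i (Ht s)) → FrOK F c n a k e g B ψ ψH →
    0 < et → (∀ ω, B ω → |bd F ω (some (c i)) - cv (γ (ptr F J ω) i) (bd F ω)| ≤
      et * (2 ^ a / 2 ^ g i)) →
    (∀ ω, B ω → ∀ V : Option (Fin m) → ℝ, V none = 0 → |dd (Ht (slam F a ω)) (bt F ω) V -
      cv (γ (ptr F J ω) i) V| ≤ et / 2 ^ g i * en c g a (ψ (ptr F J ω)) i V) →
    (∀ ω, B ω → ∀ V : Option (Fin m) → ℝ, V none = 0 →
      |hs (Ht (slam F a ω)) (bt F ω) (bd F ω) V| ≤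
        et * (2 ^ a / 2 ^ g i) * en c g a (ψ (ptr F J ω)) i V) →
    0 ≤ θ → (Fam.sub F B hB).Tm θ → C * (θ + 1) ≤ ((J : ℝ) - a) * Real.log 2 →
    ∃ B' : F.Ω → Prop, Sub B' B ∧ Pe F.p B / 2 ≤ Pe F.p B' ∧
      ∀ ω ω', B' ω → B' ω' → slam F a ω = slam F a ω' → ∀ V : Option (Fin m) → ℝ,
        |cv (γ (ptr F J ω') i - γ (ptr F J ω) i) V| ≤
          et * (Real.exp (C * (θ + 1)) * 2 ^ (2 * i + k + 4)) / 2 ^ g i *
            en c g a (ψ (ptr F J ω)) i V := by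
  classical
  obtain ⟨C, hC, hrem⟩ := rem_fam m D i
  refine ⟨C, hC, ?_⟩
  intro J F c n a k e g B ψ γ ψH Ht et θ hB hc hin haJ hdeg hdep hfr het hvel hrow hflat hθ hTm hCJ
  have ha0 : (0 : ℝ) < 2 ^ a := by positivity
  have hg0 : (0 : ℝ) < 2 ^ g i := by positivity
  obtain ⟨d, hd⟩ : ∃ d : LnT F → ℕ → Option (Fin m) → ℝ, d = fun s j =>
      dvn c g a (ψH s) (fun x => if x = j + 1 then 1 else 0) i := ⟨_, rfl⟩
  have hd0 : ∀ s j, d s j none = 0 := by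
    intro s j
    rw [hd]
    show dvn c g a (ψH s) (fun x => if x = j + 1 then 1 else 0) i none = 0
    rw [dvn_none, if_neg (by omega), zero_div]
  have hde : ∀ s, ∀ j < i, en c g a (ψH s) i (d s j) ≤ i + 1 := by
    intro s j hj
    refine en_one fun x hx => ?_
    rw [hd]
    show |eta c g a (ψH s) (dvn c g a (ψH s) (fun x => if x = j + 1 then 1 else 0) i) x| ≤ 1
    rw [eta_dvn hc g a (hfr.depH s) _ hx]
    split_ifs <;> simp
  obtain ⟨q, hq⟩ : ∃ q : ℕ → LnT F → Polynomial ℝ, q = fun j s =>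
      Polynomial.derivative (vq a s (Ht s) (d s j)) := ⟨_, rfl⟩
  obtain ⟨M, hM⟩ : ∃ M : ℝ, M = et * (i + 1) / 2 ^ g i := ⟨_, rfl⟩
  have hM0 : 0 < M := by rw [hM]; positivity
  obtain ⟨B', b1, b2, b3⟩ := hrem J F B hB a q (fun _ => M) θ haJ (fun j _ s => by
      rw [hq]
      exact (Polynomial.natDegree_derivative_le _).trans ((Nat.sub_le _ _).trans
        (deg_vq s (hdeg s) _))) (fun _ _ => hM0) hθ hTm hCJ (fun ω hω j hj => by
      rw [hq]
      show |(Polynomial.derivative (vq a (slam F a ω) (Ht (slam F a ω))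
        (d (slam F a ω) j))).eval (rt F a ω)| ≤ M
      rw [der_vq, xt_slam F haJ, wd_slam, abs_mul, abs_of_pos (by positivity : (0 : ℝ) < 1 / 2 ^ a)]
      have h1 := hflat ω hω (d (slam F a ω) j) (hd0 _ _)
      rw [hfr.cls ω hω] at h1
      have h2 := hde (slam F a ω) j hj
      calc 1 / 2 ^ a * |hs (Ht (slam F a ω)) (bt F ω) (bd F ω) (d (slam F a ω) j)| ≤
            1 / 2 ^ a * (et * (2 ^ a / 2 ^ g i) * (i + 1)) :=
            mul_le_mul_of_nonneg_left (h1.trans (mul_le_mul_of_nonneg_left h2 (by positivity)))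
              (by positivity)
        _ = M := by rw [hM]; field_simp)
  refine ⟨B', b1, b2, ?_⟩
  intro ω ω' hω hω' hsl
  obtain ⟨E, hE⟩ : ∃ E : ℝ, E = Real.exp (C * (θ + 1)) := ⟨_, rfl⟩
  have hE1 : 1 ≤ E := by
    rw [hE]
    exact Real.one_le_exp (by positivity)
  rw [← hE] at b3 ⊢
  have hωB := b1 ω hω
  have hωB' := b1 ω' hω'
  obtain ⟨s, hs'⟩ : ∃ s, s = slam F a ω := ⟨_, rfl⟩
  have hs2 : slam F a ω' = s := by rw [hs', hsl]
  have hx : bt F ω = xt a s (rt F a ω) := by rw [hs', xt_slam F haJ]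
  have hx' : bt F ω' = xt a s (rt F a ω') := by rw [← hs2, xt_slam F haJ]
  have hψ : ψ (ptr F J ω) = ψH s := by rw [hfr.cls ω hωB, hs']
  have hψ' : ψ (ptr F J ω') = ψH s := by rw [hfr.cls ω' hωB', hs2]
  have hbd : bd F ω' = bd F ω := (slam_eq hsl).1
  rw [hψ]
  -- the spatial directions
  have hgr : ∀ V : Option (Fin m) → ℝ, V none = 0 →
      |dd (Ht s) (bt F ω') V - dd (Ht s) (bt F ω) V| ≤ E * M * en c g a (ψH s) i V := by
    intro V hV
    have hφ : CvC c i (grd (Ht s) (bt F ω') - grd (Ht s) (bt F ω)) := by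
      intro k hk
      rw [Pi.sub_apply, cvc_grd (hdep s) _ k hk, cvc_grd (hdep s) _ k hk, sub_zero]
    have h1 := cv_nc hc g a (hfr.depH s) hφ V
    rw [cv_subl, cv_grd, cv_grd] at h1
    rw [h1]
    refine (Finset.abs_sum_le_sum_abs _ _).trans ?_
    unfold en
    rw [Finset.mul_sum]
    refine Finset.sum_le_sum fun j hj => ?_
    have hj' := Finset.mem_range.1 hj
    rw [abs_mul]
    cases j with
    | zero =>
      have e1 : eta c g a (ψH s) V 0 = 0 := by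
        simp only [eta]
        rw [hV, mul_zero]
      rw [e1, abs_zero, mul_zero, mul_zero]
    | succ l =>
      refine mul_le_mul_of_nonneg_right ?_ (abs_nonneg _)
      have e1 : nc c g a (ψH s) i (grd (Ht s) (bt F ω') - grd (Ht s) (bt F ω)) (l + 1) =
          (vq a s (Ht s) (d s l)).eval (rt F a ω') - (vq a s (Ht s) (d s l)).eval (rt F a ω) := by
        rw [eval_vq, eval_vq, ← hx, ← hx', hd]
        unfold nc
        rw [cv_subl, cv_grd, cv_grd]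
      rw [e1]
      refine poly_mv _ (fun τ hτ => ?_) (rt_mem F a ω') (rt_mem F a ω)
      have h2 := b3 ω hω l (by omega) τ hτ
      rw [← hs', hq] at h2
      exact h2
  have hsp : ∀ V : Option (Fin m) → ℝ, V none = 0 →
      |cv (γ (ptr F J ω') i - γ (ptr F J ω) i) V| ≤
        (E * M + 2 * (et / 2 ^ g i)) * en c g a (ψH s) i V := by
    intro V hV
    have h1 := hrow ω hωB V hV
    have h2 := hrow ω' hωB' V hV
    rw [hψ, ← hs'] at h1
    rw [hψ', hs2] at h2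
    have h3 := hgr V hV
    rw [cv_subl]
    rw [abs_le] at h1 h2 h3 ⊢
    constructor <;> linarith [h1.1, h1.2, h2.1, h2.2, h3.1, h3.2]
  intro V
  have hV0 := en_nonneg c g a (ψH s) i V
  have hVn : 2 ^ a * |V none| ≤ en c g a (ψH s) i V := by
    rw [en_eq]
    linarith [Finset.sum_nonneg fun j (_ : j ∈ range i) =>
      (by positivity : 0 ≤ (2 : ℝ) ^ g j * |V (some (c j)) - cv (ψH s j) V|)]
  have hVn' : |V none| ≤ en c g a (ψH s) i V / 2 ^ a := by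
    rw [le_div_iff₀ ha0]
    linarith
  obtain ⟨V', hV'⟩ : ∃ V' : Option (Fin m) → ℝ, V' = V + (-V none) • bd F ω := ⟨_, rfl⟩
  have hV'0 : V' none = 0 := by
    rw [hV']
    show V none + -V none * 1 = 0
    ring
  have hi1 : ((i : ℝ) + 1) ≤ 2 ^ i := by
    have h1 : ((i + 1 : ℕ) : ℝ) ≤ ((2 ^ i : ℕ) : ℝ) := by
      exact_mod_cast Nat.lt_two_pow_self (n := i)
    push_cast at h1
    exact h1
  have henb : en c g a (ψH s) i (bd F ω) ≤ 2 ^ i * 2 ^ k * 2 ^ a := by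
    unfold en
    have h1 : ∀ j ∈ range (i + 1), |eta c g a (ψH s) (bd F ω) j| ≤ 2 ^ k * 2 ^ a := by
      intro j hj
      have h2 := Xn_le hfr hωB (j := j) (by have := Finset.mem_range.1 hj; omega)
      unfold Xn at h2
      rw [hψ, eta_smul, abs_mul, abs_of_pos (by positivity : (0 : ℝ) < 1 / 2 ^ a),
        one_div, inv_mul_le_iff₀ ha0] at h2
      linarith
    refine (Finset.sum_le_sum h1).trans ?_
    rw [Finset.sum_const, Finset.card_range, nsmul_eq_mul]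
    push_cast
    calc ((i : ℝ) + 1) * (2 ^ k * 2 ^ a) ≤ 2 ^ i * (2 ^ k * 2 ^ a) :=
          mul_le_mul_of_nonneg_right hi1 (by positivity)
      _ = _ := by ring
  have henV : en c g a (ψH s) i V' ≤ (1 + 2 ^ i * 2 ^ k) * en c g a (ψH s) i V := by
    rw [hV']
    refine (en_add_le c g a (ψH s) i V _).trans ?_
    rw [en_smul, abs_neg]
    have h1 := mul_le_mul hVn' henb (en_nonneg _ _ _ _ _ _) (by positivity)
    have e1 : en c g a (ψH s) i V / 2 ^ a * (2 ^ i * 2 ^ k * 2 ^ a) =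
        2 ^ i * 2 ^ k * en c g a (ψH s) i V := by field_simp
    rw [e1] at h1
    linarith
  have hvb : |cv (γ (ptr F J ω') i - γ (ptr F J ω) i) (bd F ω)| ≤
      2 * (et * (2 ^ a / 2 ^ g i)) := by
    have h1 := hvel ω hωB
    have h2 := hvel ω' hωB'
    rw [hbd] at h2
    rw [cv_subl]
    rw [abs_le] at h1 h2 ⊢
    constructor <;> linarith [h1.1, h1.2, h2.1, h2.2]
  have hVe : V = V' + V none • bd F ω := by
    rw [hV', neg_smul]
    abel
  have h1 : |cv (γ (ptr F J ω') i - γ (ptr F J ω) i) V| ≤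
      (E * M + 2 * (et / 2 ^ g i)) * ((1 + 2 ^ i * 2 ^ k) * en c g a (ψH s) i V) +
        en c g a (ψH s) i V / 2 ^ a * (2 * (et * (2 ^ a / 2 ^ g i))) := by
    conv_lhs => rw [hVe]
    rw [cv_add, cv_smul]
    refine (abs_add_le _ _).trans (add_le_add ((hsp V' hV'0).trans
      (mul_le_mul_of_nonneg_left henV (by positivity))) ?_)
    rw [abs_mul]
    exact mul_le_mul hVn' hvb (abs_nonneg _) (by positivity)
  refine h1.trans ?_
  have e1 : (E * M + 2 * (et / 2 ^ g i)) * ((1 + 2 ^ i * 2 ^ k) * en c g a (ψH s) i V) +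
      en c g a (ψH s) i V / 2 ^ a * (2 * (et * (2 ^ a / 2 ^ g i))) =
      et * ((E * (i + 1) + 2) * (1 + 2 ^ i * 2 ^ k) + 2) / 2 ^ g i * en c g a (ψH s) i V := by
    rw [hM]
    field_simp
  rw [e1]
  refine mul_le_mul_of_nonneg_right (div_le_div_of_nonneg_right (mul_le_mul_of_nonneg_left ?_
    het.le) hg0.le) hV0
  have h2k : (1 : ℝ) ≤ 2 ^ k := one_le_pow₀ (by norm_num)
  have h2i : (1 : ℝ) ≤ 2 ^ i := one_le_pow₀ (by norm_num)
  have e2 : (2 : ℝ) ^ (2 * i + k + 4) = 16 * (2 ^ i * 2 ^ i * 2 ^ k) := by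
    rw [pow_add, pow_add, show 2 * i = i + i by ring, pow_add]
    norm_num
    ring
  rw [e2]
  have f1 : E * ((i : ℝ) + 1) + 2 ≤ 3 * (E * 2 ^ i) := by
    have := mul_le_mul_of_nonneg_left hi1 (by linarith : (0 : ℝ) ≤ E)
    have : (1 : ℝ) ≤ E * 2 ^ i := one_le_mul_of_one_le_of_one_le hE1 h2i
    linarith
  have f2 : (1 + 2 ^ i * 2 ^ k : ℝ) ≤ 2 * (2 ^ i * 2 ^ k) := by
    have : (1 : ℝ) ≤ 2 ^ i * 2 ^ k := one_le_mul_of_one_le_of_one_le h2i h2k
    linarith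
  have f3 : (E * ((i : ℝ) + 1) + 2) * (1 + 2 ^ i * 2 ^ k) ≤
      3 * (E * 2 ^ i) * (2 * (2 ^ i * 2 ^ k)) :=
    mul_le_mul f1 f2 (by positivity) (by positivity)
  have f4 : (1 : ℝ) ≤ E * (2 ^ i * 2 ^ i * 2 ^ k) :=
    one_le_mul_of_one_le_of_one_le hE1 (one_le_mul_of_one_le_of_one_le
      (one_le_mul_of_one_le_of_one_le h2i h2i) h2k)
  nlinarith

/-- **Events without spatial curvature at the own samples** are small in a class. -/
theorem flat_cls {θ : ℝ} {S : PCl m} {P : List (Fin m) × Fin m → ℝ → ℝ → ℝ}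
    (hP : ThrOf (chsys m θ) S P) (hT : TmH S) (c : ℕ → Fin m) (i D : ℕ)
    (hc : Set.InjOn c (Set.Iio (i + 1))) (a : ℚ) (e h ε κ : ℝ) (ha0 : 0 ≤ a) (ha : a < 1)
    (he : e < θ * a) (hh : 0 < h) (h1 : bet P c i a a + h ≤ 1) (hε : 0 < ε) (hκ : 0 < κ) :
    Bas S (fun J F A => ∀ (n a₀ e₀ k s V p : ℕ) (g : ℕ → ℕ)
      (ψ γ : PtT F → ℕ → Option (Fin m) → ℝ) (ψH : LnT F → ℕ → Option (Fin m) → ℝ)
      (Ht : LnT F → MvPolynomial (Option (Fin m)) ℝ) (et : ℝ),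
      i < n → a₀ ≤ J → a₀ ≤ ⌊(a : ℝ) * J⌋₊ → ε * J ≤ k →
      e₀ + (k + i + 1) + 2 * k + s + 2 * (i + 1) + 4 ≤ ⌊e * J⌋₊ →
      s + (k + i + 1) + k + 3 * (i + 1) + 6 ≤ V → (∀ j ≤ i, e₀ + g j + V ≤ J) →
      (∀ l < i, k + 1 ≤ g l) → p ≤ g i + s → p ≤ J →
      ⌊(bet P c i a a + h) * J⌋₊ + a₀ ≤ p + ⌊(a : ℝ) * J⌋₊ → 0 < et →
      et * 2 ^ (4 * k + 5 * i + 13 + s) ≤ 1 → (∀ s, (Ht s).totalDegree ≤ D) →
      (∀ s, DepC c i (Ht s)) → ∀ B : F.Ω → Prop, Sub B A → FrOK F c n a₀ k e₀ g B ψ ψH →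
      (∀ y l, CvC c l (γ y l)) →
      (∀ ω, B ω → ∀ V : Option (Fin m) → ℝ, |cv (γ (ptr F J ω) i - ψ (ptr F J ω) i) V| ≤
        2 ^ k / 2 ^ g i * en c g a₀ (ψ (ptr F J ω)) i V) →
      (∀ ω, B ω → |bd F ω (some (c i)) - cv (γ (ptr F J ω) i) (bd F ω)| ≤
        et * (2 ^ a₀ / 2 ^ g i)) →
      (∀ ω, B ω → ∀ V : Option (Fin m) → ℝ, V none = 0 →
        |dd (Ht (slam F a₀ ω)) (bt F ω) V - cv (γ (ptr F J ω) i) V| ≤
          et / 2 ^ g i * en c g a₀ (ψ (ptr F J ω)) i V) →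
      (∀ ω, B ω → ∀ V : Option (Fin m) → ℝ, V none = 0 →
        |hs (Ht (slam F a₀ ω)) (bt F ω) (bd F ω) V| ≤
          et * (2 ^ a₀ / 2 ^ g i) * en c g a₀ (ψ (ptr F J ω)) i V) →
      Pe F.p B < κ * Pe F.p A) := by
  classical
  obtain ⟨C, hC, hff⟩ := flat_fam m D i
  have hL2 : 0 < Real.log 2 := Real.log_pos (by norm_num)
  have haR : (a : ℝ) < 1 := by exact_mod_cast ha
  have ha0R : (0 : ℝ) ≤ a := by exact_mod_cast ha0
  obtain ⟨δ, hδ, hvis⟩ := vis_all hP c i hc a e h ha0 ha.le he hh h1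
  obtain ⟨μ, hμ⟩ : ∃ μ : ℝ, μ = min ε (1 - a) * Real.log 2 / 2 := ⟨_, rfl⟩
  have hμ0 : 0 < μ := by
    rw [hμ]
    have : 0 < min ε (1 - (a : ℝ)) := lt_min hε (by linarith)
    positivity
  have hC0 : 0 < C := by linarith
  obtain ⟨ε₁, hε₁⟩ : ∃ ε₁ : ℝ, ε₁ = μ / C := ⟨_, rfl⟩
  have hε₁0 : 0 < ε₁ := by rw [hε₁]; positivity
  have htm := bas_ev (hT.2 ε₁ hε₁0) hκ
  have hpos : Bas S (fun _ F A => 0 < Pe F.p A) := ⟨1, one_pos, 0, fun J _ F A hA =>
    hT.1 1 J F A hA⟩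
  obtain ⟨J₁, hJ₁⟩ := exists_nat_ge (C / μ)
  obtain ⟨J₂, hJ₂⟩ := exists_nat_ge (-Real.log (κ / 4) / δ)
  refine Bas.mono (max J₁ J₂) ((hvis.and htm).and hpos) ?_
  rintro J hJ F A ⟨⟨hvA, htA⟩, hA0⟩
  intro n a₀ e₀ k s V p g ψ γ ψH Ht et hin haJ haa hk hek hV hJV hgk hp1 hp1J hbet het hets hdeg
    hdep B hBA hfr hγ hnear hvel hrow hflat
  by_contra hcon
  rw [not_lt] at hcon
  have hp := Pe_nonneg F.isLaw
  have hB0 : 0 < Pe F.p B := (mul_pos hκ hA0).trans_le hcon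
  have hJ0 : (0 : ℝ) ≤ J := Nat.cast_nonneg J
  have hJ1 : C ≤ μ * J := by
    have h2 : (J₁ : ℝ) ≤ J := by exact_mod_cast (le_max_left _ _).trans hJ
    have h3 := hJ₁.trans h2
    rw [div_le_iff₀ hμ0] at h3
    linarith
  have hJ2 : Real.exp (-(δ * J)) ≤ κ / 4 := by
    have h2 : (J₂ : ℝ) ≤ J := by exact_mod_cast (le_max_right _ _).trans hJ
    have h3 := hJ₂.trans h2
    rw [div_le_iff₀ hδ] at h3
    have h4 : -(δ * (J : ℝ)) ≤ Real.log (κ / 4) := by linarith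
    exact (Real.exp_le_exp.2 h4).trans (Real.exp_log (by positivity)).le
  have hθ0 : 0 ≤ ε₁ * J := by positivity
  have hmain : C * (ε₁ * J + 1) ≤ min ε (1 - (a : ℝ)) * Real.log 2 * J := by
    have e1 : C * (ε₁ * J) = μ * J := by rw [hε₁]; field_simp
    have e2 : 2 * (μ * J) = min ε (1 - (a : ℝ)) * Real.log 2 * J := by rw [hμ]; ring
    rw [mul_add, mul_one, e1]
    linarith
  have hm1 : C * (ε₁ * J + 1) ≤ k * Real.log 2 := by
    refine hmain.trans ?_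
    have e1 : min ε (1 - (a : ℝ)) * Real.log 2 * J ≤ ε * Real.log 2 * J :=
      mul_le_mul_of_nonneg_right (mul_le_mul_of_nonneg_right (min_le_left _ _) hL2.le) hJ0
    have e2 := mul_le_mul_of_nonneg_right hk hL2.le
    linarith
  have hm2 : C * (ε₁ * J + 1) ≤ ((J : ℝ) - a₀) * Real.log 2 := by
    refine hmain.trans ?_
    have e1 : min ε (1 - (a : ℝ)) * Real.log 2 * J ≤ (1 - a) * Real.log 2 * J :=
      mul_le_mul_of_nonneg_right (mul_le_mul_of_nonneg_right (min_le_right _ _) hL2.le) hJ0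
    have e2 : (a₀ : ℝ) ≤ a * J := by
      have h2 : (a₀ : ℝ) ≤ ⌊(a : ℝ) * J⌋₊ := by exact_mod_cast haa
      exact h2.trans (Nat.floor_le (mul_nonneg ha0R hJ0))
    have e3 := mul_le_mul_of_nonneg_right e2 hL2.le
    linarith
  have hexp : Real.exp (C * (ε₁ * J + 1)) ≤ 2 ^ k := by
    have e2 : Real.exp (C * (ε₁ * J + 1)) ≤ Real.exp (k * Real.log 2) := Real.exp_le_exp.2 hm1
    rw [mul_comm (k : ℝ), ← Real.rpow_def_of_pos (by norm_num), Real.rpow_natCast] at e2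
    exact e2
  obtain ⟨B', b1, b2, b3⟩ := hff (F := F) (c := c) (n := n) (a := a₀) (k := k) (e := e₀) (g := g)
    (B := B) (ψ := ψ) (γ := γ) (ψH := ψH) (Ht := Ht) (et := et) (θ := ε₁ * J) hB0
    (hc.mono (Set.Iio_subset_Iio (Nat.le_succ i))) hin.le haJ hdeg hdep hfr het hvel hrow hflat hθ0
    (htA B hBA hcon hB0) hm2
  obtain ⟨ε', hε'⟩ : ∃ ε' : ℝ, ε' = et * (2 ^ k * 2 ^ (2 * i + k + 4)) := ⟨_, rfl⟩
  have hε'0 : 0 < ε' := by rw [hε']; positivity
  have hetε : et ≤ ε' := by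
    rw [hε']
    refine le_mul_of_one_le_right het.le ?_
    exact one_le_mul_of_one_le_of_one_le (one_le_pow₀ (by norm_num)) (one_le_pow₀ (by norm_num))
  have h5 := hvA n a₀ e₀ k s V p g ψ γ ψH ε' hin haJ haa hek hV hJV hgk hp1 hp1J hbet hε'0.le (by
      rw [hε']
      refine le_trans (le_of_eq ?_) hets
      have e1 : 4 * k + 5 * i + 13 + s = k + (2 * i + k + 4) + (3 * (i + 1) + 2 * k + 6 + s) := by
        ring
      rw [e1, pow_add, pow_add]
      ring) B' (fun ω hω => hBA ω (b1 ω hω)) (frok_sub' hfr b1) hγ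
    (fun ω hω => hnear ω (b1 ω hω)) (fun ω hω => (hvel ω (b1 ω hω)).trans
      (mul_le_mul_of_nonneg_right hetε (by positivity))) (fun ω ω' hω hω' hs V => by
      refine (b3 ω ω' hω hω' hs V).trans (mul_le_mul_of_nonneg_right
        (div_le_div_of_nonneg_right ?_ (by positivity)) (en_nonneg _ _ _ _ _ _))
      rw [hε']
      exact mul_le_mul_of_nonneg_left (mul_le_mul_of_nonneg_right hexp (by positivity)) het.le)
  have h6 : Pe F.p B' ≤ κ / 4 * Pe F.p A := h5.trans (mul_le_mul_of_nonneg_right hJ2 (hp A))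
  have h7 : κ * Pe F.p A / 2 ≤ Pe F.p B' := (by linarith : κ * Pe F.p A / 2 ≤ Pe F.p B / 2).trans b2
  nlinarith [mul_pos hκ hA0]

end Pool.D2Z
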