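import Pool.Agent.H60.D2.Cov

/-!
# The first Taylor polynomial of a closed polynomial along its own line

`wd s`: the velocity of the line `s`. `xt a s τ`: the point of the line at the relative time `τ` of
the window. `tq`: the derivative in the direction of a fixed point `b`, as a polynomial in the relative
time. `tp`: the first Taylor polynomial plus half of a closed quadratic form, at the fixed point `b`,
as a polynomial in the time; its derivative is the second derivative in the direction of the line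
(`der_tp`).
-/

set_option autoImplicit false

namespace Pool.D2Z

open Finset Real MvPolynomial
open Pool.Agent.H49.Ent Pool.Agent.H32.Dense Pool.STK Pool.KA Pool.KSAT Pool.K2S Pool.PB Pool.S6C
open Pool.GEN Pool.CHT Pool.CHX Pool.ISO Pool.D2R
open Pool.FLF (Fam.sub)
open Pool.PB.Trl (rt rt_mem t_rt)

variable {m J : ℕ} {ζ : Type}

/-- The velocity of the line. -/
noncomputable def wd (s : ((Fin m → ℝ) × (Fin m → ℝ)) × ζ × ℕ) : Option (Fin m) → ℝ
  | none => 1
  | some j => s.1.2 j

theorem wd_slam (F : Fam m J) (a : ℕ) (ω : F.Ω) : wd (slam F a ω) = bd F ω := by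
  funext o
  cases o with
  | none => rfl
  | some j => rfl

/-- The point of the line. -/
noncomputable def xt (a : ℕ) (s : ((Fin m → ℝ) × (Fin m → ℝ)) × ζ × ℕ) (τ : ℝ) :
    Option (Fin m) → ℝ := fun o => (lc a s o).eval τ

theorem der_lc' (a : ℕ) (s : ((Fin m → ℝ) × (Fin m → ℝ)) × ζ × ℕ) (o : Option (Fin m)) :
    Polynomial.derivative (lc a s o) = Polynomial.C (1 / 2 ^ a * wd s o) := by
  cases o with
  | none => simp [lc, wd]
  | some j =>
    simp only [lc, wd, Polynomial.derivative_add, Polynomial.derivative_C,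
      Polynomial.derivative_C_mul, Polynomial.derivative_X, zero_add, mul_one]
    rw [← Polynomial.C_mul, mul_comm]

theorem eval_lcR (a : ℕ) (s : ((Fin m → ℝ) × (Fin m → ℝ)) × ζ × ℕ)
    (R : MvPolynomial (Option (Fin m)) ℝ) (τ : ℝ) :
    (MvPolynomial.aeval (lc a s) R).eval τ = eval (xt a s τ) R :=
  Pool.KBX.eval_aeval_poly _ _ _

/-- The derivative along the line. -/
theorem der_R (a : ℕ) (s : ((Fin m → ℝ) × (Fin m → ℝ)) × ζ × ℕ)
    (R : MvPolynomial (Option (Fin m)) ℝ) (τ : ℝ) :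
    (Polynomial.derivative (MvPolynomial.aeval (lc a s) R)).eval τ =
      1 / 2 ^ a * dd R (xt a s τ) (wd s) := by
  have h := (der_curve (lc a s) (x := xt a s τ) (V := (1 / 2 ^ a : ℝ) • wd s) (Z := 0) (s := τ)
    (fun o => rfl) (fun o => by
      rw [der_lc', Polynomial.eval_C]; rfl) (fun o => by
      rw [der_lc', Polynomial.derivative_C, Polynomial.eval_zero]; rfl) R).1
  rw [h, dd_smul]

/-- The derivative in the direction of the fixed point. -/
noncomputable def tq (a : ℕ) (s : ((Fin m → ℝ) × (Fin m → ℝ)) × ζ × ℕ)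
    (R : MvPolynomial (Option (Fin m)) ℝ) (b : Option (Fin m) → ℝ) : Polynomial ℝ :=
  ∑ o, MvPolynomial.aeval (lc a s) (pderiv o R) * (Polynomial.C (b o) - lc a s o)

theorem eval_tq (a : ℕ) (s : ((Fin m → ℝ) × (Fin m → ℝ)) × ζ × ℕ)
    (R : MvPolynomial (Option (Fin m)) ℝ) (b : Option (Fin m) → ℝ) (τ : ℝ) :
    (tq a s R b).eval τ = dd R (xt a s τ) (b - xt a s τ) := by
  unfold tq dd
  rw [Polynomial.eval_finsetSum]
  refine Finset.sum_congr rfl fun o _ => ?_
  rw [Polynomial.eval_mul, eval_lcR, Polynomial.eval_sub, Polynomial.eval_C]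
  rfl

theorem der_tq (a : ℕ) (s : ((Fin m → ℝ) × (Fin m → ℝ)) × ζ × ℕ)
    (R : MvPolynomial (Option (Fin m)) ℝ) (b : Option (Fin m) → ℝ) (τ : ℝ) :
    (Polynomial.derivative (tq a s R b)).eval τ =
      1 / 2 ^ a * (hs R (xt a s τ) (wd s) (b - xt a s τ) - dd R (xt a s τ) (wd s)) := by
  unfold tq
  rw [Polynomial.derivative_sum, Polynomial.eval_finsetSum]
  unfold hs
  rw [show dd R (xt a s τ) (wd s) = ∑ o, eval (xt a s τ) (pderiv o R) * wd s o from rfl,
    ← Finset.sum_sub_distrib, Finset.mul_sum]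
  refine Finset.sum_congr rfl fun o _ => ?_
  rw [Polynomial.derivative_mul, Polynomial.eval_add, Polynomial.eval_mul, Polynomial.eval_mul,
    der_R, eval_lcR, Polynomial.derivative_sub, Polynomial.derivative_C, der_lc', zero_sub,
    Polynomial.eval_neg, Polynomial.eval_C, Polynomial.eval_sub, Polynomial.eval_C, Pi.sub_apply]
  show 1 / 2 ^ a * dd (pderiv o R) (xt a s τ) (wd s) * (b o - xt a s τ o) + _ = _
  ring

/-- The bilinear form. -/
noncomputable def bl (Γ : Option (Fin m) → Option (Fin m) → ℝ) (V V' : Option (Fin m) → ℝ) : ℝ :=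
  ∑ o, ∑ o', Γ o o' * V o * V' o'

theorem bl_comm {Γ : Option (Fin m) → Option (Fin m) → ℝ} (hΓ : ∀ o o', Γ o o' = Γ o' o)
    (V V' : Option (Fin m) → ℝ) : bl Γ V V' = bl Γ V' V := by
  unfold bl
  rw [Finset.sum_comm]
  refine Finset.sum_congr rfl fun o _ => Finset.sum_congr rfl fun o' _ => ?_
  rw [hΓ]
  ring

/-- Half of the quadratic form of the secant. -/
noncomputable def qp (a : ℕ) (s : ((Fin m → ℝ) × (Fin m → ℝ)) × ζ × ℕ)
    (Γ : Option (Fin m) → Option (Fin m) → ℝ) (b : Option (Fin m) → ℝ) : Polynomial ℝ :=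
  ∑ o, ∑ o', Polynomial.C (Γ o o' / 2) * (Polynomial.C (b o) - lc a s o) *
    (Polynomial.C (b o') - lc a s o')

theorem eval_qp (a : ℕ) (s : ((Fin m → ℝ) × (Fin m → ℝ)) × ζ × ℕ)
    (Γ : Option (Fin m) → Option (Fin m) → ℝ) (b : Option (Fin m) → ℝ) (τ : ℝ) :
    (qp a s Γ b).eval τ = bl Γ (b - xt a s τ) (b - xt a s τ) / 2 := by
  unfold qp bl
  rw [Polynomial.eval_finsetSum, Finset.sum_div]
  refine Finset.sum_congr rfl fun o _ => ?_
  rw [Polynomial.eval_finsetSum, Finset.sum_div]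
  refine Finset.sum_congr rfl fun o' _ => ?_
  simp only [Polynomial.eval_mul, Polynomial.eval_sub, Polynomial.eval_C, Pi.sub_apply]
  show Γ o o' / 2 * (b o - xt a s τ o) * (b o' - xt a s τ o') = _
  ring

theorem der_qp (a : ℕ) (s : ((Fin m → ℝ) × (Fin m → ℝ)) × ζ × ℕ)
    {Γ : Option (Fin m) → Option (Fin m) → ℝ} (hΓ : ∀ o o', Γ o o' = Γ o' o)
    (b : Option (Fin m) → ℝ) (τ : ℝ) :
    (Polynomial.derivative (qp a s Γ b)).eval τ = -(1 / 2 ^ a * bl Γ (wd s) (b - xt a s τ)) := by
  have h1 : (Polynomial.derivative (qp a s Γ b)).eval τ =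
      -(1 / 2 ^ a * (bl Γ (wd s) (b - xt a s τ) + bl Γ (b - xt a s τ) (wd s)) / 2) := by
    unfold qp bl
    rw [Polynomial.derivative_sum, Polynomial.eval_finsetSum, ← Finset.sum_add_distrib,
      Finset.mul_sum, Finset.sum_div, ← Finset.sum_neg_distrib]
    refine Finset.sum_congr rfl fun o _ => ?_
    rw [Polynomial.derivative_sum, Polynomial.eval_finsetSum, ← Finset.sum_add_distrib,
      Finset.mul_sum, Finset.sum_div, ← Finset.sum_neg_distrib]
    refine Finset.sum_congr rfl fun o' _ => ?_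
    rw [Polynomial.derivative_mul, Polynomial.derivative_mul, Polynomial.derivative_C, zero_mul,
      zero_add, Polynomial.derivative_sub, Polynomial.derivative_sub, Polynomial.derivative_C,
      Polynomial.derivative_C, der_lc', der_lc', zero_sub, zero_sub]
    simp only [Polynomial.eval_add, Polynomial.eval_mul, Polynomial.eval_neg, Polynomial.eval_sub,
      Polynomial.eval_C, Pi.sub_apply]
    show Γ o o' / 2 * -(1 / 2 ^ a * wd s o) * (b o' - xt a s τ o') +
      Γ o o' / 2 * (b o - xt a s τ o) * -(1 / 2 ^ a * wd s o') = _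
    ring
  rw [h1, bl_comm hΓ (b - xt a s τ)]
  ring

/-- **The first Taylor polynomial** at the point of the line, evaluated at `b`, with half of the
quadratic form. -/
noncomputable def tp (a : ℕ) (s : ((Fin m → ℝ) × (Fin m → ℝ)) × ζ × ℕ)
    (R : MvPolynomial (Option (Fin m)) ℝ) (Γ : Option (Fin m) → Option (Fin m) → ℝ)
    (b : Option (Fin m) → ℝ) : Polynomial ℝ :=
  MvPolynomial.aeval (lc a s) R + tq a s R b + qp a s Γ b

/-- The value of the Taylor polynomial at the point `x`. -/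
noncomputable def tv (R : MvPolynomial (Option (Fin m)) ℝ)
    (Γ : Option (Fin m) → Option (Fin m) → ℝ) (x b : Option (Fin m) → ℝ) : ℝ :=
  eval x R + dd R x (b - x) + bl Γ (b - x) (b - x) / 2

theorem eval_tp (a : ℕ) (s : ((Fin m → ℝ) × (Fin m → ℝ)) × ζ × ℕ)
    (R : MvPolynomial (Option (Fin m)) ℝ) (Γ : Option (Fin m) → Option (Fin m) → ℝ)
    (b : Option (Fin m) → ℝ) (τ : ℝ) :
    (tp a s R Γ b).eval τ = tv R Γ (xt a s τ) b := by
  unfold tp tv
  rw [Polynomial.eval_add, Polynomial.eval_add, eval_lcR, eval_tq, eval_qp]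

/-- **The derivative of the Taylor polynomial along the line.** -/
theorem der_tp (a : ℕ) (s : ((Fin m → ℝ) × (Fin m → ℝ)) × ζ × ℕ)
    (R : MvPolynomial (Option (Fin m)) ℝ) {Γ : Option (Fin m) → Option (Fin m) → ℝ}
    (hΓ : ∀ o o', Γ o o' = Γ o' o) (b : Option (Fin m) → ℝ) (τ : ℝ) :
    (Polynomial.derivative (tp a s R Γ b)).eval τ =
      1 / 2 ^ a * (hs R (xt a s τ) (wd s) (b - xt a s τ) - bl Γ (wd s) (b - xt a s τ)) := by
  unfold tp
  rw [Polynomial.derivative_add, Polynomial.derivative_add, Polynomial.eval_add,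
    Polynomial.eval_add, der_R, der_tq, der_qp a s hΓ]
  ring

/-- A polynomial with a bounded derivative. -/
theorem poly_mv (P : Polynomial ℝ) {M : ℝ} (hM : ∀ τ ∈ Set.Icc (0 : ℝ) 1,
    |(Polynomial.derivative P).eval τ| ≤ M) {t u : ℝ} (ht : t ∈ Set.Icc (0 : ℝ) 1)
    (hu : u ∈ Set.Icc (0 : ℝ) 1) : |P.eval t - P.eval u| ≤ M := by
  have h1 := Convex.norm_image_sub_le_of_norm_hasDerivWithin_le (f := fun x => P.eval x)
    (f' := fun x => (Polynomial.derivative P).eval x) (s := Set.Icc (0 : ℝ) 1) (C := M)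
    (fun x _ => (P.hasDerivAt x).hasDerivWithinAt) (fun x hx => by
      rw [Real.norm_eq_abs]; exact hM x hx) (convex_Icc 0 1) hu ht
  rw [Real.norm_eq_abs, Real.norm_eq_abs] at h1
  have h2 : |t - u| ≤ 1 := by
    rw [abs_le]
    constructor <;> linarith [ht.1, ht.2, hu.1, hu.2]
  have h3 : 0 ≤ M := (abs_nonneg _).trans (hM t ht)
  exact h1.trans (by nlinarith)

end Pool.D2Z
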