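import Pool.Agent.H31.F5.PlaneJ

/-!
# Polynomials in two variables on lines near a point

`biv_abs`: a polynomial of degree `≤ D` in two variables which is bounded at `D + 1` points on each of
`D + 1` separated lines passing very near the origin is bounded on the square.
-/

set_option autoImplicit false

namespace Pool.D2Z

open Finset MvPolynomial Pool.F5

/-- The difference of two powers. -/
theorem pow_dif {x y M d : ℝ} (hx : |x| ≤ M) (hy : |y| ≤ M) (hd : |x - y| ≤ d) (hM : 1 ≤ M)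
    (n : ℕ) {D : ℕ} (hn : n ≤ D) : |x ^ n - y ^ n| ≤ D * M ^ D * d := by
  have hM0 : 0 ≤ M := by linarith
  have hd0 : 0 ≤ d := (abs_nonneg _).trans hd
  have h1 : ∀ n : ℕ, |x ^ n - y ^ n| ≤ n * M ^ n * d := by
    intro n
    induction n with
    | zero => simp
    | succ n ih =>
      have e1 : x ^ (n + 1) - y ^ (n + 1) = (x ^ n - y ^ n) * x + y ^ n * (x - y) := by ring
      rw [e1]
      have e2 : |(x ^ n - y ^ n) * x| ≤ n * M ^ n * d * M := by
        rw [abs_mul]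
        exact mul_le_mul ih hx (abs_nonneg _) (by positivity)
      have e3 : |y ^ n * (x - y)| ≤ M ^ n * d := by
        rw [abs_mul, abs_pow]
        exact mul_le_mul (pow_le_pow_left₀ (abs_nonneg _) hy n) hd (abs_nonneg _) (by positivity)
      have e4 : M ^ n * d ≤ M ^ (n + 1) * d :=
        mul_le_mul_of_nonneg_right (pow_le_pow_right₀ hM (Nat.le_succ n)) hd0
      refine (abs_add_le _ _).trans ((add_le_add e2 (e3.trans e4)).trans (le_of_eq ?_))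
      push_cast
      ring
  refine (h1 n).trans (mul_le_mul_of_nonneg_right ?_ hd0)
  exact mul_le_mul (by exact_mod_cast hn) (pow_le_pow_right₀ hM hn) (by positivity) (by positivity)

/-- **Bounded on separated lines near a point**: the coefficients. -/
theorem biv_cf (D : ℕ) : ∃ C : ℝ, 1 ≤ C ∧ ∃ N : ℕ, ∀ {P : MvPolynomial (Fin 2) ℝ},
    P.totalDegree ≤ D → ∀ (E δ : Fin (D + 1) → ℝ) (τ : Fin (D + 1) → Fin (D + 1) → ℝ)
    {R mu eps d : ℝ}, 1 ≤ R → 0 < mu → mu ≤ 1 → (∀ i, |E i| ≤ R) →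
    (∀ i j, i ≠ j → mu ≤ |E i - E j|) → (∀ i j, |τ i j| ≤ 1) →
    (∀ i j j', j ≠ j' → mu ≤ |τ i j - τ i j'|) → (∀ i, |δ i| ≤ d) →
    C * (R / mu) ^ N * d ≤ 1 → (∀ i j, |eval ![τ i j, τ i j * E i + δ i] P| ≤ eps) →
    CfL P 0 (C * (R / mu) ^ N * eps) := by
  classical
  have hD0 : (0 : ℝ) ≤ D := Nat.cast_nonneg D
  obtain ⟨C, hC⟩ : ∃ C : ℝ, C = 4 * (D + 1) ^ 5 * 4 ^ (D + 1) * 2 ^ D := ⟨_, rfl⟩
  have hpD : (1 : ℝ) ≤ 2 ^ D := one_le_pow₀ (by norm_num)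
  have hpD4 : (1 : ℝ) ≤ 4 ^ (D + 1) := one_le_pow₀ (by norm_num)
  have hD5 : (1 : ℝ) ≤ (D + 1) ^ 5 := one_le_pow₀ (by linarith)
  have hC1 : 1 ≤ C := by
    rw [hC]
    have h1 : (1 : ℝ) ≤ (D + 1) ^ 5 * 4 ^ (D + 1) := one_le_mul_of_one_le_of_one_le hD5 hpD4
    have h2 : (1 : ℝ) ≤ (D + 1) ^ 5 * 4 ^ (D + 1) * 2 ^ D := one_le_mul_of_one_le_of_one_le h1 hpD
    nlinarith
  refine ⟨C, hC1, 3 * D + 2, ?_⟩
  intro P hP E δ τ R mu eps d hR hmu hmu1 hE hsE hτ hsτ hδ hd hval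
  have hR0 : 0 ≤ R := by linarith
  have hd0 : 0 ≤ d := (abs_nonneg _).trans (hδ 0)
  have he0 : 0 ≤ eps := (abs_nonneg _).trans (hval 0 0)
  obtain ⟨X, hX⟩ : ∃ X : ℝ, X = R / mu := ⟨_, rfl⟩
  rw [← hX] at hd ⊢
  have hX1 : 1 ≤ X := by
    rw [hX, le_div_iff₀ hmu]
    linarith
  have hX0 : 0 < X := by linarith
  have hRX : R ≤ X := by
    rw [hX, le_div_iff₀ hmu]
    nlinarith
  have hmX : 1 / mu ≤ X := by
    rw [hX]
    exact div_le_div_of_nonneg_right hR hmu.le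
  rcases P.support.eq_empty_or_nonempty with h0 | hne
  · intro s _
    rw [support_eq_empty.1 h0, coeff_zero, abs_zero]
    positivity
  obtain ⟨s₀, hs₀, hmax⟩ := Finset.exists_max_image P.support (fun s => |P.coeff s|) hne
  obtain ⟨A, hA⟩ : ∃ A : ℝ, A = |P.coeff s₀| := ⟨_, rfl⟩
  have hA0 : 0 ≤ A := by rw [hA]; exact abs_nonneg _
  rw [← hA] at hmax
  have hd1 : d ≤ 1 := by
    have h1 : 1 ≤ C * X ^ (3 * D + 2) := one_le_mul_of_one_le_of_one_le hC1 (one_le_pow₀ hX1)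
    nlinarith
  -- the shift
  obtain ⟨L, hL⟩ : ∃ L : ℝ, L = (D + 1) ^ 2 * (D * (2 * R) ^ D) := ⟨_, rfl⟩
  have hL0 : 0 ≤ L := by rw [hL]; positivity
  have hsh : ∀ i j, |eval ![τ i j, τ i j * E i] P| ≤ eps + L * A * d := by
    intro i j
    have h1 : |eval ![τ i j, τ i j * E i + δ i] P - eval ![τ i j, τ i j * E i] P| ≤
        L * A * d := by
      rw [eval2, eval2, ← Finset.sum_sub_distrib]
      have h2 : ∀ s ∈ P.support, |P.coeff s * (τ i j ^ (s 0) * (τ i j * E i + δ i) ^ (s 1)) -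
          P.coeff s * (τ i j ^ (s 0) * (τ i j * E i) ^ (s 1))| ≤ A * (D * (2 * R) ^ D * d) := by
        intro s hs
        rw [← mul_sub, ← mul_sub, abs_mul, abs_mul, abs_pow]
        refine mul_le_mul (hmax s hs) ?_ (by positivity) hA0
        have h3 : |τ i j| ^ s 0 ≤ 1 := pow_le_one₀ (abs_nonneg _) (hτ i j)
        have h4 : |τ i j * E i| ≤ R := by
          rw [abs_mul]
          calc |τ i j| * |E i| ≤ 1 * R := mul_le_mul (hτ i j) (hE i) (abs_nonneg _) zero_le_one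
            _ = R := one_mul R
        have h5 : |(τ i j * E i + δ i) ^ s 1 - (τ i j * E i) ^ s 1| ≤ D * (2 * R) ^ D * d := by
          refine pow_dif (M := 2 * R) ?_ (by linarith) ?_ (by linarith) (s 1) ?_
          · refine (abs_add_le _ _).trans ?_
            have := hδ i
            linarith
          · rw [add_sub_cancel_left]
            exact hδ i
          · have := deg2 hP hs
            omega
        calc |τ i j| ^ s 0 * |(τ i j * E i + δ i) ^ s 1 - (τ i j * E i) ^ s 1| ≤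
              1 * (D * (2 * R) ^ D * d) := mul_le_mul h3 h5 (abs_nonneg _) zero_le_one
          _ = _ := one_mul _
      refine (Finset.abs_sum_le_sum_abs _ _).trans ((Finset.sum_le_sum h2).trans ?_)
      rw [Finset.sum_const, nsmul_eq_mul]
      have h3 := mul_le_mul_of_nonneg_right (card2 hP)
        (show 0 ≤ A * (D * (2 * R) ^ D * d) by positivity)
      rw [hL]
      linarith
    have h2 := hval i j
    have h3 := abs_sub_abs_le_abs_sub (eval ![τ i j, τ i j * E i] P)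
      (eval ![τ i j, τ i j * E i + δ i] P)
    rw [abs_sub_comm] at h3
    linarith
  -- the homogeneous parts
  obtain ⟨ε', hε'⟩ : ∃ ε' : ℝ, ε' = eps + L * A * d := ⟨_, rfl⟩
  rw [← hε'] at hsh
  have hε'0 : 0 ≤ ε' := by rw [hε']; positivity
  have hhk : ∀ i, ∀ k ≤ D, |hk P k 1 (E i)| ≤ (D + 1) * (2 * 1 / mu) ^ (D + 1) * ε' := by
    intro i k hk'
    rw [← lpo_coeff hP 1 (E i) hk']
    refine coe_nod _ (lpo_deg hP _ _) (τ i) le_rfl hmu hmu1 (hτ i) (hsτ i) (fun j => ?_) k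
    rw [lpo_eval, mul_one]
    exact hsh i j
  have hA1 : A ≤ (D + 1) ^ 2 * 4 ^ (D + 1) * X ^ (2 * D + 2) * ε' := by
    rw [hA]
    refine (hk_coe hP E hR hmu hmu1 hE hsE (j₀ := 0) (fun i k _ hk' => hhk i k hk') hs₀
      (Nat.zero_le _)).trans ?_
    have e1 : (2 * R / mu) ^ (D + 1) = 2 ^ (D + 1) * X ^ (D + 1) := by
      rw [hX, ← mul_pow]
      congr 1
      ring
    have e2 : (2 * 1 / mu) ^ (D + 1) ≤ 2 ^ (D + 1) * X ^ (D + 1) := by
      rw [← mul_pow]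
      refine pow_le_pow_left₀ (by positivity) ?_ _
      have e3 : 2 * 1 / mu = 2 * (1 / mu) := by ring
      rw [e3]
      linarith
    rw [e1]
    have e3 : (D + 1) * (2 ^ (D + 1) * X ^ (D + 1)) * ((D + 1) * (2 * 1 / mu) ^ (D + 1) * ε') ≤
        (D + 1) * (2 ^ (D + 1) * X ^ (D + 1)) * ((D + 1) * (2 ^ (D + 1) * X ^ (D + 1)) * ε') := by
      refine mul_le_mul_of_nonneg_left (mul_le_mul_of_nonneg_right
        (mul_le_mul_of_nonneg_left e2 (by positivity)) hε'0) (by positivity)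
    refine e3.trans (le_of_eq ?_)
    have e4 : (4 : ℝ) ^ (D + 1) = 2 ^ (D + 1) * 2 ^ (D + 1) := by
      rw [← mul_pow]
      norm_num
    have e5 : X ^ (2 * D + 2) = X ^ (D + 1) * X ^ (D + 1) := by
      rw [← pow_add]
      congr 1
      ring
    rw [e4, e5]
    ring
  -- the absorption
  have hKL : (D + 1) ^ 2 * 4 ^ (D + 1) * X ^ (2 * D + 2) * (L * d) ≤ 1 / 2 := by
    have e1 : L ≤ (D + 1) ^ 3 * 2 ^ D * X ^ D := by
      rw [hL, mul_pow]
      have e2 : R ^ D ≤ X ^ D := pow_le_pow_left₀ hR0 hRX D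
      have e3 : (D : ℝ) * (2 ^ D * R ^ D) ≤ (D + 1) * (2 ^ D * X ^ D) :=
        mul_le_mul (by linarith) (mul_le_mul_of_nonneg_left e2 (by positivity)) (by positivity)
          (by positivity)
      calc (D + 1) ^ 2 * (D * (2 ^ D * R ^ D)) ≤ (D + 1) ^ 2 * ((D + 1) * (2 ^ D * X ^ D)) :=
            mul_le_mul_of_nonneg_left e3 (by positivity)
        _ = _ := by ring
    have e2 : (D + 1) ^ 2 * 4 ^ (D + 1) * X ^ (2 * D + 2) * (L * d) ≤
        (D + 1) ^ 2 * 4 ^ (D + 1) * X ^ (2 * D + 2) * ((D + 1) ^ 3 * 2 ^ D * X ^ D * d) :=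
      mul_le_mul_of_nonneg_left (mul_le_mul_of_nonneg_right e1 hd0) (by positivity)
    have e3 : (D + 1) ^ 2 * 4 ^ (D + 1) * X ^ (2 * D + 2) * ((D + 1) ^ 3 * 2 ^ D * X ^ D * d) =
        C * X ^ (3 * D + 2) * d / 4 := by
      have e4 : X ^ (3 * D + 2) = X ^ (2 * D + 2) * X ^ D := by
        rw [← pow_add]
        congr 1
        ring
      rw [hC, e4]
      ring
    rw [e3] at e2
    linarith
  have hA2 : A ≤ 2 * ((D + 1) ^ 2 * 4 ^ (D + 1) * X ^ (2 * D + 2) * eps) := by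
    rw [hε'] at hA1
    have e1 : (D + 1) ^ 2 * 4 ^ (D + 1) * X ^ (2 * D + 2) * (eps + L * A * d) =
        (D + 1) ^ 2 * 4 ^ (D + 1) * X ^ (2 * D + 2) * eps +
          (D + 1) ^ 2 * 4 ^ (D + 1) * X ^ (2 * D + 2) * (L * d) * A := by ring
    rw [e1] at hA1
    have e2 := mul_le_mul_of_nonneg_right hKL hA0
    linarith
  have hA3 : A ≤ C * X ^ (3 * D + 2) * eps := by
    refine hA2.trans ?_
    have e1 : X ^ (2 * D + 2) ≤ X ^ (3 * D + 2) := pow_le_pow_right₀ hX1 (by omega)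
    have e2 : 2 * ((D + 1 : ℝ) ^ 2 * 4 ^ (D + 1)) ≤ C := by
      rw [hC]
      have f1 : (D + 1 : ℝ) ^ 2 ≤ (D + 1) ^ 5 := pow_le_pow_right₀ (by linarith) (by norm_num)
      have f2 : 2 * ((D + 1 : ℝ) ^ 2 * 4 ^ (D + 1)) ≤ 2 * (D + 1) ^ 5 * 4 ^ (D + 1) := by
        have := mul_le_mul_of_nonneg_right f1 (show (0 : ℝ) ≤ 2 * 4 ^ (D + 1) by positivity)
        linarith
      have f3 : 2 * (D + 1 : ℝ) ^ 5 * 4 ^ (D + 1) * 1 ≤ 2 * (D + 1) ^ 5 * 4 ^ (D + 1) * 2 ^ D :=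
        mul_le_mul_of_nonneg_left hpD (by positivity)
      nlinarith [show 0 ≤ 2 * (D + 1 : ℝ) ^ 5 * 4 ^ (D + 1) * 2 ^ D by positivity]
    calc 2 * ((D + 1) ^ 2 * 4 ^ (D + 1) * X ^ (2 * D + 2) * eps) =
          2 * ((D + 1 : ℝ) ^ 2 * 4 ^ (D + 1)) * (X ^ (2 * D + 2) * eps) := by ring
      _ ≤ C * (X ^ (3 * D + 2) * eps) := mul_le_mul e2 (mul_le_mul_of_nonneg_right e1 he0)
          (by positivity) (by positivity)
      _ = _ := by ring
  intro s _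
  by_cases hs : s ∈ P.support
  · exact (hmax s hs).trans hA3
  · rw [notMem_support_iff.1 hs, abs_zero]
    exact hA0.trans hA3

/-- **Bounded on separated lines near a point**: the values. -/
theorem biv_abs (D : ℕ) : ∃ C : ℝ, 1 ≤ C ∧ ∃ N : ℕ, ∀ {P : MvPolynomial (Fin 2) ℝ},
    P.totalDegree ≤ D → ∀ (E δ : Fin (D + 1) → ℝ) (τ : Fin (D + 1) → Fin (D + 1) → ℝ)
    {R mu eps d : ℝ}, 1 ≤ R → 0 < mu → mu ≤ 1 → (∀ i, |E i| ≤ R) →
    (∀ i j, i ≠ j → mu ≤ |E i - E j|) → (∀ i j, |τ i j| ≤ 1) →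
    (∀ i j j', j ≠ j' → mu ≤ |τ i j - τ i j'|) → (∀ i, |δ i| ≤ d) →
    C * (R / mu) ^ N * d ≤ 1 → (∀ i j, |eval ![τ i j, τ i j * E i + δ i] P| ≤ eps) →
    ∀ {α β : ℝ}, |α| ≤ R → |β| ≤ R → |eval ![α, β] P| ≤ C * (R / mu) ^ N * eps := by
  obtain ⟨C, hC, N, h⟩ := biv_cf D
  refine ⟨C * (D + 1) ^ 2, ?_, N + D, ?_⟩
  · have : (1 : ℝ) ≤ (D + 1) ^ 2 := one_le_pow₀ (by
      have : (0 : ℝ) ≤ D := Nat.cast_nonneg D
      linarith)
    nlinarith
  intro P hP E δ τ R mu eps d hR hmu hmu1 hE hsE hτ hsτ hδ hd hval α β hα hβ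
  have hR0 : 0 ≤ R := by linarith
  have hd0 : 0 ≤ d := (abs_nonneg _).trans (hδ 0)
  have he0 : 0 ≤ eps := (abs_nonneg _).trans (hval 0 0)
  have hX1 : 1 ≤ R / mu := by
    rw [le_div_iff₀ hmu]
    linarith
  have hRX : R ≤ R / mu := by
    rw [le_div_iff₀ hmu]
    nlinarith
  have hD1 : (1 : ℝ) ≤ (D + 1) ^ 2 := one_le_pow₀ (by
    have : (0 : ℝ) ≤ D := Nat.cast_nonneg D
    linarith)
  have h1 := h hP E δ τ hR hmu hmu1 hE hsE hτ hsτ hδ (le_trans (by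
    refine mul_le_mul_of_nonneg_right ?_ hd0
    refine mul_le_mul ?_ (pow_le_pow_right₀ hX1 (Nat.le_add_right N D)) (by positivity)
      (by positivity)
    nlinarith) hd) hval
  refine (cfl_eval hP hR (by positivity) h1 hα hβ).trans ?_
  have h2 : R ^ D ≤ (R / mu) ^ D := pow_le_pow_left₀ hR0 hRX D
  calc (D + 1 : ℝ) ^ 2 * (C * (R / mu) ^ N * eps * R ^ D) ≤
        (D + 1) ^ 2 * (C * (R / mu) ^ N * eps * (R / mu) ^ D) :=
        mul_le_mul_of_nonneg_left (mul_le_mul_of_nonneg_left h2 (by positivity)) (by positivity)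
    _ = _ := by rw [pow_add]; ring

end Pool.D2Z
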