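import Pool.Agent.H23.D2.Fam

/-!
# Covectors along a window, in natural components

`Nv`: the natural size of a direction at a point. `win_cov`: closed covectors along the own line
which are natural at the samples are natural along the whole window.
-/

set_option autoImplicit false

namespace Pool.D2Z

open Finset Real MvPolynomial
open Pool.Agent.H49.Ent Pool.Agent.H32.Dense Pool.STK Pool.KA Pool.KSAT Pool.K2S Pool.PB Pool.S6C
open Pool.GEN Pool.CHT Pool.CHX Pool.ISO Pool.D2R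
open Pool.FLF (Fam.sub)
open Pool.PB.Trl (rt rt_mem t_rt)

variable {m J : ℕ}

/-- **The natural size** of the direction `V` at the point `x`, over the labels `ψ`: in units of the
box with the time radius `2 ^ (-a)` and the sides `2 ^ (-g j)`, `j < r`. -/
noncomputable def Nv (c : ℕ → Fin m) (r a : ℕ) (g : ℕ → ℕ)
    (ψ : ℕ → MvPolynomial (Option (Fin m)) ℝ) (x V : Option (Fin m) → ℝ) : ℝ :=
  2 ^ a * |V none| + ∑ j ∈ range r, 2 ^ g j * |V (some (c j)) - dd (ψ j) x V|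

theorem Nv_nonneg (c : ℕ → Fin m) (r a : ℕ) (g : ℕ → ℕ)
    (ψ : ℕ → MvPolynomial (Option (Fin m)) ℝ) (x V : Option (Fin m) → ℝ) :
    0 ≤ Nv c r a g ψ x V :=
  add_nonneg (by positivity) (Finset.sum_nonneg fun _ _ => by positivity)

/-- The components of a covector from its size. -/
theorem cmp_le {c : ℕ → Fin m} {r a : ℕ} {g : ℕ → ℕ}
    {ψ : ℕ → MvPolynomial (Option (Fin m)) ℝ} {x : Option (Fin m) → ℝ} {κ : ℝ}
    (hc : Set.InjOn c (Set.Iio r)) (hdep : ∀ l, DepC c l (ψ l))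
    {f : Option (Fin m) → ℝ} {n0 : ℝ} {nj : ℕ → ℝ}
    (hid : ∀ V : Option (Fin m) → ℝ, ∑ o, f o * V o = n0 * V none +
      ∑ j ∈ range r, nj j * (V (some (c j)) - dd (ψ j) x V))
    (hf : ∀ V : Option (Fin m) → ℝ, |∑ o, f o * V o| ≤ κ * Nv c r a g ψ x V) :
    |n0| ≤ κ * 2 ^ a ∧ ∀ j < r, |nj j| ≤ κ * 2 ^ g j := by
  constructor
  · obtain ⟨V, h0, h1⟩ := vec_adapt hc hdep x 1 (fun _ => 0) r le_rfl
    have h2 := hf V
    rw [hid, h0, mul_one, Finset.sum_eq_zero (fun j hj => by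
      rw [h1 j (mem_range.1 hj), mul_zero]), add_zero] at h2
    unfold Nv at h2
    rw [h0, abs_one, mul_one, Finset.sum_eq_zero (fun j hj => by
      rw [h1 j (mem_range.1 hj), abs_zero, mul_zero]), add_zero] at h2
    exact h2
  · intro j hj
    obtain ⟨V, h0, h1⟩ := vec_adapt hc hdep x 0 (fun l => if l = j then 1 else 0) r le_rfl
    have h2 := hf V
    have hj' : (if j = j then (1 : ℝ) else 0) = 1 := if_pos rfl
    rw [hid, h0, mul_zero, zero_add, Finset.sum_eq_single j (fun l hl hlj => by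
      rw [h1 l (mem_range.1 hl), if_neg hlj, mul_zero]) (fun h => absurd (mem_range.2 hj) h),
      h1 j hj, hj', mul_one] at h2
    unfold Nv at h2
    rw [h0, abs_zero, mul_zero, zero_add, Finset.sum_eq_single j (fun l hl hlj => by
      rw [h1 l (mem_range.1 hl), if_neg hlj, abs_zero, mul_zero]) (fun h =>
        absurd (mem_range.2 hj) h), h1 j hj, hj', abs_one, mul_one] at h2
    exact h2

/-- The size of a covector from its components. -/
theorem size_le {c : ℕ → Fin m} {r a : ℕ} {g : ℕ → ℕ}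
    {ψ : ℕ → MvPolynomial (Option (Fin m)) ℝ} {x : Option (Fin m) → ℝ} {κ : ℝ} {n0 : ℝ}
    {nj : ℕ → ℝ} (h0 : |n0| ≤ κ * 2 ^ a) (hj : ∀ j < r, |nj j| ≤ κ * 2 ^ g j)
    (V : Option (Fin m) → ℝ) :
    |n0 * V none + ∑ j ∈ range r, nj j * (V (some (c j)) - dd (ψ j) x V)| ≤
      κ * Nv c r a g ψ x V := by
  refine (abs_add_le _ _).trans ?_
  unfold Nv
  rw [mul_add, Finset.mul_sum]
  refine add_le_add ?_ ((Finset.abs_sum_le_sum_abs _ _).trans (Finset.sum_le_sum fun j hj' => ?_))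
  · rw [abs_mul, ← mul_assoc]
    exact mul_le_mul_of_nonneg_right h0 (abs_nonneg _)
  · rw [abs_mul, ← mul_assoc]
    exact mul_le_mul_of_nonneg_right (hj j (mem_range.1 hj')) (abs_nonneg _)

/-- **Covectors along the window.** -/
theorem win_cov (m D r : ℕ) : ∃ C : ℝ, 1 ≤ C ∧ ∀ {J : ℕ} {F : Fam m J} {c : ℕ → Fin m} {a : ℕ}
    {g : ℕ → ℕ} {A : F.Ω → Prop} {θ : ℝ}
    {ψ : LnT F → ℕ → MvPolynomial (Option (Fin m)) ℝ}
    {f : ℕ → LnT F → Option (Fin m) → MvPolynomial (Option (Fin m)) ℝ} {κ : ℕ → ℝ}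
    (hA : 0 < Pe F.p A), Set.InjOn c (Set.Iio r) → a ≤ J →
    (∀ s l, (ψ s l).totalDegree ≤ D) → (∀ s l, DepC c l (ψ s l)) →
    (∀ j ≤ r, ∀ s o, (f j s o).totalDegree ≤ D) →
    (∀ j ≤ r, ∀ s k, (∀ l < j, c l ≠ k) → ∀ b, eval b (f j s (some k)) = 0) →
    (∀ j ≤ r, 0 < κ j) → 0 ≤ θ → (Fam.sub F A hA).Tm θ →
    C * (θ + 1) ≤ ((J : ℝ) - a) * Real.log 2 →
    (∀ ω, A ω → ∀ j ≤ r, ∀ V : Option (Fin m) → ℝ,
      |∑ o, eval (bt F ω) (f j (slam F a ω) o) * V o| ≤
        κ j * Nv c j a g (ψ (slam F a ω)) (bt F ω) V) →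
    ∃ B : F.Ω → Prop, Sub B A ∧ Pe F.p A / 2 ≤ Pe F.p B ∧ ∀ ω, B ω → ∀ j ≤ r,
      ∀ τ ∈ Set.Icc (0 : ℝ) 1, ∀ V : Option (Fin m) → ℝ,
        |∑ o, eval (fun o => (lc a (slam F a ω) o).eval τ) (f j (slam F a ω) o) * V o| ≤
          Real.exp (C * (θ + 1)) * κ j * Nv c j a g (ψ (slam F a ω))
            (fun o => (lc a (slam F a ω) o).eval τ) V := by
  classical
  obtain ⟨C, hC, hrem⟩ := rem_fam m (D + r * D) ((r + 1) * (r + 1))
  refine ⟨C, hC, ?_⟩
  intro J F c a g A θ ψ f κ hA hc haJ hψ hdep hfd hf0 hκ hθ hTm hCJ hown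
  -- the components
  have hex : ∀ (s : LnT F) (j : ℕ), ∃ (n0 : MvPolynomial (Option (Fin m)) ℝ)
      (nj : ℕ → MvPolynomial (Option (Fin m)) ℝ), j ≤ r → n0.totalDegree ≤ D + r * D ∧
      (∀ i, (nj i).totalDegree ≤ D + r * D) ∧ ∀ b V : Option (Fin m) → ℝ,
        ∑ o, eval b (f j s o) * V o = eval b n0 * V none + ∑ i ∈ range j, eval b (nj i) *
          (V (some (c i)) - dd (ψ s i) b V) := by
    intro s j
    by_cases hj : j ≤ r
    · obtain ⟨n0, nj, h1, h2, h3⟩ := nat_cov D (hψ s) (hdep s) j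
        (hc.mono fun x hx => lt_of_lt_of_le hx hj) D (f j s) (hfd j hj s) (hf0 j hj s)
      have hm : D + j * D ≤ D + r * D := Nat.add_le_add_left (Nat.mul_le_mul_right _ hj) _
      exact ⟨n0, nj, fun _ => ⟨h1.trans hm, fun i => (h2 i).trans hm, h3⟩⟩
    · exact ⟨0, fun _ => 0, fun h => absurd h hj⟩
  choose n0 nj hn using hex
  obtain ⟨q, hq⟩ : ∃ q : ℕ → LnT F → Polynomial ℝ, q = fun i s =>
      if i % (r + 1) = 0 then MvPolynomial.aeval (lc a s) (n0 s (i / (r + 1))) else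
        if i % (r + 1) - 1 < i / (r + 1) then
          MvPolynomial.aeval (lc a s) (nj s (i / (r + 1)) (i % (r + 1) - 1)) else 0 := ⟨_, rfl⟩
  obtain ⟨S, hS⟩ : ∃ S : ℕ → ℝ, S = fun i => if i % (r + 1) = 0 then κ (i / (r + 1)) * 2 ^ a else
      κ (i / (r + 1)) * 2 ^ g (i % (r + 1) - 1) := ⟨_, rfl⟩
  have hdiv : ∀ i < (r + 1) * (r + 1), i / (r + 1) ≤ r := by
    intro i hi
    have := Nat.div_lt_of_lt_mul hi
    omega
  have hev : ∀ ω : F.Ω, (fun o => (lc a (slam F a ω) o).eval (rt F a ω)) = bt F ω :=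
    fun ω => funext fun o => eval_lc F haJ ω o
  obtain ⟨B, h1, h2, h3⟩ := hrem J F A hA a q S θ haJ (fun i hi s => by
      rw [hq]
      show (if i % (r + 1) = 0 then MvPolynomial.aeval (lc a s) (n0 s (i / (r + 1))) else
        if i % (r + 1) - 1 < i / (r + 1) then
          MvPolynomial.aeval (lc a s) (nj s (i / (r + 1)) (i % (r + 1) - 1)) else 0).natDegree ≤ _
      obtain ⟨k1, k2, -⟩ := hn s (i / (r + 1)) (hdiv i hi)
      split_ifs
      · exact Pool.KBX.natDegree_aeval_le _ _ (natDegree_lc a s) k1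
      · exact Pool.KBX.natDegree_aeval_le _ _ (natDegree_lc a s) (k2 _)
      · rw [Polynomial.natDegree_zero]
        exact Nat.zero_le _)
    (fun i hi => by
      have := hκ _ (hdiv i hi)
      rw [hS]
      show 0 < (if i % (r + 1) = 0 then κ (i / (r + 1)) * 2 ^ a else
        κ (i / (r + 1)) * 2 ^ g (i % (r + 1) - 1))
      split_ifs <;> positivity) hθ hTm hCJ (fun ω hω i hi => by
      have hj := hdiv i hi
      obtain ⟨-, -, k3⟩ := hn (slam F a ω) (i / (r + 1)) hj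
      obtain ⟨k4, k5⟩ := cmp_le (c := c) (r := i / (r + 1)) (a := a) (g := g)
        (ψ := ψ (slam F a ω)) (x := bt F ω) (hc.mono fun x hx => lt_of_lt_of_le hx hj)
        (hdep _) (k3 (bt F ω)) (hown ω hω _ hj)
      rw [hq, hS]
      show |(if i % (r + 1) = 0 then MvPolynomial.aeval (lc a (slam F a ω))
          (n0 (slam F a ω) (i / (r + 1))) else if i % (r + 1) - 1 < i / (r + 1) then
          MvPolynomial.aeval (lc a (slam F a ω))
            (nj (slam F a ω) (i / (r + 1)) (i % (r + 1) - 1)) else 0).eval (rt F a ω)| ≤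
        (if i % (r + 1) = 0 then κ (i / (r + 1)) * 2 ^ a else
          κ (i / (r + 1)) * 2 ^ g (i % (r + 1) - 1))
      split_ifs with h4 h5
      · rw [Pool.KBX.eval_aeval_poly, hev]
        exact k4
      · rw [Pool.KBX.eval_aeval_poly, hev]
        exact k5 _ h5
      · rw [Polynomial.eval_zero, abs_zero]
        have := hκ _ hj
        positivity)
  refine ⟨B, h1, h2, fun ω hω j hj τ hτ V => ?_⟩
  obtain ⟨-, -, k3⟩ := hn (slam F a ω) j hj
  rw [k3]
  obtain ⟨E, hE⟩ : ∃ E, E = Real.exp (C * (θ + 1)) := ⟨_, rfl⟩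
  rw [← hE] at h3 ⊢
  have key : ∀ l ≤ r, ((r + 1) * j + l) % (r + 1) = l ∧ ((r + 1) * j + l) / (r + 1) = j ∧
      (r + 1) * j + l < (r + 1) * (r + 1) := by
    intro l hl
    refine ⟨?_, ?_, ?_⟩
    · rw [Nat.mul_add_mod]
      exact Nat.mod_eq_of_lt (by omega)
    · rw [Nat.mul_add_div (by omega), Nat.div_eq_of_lt (by omega), add_zero]
    · nlinarith
  refine size_le ?_ (fun i hi => ?_) V
  · obtain ⟨e1, e2, e3⟩ := key 0 (Nat.zero_le _)
    have h4 := h3 ω hω _ e3 τ hτ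
    rw [hq, hS] at h4
    simp only [e1, e2, if_true] at h4
    rw [Pool.KBX.eval_aeval_poly] at h4
    refine h4.trans (le_of_eq ?_)
    ring
  · obtain ⟨e1, e2, e3⟩ := key (i + 1) (by omega)
    have h4 := h3 ω hω _ e3 τ hτ
    rw [hq, hS] at h4
    simp only [e1, e2, if_neg (Nat.succ_ne_zero i), Nat.add_sub_cancel, if_pos hi] at h4
    rw [Pool.KBX.eval_aeval_poly] at h4
    refine h4.trans (le_of_eq ?_)
    ring

end Pool.D2Z
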